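import Mathlib

/-!
L3 (ANALYSIS).  If `b` is positive, nonincreasing, `≤ 1` on `[0,N]` and
`∑_{i<1.52k} b(k+i)/b(i) ≤ 0.59 k` for all `k ≥ k₀` with `2.52 k ≤ N`, then `∑_{m≤N} b(m) ≤ C(k₀)`.

Proof.  Take `k = 200 l`.  By monotonicity `∑_{j<304} b(l(201+j))/b(lj) ≤ 118`.  With `v = -log b`,
`w_j = j/(201+j)` and `e^{-y} ≥ w(1 - log w - y)`:
`∑_j w_j (v(l(201+j)) - v(lj)) ≥ S + G - 118`, `S = ∑ w_j ≥ 118.3`, `G = -∑ w_j log w_j`.
For real `t ≥ T₀` this gives the same for `F(t(201+j)) - F(t·0.999 j)`, `F(x) = v(⌊x⌋)`.  Integrating against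
`dt/t` over `[T₀,Λ]` the left side telescopes to at most `F(504Λ) (G - S log 0.999)`, so
`F(504Λ) ≥ β log(Λ/T₀)` with `β > 1`.
-/

set_option autoImplicit false

open Finset

namespace Pool.Agent.H377R2.NK

/-! ### logarithmic telescoping -/

theorem Avg.ii (f : ℝ → ℝ) (hf : Monotone f) (c A B : ℝ) (hc : 0 ≤ c) (hA : 0 < A) (hB : 0 < B) :
    IntervalIntegrable (fun t => f (c * t) / t) MeasureTheory.volume A B := by
  have h1 : Monotone (fun t => f (c * t)) := fun x y h => hf (mul_le_mul_of_nonneg_left h hc)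
  have h2 : ContinuousOn (fun t : ℝ => t⁻¹) (Set.uIcc A B) := by
    apply continuousOn_inv₀.mono
    intro t ht
    have : 0 < t := lt_of_lt_of_le (lt_min hA hB) ht.1
    exact this.ne'
  exact (h1.intervalIntegrable).mul_continuousOn h2

theorem Avg.tele (f : ℝ → ℝ) (hf : Monotone f) (hf0 : ∀ x, 0 ≤ f x) (a b A B : ℝ) (hb : 0 < b)
    (hab : b ≤ a) (hA : 0 < A) (hAB : A ≤ B) :
    ∫ t in A..B, (f (a * t) / t - f (b * t) / t) ≤ f (a * B) * Real.log (a / b) := by
  have ha : 0 < a := lt_of_lt_of_le hb hab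
  have hB : 0 < B := lt_of_lt_of_le hA hAB
  have e1 : ∀ c, 0 < c → ∫ t in A..B, f (c * t) / t = ∫ u in (c * A)..(c * B), f u / u := by
    intro c hc
    have h := intervalIntegral.integral_comp_mul_left (a := A) (b := B) (fun u => c * (f u / u)) hc.ne'
    rw [intervalIntegral.integral_const_mul, smul_eq_mul, intervalIntegral.integral_const_mul,
      ← mul_assoc, inv_mul_cancel₀ hc.ne', one_mul] at h
    rw [← h, ← intervalIntegral.integral_const_mul]
    apply intervalIntegral.integral_congr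
    intro t ht
    have ht0 : 0 < t := by
      rw [Set.uIcc_of_le hAB] at ht
      exact lt_of_lt_of_le hA ht.1
    show f (c * t) / t = c * (f (c * t) / (c * t))
    field_simp
  have ig : ∀ x y, 0 < x → 0 < y → IntervalIntegrable (fun u => f u / u) MeasureTheory.volume x y := by
    intro x y hx hy
    have := Avg.ii f hf 1 x y zero_le_one hx hy
    simpa using this
  rw [intervalIntegral.integral_sub (Avg.ii f hf a A B ha.le hA hB) (Avg.ii f hf b A B hb.le hA hB),
    e1 a ha, e1 b hb]
  have h1 : (∫ u in (a * A)..(a * B), f u / u) = (∫ u in (a * A)..(b * A), f u / u) +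
      (∫ u in (b * A)..(b * B), f u / u) + ∫ u in (b * B)..(a * B), f u / u := by
    rw [intervalIntegral.integral_add_adjacent_intervals (ig _ _ (by positivity) (by positivity))
      (ig _ _ (by positivity) (by positivity)),
      intervalIntegral.integral_add_adjacent_intervals (ig _ _ (by positivity) (by positivity))
      (ig _ _ (by positivity) (by positivity))]
  rw [h1]
  have h2 : (∫ u in (a * A)..(b * A), f u / u) ≤ 0 := by
    rw [intervalIntegral.integral_symm, neg_nonpos]
    apply intervalIntegral.integral_nonneg (by gcongr)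
    intro u hu
    have : 0 < u := lt_of_lt_of_le (by positivity) hu.1
    exact div_nonneg (hf0 u) this.le
  have h3 : (∫ u in (b * B)..(a * B), f u / u) ≤ f (a * B) * Real.log (a / b) := by
    have h4 : (∫ u in (b * B)..(a * B), f (a * B) * (1 / u)) = f (a * B) * Real.log (a / b) := by
      rw [intervalIntegral.integral_const_mul, integral_one_div_of_pos (by positivity) (by positivity)]
      congr 2
      field_simp
    rw [← h4]
    apply intervalIntegral.integral_mono_on (by gcongr) (ig _ _ (by positivity) (by positivity))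
    · apply IntervalIntegrable.const_mul
      exact Avg.ii (fun _ => 1) monotone_const 1 (b * B) (a * B) zero_le_one (by positivity)
        (by positivity)
    · intro u hu
      have : 0 < u := lt_of_lt_of_le (by positivity) hu.1
      rw [mul_one_div]
      exact div_le_div_of_nonneg_right (hf hu.2) this.le
  linarith

/-! ### the weights -/

/-- `w_j = j/(201+j)` -/
noncomputable def Avg.w (j : ℕ) : ℝ := (j : ℝ) / (201 + j)

theorem Avg.w_nonneg (j : ℕ) : 0 ≤ Avg.w j := by unfold Avg.w; positivity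

theorem Avg.w_le (j : ℕ) : Avg.w j ≤ 1 := by
  unfold Avg.w
  rw [div_le_one (by positivity)]
  linarith

theorem Avg.S_nat : 118300000 ≤ ∑ j ∈ range 304, (1000000 * j) / (201 + j) := by decide +kernel

theorem Avg.S_ge : (118.3 : ℝ) ≤ ∑ j ∈ range 304, Avg.w j := by
  have h1 : ((118300000 : ℕ) : ℝ) ≤ ((∑ j ∈ range 304, (1000000 * j) / (201 + j) : ℕ) : ℝ) := by
    exact_mod_cast Avg.S_nat
  have h2 : ((∑ j ∈ range 304, (1000000 * j) / (201 + j) : ℕ) : ℝ) ≤
      ∑ j ∈ range 304, 1000000 * Avg.w j := by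
    rw [Nat.cast_sum]
    apply Finset.sum_le_sum
    intro j _
    refine le_trans Nat.cast_div_le ?_
    unfold Avg.w
    push_cast
    rw [mul_div_assoc]
  rw [← Finset.mul_sum] at h2
  have h3 := le_trans h1 h2
  norm_num at h3 ⊢
  linarith

theorem Avg.exp_tangent (w y : ℝ) (hw : 0 ≤ w) : w * (1 - Real.log w - y) ≤ Real.exp (-y) := by
  rcases hw.lt_or_eq with h | h
  · have h1 := Real.add_one_le_exp (-y - Real.log w)
    have h2 : Real.exp (-y - Real.log w) = Real.exp (-y) / w := by
      rw [Real.exp_sub, Real.exp_log h]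
    rw [h2, le_div_iff₀ h] at h1
    linarith
  · rw [← h, zero_mul]
    exact (Real.exp_pos _).le

/-! ### blocks -/

theorem Avg.sum_blocks (f : ℕ → ℝ) (l J : ℕ) :
    ∑ i ∈ range (J * l), f i = ∑ j ∈ range J, ∑ r ∈ range l, f (j * l + r) := by
  induction J with
  | zero => simp
  | succ J ih => rw [Nat.succ_mul, Finset.sum_range_add, ih, Finset.sum_range_succ]

/-- the inequality at an integer -/
theorem Avg.at_int (k₀ N : ℕ) (b : ℕ → ℝ) (hpos : ∀ m ≤ N, 0 < b m)
    (hanti : ∀ m m', m ≤ m' → m' ≤ N → b m' ≤ b m)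
    (hyp : ∀ k, k₀ ≤ k → k + 152 * k / 100 ≤ N →
      ∑ i ∈ range (152 * k / 100), b (k + i) / b i ≤ 59 / 100 * k)
    (l : ℕ) (hl0 : k₀ ≤ l) (hl1 : 1 ≤ l) (hl : 504 * l ≤ N) :
    (∑ j ∈ range 304, Avg.w j) + (∑ j ∈ range 304, Avg.w j * (-Real.log (Avg.w j))) - 118 ≤
      ∑ j ∈ range 304, Avg.w j *
        ((-Real.log (b ((201 + j) * l))) - (-Real.log (b (j * l)))) := by
  have e : 152 * (200 * l) / 100 = 304 * l := by omega
  have h1 := hyp (200 * l) (by omega) (by rw [e]; omega)
  rw [e, Avg.sum_blocks] at h1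
  have hlr : (1 : ℝ) ≤ l := by exact_mod_cast hl1
  have h2 : ∀ j ∈ range 304, (l : ℝ) * (b ((201 + j) * l) / b (j * l)) ≤
      ∑ r ∈ range l, b (200 * l + (j * l + r)) / b (j * l + r) := by
    intro j hj
    have hj' : j < 304 := Finset.mem_range.mp hj
    have h3 : ∀ r ∈ range l, b ((201 + j) * l) / b (j * l) ≤
        b (200 * l + (j * l + r)) / b (j * l + r) := by
      intro r hr
      have hr' : r < l := Finset.mem_range.mp hr
      have hjl : j * l ≤ 303 * l := Nat.mul_le_mul_right l (by omega)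
      have e2 : (201 + j) * l = 201 * l + j * l := by ring
      have p1 : 0 < b (j * l) := hpos _ (by omega)
      have p2 : 0 < b (j * l + r) := hpos _ (by omega)
      have p3 : 0 < b ((201 + j) * l) := hpos _ (by rw [e2]; omega)
      have p4 : 0 < b (200 * l + (j * l + r)) := hpos _ (by omega)
      have q1 : b (j * l + r) ≤ b (j * l) := hanti _ _ (by omega) (by omega)
      have q2 : b ((201 + j) * l) ≤ b (200 * l + (j * l + r)) :=
        hanti _ _ (by rw [e2]; omega) (by rw [e2]; omega)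
      exact div_le_div₀ p4.le q2 p2 q1
    have h4 := Finset.sum_le_sum h3
    rw [Finset.sum_const, Finset.card_range, nsmul_eq_mul] at h4
    exact h4
  have h3 := le_trans (Finset.sum_le_sum h2) h1
  rw [← Finset.mul_sum] at h3
  push_cast at h3
  have h4 : ∑ j ∈ range 304, b ((201 + j) * l) / b (j * l) ≤ 118 := by
    by_contra hc
    push Not at hc
    nlinarith
  have h5 : ∑ j ∈ range 304, Avg.w j * (1 - Real.log (Avg.w j) -
      ((-Real.log (b ((201 + j) * l))) - (-Real.log (b (j * l))))) ≤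
      ∑ j ∈ range 304, b ((201 + j) * l) / b (j * l) := by
    apply Finset.sum_le_sum
    intro j hj
    have hj' : j < 304 := Finset.mem_range.mp hj
    have hjl : j * l ≤ 303 * l := Nat.mul_le_mul_right l (by omega)
    have e2 : (201 + j) * l = 201 * l + j * l := by ring
    have p1 : 0 < b (j * l) := hpos _ (by omega)
    have p3 : 0 < b ((201 + j) * l) := hpos _ (by rw [e2]; omega)
    refine le_trans (Avg.exp_tangent _ _ (Avg.w_nonneg j)) ?_
    have e3 : -(-Real.log (b ((201 + j) * l)) - -Real.log (b (j * l))) =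
        Real.log (b ((201 + j) * l)) - Real.log (b (j * l)) := by ring
    rw [e3, Real.exp_sub, Real.exp_log p3, Real.exp_log p1]
  have h6 : ∑ j ∈ range 304, Avg.w j * (1 - Real.log (Avg.w j) -
      ((-Real.log (b ((201 + j) * l))) - (-Real.log (b (j * l))))) =
      (∑ j ∈ range 304, Avg.w j) + (∑ j ∈ range 304, Avg.w j * (-Real.log (Avg.w j))) -
      ∑ j ∈ range 304, Avg.w j *
        ((-Real.log (b ((201 + j) * l))) - (-Real.log (b (j * l)))) := by
    rw [← Finset.sum_add_distrib, ← Finset.sum_sub_distrib]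
    apply Finset.sum_congr rfl
    intro j _
    ring
  linarith

/-- the lower bound for `-log b` -/
theorem Avg.v_lower (k₀ N : ℕ) (b : ℕ → ℝ) (hpos : ∀ m ≤ N, 0 < b m) (hle : ∀ m ≤ N, b m ≤ 1)
    (hanti : ∀ m m', m ≤ m' → m' ≤ N → b m' ≤ b m)
    (hyp : ∀ k, k₀ ≤ k → k + 152 * k / 100 ≤ N →
      ∑ i ∈ range (152 * k / 100), b (k + i) / b i ≤ 59 / 100 * k)
    (m : ℕ) (hm : m ≤ N) (hm0 : 504 * (k₀ + 1000) ≤ m) :
    ((∑ j ∈ range 304, Avg.w j) + (∑ j ∈ range 304, Avg.w j * (-Real.log (Avg.w j))) - 118) *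
        Real.log ((m : ℝ) / (504 * (k₀ + 1000))) ≤
      (-Real.log (b m)) * ((∑ j ∈ range 304, Avg.w j * (-Real.log (Avg.w j))) +
        (∑ j ∈ range 304, Avg.w j) * (1 / 999)) := by
  set T : ℝ := (k₀ : ℝ) + 1000 with hT
  have hT0 : 0 < T := by positivity
  set Λ : ℝ := (m : ℝ) / 504 with hΛ
  have hm0' : (504 : ℝ) * T ≤ m := by
    have : ((504 * (k₀ + 1000) : ℕ) : ℝ) ≤ (m : ℝ) := by exact_mod_cast hm0
    push_cast at this
    exact this
  have hTΛ : T ≤ Λ := by rw [hΛ, le_div_iff₀ (by norm_num)]; linarith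
  have hΛ0 : 0 < Λ := lt_of_lt_of_le hT0 hTΛ
  -- the function F
  set v : ℕ → ℝ := fun u => -Real.log (b (min u N)) with hv
  have hvmono : Monotone v := by
    intro x y hxy
    have h1 : b (min y N) ≤ b (min x N) := hanti _ _ (min_le_min_right N hxy) (min_le_right _ _)
    have h2 : 0 < b (min y N) := hpos _ (min_le_right _ _)
    exact neg_le_neg (Real.log_le_log h2 h1)
  have hv0 : ∀ u, 0 ≤ v u := by
    intro u
    have h1 : b (min u N) ≤ 1 := hle _ (min_le_right _ _)
    have h2 : 0 < b (min u N) := hpos _ (min_le_right _ _)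
    exact neg_nonneg.mpr (Real.log_nonpos h2.le h1)
  set F : ℝ → ℝ := fun x => v ⌊x⌋₊ with hF
  have hFmono : Monotone F := hvmono.comp Nat.floor_mono
  have hF0 : ∀ x, 0 ≤ F x := fun x => hv0 _
  set S : ℝ := ∑ j ∈ range 304, Avg.w j with hS
  set G : ℝ := ∑ j ∈ range 304, Avg.w j * (-Real.log (Avg.w j)) with hG
  -- pointwise
  have hpt : ∀ t : ℝ, T ≤ t → t ≤ Λ → S + G - 118 ≤
      ∑ j ∈ range 304, Avg.w j * (F ((201 + (j : ℝ)) * t) - F ((j : ℝ) * (999 / 1000) * t)) := by
    intro t ht1 ht2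
    have ht0 : 0 < t := lt_of_lt_of_le hT0 ht1
    have hl_le : (⌊t⌋₊ : ℝ) ≤ t := Nat.floor_le ht0.le
    have hl_lt : t < (⌊t⌋₊ : ℝ) + 1 := Nat.lt_floor_add_one t
    have hlN : 504 * ⌊t⌋₊ ≤ N := by
      have : (504 : ℝ) * ⌊t⌋₊ ≤ m := by
        calc (504 : ℝ) * ⌊t⌋₊ ≤ 504 * t := by gcongr
          _ ≤ 504 * Λ := by gcongr
          _ = m := by rw [hΛ]; field_simp
      have h2 : 504 * ⌊t⌋₊ ≤ m := by exact_mod_cast this
      omega
    have hlk : k₀ + 1000 ≤ ⌊t⌋₊ := by
      apply Nat.le_floor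
      push_cast
      exact ht1
    have h1 := Avg.at_int k₀ N b hpos hanti hyp ⌊t⌋₊ (by omega) (by omega) hlN
    refine le_trans h1 ?_
    apply Finset.sum_le_sum
    intro j hj
    have hj' : j < 304 := Finset.mem_range.mp hj
    apply mul_le_mul_of_nonneg_left _ (Avg.w_nonneg j)
    have hjl : j * ⌊t⌋₊ ≤ 303 * ⌊t⌋₊ := Nat.mul_le_mul_right _ (by omega)
    have e2 : (201 + j) * ⌊t⌋₊ = 201 * ⌊t⌋₊ + j * ⌊t⌋₊ := by ring
    have a1 : -Real.log (b ((201 + j) * ⌊t⌋₊)) ≤ F ((201 + (j : ℝ)) * t) := by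
      have e3 : -Real.log (b ((201 + j) * ⌊t⌋₊)) = v ((201 + j) * ⌊t⌋₊) := by
        rw [hv]
        simp only
        rw [min_eq_left (by rw [e2]; omega)]
      rw [e3]
      apply hvmono
      apply Nat.le_floor
      push_cast
      gcongr
    have a2 : F ((j : ℝ) * (999 / 1000) * t) ≤ -Real.log (b (j * ⌊t⌋₊)) := by
      have e3 : -Real.log (b (j * ⌊t⌋₊)) = v (j * ⌊t⌋₊) := by
        rw [hv]
        simp only
        rw [min_eq_left (by omega)]
      rw [e3]
      apply hvmono
      apply Nat.floor_le_of_le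
      push_cast
      rw [mul_assoc]
      apply mul_le_mul_of_nonneg_left _ (Nat.cast_nonneg j)
      have : (1000 : ℝ) ≤ t := by
        have : (0 : ℝ) ≤ k₀ := Nat.cast_nonneg _
        linarith
      linarith
    linarith
  -- integrate
  have hint : ∀ j : ℕ, IntervalIntegrable (fun t : ℝ => F ((201 + (j : ℝ)) * t) / t -
      F ((j : ℝ) * (999 / 1000) * t) / t) MeasureTheory.volume T Λ := by
    intro j
    exact (Avg.ii F hFmono _ T Λ (by positivity) hT0 hΛ0).sub
      (Avg.ii F hFmono _ T Λ (by positivity) hT0 hΛ0)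
  have hI : (S + G - 118) * Real.log (Λ / T) ≤
      ∑ j ∈ range 304, Avg.w j * ∫ t in T..Λ, (F ((201 + (j : ℝ)) * t) / t -
        F ((j : ℝ) * (999 / 1000) * t) / t) := by
    have e1 : (S + G - 118) * Real.log (Λ / T) = ∫ t in T..Λ, (S + G - 118) * (1 / t) := by
      rw [intervalIntegral.integral_const_mul, integral_one_div_of_pos hT0 hΛ0]
    have e2 : ∑ j ∈ range 304, Avg.w j * ∫ t in T..Λ, (F ((201 + (j : ℝ)) * t) / t -
        F ((j : ℝ) * (999 / 1000) * t) / t) =
        ∫ t in T..Λ, ∑ j ∈ range 304, Avg.w j * (F ((201 + (j : ℝ)) * t) / t -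
        F ((j : ℝ) * (999 / 1000) * t) / t) := by
      rw [intervalIntegral.integral_finsetSum (fun j _ => (hint j).const_mul (Avg.w j))]
      apply Finset.sum_congr rfl
      intro j _
      rw [intervalIntegral.integral_const_mul]
    rw [e1, e2]
    apply intervalIntegral.integral_mono_on hTΛ
    · apply IntervalIntegrable.const_mul
      exact Avg.ii (fun _ => 1) monotone_const 1 T Λ zero_le_one hT0 hΛ0
    · have h7 := IntervalIntegrable.sum (range 304) (fun j _ => (hint j).const_mul (Avg.w j))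
      have e7 : (fun u : ℝ => ∑ j ∈ range 304, Avg.w j * (F ((201 + (j : ℝ)) * u) / u -
          F ((j : ℝ) * (999 / 1000) * u) / u)) =
          ∑ j ∈ range 304, fun u : ℝ => Avg.w j * (F ((201 + (j : ℝ)) * u) / u -
          F ((j : ℝ) * (999 / 1000) * u) / u) := by
        funext u
        rw [Finset.sum_apply]
      rw [e7]
      exact h7
    · intro t ht
      have ht0 : 0 < t := lt_of_lt_of_le hT0 ht.1
      have h1 := hpt t ht.1 ht.2
      have e3 : ∑ j ∈ range 304, Avg.w j * (F ((201 + (j : ℝ)) * t) / t -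
          F ((j : ℝ) * (999 / 1000) * t) / t) =
          (∑ j ∈ range 304, Avg.w j * (F ((201 + (j : ℝ)) * t) -
          F ((j : ℝ) * (999 / 1000) * t))) * (1 / t) := by
        rw [Finset.sum_mul]
        apply Finset.sum_congr rfl
        intro j _
        ring
      rw [e3]
      exact mul_le_mul_of_nonneg_right h1 (by positivity)
  -- telescoping
  have hV : ∀ j ∈ range 304, Avg.w j * ∫ t in T..Λ, (F ((201 + (j : ℝ)) * t) / t -
        F ((j : ℝ) * (999 / 1000) * t) / t) ≤
      (-Real.log (b m)) * (Avg.w j * (-Real.log (Avg.w j)) + Avg.w j * (1 / 999)) := by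
    intro j hj
    have hj' : j < 304 := Finset.mem_range.mp hj
    rcases Nat.eq_zero_or_pos j with h0 | h0
    · subst h0
      simp [Avg.w]
    · have hjr : (0 : ℝ) < j := by exact_mod_cast h0
      have h1 := Avg.tele F hFmono hF0 (201 + (j : ℝ)) ((j : ℝ) * (999 / 1000)) T Λ
        (by positivity) (by linarith) hT0 hTΛ
      have hlog : Real.log ((201 + (j : ℝ)) / ((j : ℝ) * (999 / 1000))) ≤
          -Real.log (Avg.w j) + 1 / 999 := by
        have e1 : (201 + (j : ℝ)) / ((j : ℝ) * (999 / 1000)) = (Avg.w j)⁻¹ * (1000 / 999) := by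
          unfold Avg.w
          field_simp
        have hw0 : 0 < Avg.w j := by unfold Avg.w; positivity
        rw [e1, Real.log_mul (by positivity) (by norm_num), Real.log_inv]
        have h2 := Real.log_le_sub_one_of_pos (show (0 : ℝ) < 1000 / 999 by norm_num)
        linarith
      have hFm : F ((201 + (j : ℝ)) * Λ) ≤ -Real.log (b m) := by
        have e3 : -Real.log (b m) = F (504 * Λ) := by
          have e4 : 504 * Λ = m := by rw [hΛ]; field_simp
          rw [e4, hF]
          simp only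
          rw [Nat.floor_natCast, hv]
          simp only
          rw [min_eq_left hm]
        rw [e3]
        apply hFmono
        have : (j : ℝ) ≤ 303 := by exact_mod_cast (by omega : j ≤ 303)
        apply mul_le_mul_of_nonneg_right _ hΛ0.le
        linarith
      have hlog0 : 0 ≤ Real.log ((201 + (j : ℝ)) / ((j : ℝ) * (999 / 1000))) := by
        apply Real.log_nonneg
        rw [le_div_iff₀ (by positivity)]
        linarith
      have h2 : ∫ t in T..Λ, (F ((201 + (j : ℝ)) * t) / t - F ((j : ℝ) * (999 / 1000) * t) / t) ≤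
          (-Real.log (b m)) * (-Real.log (Avg.w j) + 1 / 999) := by
        refine le_trans h1 ?_
        exact mul_le_mul hFm hlog hlog0 (le_trans (hF0 _) hFm)
      calc Avg.w j * ∫ t in T..Λ, (F ((201 + (j : ℝ)) * t) / t -
              F ((j : ℝ) * (999 / 1000) * t) / t)
          ≤ Avg.w j * ((-Real.log (b m)) * (-Real.log (Avg.w j) + 1 / 999)) :=
            mul_le_mul_of_nonneg_left h2 (Avg.w_nonneg j)
        _ = _ := by ring
  have hsum := Finset.sum_le_sum hV
  rw [← Finset.mul_sum, Finset.sum_add_distrib, ← Finset.sum_mul] at hsum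
  have e5 : Λ / T = (m : ℝ) / (504 * T) := by rw [hΛ]; field_simp
  rw [e5] at hI
  exact le_trans hI hsum

theorem avg_decay (k₀ : ℕ) : ∃ C : ℝ, 0 < C ∧ ∀ (N : ℕ) (b : ℕ → ℝ),
    (∀ m ≤ N, 0 < b m) → (∀ m ≤ N, b m ≤ 1) → (∀ m m', m ≤ m' → m' ≤ N → b m' ≤ b m) →
    (∀ k, k₀ ≤ k → k + 152 * k / 100 ≤ N →
      ∑ i ∈ range (152 * k / 100), b (k + i) / b i ≤ 59 / 100 * k) →
    ∑ m ∈ range (N + 1), b m ≤ C := by
  set S : ℝ := ∑ j ∈ range 304, Avg.w j with hS
  set G : ℝ := ∑ j ∈ range 304, Avg.w j * (-Real.log (Avg.w j)) with hG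
  have hS1 : 118.3 ≤ S := Avg.S_ge
  have hG0 : 0 ≤ G := by
    apply Finset.sum_nonneg
    intro j _
    exact mul_nonneg (Avg.w_nonneg j) (neg_nonneg.mpr (Real.log_nonpos (Avg.w_nonneg j) (Avg.w_le j)))
  have hden : 0 < G + S * (1 / 999) := by nlinarith
  set β : ℝ := (S + G - 118) / (G + S * (1 / 999)) with hβ
  have hβ1 : 1 < β := by
    rw [hβ, one_lt_div hden]
    norm_num at hS1 ⊢
    linarith
  set D : ℝ := 504 * ((k₀ : ℝ) + 1000) with hD
  have hD0 : 0 < D := by positivity
  have hsum : Summable (fun n : ℕ => 1 / (n : ℝ) ^ β) := Real.summable_one_div_nat_rpow.mpr hβ1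
  refine ⟨1 + D ^ β * ∑' n : ℕ, 1 / (n : ℝ) ^ β, ?_, ?_⟩
  · have : 0 ≤ ∑' n : ℕ, 1 / (n : ℝ) ^ β := tsum_nonneg (fun n => by positivity)
    positivity
  · intro N b hpos hle hanti hyp
    have hb : ∀ m ∈ range (N + 1), b m ≤ (if m = 0 then 1 else 0) + D ^ β * (1 / (m : ℝ) ^ β) := by
      intro m hm
      have hmN : m ≤ N := by have := Finset.mem_range.mp hm; omega
      rcases Nat.eq_zero_or_pos m with h0 | h0
      · subst h0
        have : 0 ≤ D ^ β * (1 / ((0 : ℕ) : ℝ) ^ β) := by positivity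
        have h1 := hle 0 (Nat.zero_le _)
        simp only [if_true]
        linarith
      · have hmr : (0 : ℝ) < m := by exact_mod_cast h0
        rw [if_neg (by omega), zero_add]
        have e1 : D ^ β * (1 / (m : ℝ) ^ β) = (D / m) ^ β := by
          rw [Real.div_rpow hD0.le hmr.le]; ring
        rw [e1]
        by_cases hmD : 504 * (k₀ + 1000) ≤ m
        · have h1 := Avg.v_lower k₀ N b hpos hle hanti hyp m hmN hmD
          have hbm := hpos m hmN
          have h2 : β * Real.log ((m : ℝ) / D) ≤ -Real.log (b m) := by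
            rw [hβ, div_mul_eq_mul_div, div_le_iff₀ hden]
            exact h1
          have h3 : Real.log (b m) ≤ Real.log ((D / m) ^ β) := by
            rw [Real.log_rpow (by positivity)]
            have e2 : Real.log (D / m) = -Real.log ((m : ℝ) / D) := by
              rw [← Real.log_inv, inv_div]
            rw [e2]
            linarith
          exact (Real.log_le_log_iff hbm (by positivity)).mp h3
        · push Not at hmD
          have h1 : 1 ≤ D / m := by
            rw [one_le_div hmr, hD]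
            have : (m : ℝ) ≤ ((504 * (k₀ + 1000) : ℕ) : ℝ) := by exact_mod_cast hmD.le
            push_cast at this
            exact this
          exact le_trans (hle m hmN) (Real.one_le_rpow h1 (by linarith))
    refine le_trans (Finset.sum_le_sum hb) ?_
    rw [Finset.sum_add_distrib, ← Finset.mul_sum]
    have h1 : ∑ m ∈ range (N + 1), (if m = 0 then (1 : ℝ) else 0) = 1 := by
      simp
    have h2 : ∑ m ∈ range (N + 1), 1 / (m : ℝ) ^ β ≤ ∑' n : ℕ, 1 / (n : ℝ) ^ β :=
      hsum.sum_le_tsum _ (fun n _ => by positivity)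
    rw [h1]
    gcongr

end Pool.Agent.H377R2.NK
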