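import Pool.Agent.H377R2.NK.Defs
import Pool.Agent.H320R2.PDWords

/-! Task U4a (BASIC, first part): words, offsets, endpoints, the critical martingale. -/

set_option autoImplicit false
set_option linter.unusedVariables false

namespace Pool.Agent.H377R2.NK

open Finset Pool.Agent.H320R2.PD

section Basic

variable {p : ℕ}

theorem zz_pos (hp : 1 ≤ p) : 0 < zz p := by
  have : (0 : ℝ) < p := by exact_mod_cast hp
  unfold zz
  positivity

theorem zz_lt_one (p : ℕ) : zz p < 1 := by
  unfold zz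
  rw [div_lt_one (by positivity)]
  linarith

theorem zz_nonneg (p : ℕ) : 0 ≤ zz p := by
  unfold zz
  positivity

theorem Wp_append (p : ℕ) (u v : List ℕ) :
    Wp p (u ++ v) = 2 ^ v.sum * Wp p u + p ^ u.length * Wp p v := by
  induction u with
  | nil => simp [Wp]
  | cons e u ih =>
    simp only [List.cons_append, Wp, List.sum_append, List.length_cons, ih]
    ring

theorem Wp_three (w : List ℕ) : Wp 3 w = Wo w := by
  induction w with
  | nil => rfl
  | cons e w ih => rw [Wp, Wo, ih]

theorem Wp_snoc (p : ℕ) (u : List ℕ) (e : ℕ) : Wp p (u ++ [e]) = 2 ^ e * Wp p u + p ^ u.length := by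
  rw [Wp_append]; simp [Wp]

theorem Wp_odd (hp : Odd p) {w : List ℕ} (hw : ∀ e ∈ w, 1 ≤ e) (hne : w ≠ []) : Odd (Wp p w) := by
  induction w with
  | nil => exact absurd rfl hne
  | cons e w ih =>
    cases w with
    | nil => simp [Wp]
    | cons e' w' =>
      have h1 := ih (fun x hx => hw x (List.mem_cons_of_mem _ hx)) (by simp)
      have h2 : 1 ≤ e' := hw e' (by simp)
      have h3 : Even (2 ^ (e' :: w').sum) := by
        rw [Nat.even_pow]
        refine ⟨even_two, ?_⟩
        simp only [List.sum_cons]; omega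
      rw [Wp]
      exact h3.add_odd (hp.mul h1)

/-- offsets are injective on words of the same length and size -/
theorem Wp_inj (hp : Odd p) {u v : List ℕ} (hu : ∀ e ∈ u, 1 ≤ e) (hv : ∀ e ∈ v, 1 ≤ e)
    (hl : u.length = v.length) (hs : u.sum = v.sum) (hW : Wp p u = Wp p v) : u = v := by
  induction u using List.reverseRecOn generalizing v with
  | nil =>
    have : v.length = 0 := by simpa using hl.symm
    exact (List.length_eq_zero_iff.mp this).symm
  | append_singleton u e ih =>
    rcases List.eq_nil_or_concat v with rfl | ⟨v', e', hv'⟩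
    · simp at hl
    · rw [List.concat_eq_append] at hv'
      subst hv'
      simp only [List.length_append, List.length_singleton, Nat.add_right_cancel_iff] at hl
      simp only [List.sum_append, List.sum_singleton] at hs
      rw [Wp_snoc, Wp_snoc, hl] at hW
      have hW' : 2 ^ e * Wp p u = 2 ^ e' * Wp p v' := by omega
      by_cases hne : u = []
      · subst hne
        have : v' = [] := List.length_eq_zero_iff.mp (by simpa using hl.symm)
        subst this
        simp at hs
        simp [hs]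
      · have hne' : v' ≠ [] := by
          intro h; subst h
          exact hne (List.length_eq_zero_iff.mp (by simpa using hl))
        have hou := Wp_odd hp (fun x hx => hu x (List.mem_append_left _ hx)) hne
        have hov := Wp_odd hp (fun x hx => hv x (List.mem_append_left _ hx)) hne'
        rw [Nat.odd_iff] at hou hov
        have hee : e = e' := by
          rcases lt_trichotomy e e' with h | h | h
          · exfalso
            obtain ⟨d, rfl⟩ := Nat.exists_eq_add_of_lt h
            have h1 : 2 ^ e * Wp p u = 2 ^ e * (2 * (2 ^ d * Wp p v')) := by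
              rw [hW']; ring
            have h2 := Nat.eq_of_mul_eq_mul_left (by positivity) h1
            omega
          · exact h
          · exfalso
            obtain ⟨d, rfl⟩ := Nat.exists_eq_add_of_lt h
            have h1 : 2 ^ e' * Wp p v' = 2 ^ e' * (2 * (2 ^ d * Wp p u)) := by
              rw [← hW']; ring
            have h2 := Nat.eq_of_mul_eq_mul_left (by positivity) h1
            omega
        subst hee
        have hWW := Nat.eq_of_mul_eq_mul_left (by positivity) hW'
        have := ih (v := v') (fun x hx => hu x (List.mem_append_left _ hx))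
          (fun x hx => hv x (List.mem_append_left _ hx)) hl (by omega) hWW
        rw [this]

theorem Wp_lt (hp : 3 ≤ p) {w : List ℕ} (hw : ∀ e ∈ w, 1 ≤ e) :
    Wp p w < 2 ^ w.sum * p ^ w.length := by
  induction w with
  | nil => simp [Wp]
  | cons e w ih =>
    have h1 := ih (fun x hx => hw x (List.mem_cons_of_mem _ hx))
    have he : 1 ≤ e := hw e (by simp)
    rw [Wp, List.sum_cons, List.length_cons, pow_add, pow_succ]
    have h2 : 2 ≤ 2 ^ e := by
      calc 2 = 2 ^ 1 := by norm_num
        _ ≤ 2 ^ e := Nat.pow_le_pow_right (by norm_num) he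
    have hA : 1 ≤ 2 ^ w.sum := Nat.one_le_two_pow
    have hB : 1 ≤ p ^ w.length := Nat.one_le_pow _ _ (by omega)
    set A := 2 ^ w.sum
    set B := p ^ w.length
    have h3 : 2 * A * (B * p) ≤ 2 ^ e * A * (B * p) := by
      apply Nat.mul_le_mul_right
      exact Nat.mul_le_mul_right _ h2
    have h4 : p * (Wp p w + 1) ≤ p * (A * B) := Nat.mul_le_mul_left _ h1
    have h5 : A ≤ A * (B * p) := Nat.le_mul_of_pos_right _ (by positivity)
    nlinarith

theorem mem_VW {A n : ℕ} {x : ℤ} {w : List ℕ} : w ∈ VW p A n x ↔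
    w.length = n ∧ (∀ e ∈ w, 1 ≤ e ∧ e ≤ A) ∧ (p : ℤ) ^ n ∣ 2 ^ w.sum * x - Wp p w := by
  unfold VW
  simp only [Finset.mem_filter]
  rw [mem_FW, and_assoc]

theorem VW_shift (A n : ℕ) (x y : ℤ) : VW p A n (x + (p : ℤ) ^ n * y) = VW p A n x := by
  ext w
  rw [mem_VW, mem_VW]
  have : (2 : ℤ) ^ w.sum * (x + (p : ℤ) ^ n * y) - Wp p w =
      (2 ^ w.sum * x - Wp p w) + (p : ℤ) ^ n * (2 ^ w.sum * y) := by ring
  rw [this, dvd_add_left (Dvd.intro _ rfl)]

theorem VS_shift (A n : ℕ) (x y : ℤ) : VS p A n (x + (p : ℤ) ^ n * y) = VS p A n x := by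
  unfold VS
  rw [VW_shift]

theorem en_shift (hp : 1 ≤ p) {w : List ℕ} (x y : ℤ) :
    en p w (x + (p : ℤ) ^ w.length * y) = en p w x + 2 ^ w.sum * y := by
  unfold en
  have hp0 : (p : ℤ) ^ w.length ≠ 0 := by
    have : (p : ℤ) ≠ 0 := by exact_mod_cast (by omega : p ≠ 0)
    exact pow_ne_zero _ this
  have : (2 : ℤ) ^ w.sum * (x + (p : ℤ) ^ w.length * y) - Wp p w =
      (2 ^ w.sum * x - Wp p w) + (2 ^ w.sum * y) * (p : ℤ) ^ w.length := by ring
  rw [this, Int.add_mul_ediv_right _ _ hp0]

private theorem append_eq {u v : List ℕ} {x : ℤ}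
    (hu : (p : ℤ) ^ u.length ∣ 2 ^ u.sum * x - Wp p u) :
    (2 : ℤ) ^ (u ++ v).sum * x - Wp p (u ++ v) =
      (p : ℤ) ^ u.length * (2 ^ v.sum * en p u x - Wp p v) := by
  have h1 : (p : ℤ) ^ u.length * en p u x = 2 ^ u.sum * x - Wp p u := by
    unfold en
    exact Int.mul_ediv_cancel' hu
  rw [Wp_append, List.sum_append, pow_add]
  push_cast
  have : (2 : ℤ) ^ u.sum * 2 ^ v.sum * x - (2 ^ v.sum * (Wp p u : ℤ) + (p : ℤ) ^ u.length * Wp p v) =
      2 ^ v.sum * (2 ^ u.sum * x - Wp p u) - (p : ℤ) ^ u.length * Wp p v := by ring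
  rw [this, ← h1]
  ring

theorem en_append (hp : Odd p) {u v : List ℕ} {x : ℤ}
    (hu : (p : ℤ) ^ u.length ∣ 2 ^ u.sum * x - Wp p u)
    (hv : (p : ℤ) ^ v.length ∣ 2 ^ v.sum * en p u x - Wp p v) :
    (p : ℤ) ^ (u ++ v).length ∣ 2 ^ (u ++ v).sum * x - Wp p (u ++ v) ∧
      en p (u ++ v) x = en p v (en p u x) := by
  have hp0 : (p : ℤ) ≠ 0 := by
    have := hp.pos
    exact_mod_cast (by omega : p ≠ 0)
  have key := append_eq (v := v) hu
  constructor
  · rw [key, List.length_append, pow_add]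
    exact mul_dvd_mul_left _ hv
  · have hpos : (0 : ℤ) < (p : ℤ) ^ u.length := by
      have := hp.pos
      positivity
    have e1 : en p (u ++ v) x = (2 ^ (u ++ v).sum * x - Wp p (u ++ v)) /
        (p : ℤ) ^ (u ++ v).length := rfl
    have e2 : en p v (en p u x) = (2 ^ v.sum * en p u x - Wp p v) / (p : ℤ) ^ v.length := rfl
    rw [e1, e2, key, List.length_append, pow_add, Int.mul_ediv_mul_of_pos _ _ hpos]

private theorem valid_append_iff (hp : Odd p) {u v : List ℕ} {x : ℤ} :
    ((p : ℤ) ^ (u ++ v).length ∣ 2 ^ (u ++ v).sum * x - Wp p (u ++ v)) ↔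
    ((p : ℤ) ^ u.length ∣ 2 ^ u.sum * x - Wp p u) ∧
      ((p : ℤ) ^ v.length ∣ 2 ^ v.sum * en p u x - Wp p v) := by
  have hp0 : (p : ℤ) ≠ 0 := by
    have := hp.pos
    exact_mod_cast (by omega : p ≠ 0)
  constructor
  · intro h
    have hu : (p : ℤ) ^ u.length ∣ 2 ^ u.sum * x - Wp p u := by
      have h1 : (p : ℤ) ^ u.length ∣ 2 ^ (u ++ v).sum * x - Wp p (u ++ v) := by
        refine dvd_trans ?_ h
        rw [List.length_append, pow_add]
        exact Dvd.intro _ rfl
      have h2 : (2 : ℤ) ^ (u ++ v).sum * x - Wp p (u ++ v) =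
          2 ^ v.sum * (2 ^ u.sum * x - Wp p u) - (p : ℤ) ^ u.length * Wp p v := by
        rw [Wp_append, List.sum_append, pow_add]
        push_cast
        ring
      rw [h2] at h1
      have h3 : (p : ℤ) ^ u.length ∣ 2 ^ v.sum * (2 ^ u.sum * x - Wp p u) := by
        have := dvd_add h1 (Dvd.intro (Wp p v : ℤ) rfl : (p : ℤ) ^ u.length ∣ (p : ℤ) ^ u.length * Wp p v)
        rwa [sub_add_cancel] at this
      have hcop : IsCoprime ((p : ℤ) ^ u.length) ((2 : ℤ) ^ v.sum) := by
        apply IsCoprime.pow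
        rw [Int.isCoprime_iff_gcd_eq_one]
        have : Nat.Coprime p 2 := (Nat.coprime_two_right).2 hp
        exact_mod_cast this
      exact hcop.dvd_of_dvd_mul_left h3
    refine ⟨hu, ?_⟩
    rw [append_eq (v := v) hu, List.length_append, pow_add] at h
    exact (mul_dvd_mul_iff_left (pow_ne_zero _ hp0)).1 h
  · rintro ⟨hu, hv⟩
    exact (en_append hp hu hv).1

theorem DD_zero (A : ℕ) (x : ℤ) : DD p A 0 x = 1 := by
  have : VW p A 0 x = {[]} := by
    ext w
    rw [mem_VW, Finset.mem_singleton]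
    constructor
    · rintro ⟨h, _⟩; exact List.length_eq_zero_iff.1 h
    · rintro rfl; simp
  unfold DD
  rw [this]
  simp

theorem DD_nonneg (A n : ℕ) (x : ℤ) : 0 ≤ DD p A n x := by
  unfold DD
  exact Finset.sum_nonneg (fun w _ => pow_nonneg (zz_nonneg p) _)

theorem DD_mono (n : ℕ) (x : ℤ) {A A' : ℕ} (h : A ≤ A') : DD p A n x ≤ DD p A' n x := by
  unfold DD
  apply Finset.sum_le_sum_of_subset_of_nonneg
  · intro w hw
    rw [mem_VW] at hw ⊢
    exact ⟨hw.1, fun e he => ⟨(hw.2.1 e he).1, (hw.2.1 e he).2.trans h⟩, hw.2.2⟩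
  · intro w _ _
    exact pow_nonneg (zz_nonneg p) _

theorem DD_shift (A n : ℕ) (x y : ℤ) : DD p A n (x + (p : ℤ) ^ n * y) = DD p A n x := by
  unfold DD
  rw [VW_shift]

/-- splitting after `k` letters -/
theorem DD_add (hp : Odd p) (A k m : ℕ) (x : ℤ) :
    DD p A (k + m) x = ∑ w ∈ VW p A k x, zz p ^ w.sum * DD p A m (en p w x) := by
  classical
  unfold DD VW
  rw [Finset.sum_filter, sum_FW_add, Finset.sum_filter]
  apply Finset.sum_congr rfl
  intro u hu
  rw [mem_FW] at hu
  by_cases h : (p : ℤ) ^ k ∣ 2 ^ u.sum * x - Wp p u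
  · rw [if_pos h, Finset.mul_sum, Finset.sum_filter]
    apply Finset.sum_congr rfl
    intro v hv
    rw [mem_FW] at hv
    have hiff := valid_append_iff hp (u := u) (v := v) (x := x)
    rw [List.length_append, hu.1, hv.1] at hiff
    by_cases h2 : (p : ℤ) ^ m ∣ 2 ^ v.sum * en p u x - Wp p v
    · rw [if_pos (hiff.2 ⟨h, h2⟩), if_pos h2, List.sum_append, pow_add]
    · rw [if_neg (fun hh => h2 (hiff.1 hh).2), if_neg h2]
  · rw [if_neg h]
    apply Finset.sum_eq_zero
    intro v hv
    rw [mem_FW] at hv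
    have hiff := valid_append_iff hp (u := u) (v := v) (x := x)
    rw [List.length_append, hu.1, hv.1] at hiff
    rw [if_neg (fun hh => h (hiff.1 hh).1)]

theorem sum_Icc_zz_le (hp : 1 ≤ p) (A : ℕ) : ∑ e ∈ Icc 1 A, zz p ^ e = p * (1 - zz p ^ A) := by
  have hp0 : (0 : ℝ) < (p : ℝ) + 1 := by positivity
  induction A with
  | zero => simp
  | succ A ih =>
    rw [sum_Icc_succ_top (by omega), ih, pow_succ]
    have : zz p * ((p : ℝ) + 1) = p := by
      unfold zz; field_simp
    have h2 : zz p ^ A * zz p + p * (1 - zz p ^ A) = p * (1 - zz p ^ A * zz p) +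
      zz p ^ A * (zz p * ((p : ℝ) + 1) - p) := by ring
    rw [this] at h2
    linarith

theorem DD_one_le (hp : 1 ≤ p) (A : ℕ) (x : ℤ) : DD p A 1 x ≤ p := by
  classical
  have h1 : DD p A 1 x ≤ ∑ w ∈ FW A 1, zz p ^ w.sum := by
    unfold DD VW
    exact Finset.sum_le_sum_of_subset_of_nonneg (Finset.filter_subset _ _)
      (fun w _ _ => pow_nonneg (zz_nonneg p) _)
  rw [sum_pow, pow_one, sum_Icc_zz_le hp] at h1
  have h2 : 0 ≤ (p : ℝ) * zz p ^ A := mul_nonneg (by positivity) (pow_nonneg (zz_nonneg p) _)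
  linarith

theorem DD_succ_le (hp : Odd p) (A n : ℕ) (x : ℤ) : DD p A (n + 1) x ≤ p * DD p A n x := by
  rw [DD_add hp]
  have : (p : ℝ) * DD p A n x = ∑ w ∈ VW p A n x, zz p ^ w.sum * p := by
    unfold DD
    rw [Finset.mul_sum]
    exact Finset.sum_congr rfl (fun w _ => mul_comm _ _)
  rw [this]
  apply Finset.sum_le_sum
  intro w _
  exact mul_le_mul_of_nonneg_left (DD_one_le hp.pos A _) (pow_nonneg (zz_nonneg p) _)

theorem DD_le (hp : Odd p) (A n : ℕ) (x : ℤ) : DD p A n x ≤ (p : ℝ) ^ n := by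
  induction n with
  | zero => rw [DD_zero, pow_zero]
  | succ n ih =>
    calc DD p A (n + 1) x ≤ p * DD p A n x := DD_succ_le hp A n x
      _ ≤ p * (p : ℝ) ^ n := mul_le_mul_of_nonneg_left ih (by positivity)
      _ = (p : ℝ) ^ (n + 1) := by ring

end Basic

end Pool.Agent.H377R2.NK
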