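import Pool.Agent.H377R2.NK.Defs
import Pool.Agent.H377R2.NK.Basic
import Pool.Agent.H320R2.PDWords
import Pool.Agent.H412R2.Oper

/-! Task U4b (BASIC2): sums over residues, lifts, moments, truncated martingale. -/

set_option autoImplicit false
set_option linter.unusedVariables false

namespace Pool.Agent.H377R2.NK

open Finset Pool.Agent.H320R2.PD

section Basic2

variable {p : ℕ}

theorem sum_affine (hp : 1 ≤ p) (m : ℕ) (u c : ℤ) (hu : IsCoprime u (p : ℤ)) {h : ℤ → ℝ}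
    (hper : ∀ x y : ℤ, h (x + (p : ℤ) ^ m * y) = h x) :
    ∑ y ∈ range (p ^ m), h (c + u * (y : ℤ)) = ∑ y ∈ range (p ^ m), h (y : ℤ) := by
  have h1 : IsCoprime u ((p ^ m : ℕ) : ℤ) := by
    push_cast
    exact hu.pow_right
  have h2 := Pool.Agent.H412R2.sum_periodic_affine (N := p ^ m) (F := h) (by positivity)
    (fun x y => by push_cast; exact hper x y) h1 c
  rw [← h2]
  exact sum_congr rfl fun y _ => by rw [add_comm]

theorem U4_coprime (hp : Odd p) (s : ℕ) : IsCoprime ((2 : ℤ) ^ s) (p : ℤ) := by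
  apply IsCoprime.pow_left
  obtain ⟨k, hk⟩ := hp
  refine ⟨-k, 1, ?_⟩
  rw [hk]; push_cast; ring

theorem U4_one_le (hp : Odd p) : 1 ≤ p := hp.pos

theorem U4_zz_nonneg (p : ℕ) : 0 ≤ zz p := by unfold zz; positivity

theorem U4_zz_eq (p : ℕ) : ((p : ℝ) + 1) * zz p = p := by
  unfold zz
  field_simp

theorem U4_geom (A : ℕ) : ∑ e ∈ Icc 1 A, zz p ^ e = p * (1 - zz p ^ A) := by
  induction A with
  | zero => simp
  | succ A ih =>
    rw [sum_Icc_succ_top (by omega), ih, pow_succ]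
    have h := U4_zz_eq p
    linear_combination (zz p ^ A) * h

theorem U4_words (A n : ℕ) :
    ∑ w ∈ FW A n, zz p ^ w.sum = (p * (1 - zz p ^ A)) ^ n := by
  induction n with
  | zero => simp [FW]
  | succ n ih =>
    rw [sum_FW_succ, ← U4_geom, pow_succ', sum_mul]
    refine sum_congr rfl fun e _ => ?_
    rw [U4_geom, ← ih, mul_sum]
    refine sum_congr rfl fun v _ => ?_
    rw [List.sum_cons, pow_add]

open scoped Classical in
theorem U4_count (hp : Odd p) (n s : ℕ) (c : ℤ) :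
    ∑ x ∈ range (p ^ n), (if (p : ℤ) ^ n ∣ 2 ^ s * (x : ℤ) - c then (1 : ℝ) else 0) = 1 := by
  have hp1 := U4_one_le hp
  have h := sum_affine (p := p) hp1 n (2 ^ s) (-c) (U4_coprime hp s)
    (h := fun x => if (p : ℤ) ^ n ∣ x then (1 : ℝ) else 0) (fun x y => by
      have : (p : ℤ) ^ n ∣ x + (p : ℤ) ^ n * y ↔ (p : ℤ) ^ n ∣ x :=
        (dvd_add_left (Dvd.intro y rfl))
      simp only [this])
  have e1 : ∑ x ∈ range (p ^ n), (if (p : ℤ) ^ n ∣ 2 ^ s * (x : ℤ) - c then (1 : ℝ) else 0) =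
      ∑ y ∈ range (p ^ n), (fun x : ℤ => if (p : ℤ) ^ n ∣ x then (1 : ℝ) else 0)
        (-c + 2 ^ s * (y : ℤ)) := by
    refine sum_congr rfl fun y _ => ?_
    have : (2 : ℤ) ^ s * (y : ℤ) - c = -c + 2 ^ s * (y : ℤ) := by ring
    rw [this]
  rw [e1, h, sum_eq_single 0]
  · simp
  · intro y hy hy0
    rw [if_neg]
    intro hd
    have h2 : p ^ n ∣ y := by exact_mod_cast hd
    exact hy0 (Nat.eq_zero_of_dvd_of_lt h2 (mem_range.1 hy))
  · intro h0
    exact absurd (mem_range.2 (by positivity)) h0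

/-- total mass -/
theorem DD_total (hp : Odd p) (A n : ℕ) :
    ∑ x ∈ range (p ^ n), DD p A n (x : ℤ) = ((p : ℝ) * (1 - zz p ^ A)) ^ n := by
  classical
  rw [← U4_words]
  have e1 : ∀ x : ℕ, DD p A n (x : ℤ) = ∑ w ∈ FW A n,
      (zz p ^ w.sum * if (p : ℤ) ^ n ∣ 2 ^ w.sum * (x : ℤ) - Wp p w then (1 : ℝ) else 0) := by
    intro x
    unfold DD VW
    rw [sum_filter]
    refine sum_congr rfl fun w _ => ?_
    split_ifs <;> simp
  simp only [e1]
  rw [sum_comm]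
  refine sum_congr rfl fun w _ => ?_
  rw [← mul_sum, U4_count hp, mul_one]

theorem U4_DD_eq (hp : Odd p) (A i l : ℕ) (x : ℤ) (v : ℤ) :
    DD p A (i + l) (x + (p : ℤ) ^ i * v) =
      ∑ w ∈ VW p A i x, zz p ^ w.sum * DD p A l (en p w x + 2 ^ w.sum * v) := by
  rw [DD_add hp, VW_shift]
  refine sum_congr rfl fun w hw => ?_
  have hl : w.length = i := (mem_VW.1 hw).1
  have h := en_shift (U4_one_le hp) (w := w) x v
  rw [hl] at h
  rw [h]

theorem U4_total_le (hp : Odd p) (A n : ℕ) :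
    ((p : ℝ) * (1 - zz p ^ A)) ^ n ≤ (p : ℝ) ^ n := by
  have h0 : 0 ≤ zz p := U4_zz_nonneg p
  have h1 : zz p ^ A ≤ 1 := pow_le_one₀ h0 (zz_lt_one p).le
  have h2 : 0 ≤ zz p ^ A := pow_nonneg h0 A
  have hp0 : (0 : ℝ) ≤ p := Nat.cast_nonneg p
  apply pow_le_pow_left₀
  · exact mul_nonneg hp0 (by linarith)
  · nlinarith

theorem U4_sum_aff (hp : Odd p) (A l s : ℕ) (c : ℤ) (F : ℝ → ℝ) :
    ∑ v ∈ range (p ^ l), F (DD p A l (c + 2 ^ s * (v : ℤ))) =
      ∑ v ∈ range (p ^ l), F (DD p A l (v : ℤ)) :=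
  sum_affine (U4_one_le hp) l (2 ^ s) c (U4_coprime hp s) (h := fun x => F (DD p A l x))
    (fun x y => by simp only [DD_shift])

theorem DD_lift (hp : Odd p) (A i l : ℕ) (x : ℤ) :
    ∑ v ∈ range (p ^ l), DD p A (i + l) (x + (p : ℤ) ^ i * v) ≤ (p : ℝ) ^ l * DD p A i x := by
  simp only [U4_DD_eq hp]
  rw [sum_comm]
  have h1 : ∀ w ∈ VW p A i x, ∑ v ∈ range (p ^ l),
      zz p ^ w.sum * DD p A l (en p w x + 2 ^ w.sum * (v : ℤ)) ≤ (p : ℝ) ^ l * zz p ^ w.sum := by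
    intro w _
    rw [← mul_sum, mul_comm]
    apply mul_le_mul_of_nonneg_right _ (pow_nonneg (U4_zz_nonneg p) _)
    have h := U4_sum_aff hp A l w.sum (en p w x) (fun y => y)
    rw [h, DD_total hp]
    exact U4_total_le hp A l
  refine (sum_le_sum h1).trans ?_
  rw [← mul_sum]
  rfl

/-- weighted power mean inequality -/
theorem U4_jensen {ι : Type*} (s : Finset ι) (a b : ι → ℝ) (ha : ∀ i ∈ s, 0 ≤ a i)
    (hb : ∀ i ∈ s, 0 ≤ b i) {q : ℕ} (hq : 1 ≤ q) :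
    (∑ i ∈ s, a i * b i) ^ q ≤ (∑ i ∈ s, a i) ^ (q - 1) * ∑ i ∈ s, a i * b i ^ q := by
  set S := ∑ i ∈ s, a i with hS
  rcases (sum_nonneg ha).eq_or_lt with h | h
  · have h0 : ∀ i ∈ s, a i = 0 := (sum_eq_zero_iff_of_nonneg ha).1 h.symm
    have e1 : ∑ i ∈ s, a i * b i = 0 := sum_eq_zero fun i hi => by rw [h0 i hi, zero_mul]
    have e2 : ∑ i ∈ s, a i * b i ^ q = 0 := sum_eq_zero fun i hi => by rw [h0 i hi, zero_mul]
    rw [e1, e2, mul_zero, zero_pow (by omega)]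
  · have h1 := Real.pow_arith_mean_le_arith_mean_pow s (fun i => a i / S) b
      (fun i hi => div_nonneg (ha i hi) h.le)
      (by rw [← sum_div, ← hS, div_self h.ne']) hb q
    have e1 : ∑ i ∈ s, a i / S * b i = (∑ i ∈ s, a i * b i) / S := by
      rw [sum_div]; exact sum_congr rfl fun i _ => by ring
    have e2 : ∑ i ∈ s, a i / S * b i ^ q = (∑ i ∈ s, a i * b i ^ q) / S := by
      rw [sum_div]; exact sum_congr rfl fun i _ => by ring
    rw [e1, e2, div_pow, div_le_div_iff₀ (by positivity) h] at h1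
    have e3 : S ^ q = S ^ (q - 1) * S := by
      rw [← pow_succ]; congr 1; omega
    rw [e3] at h1
    have h2 : (∑ i ∈ s, a i * b i) ^ q * S ≤
        (S ^ (q - 1) * ∑ i ∈ s, a i * b i ^ q) * S := by
      calc _ ≤ _ := h1
        _ = _ := by ring
    exact le_of_mul_le_mul_right h2 h

/-- Minkowski type inequality -/
theorem U4_mink {ι κ : Type*} (s : Finset ι) (V : Finset κ) (a d : ι → ℝ) (D : ι → κ → ℝ)
    (Z : ℝ) (ha : ∀ i ∈ s, 0 ≤ a i) (hd : ∀ i ∈ s, 0 ≤ d i) (hD : ∀ i ∈ s, ∀ v ∈ V, 0 ≤ D i v)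
    {q : ℕ} (hq : 1 ≤ q) (h : ∀ i ∈ s, ∑ v ∈ V, D i v ^ q ≤ d i ^ q * Z) (hZ : 0 ≤ Z) :
    ∑ v ∈ V, (∑ i ∈ s, a i * D i v) ^ q ≤ (∑ i ∈ s, a i * d i) ^ q * Z := by
  set S := ∑ i ∈ s, a i * d i with hS
  have hS0 : 0 ≤ S := sum_nonneg fun i hi => mul_nonneg (ha i hi) (hd i hi)
  have hz : ∀ i ∈ s, d i = 0 → ∀ v ∈ V, D i v = 0 := by
    intro i hi h0 v hv
    have h1 := h i hi
    rw [h0, zero_pow (by omega), zero_mul] at h1
    have h2 : D i v ^ q ≤ ∑ v ∈ V, D i v ^ q :=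
      single_le_sum (f := fun v => D i v ^ q) (fun v hv => pow_nonneg (hD i hi v hv) q) hv
    have h3 : D i v ^ q = 0 := le_antisymm (h2.trans h1) (pow_nonneg (hD i hi v hv) q)
    exact pow_eq_zero_iff (by omega) |>.1 h3
  have hstep : ∀ v ∈ V, (∑ i ∈ s, a i * D i v) ^ q ≤
      S ^ (q - 1) * ∑ i ∈ s, (a i * d i) * (D i v / d i) ^ q := by
    intro v hv
    have e1 : ∑ i ∈ s, a i * D i v = ∑ i ∈ s, (a i * d i) * (D i v / d i) := by
      refine sum_congr rfl fun i hi => ?_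
      by_cases h0 : d i = 0
      · rw [hz i hi h0 v hv, h0]; simp
      · field_simp
    rw [e1]
    exact U4_jensen s (fun i => a i * d i) (fun i => D i v / d i)
      (fun i hi => mul_nonneg (ha i hi) (hd i hi))
      (fun i hi => div_nonneg (hD i hi v hv) (hd i hi)) hq
  refine (sum_le_sum hstep).trans ?_
  rw [← mul_sum, sum_comm]
  have h2 : ∀ i ∈ s, ∑ v ∈ V, a i * d i * (D i v / d i) ^ q ≤ (a i * d i) * Z := by
    intro i hi
    rw [← mul_sum]
    apply mul_le_mul_of_nonneg_left _ (mul_nonneg (ha i hi) (hd i hi))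
    by_cases h0 : d i = 0
    · rw [h0]
      have : ∀ v ∈ V, (D i v / 0) ^ q = (0 : ℝ) := fun v _ => by
        rw [div_zero, zero_pow (by omega)]
      rw [sum_congr rfl this, sum_const_zero]
      exact hZ
    · have hdi : 0 < d i := lt_of_le_of_ne (hd i hi) (Ne.symm h0)
      simp only [div_pow]
      rw [← sum_div, div_le_iff₀ (by positivity), mul_comm]
      exact h i hi
  calc S ^ (q - 1) * ∑ i ∈ s, ∑ v ∈ V, a i * d i * (D i v / d i) ^ q
      ≤ S ^ (q - 1) * ∑ i ∈ s, (a i * d i) * Z :=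
        mul_le_mul_of_nonneg_left (sum_le_sum h2) (pow_nonneg hS0 _)
    _ = S ^ q * Z := by
        rw [← sum_mul, ← hS, ← mul_assoc, ← pow_succ]
        congr 2
        omega

theorem U4_Zq_nonneg (A n q : ℕ) : 0 ≤ Zq p A n q :=
  sum_nonneg fun x _ => pow_nonneg (DD_nonneg A n x) q

theorem DD_lift_pow (hp : Odd p) {q : ℕ} (hq : 1 ≤ q) (A i l : ℕ) (x : ℤ) :
    ∑ v ∈ range (p ^ l), DD p A (i + l) (x + (p : ℤ) ^ i * v) ^ q
      ≤ DD p A i x ^ q * Zq p A l q := by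
  simp only [U4_DD_eq hp]
  have h := U4_mink (VW p A i x) (range (p ^ l)) (fun w => zz p ^ w.sum) (fun _ => 1)
    (fun w v => DD p A l (en p w x + 2 ^ w.sum * (v : ℤ))) (Zq p A l q)
    (fun w _ => pow_nonneg (U4_zz_nonneg p) _) (fun _ _ => zero_le_one)
    (fun w _ v _ => DD_nonneg A l _) hq
    (fun w _ => by
      rw [one_pow, one_mul]
      exact (U4_sum_aff hp A l w.sum (en p w x) (fun y => y ^ q)).le) (U4_Zq_nonneg A l q)
  simp only [mul_one] at h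
  exact h

/-- splitting residues -/
theorem U4_split (a b : ℕ) (f : ℕ → ℝ) :
    ∑ X ∈ range (a * b), f X = ∑ x ∈ range a, ∑ v ∈ range b, f (x + a * v) := by
  induction b with
  | zero => simp
  | succ b ih =>
    rw [mul_add, mul_one, sum_range_add, ih, ← sum_add_distrib]
    refine sum_congr rfl fun x _ => ?_
    rw [sum_range_succ, add_comm (a * b) x]

theorem Zq_sub (hp : Odd p) {q : ℕ} (hq : 1 ≤ q) (A k m : ℕ) :
    Zq p A (k + m) q ≤ Zq p A k q * Zq p A m q := by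
  have e1 : Zq p A (k + m) q = ∑ x ∈ range (p ^ k), ∑ v ∈ range (p ^ m),
      DD p A (k + m) ((x : ℤ) + (p : ℤ) ^ k * (v : ℤ)) ^ q := by
    unfold Zq
    rw [pow_add, U4_split]
    refine sum_congr rfl fun x _ => sum_congr rfl fun v _ => ?_
    push_cast
    rfl
  rw [e1]
  calc _ ≤ ∑ x ∈ range (p ^ k), DD p A k (x : ℤ) ^ q * Zq p A m q :=
        sum_le_sum fun x _ => DD_lift_pow hp hq A k m x
    _ = Zq p A k q * Zq p A m q := by rw [← sum_mul]; rfl

theorem GG_nonneg (A k i : ℕ) (x : ℤ) : 0 ≤ GG p A k i x :=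
  sum_nonneg fun w _ => mul_nonneg (pow_nonneg (U4_zz_nonneg p) _) (DD_nonneg A i _)

theorem GG_le (hp : Odd p) (A k i : ℕ) (x : ℤ) : GG p A k i x ≤ DD p A (k + i) x := by
  rw [DD_add hp]
  unfold GG VS
  refine sum_le_sum_of_subset_of_nonneg (filter_subset _ _) fun w _ _ => ?_
  exact mul_nonneg (pow_nonneg (U4_zz_nonneg p) _) (DD_nonneg A i _)

theorem U4_GG_eq (hp : Odd p) (A k i : ℕ) (x v : ℤ) :
    GG p A k i (x + (p : ℤ) ^ k * v) =
      ∑ w ∈ VS p A k x, zz p ^ w.sum * DD p A i (en p w x + 2 ^ w.sum * v) := by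
  unfold GG
  rw [VS_shift]
  refine sum_congr rfl fun w hw => ?_
  have hl : w.length = k := by
    unfold VS at hw
    exact (mem_VW.1 (mem_filter.1 hw).1).1
  have h := en_shift (U4_one_le hp) (w := w) x v
  rw [hl] at h
  rw [h]

theorem GG_shift (hp : Odd p) (A k i : ℕ) (x y : ℤ) :
    GG p A k i (x + (p : ℤ) ^ (k + i) * y) = GG p A k i x := by
  have e : x + (p : ℤ) ^ (k + i) * y = x + (p : ℤ) ^ k * ((p : ℤ) ^ i * y) := by ring
  rw [e, U4_GG_eq hp]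
  refine sum_congr rfl fun w _ => ?_
  have e2 : en p w x + 2 ^ w.sum * ((p : ℤ) ^ i * y) =
      en p w x + (p : ℤ) ^ i * (2 ^ w.sum * y) := by ring
  rw [e2, DD_shift]

theorem GG_succ_le (hp : Odd p) (A k i : ℕ) (x : ℤ) :
    GG p A k (i + 1) x ≤ p * GG p A k i x := by
  unfold GG
  rw [mul_sum]
  refine sum_le_sum fun w _ => ?_
  calc zz p ^ w.sum * DD p A (i + 1) (en p w x)
      ≤ zz p ^ w.sum * (p * DD p A i (en p w x)) :=
        mul_le_mul_of_nonneg_left (DD_succ_le hp A i _) (pow_nonneg (U4_zz_nonneg p) _)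
    _ = p * (zz p ^ w.sum * DD p A i (en p w x)) := by ring

theorem U4_inner (hp : Odd p) (A i l s : ℕ) (e : ℤ) (F : ℝ → ℝ) :
    ∑ v ∈ range (p ^ l), F (DD p A (i + l) (e + 2 ^ s * ((p : ℤ) ^ i * (v : ℤ)))) =
      ∑ v ∈ range (p ^ l), F (DD p A (i + l) (e + (p : ℤ) ^ i * (v : ℤ))) := by
  have h := sum_affine (U4_one_le hp) l (2 ^ s) 0 (U4_coprime hp s)
    (h := fun v => F (DD p A (i + l) (e + (p : ℤ) ^ i * v))) (fun x y => by
      have : e + (p : ℤ) ^ i * (x + (p : ℤ) ^ l * y) =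
        (e + (p : ℤ) ^ i * x) + (p : ℤ) ^ (i + l) * y := by ring
      simp only [this, DD_shift])
  rw [← h]
  refine sum_congr rfl fun v _ => ?_
  have : e + 2 ^ s * ((p : ℤ) ^ i * (v : ℤ)) = e + (p : ℤ) ^ i * (0 + 2 ^ s * (v : ℤ)) := by ring
  simp only [this]

theorem U4_GG_eq' (hp : Odd p) (A k i l : ℕ) (x v : ℤ) :
    GG p A k (i + l) (x + (p : ℤ) ^ (k + i) * v) =
      ∑ w ∈ VS p A k x, zz p ^ w.sum *
        DD p A (i + l) (en p w x + 2 ^ w.sum * ((p : ℤ) ^ i * v)) := by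
  have e : x + (p : ℤ) ^ (k + i) * v = x + (p : ℤ) ^ k * ((p : ℤ) ^ i * v) := by ring
  rw [e, U4_GG_eq hp]

theorem GG_lift (hp : Odd p) (A k i l : ℕ) (x : ℤ) :
    ∑ v ∈ range (p ^ l), GG p A k (i + l) (x + (p : ℤ) ^ (k + i) * v)
      ≤ (p : ℝ) ^ l * GG p A k i x := by
  simp only [U4_GG_eq' hp]
  rw [sum_comm]
  unfold GG
  rw [mul_sum]
  refine sum_le_sum fun w _ => ?_
  rw [← mul_sum]
  have h := U4_inner hp A i l w.sum (en p w x) (fun y => y)
  rw [h]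
  calc zz p ^ w.sum * ∑ v ∈ range (p ^ l), DD p A (i + l) (en p w x + (p : ℤ) ^ i * (v : ℤ))
      ≤ zz p ^ w.sum * ((p : ℝ) ^ l * DD p A i (en p w x)) :=
        mul_le_mul_of_nonneg_left (DD_lift hp A i l _) (pow_nonneg (U4_zz_nonneg p) _)
    _ = _ := by ring

theorem GG_lift_pow (hp : Odd p) {q : ℕ} (hq : 1 ≤ q) (A k i l : ℕ) (x : ℤ) :
    ∑ v ∈ range (p ^ l), GG p A k (i + l) (x + (p : ℤ) ^ (k + i) * v) ^ q
      ≤ GG p A k i x ^ q * Zq p A l q := by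
  simp only [U4_GG_eq' hp]
  have h := U4_mink (VS p A k x) (range (p ^ l)) (fun w => zz p ^ w.sum)
    (fun w => DD p A i (en p w x))
    (fun w v => DD p A (i + l) (en p w x + 2 ^ w.sum * ((p : ℤ) ^ i * (v : ℤ)))) (Zq p A l q)
    (fun w _ => pow_nonneg (U4_zz_nonneg p) _) (fun w _ => DD_nonneg A i _)
    (fun w _ v _ => DD_nonneg A (i + l) _) hq
    (fun w _ => by
      have h1 := U4_inner hp A i l w.sum (en p w x) (fun y => y ^ q)
      rw [h1]
      exact DD_lift_pow hp hq A i l _) (U4_Zq_nonneg A l q)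
  exact h

theorem Zq_pos (hp : Odd p) (A n q : ℕ) (hA : 1 ≤ A) : 0 < Zq p A n q := by
  have hp1 := U4_one_le hp
  have hz0 : 0 ≤ zz p := U4_zz_nonneg p
  have hz1 : zz p ^ A < 1 := pow_lt_one₀ hz0 (zz_lt_one p) (by omega)
  have htot : 0 < ((p : ℝ) * (1 - zz p ^ A)) ^ n := by
    have : (0 : ℝ) < p := by exact_mod_cast hp1
    have h1 : 0 < 1 - zz p ^ A := by linarith
    positivity
  rw [← DD_total hp A n] at htot
  have hex : ∃ x ∈ range (p ^ n), 0 < DD p A n (x : ℤ) := by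
    by_contra hcon
    push Not at hcon
    exact absurd (sum_nonpos hcon) (not_le.2 htot)
  obtain ⟨x, hx, hx0⟩ := hex
  exact sum_pos' (fun y _ => pow_nonneg (DD_nonneg A n _) q) ⟨x, hx, pow_pos hx0 q⟩

end Basic2

end Pool.Agent.H377R2.NK
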