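import Pool.Agent.H377R2.NK.Defs

/-! Task U1 (ENT): conditional entropy toolkit. -/

set_option autoImplicit false
set_option linter.unusedVariables false

namespace Pool.Agent.H377R2.NK

open Finset Pool.Agent.H320R2.PD

section Ent

variable {Ω α β γ α' β' : Type*} {s : Finset Ω} {w : Ω → ℝ}

theorem mm_nonneg (hw : ∀ ω ∈ s, 0 ≤ w ω) (f : Ω → α) (ω : Ω) : 0 ≤ mm s w f ω := by
  classical
  unfold mm
  exact Finset.sum_nonneg (fun ω' h => hw ω' (Finset.mem_filter.1 h).1)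

theorem le_mm (hw : ∀ ω ∈ s, 0 ≤ w ω) (f : Ω → α) {ω : Ω} (h : ω ∈ s) : w ω ≤ mm s w f ω := by
  classical
  unfold mm
  exact Finset.single_le_sum (f := w) (fun ω' h => hw ω' (Finset.mem_filter.1 h).1)
    (Finset.mem_filter.2 ⟨h, rfl⟩)

theorem mm_congr {f : Ω → α} {f' : Ω → α'} (h : ∀ ω ∈ s, ∀ ω' ∈ s, f ω = f ω' ↔ f' ω = f' ω') :
    ∀ ω ∈ s, mm s w f ω = mm s w f' ω := by
  classical
  intro ω hω
  unfold mm
  apply Finset.sum_congr _ (fun _ _ => rfl)
  apply Finset.filter_congr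
  intro ω' hω'
  exact h ω' hω' ω hω

theorem CE_congr {f : Ω → α} {g : Ω → β} {f' : Ω → α'} {g' : Ω → β'}
    (hg : ∀ ω ∈ s, ∀ ω' ∈ s, g ω = g ω' ↔ g' ω = g' ω')
    (hf : ∀ ω ∈ s, ∀ ω' ∈ s, g ω = g ω' → (f ω = f ω' ↔ f' ω = f' ω')) :
    CE s w f g = CE s w f' g' := by
  unfold CE
  apply Finset.sum_congr rfl
  intro ω hω
  rw [mm_congr hg ω hω]
  rw [mm_congr (f := fun ω => (f ω, g ω)) (f' := fun ω => (f' ω, g' ω)) _ ω hω]
  intro ω hω ω' hω'
  simp only [Prod.mk.injEq]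
  constructor
  · rintro ⟨h1, h2⟩
    exact ⟨(hf ω hω ω' hω' h2).1 h1, (hg ω hω ω' hω').1 h2⟩
  · rintro ⟨h1, h2⟩
    have h2' := (hg ω hω ω' hω').2 h2
    exact ⟨(hf ω hω ω' hω' h2').2 h1, h2'⟩

/-- chain rule -/
theorem CE_chain (f : Ω → α) (g : Ω → β) (h : Ω → γ) :
    CE s w (fun ω => (f ω, g ω)) h = CE s w g h + CE s w f (fun ω => (g ω, h ω)) := by
  unfold CE
  rw [← Finset.sum_add_distrib]
  apply Finset.sum_congr rfl
  intro ω hω
  rw [mm_congr (f := fun ω => ((f ω, g ω), h ω)) (f' := fun ω => (f ω, (g ω, h ω))) _ ω hω]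
  · ring
  · intro ω _ ω' _
    simp only [Prod.mk.injEq, and_assoc]

theorem CE_nonneg (hw : ∀ ω ∈ s, 0 ≤ w ω) (f : Ω → α) (g : Ω → β) : 0 ≤ CE s w f g := by
  classical
  unfold CE
  apply Finset.sum_nonneg
  intro ω hω
  rcases (hw ω hω).eq_or_lt with h | h
  · rw [← h, zero_mul]
  · apply mul_nonneg h.le
    rw [sub_nonneg]
    have h1 : 0 < mm s w (fun ω => (f ω, g ω)) ω := lt_of_lt_of_le h (le_mm hw _ hω)
    apply Real.log_le_log h1
    unfold mm
    apply Finset.sum_le_sum_of_subset_of_nonneg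
    · intro ω' hω'
      simp only [Finset.mem_filter, Prod.mk.injEq] at hω' ⊢
      exact ⟨hω'.1, hω'.2.2⟩
    · intro ω' hω' _
      simp only [Finset.mem_filter] at hω'
      exact hw ω' hω'.1

open scoped Classical in
private theorem mm_pos_eq (hw : ∀ ω ∈ s, 0 ≤ w ω) (f : Ω → α) (ω : Ω) :
    mm s w f ω = ∑ ω' ∈ (s.filter (fun ω => 0 < w ω)).filter (fun ω' => f ω' = f ω), w ω' := by
  unfold mm
  rw [Finset.filter_comm]
  rw [eq_comm]
  apply Finset.sum_subset (Finset.filter_subset _ _)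
  intro ω' h1 h2
  rw [Finset.mem_filter, not_and] at h2
  exact le_antisymm (not_lt.1 (h2 h1)) (hw ω' (Finset.mem_filter.1 h1).1)

open scoped Classical in
/-- the grouped sum in the Gibbs inequality -/
private theorem gibbs_aux (hw : ∀ ω ∈ s, 0 ≤ w ω) (f : Ω → α) (g : Ω → β) (S : β → Finset α)
    (F : α → β → ℝ) (B : β → ℝ) (hS : ∀ ω ∈ s, 0 < w ω → f ω ∈ S (g ω))
    (hF0 : ∀ ω ∈ s, 0 < w ω → ∀ a ∈ S (g ω), 0 ≤ F a (g ω))
    (hF : ∀ ω ∈ s, 0 < w ω → 0 < F (f ω) (g ω))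
    (hB : ∀ ω ∈ s, 0 < w ω → ∑ a ∈ S (g ω), F a (g ω) ≤ B (g ω)) :
    ∑ ω ∈ s.filter (fun ω => 0 < w ω), w ω * (mm s w g ω * F (f ω) (g ω) /
      (mm s w (fun ω => (f ω, g ω)) ω * B (g ω))) ≤ ∑ ω ∈ s.filter (fun ω => 0 < w ω), w ω := by
  set t := s.filter (fun ω => 0 < w ω) with ht
  have hmg : ∀ ω ∈ t, g ω ∈ t.image g := fun ω h => Finset.mem_image_of_mem g h
  rw [← Finset.sum_fiberwise_of_maps_to hmg, ← Finset.sum_fiberwise_of_maps_to hmg (f := w)]
  apply Finset.sum_le_sum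
  intro b hb
  obtain ⟨ω₀, hω₀, hgb⟩ := Finset.mem_image.1 hb
  have hω₀' := Finset.mem_filter.1 hω₀
  set tb := t.filter (fun ω => g ω = b) with htb
  have hmf : ∀ ω ∈ tb, f ω ∈ tb.image f := fun ω h => Finset.mem_image_of_mem f h
  have hFb0 : ∀ a ∈ S b, 0 ≤ F a b := by
    intro a ha; rw [← hgb] at ha ⊢; exact hF0 ω₀ hω₀'.1 hω₀'.2 a ha
  have hSb : f ω₀ ∈ S b := by rw [← hgb]; exact hS ω₀ hω₀'.1 hω₀'.2
  have hFpos : 0 < F (f ω₀) b := by rw [← hgb]; exact hF ω₀ hω₀'.1 hω₀'.2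
  have hBb : ∑ a ∈ S b, F a b ≤ B b := by rw [← hgb]; exact hB ω₀ hω₀'.1 hω₀'.2
  have hBpos : 0 < B b := by
    refine lt_of_lt_of_le ?_ hBb
    exact lt_of_lt_of_le hFpos (Finset.single_le_sum (f := fun a => F a b) hFb0 hSb)
  set M := ∑ ω ∈ tb, w ω with hM
  have hM0 : 0 ≤ M := Finset.sum_nonneg (fun ω h =>
    (Finset.mem_filter.1 (Finset.mem_filter.1 h).1).2.le)
  rw [← Finset.sum_fiberwise_of_maps_to hmf]
  have hstep : ∀ a ∈ tb.image f, ∑ ω ∈ tb.filter (fun ω => f ω = a),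
      w ω * (mm s w g ω * F (f ω) (g ω) / (mm s w (fun ω => (f ω, g ω)) ω * B (g ω))) =
      M * F a b / B b := by
    intro a ha
    obtain ⟨ω₁, hω₁, hfa⟩ := Finset.mem_image.1 ha
    set tab := tb.filter (fun ω => f ω = a) with htab
    set Mab := ∑ ω ∈ tab, w ω with hMab
    have hω₁ab : ω₁ ∈ tab := Finset.mem_filter.2 ⟨hω₁, hfa⟩
    have hMabpos : 0 < Mab := by
      have h1 : ∀ ω ∈ tab, 0 ≤ w ω := fun ω h =>
        (Finset.mem_filter.1 (Finset.mem_filter.1 (Finset.mem_filter.1 h).1).1).2.le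
      refine lt_of_lt_of_le ?_ (Finset.single_le_sum (f := w) h1 hω₁ab)
      exact (Finset.mem_filter.1 (Finset.mem_filter.1 hω₁).1).2
    have hterm : ∀ ω ∈ tab, w ω * (mm s w g ω * F (f ω) (g ω) /
        (mm s w (fun ω => (f ω, g ω)) ω * B (g ω))) = w ω * (M * F a b / (Mab * B b)) := by
      intro ω hω
      have h1 := Finset.mem_filter.1 hω
      have h2 := Finset.mem_filter.1 h1.1
      have e1 : mm s w g ω = M := by
        rw [mm_pos_eq hw g ω, hM, htb, h2.2]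
      have e2 : mm s w (fun ω => (f ω, g ω)) ω = Mab := by
        rw [mm_pos_eq hw _ ω, hMab]
        apply Finset.sum_congr _ (fun _ _ => rfl)
        ext ω'
        rw [htab, htb, ht]
        simp only [Finset.mem_filter, Prod.mk.injEq, h1.2, h2.2]
        tauto
      rw [e1, e2, h1.2, h2.2]
    rw [Finset.sum_congr rfl hterm, ← Finset.sum_mul, ← hMab]
    field_simp
  rw [Finset.sum_congr rfl hstep]
  have hsub : tb.image f ⊆ S b := by
    intro a ha
    obtain ⟨ω₁, hω₁, hfa⟩ := Finset.mem_image.1 ha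
    have h2 := Finset.mem_filter.1 hω₁
    have h3 := Finset.mem_filter.1 h2.1
    rw [← hfa, ← h2.2]
    exact hS ω₁ h3.1 h3.2
  calc ∑ a ∈ tb.image f, M * F a b / B b = M / B b * ∑ a ∈ tb.image f, F a b := by
        rw [Finset.mul_sum]
        apply Finset.sum_congr rfl
        intro a _; ring
    _ ≤ M / B b * ∑ a ∈ S b, F a b := by
        apply mul_le_mul_of_nonneg_left _ (by positivity)
        exact Finset.sum_le_sum_of_subset_of_nonneg hsub (fun a ha _ => hFb0 a ha)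
    _ ≤ M / B b * B b := mul_le_mul_of_nonneg_left hBb (by positivity)
    _ = M := by field_simp

/-- the fundamental inequality (Gibbs) : `H(f|g) + E log F ≤ E log B` when `∑_a F a b ≤ B b` -/
theorem CE_gibbs (hw : ∀ ω ∈ s, 0 ≤ w ω) (f : Ω → α) (g : Ω → β) (S : β → Finset α)
    (F : α → β → ℝ) (B : β → ℝ) (hS : ∀ ω ∈ s, 0 < w ω → f ω ∈ S (g ω))
    (hF0 : ∀ ω ∈ s, 0 < w ω → ∀ a ∈ S (g ω), 0 ≤ F a (g ω))
    (hF : ∀ ω ∈ s, 0 < w ω → 0 < F (f ω) (g ω))
    (hB : ∀ ω ∈ s, 0 < w ω → ∑ a ∈ S (g ω), F a (g ω) ≤ B (g ω)) :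
    CE s w f g + ∑ ω ∈ s, w ω * Real.log (F (f ω) (g ω)) ≤ ∑ ω ∈ s, w ω * Real.log (B (g ω)) := by
  classical
  have haux := gibbs_aux hw f g S F B hS hF0 hF hB
  rw [← sub_nonpos]
  unfold CE
  rw [← Finset.sum_add_distrib, ← Finset.sum_sub_distrib]
  have hrestrict : ∑ ω ∈ s, (w ω * (Real.log (mm s w g ω) -
      Real.log (mm s w (fun ω => (f ω, g ω)) ω)) + w ω * Real.log (F (f ω) (g ω)) -
      w ω * Real.log (B (g ω))) =
      ∑ ω ∈ s.filter (fun ω => 0 < w ω), (w ω * (Real.log (mm s w g ω) -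
      Real.log (mm s w (fun ω => (f ω, g ω)) ω)) + w ω * Real.log (F (f ω) (g ω)) -
      w ω * Real.log (B (g ω))) := by
    rw [eq_comm]
    apply Finset.sum_subset (Finset.filter_subset _ _)
    intro ω h1 h2
    rw [Finset.mem_filter, not_and] at h2
    have : w ω = 0 := le_antisymm (not_lt.1 (h2 h1)) (hw ω h1)
    rw [this]; ring
  rw [hrestrict]
  have hle : ∀ ω ∈ s.filter (fun ω => 0 < w ω), (w ω * (Real.log (mm s w g ω) -
      Real.log (mm s w (fun ω => (f ω, g ω)) ω)) + w ω * Real.log (F (f ω) (g ω)) -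
      w ω * Real.log (B (g ω))) ≤ w ω * (mm s w g ω * F (f ω) (g ω) /
      (mm s w (fun ω => (f ω, g ω)) ω * B (g ω))) - w ω := by
    intro ω hω
    obtain ⟨hωs, hωw⟩ := Finset.mem_filter.1 hω
    have h1 : 0 < mm s w g ω := lt_of_lt_of_le hωw (le_mm hw g hωs)
    have h2 : 0 < mm s w (fun ω => (f ω, g ω)) ω := lt_of_lt_of_le hωw (le_mm hw _ hωs)
    have h3 := hF ω hωs hωw
    have h4 : 0 < B (g ω) := by
      refine lt_of_lt_of_le ?_ (hB ω hωs hωw)
      exact lt_of_lt_of_le h3 (Finset.single_le_sum (f := fun a => F a (g ω))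
        (hF0 ω hωs hωw) (hS ω hωs hωw))
    have h5 := Real.log_le_sub_one_of_pos (x := mm s w g ω * F (f ω) (g ω) /
      (mm s w (fun ω => (f ω, g ω)) ω * B (g ω))) (by positivity)
    rw [Real.log_div (by positivity) (by positivity), Real.log_mul h1.ne' h3.ne',
      Real.log_mul h2.ne' h4.ne'] at h5
    have h6 := mul_le_mul_of_nonneg_left h5 hωw.le
    linarith
  refine (Finset.sum_le_sum hle).trans ?_
  rw [Finset.sum_sub_distrib]
  linarith

theorem CE_le_log (hw : ∀ ω ∈ s, 0 ≤ w ω) (f : Ω → α) (g : Ω → β) (S : β → Finset α) {N : ℕ}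
    (hN : 1 ≤ N) (hS : ∀ ω ∈ s, f ω ∈ S (g ω)) (hc : ∀ ω ∈ s, (S (g ω)).card ≤ N) :
    CE s w f g ≤ (∑ ω ∈ s, w ω) * Real.log N := by
  have := CE_gibbs hw f g S (fun _ _ => 1) (fun _ => (N : ℝ)) (fun ω h _ => hS ω h)
    (fun _ _ _ _ _ => zero_le_one) (fun _ _ _ => zero_lt_one)
    (fun ω h _ => by
      simp only [Finset.sum_const, nsmul_eq_mul, mul_one]
      exact_mod_cast hc ω h)
  simp only [Real.log_one, mul_zero, Finset.sum_const_zero, add_zero] at this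
  rw [Finset.sum_mul]
  exact this

/-- conditioning on more decreases entropy -/
theorem CE_mono_right (hw : ∀ ω ∈ s, 0 ≤ w ω) (f : Ω → α) {g : Ω → β} {g' : Ω → β'}
    (h : ∀ ω ∈ s, ∀ ω' ∈ s, g' ω = g' ω' → g ω = g ω') : CE s w f g' ≤ CE s w f g := by
  classical
  have e : CE s w f g' = CE s w f (fun ω => (g' ω, g ω)) := by
    apply CE_congr
    · intro ω hω ω' hω'
      simp only [Prod.mk.injEq]
      exact ⟨fun h1 => ⟨h1, h ω hω ω' hω' h1⟩, fun h1 => h1.1⟩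
    · intro ω _ ω' _ _; exact Iff.rfl
  rw [e]
  have hgib := CE_gibbs hw f (fun ω => (g' ω, g ω))
    (fun b => (s.filter (fun ω => g ω = b.2)).image f)
    (fun a b => (∑ ω ∈ s.filter (fun ω => f ω = a ∧ g ω = b.2), w ω) /
      (∑ ω ∈ s.filter (fun ω => g ω = b.2), w ω)) (fun _ => 1)
    (fun ω hω _ => Finset.mem_image_of_mem f (Finset.mem_filter.2 ⟨hω, rfl⟩))
    (fun ω hω _ a _ => div_nonneg
      (Finset.sum_nonneg (fun ω' h' => hw ω' (Finset.mem_filter.1 h').1))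
      (Finset.sum_nonneg (fun ω' h' => hw ω' (Finset.mem_filter.1 h').1)))
    (fun ω hω hpos => by
      apply div_pos
      · refine lt_of_lt_of_le hpos (Finset.single_le_sum (f := w)
          (fun ω' h' => hw ω' (Finset.mem_filter.1 h').1) (Finset.mem_filter.2 ⟨hω, rfl, rfl⟩))
      · refine lt_of_lt_of_le hpos (Finset.single_le_sum (f := w)
          (fun ω' h' => hw ω' (Finset.mem_filter.1 h').1) (Finset.mem_filter.2 ⟨hω, rfl⟩)))
    (fun ω hω hpos => by
      rw [← Finset.sum_div]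
      apply div_le_one_of_le₀ _
        (Finset.sum_nonneg (fun ω' h' => hw ω' (Finset.mem_filter.1 h').1))
      apply le_of_eq
      have hm : ∀ ω' ∈ s.filter (fun ω' => g ω' = g ω),
          f ω' ∈ (s.filter (fun ω' => g ω' = g ω)).image f :=
        fun ω' h' => Finset.mem_image_of_mem f h'
      rw [← Finset.sum_fiberwise_of_maps_to hm]
      apply Finset.sum_congr rfl
      intro a _
      rw [Finset.filter_filter]
      apply Finset.sum_congr _ (fun _ _ => rfl)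
      apply Finset.filter_congr
      intro ω' _
      exact and_comm)
  simp only [Real.log_one, mul_zero, Finset.sum_const_zero] at hgib
  have hlog : CE s w f g + ∑ ω ∈ s, w ω * Real.log ((∑ ω' ∈ s.filter (fun ω' => f ω' = f ω ∧
      g ω' = g ω), w ω') / (∑ ω' ∈ s.filter (fun ω' => g ω' = g ω), w ω')) = 0 := by
    unfold CE
    rw [← Finset.sum_add_distrib]
    apply Finset.sum_eq_zero
    intro ω hω
    rcases (hw ω hω).eq_or_lt with h0 | hpos
    · rw [← h0]; ring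
    · have h1 : 0 < mm s w g ω := lt_of_lt_of_le hpos (le_mm hw g hω)
      have h2 : 0 < mm s w (fun ω => (f ω, g ω)) ω := lt_of_lt_of_le hpos (le_mm hw _ hω)
      have e1 : (∑ ω' ∈ s.filter (fun ω' => g ω' = g ω), w ω') = mm s w g ω := rfl
      have e2 : (∑ ω' ∈ s.filter (fun ω' => f ω' = f ω ∧ g ω' = g ω), w ω') =
          mm s w (fun ω => (f ω, g ω)) ω := by
        unfold mm
        apply Finset.sum_congr _ (fun _ _ => rfl)
        ext ω'
        simp only [Finset.mem_filter, Prod.mk.injEq]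
      rw [e1, e2, Real.log_div h2.ne' h1.ne']
      ring
  linarith

/-- a function of `f'` (given `g`) has smaller entropy -/
theorem CE_mono_left (hw : ∀ ω ∈ s, 0 ≤ w ω) {f : Ω → α} {f' : Ω → α'} (g : Ω → β)
    (h : ∀ ω ∈ s, ∀ ω' ∈ s, g ω = g ω' → f' ω = f' ω' → f ω = f ω') :
    CE s w f g ≤ CE s w f' g := by
  have h1 := CE_chain (s := s) (w := w) f' f g
  have h2 := CE_nonneg hw f' (fun ω => (f ω, g ω))
  have h3 : CE s w (fun ω => (f' ω, f ω)) g = CE s w f' g := by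
    apply CE_congr
    · intro ω _ ω' _; exact Iff.rfl
    · intro ω hω ω' hω' hg
      simp only [Prod.mk.injEq]
      exact ⟨fun hh => hh.1, fun hh => ⟨hh, h ω hω ω' hω' hg hh⟩⟩
  linarith

open scoped Classical in
/-- conditional entropy as a sum over the fibres of the conditioning variable -/
theorem CE_fiber (f : Ω → α) (h : Ω → γ) :
    CE s w f h = ∑ c ∈ s.image h, CE (s.filter fun ω => h ω = c) w f (fun _ => ()) := by
  unfold CE
  have hm : ∀ ω ∈ s, h ω ∈ s.image h := fun ω h' => Finset.mem_image_of_mem h h'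
  rw [← Finset.sum_fiberwise_of_maps_to hm]
  apply Finset.sum_congr rfl
  intro c _
  apply Finset.sum_congr rfl
  intro ω hω
  obtain ⟨hωs, hωc⟩ := Finset.mem_filter.1 hω
  have e1 : mm s w h ω = mm (s.filter fun ω => h ω = c) w (fun _ => ()) ω := by
    unfold mm
    apply Finset.sum_congr _ (fun _ _ => rfl)
    ext ω'
    simp [hωc]
  have e2 : mm s w (fun ω => (f ω, h ω)) ω =
      mm (s.filter fun ω => h ω = c) w (fun ω => (f ω, (fun _ => ()) ω)) ω := by
    unfold mm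
    apply Finset.sum_congr _ (fun _ _ => rfl)
    ext ω'
    simp only [Finset.mem_filter, Prod.mk.injEq, hωc, and_true]
    tauto
  rw [e1, e2]

theorem CE_smul {c : ℝ} (hc : 0 < c) (f : Ω → α) (g : Ω → β) (hw : ∀ ω ∈ s, 0 ≤ w ω) :
    CE s (fun ω => c * w ω) f g = c * CE s w f g := by
  unfold CE
  rw [Finset.mul_sum]
  apply Finset.sum_congr rfl
  intro ω hω
  rcases (hw ω hω).eq_or_lt with h0 | hpos
  · simp only [← h0, mul_zero, zero_mul]
  · have h1 : 0 < mm s w g ω := lt_of_lt_of_le hpos (le_mm hw g hω)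
    have h2 : 0 < mm s w (fun ω => (f ω, g ω)) ω := lt_of_lt_of_le hpos (le_mm hw _ hω)
    have e1 : mm s (fun ω => c * w ω) g ω = c * mm s w g ω := by
      unfold mm; rw [Finset.mul_sum]
    have e2 : mm s (fun ω => c * w ω) (fun ω => (f ω, g ω)) ω =
        c * mm s w (fun ω => (f ω, g ω)) ω := by
      unfold mm; rw [Finset.mul_sum]
    rw [e1, e2, Real.log_mul hc.ne' h1.ne', Real.log_mul hc.ne' h2.ne']
    ring

/-- if the mass of the atoms of `g` is `a` and of `(f,g)` is `b` then `H(f|g) = E log (a/b)` -/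
theorem CE_eval {f : Ω → α} {g : Ω → β} {a b : Ω → ℝ}
    (ha : ∀ ω ∈ s, w ω ≠ 0 → mm s w g ω = a ω)
    (hb : ∀ ω ∈ s, w ω ≠ 0 → mm s w (fun ω => (f ω, g ω)) ω = b ω) :
    CE s w f g = ∑ ω ∈ s, w ω * (Real.log (a ω) - Real.log (b ω)) := by
  unfold CE
  apply Finset.sum_congr rfl
  intro ω hω
  by_cases h0 : w ω = 0
  · rw [h0]; ring
  · rw [ha ω hω h0, hb ω hω h0]

end Ent

end Pool.Agent.H377R2.NK
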