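import Pool.Agent.H377R2.NK.Win
import Pool.Agent.H377R2.NK.Ent

set_option autoImplicit false

namespace Pool.Agent.H377R2.NK

open Finset

namespace CoreAux

/-! ### digits -/

lemma emod_iff {p : ℕ} (hp : 0 < p) {i l : ℕ} {a a' b b' : ℤ}
    (h : a - a' = (p : ℤ) ^ i * (b - b')) :
    a % (p : ℤ) ^ (i + l) = a' % (p : ℤ) ^ (i + l) ↔ b % (p : ℤ) ^ l = b' % (p : ℤ) ^ l := by
  have hp' : (p : ℤ) ^ i ≠ 0 := pow_ne_zero _ (by exact_mod_cast hp.ne')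
  change a ≡ a' [ZMOD _] ↔ b ≡ b' [ZMOD _]
  rw [Int.modEq_comm, Int.modEq_iff_dvd, Int.modEq_comm, Int.modEq_iff_dvd, h, pow_add,
    mul_dvd_mul_iff_left hp']

lemma div_diff {P x x' : ℤ} (h : x % P = x' % P) : x - x' = P * (x / P - x' / P) := by
  have h1 := Int.mul_ediv_add_emod x P
  have h2 := Int.mul_ediv_add_emod x' P
  linarith [mul_sub P (x / P) (x' / P)]

lemma emod_split {p : ℕ} (hp : 0 < p) (i l : ℕ) (x : ℤ) :
    x % (p : ℤ) ^ (i + l) = x % (p : ℤ) ^ i + (p : ℤ) ^ i * ((x / (p : ℤ) ^ i) % (p : ℤ) ^ l) := by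
  have ha : 0 < (p : ℤ) ^ i := by positivity
  have hb : 0 < (p : ℤ) ^ l := by positivity
  set a := (p : ℤ) ^ i with hadef
  set b := (p : ℤ) ^ l with hbdef
  have h1 := Int.mul_ediv_add_emod x a
  have h2 := Int.mul_ediv_add_emod (x / a) b
  have h3 : x = (x % a + a * ((x / a) % b)) + a * b * (x / a / b) := by
    calc x = a * (x / a) + x % a := h1.symm
      _ = a * (b * (x / a / b) + (x / a) % b) + x % a := by rw [h2]
      _ = _ := by ring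
  have h4 : 0 ≤ x % a + a * ((x / a) % b) :=
    add_nonneg (Int.emod_nonneg _ ha.ne') (mul_nonneg ha.le (Int.emod_nonneg _ hb.ne'))
  have h5 : x % a + a * ((x / a) % b) < a * b := by
    have h6 := Int.emod_lt_of_pos x ha
    have h7 : (x / a) % b ≤ b - 1 := by have := Int.emod_lt_of_pos (x / a) hb; omega
    have h8 : a * ((x / a) % b) ≤ a * (b - 1) := mul_le_mul_of_nonneg_left h7 ha.le
    have h9 : a * (b - 1) = a * b - a := by ring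
    omega
  rw [pow_add, ← hadef, ← hbdef]
  conv_lhs => rw [h3]
  rw [Int.add_mul_emod_self_left, Int.emod_eq_of_lt h4 h5]

lemma emod_emod_pow (p : ℕ) {i j : ℕ} (h : i ≤ j) (x : ℤ) :
    x % (p : ℤ) ^ j % (p : ℤ) ^ i = x % (p : ℤ) ^ i :=
  Int.emod_emod_of_dvd x (pow_dvd_pow _ h)

lemma emod_congr_of_le (p : ℕ) {i j : ℕ} (h : i ≤ j) {x x' : ℤ}
    (hx : x % (p : ℤ) ^ j = x' % (p : ℤ) ^ j) : x % (p : ℤ) ^ i = x' % (p : ℤ) ^ i := by
  rw [← emod_emod_pow p h x, hx, emod_emod_pow p h x']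

/-- the possible values of `x % p^(i+l)` given `x % p^i = y` -/
noncomputable def SS (p i l : ℕ) (y : ℤ) : Finset ℤ :=
  (range (p ^ l)).image fun v : ℕ => y + (p : ℤ) ^ i * (v : ℤ)

lemma mem_SS {p : ℕ} (hp : 0 < p) (i l : ℕ) (x : ℤ) :
    x % (p : ℤ) ^ (i + l) ∈ SS p i l (x % (p : ℤ) ^ i) := by
  unfold SS
  rw [mem_image]
  have hb : 0 < (p : ℤ) ^ l := by positivity
  have h1 := Int.emod_nonneg (x / (p : ℤ) ^ i) hb.ne'
  have h2 := Int.emod_lt_of_pos (x / (p : ℤ) ^ i) hb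
  refine ⟨((x / (p : ℤ) ^ i) % (p : ℤ) ^ l).toNat, ?_, ?_⟩
  · rw [mem_range]
    zify
    rw [Int.toNat_of_nonneg h1]
    exact h2
  · rw [Int.toNat_of_nonneg h1, emod_split hp]

lemma card_SS (p i l : ℕ) (y : ℤ) : (SS p i l y).card ≤ p ^ l := by
  unfold SS
  exact card_image_le.trans (by simp)

lemma sum_SS {p : ℕ} (hp : 0 < p) (i l : ℕ) (y : ℤ) (G : ℤ → ℝ) :
    ∑ a ∈ SS p i l y, G a = ∑ v ∈ range (p ^ l), G (y + (p : ℤ) ^ i * (v : ℤ)) := by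
  unfold SS
  rw [sum_image]
  intro a _ b _ hab
  have hp' : (p : ℤ) ^ i ≠ 0 := pow_ne_zero _ (by exact_mod_cast hp.ne')
  have h1 : (p : ℤ) ^ i * (a : ℤ) = (p : ℤ) ^ i * (b : ℤ) := add_left_cancel hab
  exact_mod_cast mul_left_cancel₀ hp' h1

/-! ### general facts on conditional entropy -/

section Gen

variable {Ω α β γ α' β' : Type*} {s : Finset Ω} {w : Ω → ℝ}

/-- chain rule when `g` is a function of `f` given `h` -/
lemma CE_tel (f : Ω → α) (g : Ω → β) (h : Ω → γ)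
    (hfg : ∀ ω ∈ s, ∀ ω' ∈ s, h ω = h ω' → f ω = f ω' → g ω = g ω') :
    CE s w f h = CE s w g h + CE s w f (fun ω => (g ω, h ω)) := by
  rw [← CE_chain f g h]
  refine CE_congr (fun _ _ _ _ => Iff.rfl) fun ω hω ω' hω' hh => ?_
  constructor
  · intro hf
    rw [hf, hfg ω hω ω' hω' hh hf]
  · intro hf
    exact (Prod.mk.inj hf).1

/-- `H(U+V) + 2H(U) + H(V) - 2H(U,V) ≥ 0`, abstract form -/
lemma psi_nonneg (hw : ∀ ω ∈ s, 0 ≤ w ω) (U : Ω → α) (V : Ω → β) (S : Ω → γ) (h : Ω → α')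
    (hS : ∀ ω ∈ s, ∀ ω' ∈ s, h ω = h ω' → U ω = U ω' → (S ω = S ω' ↔ V ω = V ω')) :
    CE s w U h + CE s w V h - CE s w (fun ω => (U ω, V ω)) h
      ≤ CE s w S h + 2 * CE s w U h + CE s w V h - 2 * CE s w (fun ω => (U ω, V ω)) h ∧
    0 ≤ CE s w U h + CE s w V h - CE s w (fun ω => (U ω, V ω)) h := by
  -- `H(U,V|h) = H(U|h) + H(V|U,h)`
  have h1 : CE s w (fun ω => (U ω, V ω)) h = CE s w U h + CE s w V (fun ω => (U ω, h ω)) := by
    rw [← CE_chain V U h]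
    refine CE_congr (fun _ _ _ _ => Iff.rfl) fun ω _ ω' _ _ => ?_
    simp only [Prod.mk.injEq]
    tauto
  have h2 : CE s w V (fun ω => (U ω, h ω)) ≤ CE s w V h :=
    CE_mono_right hw V fun ω _ ω' _ hh => (Prod.mk.inj hh).2
  have h3 : CE s w S (fun ω => (U ω, h ω)) ≤ CE s w S h :=
    CE_mono_right hw S fun ω _ ω' _ hh => (Prod.mk.inj hh).2
  have h4 : CE s w S (fun ω => (U ω, h ω)) = CE s w V (fun ω => (U ω, h ω)) := by
    refine CE_congr (fun _ _ _ _ => Iff.rfl) fun ω hω ω' hω' hh => ?_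
    exact hS ω hω ω' hω' (Prod.mk.inj hh).2 (Prod.mk.inj hh).1
  constructor <;> linarith

end Gen

/-- the conclusion of `win` for given constants -/
def WinHyp (p l : ℕ) (η θ : ℝ) : Prop :=
  ∀ {Ω : Type} (s : Finset Ω) (w : Ω → ℝ), (∀ ω ∈ s, 0 ≤ w ω) →
      ∀ U V : Ω → ℤ,
        η * ∑ ω ∈ s, w ω ≤ CE s w (fun ω => U ω % (p : ℤ)) (fun _ => ()) →
        CE s w (fun ω => V ω % (p : ℤ) ^ l) (fun _ => ())
          ≤ (l * Real.log p - η) * ∑ ω ∈ s, w ω →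
        θ * ∑ ω ∈ s, w ω ≤ CE s w (fun ω => (U ω + V ω) % (p : ℤ) ^ l) (fun _ => ())
          + 2 * CE s w (fun ω => U ω % (p : ℤ) ^ l) (fun _ => ())
          + CE s w (fun ω => V ω % (p : ℤ) ^ l) (fun _ => ())
          - 2 * CE s w (fun ω => (U ω % (p : ℤ) ^ l, V ω % (p : ℤ) ^ l)) (fun _ => ())

/-- the inequality on one fibre -/
lemma fibre {p : ℕ} (hp : p.Prime) {q l i : ℕ} (hq : 2 ≤ q) (hl : 1 ≤ l) {κ η θ ζ : ℝ}
    (hκ : 0 < κ) (hηκ : η * (2 * ((q : ℝ) - 1)) ≤ κ) (hθ : 0 < θ)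
    (hwin : WinHyp p l η θ) (hη : 0 < η)
    (hζ : (l : ℝ) * (Real.log p + κ) ≤ ζ)
    {Ω : Type} (t : Finset Ω) (w : Ω → ℝ) (hw : ∀ ω ∈ t, 0 ≤ w ω) (X Y : Ω → ℤ) (x0 y0 : ℤ)
    (hX : ∀ ω ∈ t, X ω % (p : ℤ) ^ i = x0) (hY : ∀ ω ∈ t, Y ω % (p : ℤ) ^ i = y0)
    (F : ℤ → ℝ) (hF0 : ∀ y, 0 ≤ F y)
    (hFpos : ∀ ω ∈ t, 0 < w ω → 0 < F (Y ω % (p : ℤ) ^ (i + l)))
    (hF1 : ∑ v ∈ range (p ^ l), F (y0 + (p : ℤ) ^ i * v) ≤ (p : ℝ) ^ l)
    (hFq : ∑ v ∈ range (p ^ l), F (y0 + (p : ℤ) ^ i * v) ^ q ≤ Real.exp ζ) :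
    CE t w (fun ω => X ω % (p : ℤ) ^ (i + 1)) (fun _ => ())
      ≤ η * ∑ ω ∈ t, w ω
        + Real.log p / θ * (CE t w (fun ω => (X ω + Y ω) % (p : ℤ) ^ (i + l)) (fun _ => ())
            + 2 * CE t w (fun ω => X ω % (p : ℤ) ^ (i + l)) (fun _ => ())
            + CE t w (fun ω => Y ω % (p : ℤ) ^ (i + l)) (fun _ => ())
            - 2 * CE t w (fun ω => (X ω % (p : ℤ) ^ (i + l), Y ω % (p : ℤ) ^ (i + l)))
                (fun _ => ()))
        + 2 * Real.log p / (κ * l) * (ζ * ∑ ω ∈ t, w ω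
            - CE t w (fun ω => Y ω % (p : ℤ) ^ (i + l)) (fun _ => ())
            - q * ∑ ω ∈ t, w ω * Real.log (F (Y ω % (p : ℤ) ^ (i + l)))) := by
  have hp0 : 0 < p := hp.pos
  have hL0 : 0 < Real.log p := Real.log_pos (by exact_mod_cast hp.one_lt)
  have hl0 : (0 : ℝ) < l := by exact_mod_cast hl
  have hq1 : (0 : ℝ) < (q : ℝ) - 1 := by
    have : (2 : ℝ) ≤ q := by exact_mod_cast hq
    linarith
  obtain ⟨W, hW⟩ : ∃ W : ℝ, W = ∑ ω ∈ t, w ω := ⟨_, rfl⟩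
  have hW0 : 0 ≤ W := by rw [hW]; exact sum_nonneg hw
  -- (a)
  have ha : CE t w (fun ω => X ω % (p : ℤ) ^ (i + 1)) (fun _ => ()) ≤ W * Real.log p := by
    rw [hW]
    refine CE_le_log hw _ _ (fun _ => SS p i 1 x0) hp0 ?_ ?_
    · intro ω hω
      rw [← hX ω hω]
      exact mem_SS hp0 i 1 (X ω)
    · intro ω _
      simpa using card_SS p i 1 x0
  -- digits
  have hU : ∀ ω ∈ t, ∀ ω' ∈ t, (X ω % (p : ℤ) ^ (i + l) = X ω' % (p : ℤ) ^ (i + l) ↔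
      X ω / (p : ℤ) ^ i % (p : ℤ) ^ l = X ω' / (p : ℤ) ^ i % (p : ℤ) ^ l) := fun ω hω ω' hω' =>
    emod_iff hp0 (div_diff (by rw [hX ω hω, hX ω' hω']))
  have hU1 : ∀ ω ∈ t, ∀ ω' ∈ t, (X ω % (p : ℤ) ^ (i + 1) = X ω' % (p : ℤ) ^ (i + 1) ↔
      X ω / (p : ℤ) ^ i % (p : ℤ) = X ω' / (p : ℤ) ^ i % (p : ℤ)) := fun ω hω ω' hω' => by
    have := emod_iff hp0 (i := i) (l := 1)
      (div_diff (P := (p : ℤ) ^ i) (x := X ω) (x' := X ω') (by rw [hX ω hω, hX ω' hω']))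
    rwa [pow_one] at this
  have hV : ∀ ω ∈ t, ∀ ω' ∈ t, (Y ω % (p : ℤ) ^ (i + l) = Y ω' % (p : ℤ) ^ (i + l) ↔
      Y ω / (p : ℤ) ^ i % (p : ℤ) ^ l = Y ω' / (p : ℤ) ^ i % (p : ℤ) ^ l) := fun ω hω ω' hω' =>
    emod_iff hp0 (div_diff (by rw [hY ω hω, hY ω' hω']))
  have hS : ∀ ω ∈ t, ∀ ω' ∈ t,
      ((X ω + Y ω) % (p : ℤ) ^ (i + l) = (X ω' + Y ω') % (p : ℤ) ^ (i + l) ↔
      (X ω / (p : ℤ) ^ i + Y ω / (p : ℤ) ^ i) % (p : ℤ) ^ l
        = (X ω' / (p : ℤ) ^ i + Y ω' / (p : ℤ) ^ i) % (p : ℤ) ^ l) := fun ω hω ω' hω' => by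
    apply emod_iff hp0
    have h1 := div_diff (P := (p : ℤ) ^ i) (x := X ω) (x' := X ω') (by rw [hX ω hω, hX ω' hω'])
    have h2 := div_diff (P := (p : ℤ) ^ i) (x := Y ω) (x' := Y ω') (by rw [hY ω hω, hY ω' hω'])
    linear_combination h1 + h2
  have eU : CE t w (fun ω => X ω % (p : ℤ) ^ (i + l)) (fun _ => ())
      = CE t w (fun ω => X ω / (p : ℤ) ^ i % (p : ℤ) ^ l) (fun _ => ()) :=
    CE_congr (fun _ _ _ _ => Iff.rfl) fun ω hω ω' hω' _ => hU ω hω ω' hω'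
  have eU1 : CE t w (fun ω => X ω % (p : ℤ) ^ (i + 1)) (fun _ => ())
      = CE t w (fun ω => X ω / (p : ℤ) ^ i % (p : ℤ)) (fun _ => ()) :=
    CE_congr (fun _ _ _ _ => Iff.rfl) fun ω hω ω' hω' _ => hU1 ω hω ω' hω'
  have eV : CE t w (fun ω => Y ω % (p : ℤ) ^ (i + l)) (fun _ => ())
      = CE t w (fun ω => Y ω / (p : ℤ) ^ i % (p : ℤ) ^ l) (fun _ => ()) :=
    CE_congr (fun _ _ _ _ => Iff.rfl) fun ω hω ω' hω' _ => hV ω hω ω' hω'
  have eS : CE t w (fun ω => (X ω + Y ω) % (p : ℤ) ^ (i + l)) (fun _ => ())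
      = CE t w (fun ω => (X ω / (p : ℤ) ^ i + Y ω / (p : ℤ) ^ i) % (p : ℤ) ^ l) (fun _ => ()) :=
    CE_congr (fun _ _ _ _ => Iff.rfl) fun ω hω ω' hω' _ => hS ω hω ω' hω'
  have eZ : CE t w (fun ω => (X ω % (p : ℤ) ^ (i + l), Y ω % (p : ℤ) ^ (i + l))) (fun _ => ())
      = CE t w (fun ω => (X ω / (p : ℤ) ^ i % (p : ℤ) ^ l, Y ω / (p : ℤ) ^ i % (p : ℤ) ^ l))
          (fun _ => ()) := by
    refine CE_congr (fun _ _ _ _ => Iff.rfl) fun ω hω ω' hω' _ => ?_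
    rw [Prod.mk.injEq, Prod.mk.injEq, hU ω hω ω' hω', hV ω hω ω' hω']
  -- (b)
  have hpsi := psi_nonneg (s := t) (w := w) hw (fun ω => X ω % (p : ℤ) ^ (i + l))
    (fun ω => Y ω % (p : ℤ) ^ (i + l)) (fun ω => (X ω + Y ω) % (p : ℤ) ^ (i + l))
    (fun _ => ()) (by
      intro ω hω ω' hω' _ hXX
      change X ω ≡ X ω' [ZMOD _] at hXX
      constructor
      · intro h
        change X ω + Y ω ≡ X ω' + Y ω' [ZMOD _] at h
        exact Int.ModEq.add_left_cancel hXX h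
      · intro h
        change Y ω ≡ Y ω' [ZMOD _] at h
        exact hXX.add h)
  obtain ⟨Ψ, hΨ⟩ : ∃ Ψ : ℝ, Ψ = CE t w (fun ω => (X ω + Y ω) % (p : ℤ) ^ (i + l)) (fun _ => ())
            + 2 * CE t w (fun ω => X ω % (p : ℤ) ^ (i + l)) (fun _ => ())
            + CE t w (fun ω => Y ω % (p : ℤ) ^ (i + l)) (fun _ => ())
            - 2 * CE t w (fun ω => (X ω % (p : ℤ) ^ (i + l), Y ω % (p : ℤ) ^ (i + l)))
                (fun _ => ()) := ⟨_, rfl⟩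
  have hΨ0 : 0 ≤ Ψ := by rw [hΨ]; exact hpsi.2.trans hpsi.1
  -- Gibbs
  obtain ⟨H, hH⟩ : ∃ H : ℝ, H = CE t w (fun ω => Y ω % (p : ℤ) ^ (i + l)) (fun _ => ()) :=
    ⟨_, rfl⟩
  obtain ⟨E, hE⟩ : ∃ E : ℝ, E = ∑ ω ∈ t, w ω * Real.log (F (Y ω % (p : ℤ) ^ (i + l))) :=
    ⟨_, rfl⟩
  have hmemS : ∀ ω ∈ t, Y ω % (p : ℤ) ^ (i + l) ∈ SS p i l y0 := fun ω hω => by
    rw [← hY ω hω]
    exact mem_SS hp0 i l (Y ω)
  have hg1 : H + E ≤ l * Real.log p * W := by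
    have := CE_gibbs (s := t) (w := w) hw (fun ω => Y ω % (p : ℤ) ^ (i + l)) (fun _ => ())
      (fun _ => SS p i l y0) (fun a _ => F a) (fun _ => (p : ℝ) ^ l)
      (fun ω hω _ => hmemS ω hω) (fun ω _ _ a _ => hF0 a) (fun ω hω h => hFpos ω hω h)
      (fun ω _ _ => by rw [sum_SS hp0]; exact hF1)
    rw [← hH, ← hE, Real.log_pow, ← sum_mul, ← hW] at this
    linarith
  have hg2 : H + q * E ≤ ζ * W := by
    have := CE_gibbs (s := t) (w := w) hw (fun ω => Y ω % (p : ℤ) ^ (i + l)) (fun _ => ())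
      (fun _ => SS p i l y0) (fun a _ => F a ^ q) (fun _ => Real.exp ζ)
      (fun ω hω _ => hmemS ω hω) (fun ω _ _ a _ => pow_nonneg (hF0 a) q)
      (fun ω hω h => pow_pos (hFpos ω hω h) q)
      (fun ω _ _ => by rw [sum_SS hp0]; exact hFq)
    rw [← hH, Real.log_exp, ← sum_mul, ← hW] at this
    have e : ∑ ω ∈ t, w ω * Real.log (F (Y ω % (p : ℤ) ^ (i + l)) ^ q) = q * E := by
      rw [hE, mul_sum]
      refine sum_congr rfl fun ω _ => ?_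
      rw [Real.log_pow]
      ring
    rw [e] at this
    linarith
  rw [← hΨ, ← hH, ← hE, ← hW]
  obtain ⟨φ, hφ⟩ : ∃ φ : ℝ, φ = ζ * W - H - q * E := ⟨_, rfl⟩
  have hφ0 : 0 ≤ φ := by rw [hφ]; linarith
  rw [← hφ]
  have hκl : 0 < κ * l := by positivity
  have hc1 : 0 ≤ Real.log p / θ * Ψ := by positivity
  have hc2 : 0 ≤ 2 * Real.log p / (κ * l) * φ := by positivity
  by_cases h1 : CE t w (fun ω => X ω % (p : ℤ) ^ (i + 1)) (fun _ => ()) ≤ η * W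
  · linarith
  by_cases h2 : φ ≤ κ * l * W / 2
  · -- the window lemma
    have hD : H ≤ (l * Real.log p - η) * W := by
      have h3 : ((q : ℝ) - 1) * H ≤ ((q : ℝ) - 1) * (l * Real.log p * W) - κ * l * W / 2 := by
        have h4 : (q : ℝ) * (H + E) ≤ q * (l * Real.log p * W) :=
          mul_le_mul_of_nonneg_left hg1 (by positivity)
        have h5 : (l : ℝ) * (Real.log p + κ) * W ≤ ζ * W := mul_le_mul_of_nonneg_right hζ hW0
        nlinarith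
      have h6 : ((q : ℝ) - 1) * (η * W) ≤ κ * l * W / 2 := by
        have h7 : η * (2 * ((q : ℝ) - 1)) * W ≤ κ * W := mul_le_mul_of_nonneg_right hηκ hW0
        have h8 : κ * W * 1 ≤ κ * W * l :=
          mul_le_mul_of_nonneg_left (by exact_mod_cast hl) (by positivity)
        nlinarith
      have h9 : ((q : ℝ) - 1) * H ≤ ((q : ℝ) - 1) * ((l * Real.log p - η) * W) := by
        nlinarith
      exact le_of_mul_le_mul_left h9 hq1
    have h3 := hwin t w hw (fun ω => X ω / (p : ℤ) ^ i) (fun ω => Y ω / (p : ℤ) ^ i)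
      (by rw [← eU1, ← hW]; exact (not_le.1 h1).le) (by rw [← eV, ← hH, ← hW]; exact hD)
    rw [← eS, ← eU, ← eV, ← eZ, ← hΨ, ← hW] at h3
    have h4 : W * Real.log p ≤ Real.log p / θ * Ψ := by
      rw [div_mul_eq_mul_div, le_div_iff₀ hθ]
      nlinarith
    have h5 : 0 ≤ η * W := by positivity
    linarith
  · have h3 : W * Real.log p ≤ 2 * Real.log p / (κ * l) * φ := by
      rw [div_mul_eq_mul_div, le_div_iff₀ hκl]
      nlinarith [not_le.1 h2]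
    have h5 : 0 ≤ η * W := by positivity
    linarith

/-- the inequality for one window -/
lemma window {p : ℕ} (hp : p.Prime) {q l i : ℕ} (hq : 2 ≤ q) (hl : 1 ≤ l) {κ η θ ζ : ℝ}
    (hκ : 0 < κ) (hηκ : η * (2 * ((q : ℝ) - 1)) ≤ κ) (hθ : 0 < θ)
    (hwin : WinHyp p l η θ) (hη : 0 < η)
    (hζ : (l : ℝ) * (Real.log p + κ) ≤ ζ)
    {Ω Γ : Type} (s : Finset Ω) (w : Ω → ℝ) (γ : Ω → Γ) (X Y : Ω → ℤ)
    (hw : ∀ ω ∈ s, 0 ≤ w ω) (hw1 : ∑ ω ∈ s, w ω = 1) (R : Γ → ℤ → ℝ)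
    (hR0 : ∀ g y, 0 ≤ R g y)
    (hRpos : ∀ ω ∈ s, 0 < w ω → 0 < R (γ ω) (Y ω % (p : ℤ) ^ (i + l)))
    (hR1 : ∀ ω ∈ s, ∑ v ∈ range (p ^ l), R (γ ω) (Y ω % (p : ℤ) ^ i + (p : ℤ) ^ i * v)
      ≤ (p : ℝ) ^ l)
    (hRq : ∀ ω ∈ s, ∑ v ∈ range (p ^ l), R (γ ω) (Y ω % (p : ℤ) ^ i + (p : ℤ) ^ i * v) ^ q
      ≤ Real.exp ζ) :
    CE s w (fun ω => X ω % (p : ℤ) ^ (i + 1))
        (fun ω => (γ ω, X ω % (p : ℤ) ^ i, Y ω % (p : ℤ) ^ i))
      ≤ η + Real.log p / θ *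
          (CE s w (fun ω => (X ω + Y ω) % (p : ℤ) ^ (i + l))
              (fun ω => (γ ω, X ω % (p : ℤ) ^ i, Y ω % (p : ℤ) ^ i))
            + 2 * CE s w (fun ω => X ω % (p : ℤ) ^ (i + l))
              (fun ω => (γ ω, X ω % (p : ℤ) ^ i, Y ω % (p : ℤ) ^ i))
            + CE s w (fun ω => Y ω % (p : ℤ) ^ (i + l))
              (fun ω => (γ ω, X ω % (p : ℤ) ^ i, Y ω % (p : ℤ) ^ i))
            - 2 * CE s w (fun ω => (X ω % (p : ℤ) ^ (i + l), Y ω % (p : ℤ) ^ (i + l)))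
              (fun ω => (γ ω, X ω % (p : ℤ) ^ i, Y ω % (p : ℤ) ^ i)))
        + 2 * Real.log p / (κ * l) * (ζ
            - CE s w (fun ω => Y ω % (p : ℤ) ^ (i + l))
              (fun ω => (γ ω, X ω % (p : ℤ) ^ i, Y ω % (p : ℤ) ^ i))
            - q * ∑ ω ∈ s, w ω * Real.log (R (γ ω) (Y ω % (p : ℤ) ^ (i + l)))) := by
  classical
  obtain ⟨h, hh⟩ : ∃ h : Ω → Γ × ℤ × ℤ,
    h = fun ω => (γ ω, X ω % (p : ℤ) ^ i, Y ω % (p : ℤ) ^ i) := ⟨_, rfl⟩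
  rw [← hh]
  have hfib : ∀ {α : Type} (f : Ω → α), CE s w f h
      = ∑ c ∈ s.image h, CE (s.filter fun ω => h ω = c) w f (fun _ => ()) := by
    intro α f
    rw [CE_fiber (s := s) (w := w) f h]
    refine sum_congr ?_ fun c _ => ?_
    · ext c
      simp only [mem_image]
    · have e : ∀ (d1 d2 : DecidablePred fun ω => h ω = c),
          @filter Ω (fun ω => h ω = c) d1 s = @filter Ω (fun ω => h ω = c) d2 s := by
        intro d1 d2
        ext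
        simp only [mem_filter]
      exact congrArg (fun t => CE t w f (fun _ => ())) (e _ _)
  have hsum : ∀ G : Ω → ℝ, ∑ ω ∈ s, G ω = ∑ c ∈ s.image h, ∑ ω ∈ s.filter (fun ω => h ω = c), G ω := by
    intro G
    exact (sum_fiberwise_of_maps_to (fun ω hω => mem_image_of_mem h hω) G).symm
  have key : ∀ c ∈ s.image h,
      CE (s.filter fun ω => h ω = c) w (fun ω => X ω % (p : ℤ) ^ (i + 1)) (fun _ => ())
      ≤ η * ∑ ω ∈ s.filter (fun ω => h ω = c), w ω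
        + Real.log p / θ *
            (CE (s.filter fun ω => h ω = c) w (fun ω => (X ω + Y ω) % (p : ℤ) ^ (i + l)) (fun _ => ())
            + 2 * CE (s.filter fun ω => h ω = c) w (fun ω => X ω % (p : ℤ) ^ (i + l)) (fun _ => ())
            + CE (s.filter fun ω => h ω = c) w (fun ω => Y ω % (p : ℤ) ^ (i + l)) (fun _ => ())
            - 2 * CE (s.filter fun ω => h ω = c) w
              (fun ω => (X ω % (p : ℤ) ^ (i + l), Y ω % (p : ℤ) ^ (i + l))) (fun _ => ()))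
        + 2 * Real.log p / (κ * l) * (ζ * ∑ ω ∈ s.filter (fun ω => h ω = c), w ω
            - CE (s.filter fun ω => h ω = c) w (fun ω => Y ω % (p : ℤ) ^ (i + l)) (fun _ => ())
            - q * ∑ ω ∈ s.filter (fun ω => h ω = c),
                w ω * Real.log (R (γ ω) (Y ω % (p : ℤ) ^ (i + l)))) := by
    intro c hc
    obtain ⟨ω₀, hω₀, rfl⟩ := mem_image.1 hc
    have hmem : ∀ ω ∈ s.filter (fun ω => h ω = h ω₀), ω ∈ s ∧ γ ω = γ ω₀ ∧
        X ω % (p : ℤ) ^ i = X ω₀ % (p : ℤ) ^ i ∧ Y ω % (p : ℤ) ^ i = Y ω₀ % (p : ℤ) ^ i := by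
      intro ω hω
      rw [mem_filter, hh] at hω
      obtain ⟨h1, h2⟩ := hω
      simp only [Prod.mk.injEq] at h2
      exact ⟨h1, h2⟩
    have hE : ∑ ω ∈ s.filter (fun ω => h ω = h ω₀),
        w ω * Real.log (R (γ ω) (Y ω % (p : ℤ) ^ (i + l)))
        = ∑ ω ∈ s.filter (fun ω => h ω = h ω₀),
        w ω * Real.log (R (γ ω₀) (Y ω % (p : ℤ) ^ (i + l))) :=
      sum_congr rfl fun ω hω => by rw [(hmem ω hω).2.1]
    rw [hE]
    exact fibre hp hq hl hκ hηκ hθ hwin hη hζ (s.filter fun ω => h ω = h ω₀) w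
      (fun ω hω => hw ω (hmem ω hω).1) X Y (X ω₀ % (p : ℤ) ^ i) (Y ω₀ % (p : ℤ) ^ i)
      (fun ω hω => (hmem ω hω).2.2.1) (fun ω hω => (hmem ω hω).2.2.2) (R (γ ω₀)) (hR0 (γ ω₀))
      (fun ω hω h0 => by
        have := hRpos ω (hmem ω hω).1 h0
        rwa [(hmem ω hω).2.1] at this) (hR1 ω₀ hω₀) (hRq ω₀ hω₀)
  have hsumkey := sum_le_sum key
  rw [← hfib] at hsumkey
  refine hsumkey.trans (le_of_eq ?_)
  simp only [sum_add_distrib, sum_sub_distrib, ← mul_sum, ← hfib, ← hsum, hw1, mul_one]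

/-! ### telescoping over an arithmetic progression -/

lemma Ir_eq {l r m : ℕ} (hl : 1 ≤ l) (hr : r < l) :
    (range m).filter (fun i => i % l = r ∧ i + l ≤ m)
      = (range ((m - r) / l)).image (fun j => r + j * l) := by
  ext i
  simp only [mem_filter, mem_range, mem_image]
  constructor
  · rintro ⟨h1, h2, h3⟩
    refine ⟨i / l, ?_, ?_⟩
    · rw [Nat.lt_div_iff_mul_lt (by omega)]
      have h4 : l * (i / l) + i % l = i := Nat.div_add_mod i l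
      rw [h2] at h4
      have h5 : i / l * l = l * (i / l) := Nat.mul_comm _ _
      omega
    · have h4 : l * (i / l) + i % l = i := Nat.div_add_mod i l
      rw [h2] at h4
      have h5 : i / l * l = l * (i / l) := Nat.mul_comm _ _
      omega
  · rintro ⟨j, h1, rfl⟩
    have h2 : (j + 1) * l ≤ m - r := by
      calc (j + 1) * l ≤ (m - r) / l * l := Nat.mul_le_mul_right _ h1
        _ ≤ m - r := Nat.div_mul_le_self _ _
    have h3 : (j + 1) * l = j * l + l := by ring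
    refine ⟨by omega, ?_, by omega⟩
    rw [Nat.add_mul_mod_self_right, Nat.mod_eq_of_lt hr]

lemma sum_Ir {l r m : ℕ} (hl : 1 ≤ l) (hr : r < l) (G : ℕ → ℝ) :
    ∑ i ∈ (range m).filter (fun i => i % l = r ∧ i + l ≤ m), G i
      = ∑ j ∈ range ((m - r) / l), G (r + j * l) := by
  rw [Ir_eq hl hr, sum_image]
  intro a _ b _ hab
  have h1 : a * l = b * l := Nat.add_left_cancel hab
  exact Nat.eq_of_mul_eq_mul_right hl h1

lemma tel_Ir {l r m : ℕ} (hl : 1 ≤ l) (hr : r < l) (G : ℕ → ℝ) :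
    ∑ i ∈ (range m).filter (fun i => i % l = r ∧ i + l ≤ m), (G (i + l) - G i)
      = G (r + (m - r) / l * l) - G r := by
  rw [sum_Ir hl hr]
  have h1 : ∀ j, G (r + j * l + l) - G (r + j * l) = G (r + (j + 1) * l) - G (r + j * l) := by
    intro j
    rw [show r + (j + 1) * l = r + j * l + l by ring]
  simp only [h1]
  rw [sum_range_sub (fun j => G (r + j * l))]
  simp

lemma end_Ir {l r m : ℕ} (hr : r < l) (hm : l ≤ m) :
    r + (m - r) / l * l ≤ m ∧ m ≤ r + (m - r) / l * l + l := by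
  have h1 := Nat.div_mul_le_self (m - r) l
  have h2 := Nat.lt_div_mul_add (a := m - r) (b := l) (by omega)
  constructor <;> omega

lemma card_Ir {l r m : ℕ} (hl : 1 ≤ l) : ((((m - r) / l : ℕ)) : ℝ) ≤ (m : ℝ) / l := by
  have h0 : (0 : ℝ) < l := by exact_mod_cast hl
  rw [le_div_iff₀ h0]
  have : (m - r) / l * l ≤ m := (Nat.div_mul_le_self _ _).trans (Nat.sub_le _ _)
  exact_mod_cast this

/-! ### entropy of digits -/

section Dig

variable {Ω β : Type} {s : Finset Ω} {w : Ω → ℝ} {p : ℕ}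

lemma dig_tel (X : Ω → ℤ) (h : Ω → β) {i j : ℕ} (hij : i ≤ j) :
    CE s w (fun ω => X ω % (p : ℤ) ^ j) h = CE s w (fun ω => X ω % (p : ℤ) ^ i) h
      + CE s w (fun ω => X ω % (p : ℤ) ^ j) (fun ω => (X ω % (p : ℤ) ^ i, h ω)) :=
  CE_tel _ _ _ fun _ _ _ _ _ hx => emod_congr_of_le p hij hx

lemma dig_le (hp : p.Prime) (hw : ∀ ω ∈ s, 0 ≤ w ω) (hw1 : ∑ ω ∈ s, w ω = 1) (X : Ω → ℤ)
    (h : Ω → β) {i j : ℕ} (hij : i ≤ j) :
    CE s w (fun ω => X ω % (p : ℤ) ^ j) (fun ω => (X ω % (p : ℤ) ^ i, h ω))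
      ≤ ((j : ℝ) - i) * Real.log p := by
  have h1 : CE s w (fun ω => X ω % (p : ℤ) ^ j) (fun ω => (X ω % (p : ℤ) ^ i, h ω))
      ≤ (∑ ω ∈ s, w ω) * Real.log ((p ^ (j - i) : ℕ) : ℝ) := by
    refine CE_le_log hw _ _ (fun b : ℤ × β => SS p i (j - i) b.1)
      (Nat.one_le_pow _ _ hp.pos) ?_ ?_
    · intro ω _
      have := mem_SS hp.pos i (j - i) (X ω)
      rwa [Nat.add_sub_cancel' hij] at this
    · intro ω _
      exact card_SS _ _ _ _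
  rw [hw1, one_mul] at h1
  refine h1.trans (le_of_eq ?_)
  push_cast
  rw [Real.log_pow, Nat.cast_sub hij]

lemma dig_diff (hp : p.Prime) (hw : ∀ ω ∈ s, 0 ≤ w ω) (hw1 : ∑ ω ∈ s, w ω = 1) (X : Ω → ℤ)
    (h : Ω → β) {i j : ℕ} (hij : i ≤ j) :
    CE s w (fun ω => X ω % (p : ℤ) ^ i) h ≤ CE s w (fun ω => X ω % (p : ℤ) ^ j) h ∧
    CE s w (fun ω => X ω % (p : ℤ) ^ j) h
      ≤ CE s w (fun ω => X ω % (p : ℤ) ^ i) h + ((j : ℝ) - i) * Real.log p := by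
  have h1 := dig_tel (s := s) (w := w) (p := p) X h hij
  have h2 := dig_le hp hw hw1 X h hij
  have h3 := CE_nonneg hw (fun ω => X ω % (p : ℤ) ^ j) (fun ω => (X ω % (p : ℤ) ^ i, h ω))
  constructor <;> linarith

lemma dig_zero (hw : ∀ ω ∈ s, 0 ≤ w ω) (X : Ω → ℤ) (h : Ω → β) :
    CE s w (fun ω => X ω % (p : ℤ) ^ 0) h = 0 := by
  apply le_antisymm _ (CE_nonneg hw _ _)
  have h1 := CE_le_log (s := s) (w := w) hw (fun ω => X ω % (p : ℤ) ^ 0) h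
    (fun _ : β => ({0} : Finset ℤ)) (N := 1) le_rfl (by intro ω _; simp) (by intro ω _; simp)
  simpa using h1

lemma dig_le' (hp : p.Prime) (hw : ∀ ω ∈ s, 0 ≤ w ω) (hw1 : ∑ ω ∈ s, w ω = 1) (X : Ω → ℤ)
    (h : Ω → β) (i : ℕ) : CE s w (fun ω => X ω % (p : ℤ) ^ i) h ≤ i * Real.log p := by
  have h1 := (dig_diff hp hw hw1 X h (Nat.zero_le i)).2
  rw [dig_zero hw] at h1
  simpa using h1

/-- the pair of digits -/
lemma pair_diff (hp : p.Prime) (hw : ∀ ω ∈ s, 0 ≤ w ω) (hw1 : ∑ ω ∈ s, w ω = 1) (X Y : Ω → ℤ)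
    (h : Ω → β) {i j : ℕ} (hij : i ≤ j) :
    CE s w (fun ω => (X ω % (p : ℤ) ^ j, Y ω % (p : ℤ) ^ j)) h
      ≤ CE s w (fun ω => (X ω % (p : ℤ) ^ i, Y ω % (p : ℤ) ^ i)) h
        + 2 * ((j : ℝ) - i) * Real.log p := by
  have e1 : CE s w (fun ω => (X ω % (p : ℤ) ^ j, Y ω % (p : ℤ) ^ j)) h
      = CE s w (fun ω => Y ω % (p : ℤ) ^ j) h
        + CE s w (fun ω => X ω % (p : ℤ) ^ j) (fun ω => (Y ω % (p : ℤ) ^ j, h ω)) :=
    CE_chain _ _ _
  have e2 : CE s w (fun ω => (X ω % (p : ℤ) ^ i, Y ω % (p : ℤ) ^ i)) h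
      = CE s w (fun ω => Y ω % (p : ℤ) ^ i) h
        + CE s w (fun ω => X ω % (p : ℤ) ^ i) (fun ω => (Y ω % (p : ℤ) ^ i, h ω)) :=
    CE_chain _ _ _
  have h1 := (dig_diff hp hw hw1 Y h hij).2
  have h2 : CE s w (fun ω => X ω % (p : ℤ) ^ j) (fun ω => (Y ω % (p : ℤ) ^ j, h ω))
      ≤ CE s w (fun ω => X ω % (p : ℤ) ^ j) (fun ω => (Y ω % (p : ℤ) ^ i, h ω)) := by
    refine CE_mono_right hw _ fun ω _ ω' _ hh => ?_
    rw [Prod.mk.injEq] at hh ⊢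
    exact ⟨emod_congr_of_le p hij hh.1, hh.2⟩
  have h3 := (dig_diff hp hw hw1 X (fun ω => (Y ω % (p : ℤ) ^ i, h ω)) hij).2
  linarith

end Dig

/-- upper bound for the conditional entropy of `X mod p^j` by a sum over the digits -/
lemma chain_X {p m : ℕ} {Ω Γ : Type} {s : Finset Ω} {w : Ω → ℝ} (γ : Ω → Γ) (X Y : Ω → ℤ)
    (hw : ∀ ω ∈ s, 0 ≤ w ω) : ∀ j, j ≤ m →
    CE s w (fun ω => X ω % (p : ℤ) ^ j) (fun ω => (Y ω % (p : ℤ) ^ m, γ ω))
      ≤ ∑ i ∈ range j, CE s w (fun ω => X ω % (p : ℤ) ^ (i + 1))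
          (fun ω => (γ ω, X ω % (p : ℤ) ^ i, Y ω % (p : ℤ) ^ i)) := by
  intro j
  induction j with
  | zero =>
    intro _
    rw [dig_zero hw, range_zero, sum_empty]
  | succ j ih =>
    intro hj
    rw [dig_tel (s := s) (w := w) (p := p) X _ (Nat.le_succ j), sum_range_succ]
    refine add_le_add (ih (by omega)) (CE_mono_right hw _ fun ω _ ω' _ hh => ?_)
    simp only [Prod.mk.injEq] at hh ⊢
    exact ⟨hh.2.2, hh.1, emod_congr_of_le p (by omega) hh.2.1⟩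

/-- bound for the sum of the `Ψ_i` over a residue class of windows -/
lemma sum_psi {p l r m : ℕ} (hp : p.Prime) (hl : 1 ≤ l) (hr : r < l) (hm : l ≤ m)
    {Ω Γ : Type} {s : Finset Ω} {w : Ω → ℝ} (γ : Ω → Γ) (X Y : Ω → ℤ)
    (hw : ∀ ω ∈ s, 0 ≤ w ω) (hw1 : ∑ ω ∈ s, w ω = 1) :
    ∑ i ∈ (range m).filter (fun i => i % l = r ∧ i + l ≤ m),
      (CE s w (fun ω => (X ω + Y ω) % (p : ℤ) ^ (i + l))
          (fun ω => (γ ω, X ω % (p : ℤ) ^ i, Y ω % (p : ℤ) ^ i))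
        + 2 * CE s w (fun ω => X ω % (p : ℤ) ^ (i + l))
          (fun ω => (γ ω, X ω % (p : ℤ) ^ i, Y ω % (p : ℤ) ^ i))
        + CE s w (fun ω => Y ω % (p : ℤ) ^ (i + l))
          (fun ω => (γ ω, X ω % (p : ℤ) ^ i, Y ω % (p : ℤ) ^ i))
        - 2 * CE s w (fun ω => (X ω % (p : ℤ) ^ (i + l), Y ω % (p : ℤ) ^ (i + l)))
          (fun ω => (γ ω, X ω % (p : ℤ) ^ i, Y ω % (p : ℤ) ^ i)))
      ≤ (CE s w (fun ω => (X ω + Y ω) % (p : ℤ) ^ m) γ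
          + 2 * CE s w (fun ω => X ω % (p : ℤ) ^ m) γ
          + CE s w (fun ω => Y ω % (p : ℤ) ^ m) γ
          - 2 * CE s w (fun ω => (X ω % (p : ℤ) ^ m, Y ω % (p : ℤ) ^ m)) γ)
        + 8 * l * Real.log p := by
  have hL0 : 0 < Real.log p := Real.log_pos (by exact_mod_cast hp.one_lt)
  obtain ⟨GV, hGV⟩ : ∃ G : ℕ → ℝ, G = fun i => CE s w (fun ω => (X ω + Y ω) % (p : ℤ) ^ i) γ :=
    ⟨_, rfl⟩
  obtain ⟨GX, hGX⟩ : ∃ G : ℕ → ℝ, G = fun i => CE s w (fun ω => X ω % (p : ℤ) ^ i) γ :=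
    ⟨_, rfl⟩
  obtain ⟨GY, hGY⟩ : ∃ G : ℕ → ℝ, G = fun i => CE s w (fun ω => Y ω % (p : ℤ) ^ i) γ :=
    ⟨_, rfl⟩
  obtain ⟨GZ, hGZ⟩ : ∃ G : ℕ → ℝ, G = fun i =>
    CE s w (fun ω => (X ω % (p : ℤ) ^ i, Y ω % (p : ℤ) ^ i)) γ := ⟨_, rfl⟩
  have hterm : ∀ i, CE s w (fun ω => (X ω + Y ω) % (p : ℤ) ^ (i + l))
          (fun ω => (γ ω, X ω % (p : ℤ) ^ i, Y ω % (p : ℤ) ^ i))
        + 2 * CE s w (fun ω => X ω % (p : ℤ) ^ (i + l))
          (fun ω => (γ ω, X ω % (p : ℤ) ^ i, Y ω % (p : ℤ) ^ i))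
        + CE s w (fun ω => Y ω % (p : ℤ) ^ (i + l))
          (fun ω => (γ ω, X ω % (p : ℤ) ^ i, Y ω % (p : ℤ) ^ i))
        - 2 * CE s w (fun ω => (X ω % (p : ℤ) ^ (i + l), Y ω % (p : ℤ) ^ (i + l)))
          (fun ω => (γ ω, X ω % (p : ℤ) ^ i, Y ω % (p : ℤ) ^ i))
      ≤ (GV (i + l) - GV i) + 2 * (GX (i + l) - GX i) + (GY (i + l) - GY i)
        - 2 * (GZ (i + l) - GZ i) := by
    intro i
    have v1 := dig_tel (s := s) (w := w) (p := p) (fun ω => X ω + Y ω) γ (Nat.le_add_right i l)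
    have x1 := dig_tel (s := s) (w := w) (p := p) X γ (Nat.le_add_right i l)
    have y1 := dig_tel (s := s) (w := w) (p := p) Y γ (Nat.le_add_right i l)
    have v2 : CE s w (fun ω => (X ω + Y ω) % (p : ℤ) ^ (i + l))
          (fun ω => (γ ω, X ω % (p : ℤ) ^ i, Y ω % (p : ℤ) ^ i))
        ≤ CE s w (fun ω => (X ω + Y ω) % (p : ℤ) ^ (i + l))
          (fun ω => ((X ω + Y ω) % (p : ℤ) ^ i, γ ω)) := by
      refine CE_mono_right hw _ fun ω _ ω' _ hh => ?_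
      simp only [Prod.mk.injEq] at hh ⊢
      refine ⟨?_, hh.1⟩
      have hx : X ω ≡ X ω' [ZMOD _] := hh.2.1
      have hy : Y ω ≡ Y ω' [ZMOD _] := hh.2.2
      exact hx.add hy
    have x2 : CE s w (fun ω => X ω % (p : ℤ) ^ (i + l))
          (fun ω => (γ ω, X ω % (p : ℤ) ^ i, Y ω % (p : ℤ) ^ i))
        ≤ CE s w (fun ω => X ω % (p : ℤ) ^ (i + l)) (fun ω => (X ω % (p : ℤ) ^ i, γ ω)) := by
      refine CE_mono_right hw _ fun ω _ ω' _ hh => ?_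
      simp only [Prod.mk.injEq] at hh ⊢
      exact ⟨hh.2.1, hh.1⟩
    have y2 : CE s w (fun ω => Y ω % (p : ℤ) ^ (i + l))
          (fun ω => (γ ω, X ω % (p : ℤ) ^ i, Y ω % (p : ℤ) ^ i))
        ≤ CE s w (fun ω => Y ω % (p : ℤ) ^ (i + l)) (fun ω => (Y ω % (p : ℤ) ^ i, γ ω)) := by
      refine CE_mono_right hw _ fun ω _ ω' _ hh => ?_
      simp only [Prod.mk.injEq] at hh ⊢
      exact ⟨hh.2.2, hh.1⟩
    have z1 : CE s w (fun ω => (X ω % (p : ℤ) ^ (i + l), Y ω % (p : ℤ) ^ (i + l))) γ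
        = CE s w (fun ω => (X ω % (p : ℤ) ^ i, Y ω % (p : ℤ) ^ i)) γ
          + CE s w (fun ω => (X ω % (p : ℤ) ^ (i + l), Y ω % (p : ℤ) ^ (i + l)))
            (fun ω => ((X ω % (p : ℤ) ^ i, Y ω % (p : ℤ) ^ i), γ ω)) := by
      refine CE_tel _ _ _ fun ω _ ω' _ _ hx => ?_
      rw [Prod.mk.injEq] at hx ⊢
      exact ⟨emod_congr_of_le p (Nat.le_add_right i l) hx.1,
        emod_congr_of_le p (Nat.le_add_right i l) hx.2⟩
    have z2 : CE s w (fun ω => (X ω % (p : ℤ) ^ (i + l), Y ω % (p : ℤ) ^ (i + l)))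
            (fun ω => ((X ω % (p : ℤ) ^ i, Y ω % (p : ℤ) ^ i), γ ω))
        = CE s w (fun ω => (X ω % (p : ℤ) ^ (i + l), Y ω % (p : ℤ) ^ (i + l)))
          (fun ω => (γ ω, X ω % (p : ℤ) ^ i, Y ω % (p : ℤ) ^ i)) := by
      refine CE_congr (fun ω _ ω' _ => ?_) fun _ _ _ _ _ => Iff.rfl
      simp only [Prod.mk.injEq]
      tauto
    simp only [hGV, hGX, hGY, hGZ]
    linarith
  refine (sum_le_sum fun i _ => hterm i).trans ?_
  have hsplit : ∑ i ∈ (range m).filter (fun i => i % l = r ∧ i + l ≤ m),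
      ((GV (i + l) - GV i) + 2 * (GX (i + l) - GX i) + (GY (i + l) - GY i)
        - 2 * (GZ (i + l) - GZ i))
      = (GV (r + (m - r) / l * l) - GV r) + 2 * (GX (r + (m - r) / l * l) - GX r)
        + (GY (r + (m - r) / l * l) - GY r) - 2 * (GZ (r + (m - r) / l * l) - GZ r) := by
    rw [sum_sub_distrib, sum_add_distrib, sum_add_distrib, ← mul_sum, ← mul_sum,
      tel_Ir hl hr, tel_Ir hl hr, tel_Ir hl hr, tel_Ir hl hr]
  rw [hsplit]
  obtain ⟨e1, e2⟩ := end_Ir hr hm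
  obtain ⟨e, he⟩ : ∃ e : ℕ, e = r + (m - r) / l * l := ⟨_, rfl⟩
  rw [← he] at e1 e2 ⊢
  have b1 : GV e ≤ GV m := by
    rw [hGV]; exact (dig_diff hp hw hw1 (fun ω => X ω + Y ω) γ e1).1
  have b2 : GX e ≤ GX m := by rw [hGX]; exact (dig_diff hp hw hw1 X γ e1).1
  have b3 : GY e ≤ GY m := by rw [hGY]; exact (dig_diff hp hw hw1 Y γ e1).1
  have b4 : GZ m ≤ GZ e + 2 * ((m : ℝ) - e) * Real.log p := by
    rw [hGZ]; exact pair_diff hp hw hw1 X Y γ e1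
  have b5 : GZ r ≤ 2 * (r : ℝ) * Real.log p := by
    have h1 := pair_diff hp hw hw1 X Y γ (Nat.zero_le r)
    have h2 : CE s w (fun ω => (X ω % (p : ℤ) ^ 0, Y ω % (p : ℤ) ^ 0)) γ = 0 := by
      rw [CE_chain (fun ω => X ω % (p : ℤ) ^ 0) (fun ω => Y ω % (p : ℤ) ^ 0) γ, dig_zero hw,
        dig_zero hw, add_zero]
    rw [h2] at h1
    rw [hGZ]
    simpa using h1
  have b6 : 0 ≤ GV r := by rw [hGV]; exact CE_nonneg hw _ _
  have b7 : 0 ≤ GX r := by rw [hGX]; exact CE_nonneg hw _ _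
  have b8 : 0 ≤ GY r := by rw [hGY]; exact CE_nonneg hw _ _
  have c1 : ((m : ℝ) - e) * Real.log p ≤ l * Real.log p := by
    apply mul_le_mul_of_nonneg_right _ hL0.le
    have : (m : ℝ) ≤ e + l := by exact_mod_cast e2
    linarith
  have c2 : (r : ℝ) * Real.log p ≤ l * Real.log p := by
    apply mul_le_mul_of_nonneg_right _ hL0.le
    exact_mod_cast hr.le
  have f1 : GV m = CE s w (fun ω => (X ω + Y ω) % (p : ℤ) ^ m) γ := by rw [hGV]
  have f2 : GX m = CE s w (fun ω => X ω % (p : ℤ) ^ m) γ := by rw [hGX]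
  have f3 : GY m = CE s w (fun ω => Y ω % (p : ℤ) ^ m) γ := by rw [hGY]
  have f4 : GZ m = CE s w (fun ω => (X ω % (p : ℤ) ^ m, Y ω % (p : ℤ) ^ m)) γ := by rw [hGZ]
  rw [← f1, ← f2, ← f3, ← f4]
  linarith

/-- lower bound for the sum of the entropies of `Y` along a residue class of windows -/
lemma sum_Y {p l r m : ℕ} (hp : p.Prime) (hl : 1 ≤ l) (hr : r < l) (hm : l ≤ m)
    {Ω Γ : Type} {s : Finset Ω} {w : Ω → ℝ} (γ : Ω → Γ) (X Y : Ω → ℤ)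
    (hw : ∀ ω ∈ s, 0 ≤ w ω) (hw1 : ∑ ω ∈ s, w ω = 1) :
    CE s w (fun ω => Y ω % (p : ℤ) ^ m) (fun ω => (X ω % (p : ℤ) ^ m, γ ω)) - 2 * l * Real.log p
      ≤ ∑ i ∈ (range m).filter (fun i => i % l = r ∧ i + l ≤ m),
        CE s w (fun ω => Y ω % (p : ℤ) ^ (i + l))
          (fun ω => (γ ω, X ω % (p : ℤ) ^ i, Y ω % (p : ℤ) ^ i)) := by
  have hL0 : 0 < Real.log p := Real.log_pos (by exact_mod_cast hp.one_lt)
  obtain ⟨GY, hGY⟩ : ∃ G : ℕ → ℝ, G = fun i =>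
    CE s w (fun ω => Y ω % (p : ℤ) ^ i) (fun ω => (X ω % (p : ℤ) ^ m, γ ω)) := ⟨_, rfl⟩
  have hterm : ∀ i ∈ (range m).filter (fun i => i % l = r ∧ i + l ≤ m),
      GY (i + l) - GY i ≤ CE s w (fun ω => Y ω % (p : ℤ) ^ (i + l))
          (fun ω => (γ ω, X ω % (p : ℤ) ^ i, Y ω % (p : ℤ) ^ i)) := by
    intro i hi
    rw [mem_filter, mem_range] at hi
    have y1 := dig_tel (s := s) (w := w) (p := p) Y (fun ω => (X ω % (p : ℤ) ^ m, γ ω))
      (Nat.le_add_right i l)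
    have y2 : CE s w (fun ω => Y ω % (p : ℤ) ^ (i + l))
        (fun ω => (Y ω % (p : ℤ) ^ i, (X ω % (p : ℤ) ^ m, γ ω)))
        ≤ CE s w (fun ω => Y ω % (p : ℤ) ^ (i + l))
          (fun ω => (γ ω, X ω % (p : ℤ) ^ i, Y ω % (p : ℤ) ^ i)) := by
      refine CE_mono_right hw _ fun ω _ ω' _ hh => ?_
      simp only [Prod.mk.injEq] at hh ⊢
      exact ⟨hh.2.2, emod_congr_of_le p hi.1.le hh.2.1, hh.1⟩
    simp only [hGY]
    linarith
  refine le_trans ?_ (sum_le_sum hterm)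
  rw [tel_Ir hl hr]
  obtain ⟨e1, e2⟩ := end_Ir hr hm
  obtain ⟨e, he⟩ : ∃ e : ℕ, e = r + (m - r) / l * l := ⟨_, rfl⟩
  rw [← he] at e1 e2 ⊢
  have b1 : GY m ≤ GY e + ((m : ℝ) - e) * Real.log p := by
    rw [hGY]; exact (dig_diff hp hw hw1 Y _ e1).2
  have b2 : GY r ≤ (r : ℝ) * Real.log p := by
    rw [hGY]; exact dig_le' hp hw hw1 Y _ r
  have c1 : ((m : ℝ) - e) * Real.log p ≤ l * Real.log p := by
    apply mul_le_mul_of_nonneg_right _ hL0.le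
    have : (m : ℝ) ≤ e + l := by exact_mod_cast e2
    linarith
  have c2 : (r : ℝ) * Real.log p ≤ l * Real.log p := by
    apply mul_le_mul_of_nonneg_right _ hL0.le
    exact_mod_cast hr.le
  have f1 : GY m = CE s w (fun ω => Y ω % (p : ℤ) ^ m) (fun ω => (X ω % (p : ℤ) ^ m, γ ω)) := by
    rw [hGY]
  rw [← f1]
  linarith

end CoreAux

open CoreAux

theorem core {p : ℕ} (hp : p.Prime) {q : ℕ} (hq : 2 ≤ q) {c κ : ℝ} (hc : 0 < c) (hκ : 0 < κ) :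
    ∃ ε₀ : ℝ, 0 < ε₀ ∧ ∀ l : ℕ, 1 ≤ l → ∃ δ : ℝ, 0 < δ ∧ ∃ m₀ : ℕ, ∀ m : ℕ, m₀ ≤ m →
      ∀ ζ : ℝ, (l : ℝ) * (Real.log p + κ) ≤ ζ →
      ∀ {Ω Γ : Type} (s : Finset Ω) (w : Ω → ℝ) (γ : Ω → Γ) (X Y : Ω → ℤ) (R : ℕ → Γ → ℤ → ℝ),
        (∀ ω ∈ s, 0 ≤ w ω) → ∑ ω ∈ s, w ω = 1 →
        (∀ i g y, 0 ≤ R i g y) →
        (∀ i, i + l ≤ m → ∀ ω ∈ s, 0 < w ω → 0 < R i (γ ω) (Y ω % (p : ℤ) ^ (i + l))) →
        (∀ i, i + l ≤ m → ∀ ω ∈ s,
          ∑ v ∈ range (p ^ l), R i (γ ω) (Y ω % (p : ℤ) ^ i + (p : ℤ) ^ i * v) ≤ (p : ℝ) ^ l) →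
        (∀ i, i + l ≤ m → ∀ ω ∈ s,
          ∑ v ∈ range (p ^ l), R i (γ ω) (Y ω % (p : ℤ) ^ i + (p : ℤ) ^ i * v) ^ q ≤ Real.exp ζ) →
        c * m ≤ CE s w (fun ω => X ω % (p : ℤ) ^ m) (fun ω => (Y ω % (p : ℤ) ^ m, γ ω)) →
        CE s w (fun ω => (X ω + Y ω) % (p : ℤ) ^ m) γ + 2 * CE s w (fun ω => X ω % (p : ℤ) ^ m) γ
          + CE s w (fun ω => Y ω % (p : ℤ) ^ m) γ
          - 2 * CE s w (fun ω => (X ω % (p : ℤ) ^ m, Y ω % (p : ℤ) ^ m)) γ ≤ δ * m →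
        (∀ r < l, ζ / l * m - ε₀ * m ≤ CE s w (fun ω => Y ω % (p : ℤ) ^ m) γ
          + q * ∑ i ∈ (range m).filter (fun i => i % l = r ∧ i + l ≤ m),
              ∑ ω ∈ s, w ω * Real.log (R i (γ ω) (Y ω % (p : ℤ) ^ (i + l)))) →
        False := by
  have hL0 : 0 < Real.log p := Real.log_pos (by exact_mod_cast hp.one_lt)
  obtain ⟨L, hL⟩ : ∃ L : ℝ, L = Real.log p := ⟨_, rfl⟩
  have hLp : 0 < L := by rw [hL]; exact hL0
  have hq1 : (0 : ℝ) < (q : ℝ) - 1 := by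
    have : (2 : ℝ) ≤ q := by exact_mod_cast hq
    linarith
  refine ⟨κ * c / (32 * L), by positivity, fun l hl => ?_⟩
  have hl0 : (0 : ℝ) < l := by exact_mod_cast hl
  obtain ⟨η, hη, hη1, hη2⟩ : ∃ η : ℝ, 0 < η ∧ η ≤ c / 2 ∧ η * (2 * ((q : ℝ) - 1)) ≤ κ := by
    refine ⟨min (c / 2) (κ / (2 * ((q : ℝ) - 1))), by positivity, min_le_left _ _, ?_⟩
    rw [← le_div_iff₀ (by positivity)]
    exact min_le_right _ _
  obtain ⟨θ, hθ, hwin⟩ := win hp hl hη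
  have hwin' : WinHyp p l η θ := fun s w hw U V h1 h2 => hwin s w hw U V h1 h2
  obtain ⟨δ, hδ, hδ1, hδ2⟩ : ∃ δ : ℝ, 0 < δ ∧ δ ≤ κ * c / (32 * L) ∧
      δ ≤ θ * c / (8 * l * L) :=
    ⟨min (κ * c / (32 * L)) (θ * c / (8 * l * L)), by positivity, min_le_left _ _,
      min_le_right _ _⟩
  obtain ⟨K, hK⟩ : ∃ K : ℝ, K = l * L + 8 * l ^ 2 * L ^ 2 / θ + 4 * l * L ^ 2 / κ := ⟨_, rfl⟩
  obtain ⟨m₁, hm₁⟩ := exists_nat_gt (4 * K / c)
  refine ⟨δ, hδ, max l m₁, fun m hm ζ hζ Ω Γ s w γ X Y R hw hw1 hR0 hRpos hR1 hRq hcm hB hRlow => ?_⟩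
  have hlm : l ≤ m := (le_max_left _ _).trans hm
  have hmm : (m₁ : ℝ) ≤ m := by exact_mod_cast (le_max_right _ _).trans hm
  have hmK : K < c / 4 * m := by
    have h1 : 4 * K / c < m := hm₁.trans_le hmm
    rw [div_lt_iff₀ hc] at h1
    linarith
  have hm0 : (0 : ℝ) ≤ m := by positivity
  rw [← hL] at hζ
  -- abbreviations
  obtain ⟨H, hH⟩ : ∃ H : ℕ → ℝ, H = fun i => CE s w (fun ω => X ω % (p : ℤ) ^ (i + 1))
    (fun ω => (γ ω, X ω % (p : ℤ) ^ i, Y ω % (p : ℤ) ^ i)) := ⟨_, rfl⟩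
  obtain ⟨Ψ, hΨ⟩ : ∃ Ψ : ℕ → ℝ, Ψ = fun i =>
      CE s w (fun ω => (X ω + Y ω) % (p : ℤ) ^ (i + l))
          (fun ω => (γ ω, X ω % (p : ℤ) ^ i, Y ω % (p : ℤ) ^ i))
        + 2 * CE s w (fun ω => X ω % (p : ℤ) ^ (i + l))
          (fun ω => (γ ω, X ω % (p : ℤ) ^ i, Y ω % (p : ℤ) ^ i))
        + CE s w (fun ω => Y ω % (p : ℤ) ^ (i + l))
          (fun ω => (γ ω, X ω % (p : ℤ) ^ i, Y ω % (p : ℤ) ^ i))
        - 2 * CE s w (fun ω => (X ω % (p : ℤ) ^ (i + l), Y ω % (p : ℤ) ^ (i + l)))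
          (fun ω => (γ ω, X ω % (p : ℤ) ^ i, Y ω % (p : ℤ) ^ i)) := ⟨_, rfl⟩
  obtain ⟨CY, hCY⟩ : ∃ CY : ℕ → ℝ, CY = fun i => CE s w (fun ω => Y ω % (p : ℤ) ^ (i + l))
          (fun ω => (γ ω, X ω % (p : ℤ) ^ i, Y ω % (p : ℤ) ^ i)) := ⟨_, rfl⟩
  obtain ⟨ER, hER⟩ : ∃ ER : ℕ → ℝ, ER = fun i =>
      ∑ ω ∈ s, w ω * Real.log (R i (γ ω) (Y ω % (p : ℤ) ^ (i + l))) := ⟨_, rfl⟩
  -- (1)
  have s1 : c * m ≤ ∑ i ∈ range m, H i := by
    rw [hH]
    exact hcm.trans (chain_X (p := p) (m := m) γ X Y hw m le_rfl)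
  have s2 : ∀ i, i + l ≤ m → H i ≤ η + L / θ * Ψ i + 2 * L / (κ * l) * (ζ - CY i - q * ER i) := by
    intro i hi
    rw [hH, hΨ, hCY, hER, hL]
    exact window hp hq hl hκ hη2 hθ hwin' hη (by rw [← hL]; exact hζ) s w γ X Y hw hw1 (R i)
      (hR0 i) (hRpos i hi) (hR1 i hi) (hRq i hi)
  have s3 : ∀ i, H i ≤ L := by
    intro i
    have h1 : H i ≤ (((i + 1 : ℕ) : ℝ) - i) * Real.log p := by
      rw [hH]
      refine le_trans ?_ (dig_le hp hw hw1 X (fun ω => (γ ω, Y ω % (p : ℤ) ^ i)) (Nat.le_succ i))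
      refine le_of_eq (CE_congr (fun ω _ ω' _ => ?_) fun _ _ _ _ _ => Iff.rfl)
      simp only [Prod.mk.injEq]
      tauto
    rw [hL]
    push_cast at h1
    linarith
  -- splitting
  have hsplit : ∑ i ∈ range m, H i = ∑ i ∈ (range m).filter (fun i => i + l ≤ m), H i
      + ∑ i ∈ (range m).filter (fun i => ¬ i + l ≤ m), H i :=
    (sum_filter_add_sum_filter_not _ _ _).symm
  have hrest : ∑ i ∈ (range m).filter (fun i => ¬ i + l ≤ m), H i ≤ l * L := by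
    have h1 : ((range m).filter (fun i => ¬ i + l ≤ m)).card ≤ l := by
      have h2 : (range m).filter (fun i => ¬ i + l ≤ m) ⊆ Ico (m - l) m := by
        intro i hi
        rw [mem_filter, mem_range] at hi
        rw [mem_Ico]
        omega
      have h3 := card_le_card h2
      rw [Nat.card_Ico] at h3
      omega
    calc _ ≤ ∑ i ∈ (range m).filter (fun i => ¬ i + l ≤ m), L := sum_le_sum fun i _ => s3 i
      _ = ((range m).filter (fun i => ¬ i + l ≤ m)).card * L := by rw [sum_const, nsmul_eq_mul]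
      _ ≤ l * L := mul_le_mul_of_nonneg_right (by exact_mod_cast h1) hLp.le
  have hfibw : ∀ G : ℕ → ℝ, ∑ i ∈ (range m).filter (fun i => i + l ≤ m), G i
      = ∑ r ∈ range l, ∑ i ∈ (range m).filter (fun i => i % l = r ∧ i + l ≤ m), G i := by
    intro G
    have h1 := sum_fiberwise_of_maps_to (s := (range m).filter (fun i => i + l ≤ m))
      (t := range l) (g := fun i => i % l) (fun i _ => mem_range.2 (Nat.mod_lt _ hl)) G
    rw [← h1]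
    refine sum_congr rfl fun r _ => sum_congr ?_ fun _ _ => rfl
    ext i
    simp only [mem_filter]
    tauto
  have hmain : ∑ i ∈ (range m).filter (fun i => i + l ≤ m), H i
      ≤ η * m + L / θ * (∑ i ∈ (range m).filter (fun i => i + l ≤ m), Ψ i)
        + 2 * L / (κ * l) * (∑ i ∈ (range m).filter (fun i => i + l ≤ m),
            (ζ - CY i - q * ER i)) := by
    calc _ ≤ ∑ i ∈ (range m).filter (fun i => i + l ≤ m),
          (η + L / θ * Ψ i + 2 * L / (κ * l) * (ζ - CY i - q * ER i)) :=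
          sum_le_sum fun i hi => s2 i (mem_filter.1 hi).2
      _ = ((range m).filter (fun i => i + l ≤ m)).card * η
          + L / θ * (∑ i ∈ (range m).filter (fun i => i + l ≤ m), Ψ i)
          + 2 * L / (κ * l) * (∑ i ∈ (range m).filter (fun i => i + l ≤ m),
            (ζ - CY i - q * ER i)) := by
          rw [sum_add_distrib, sum_add_distrib, ← mul_sum, ← mul_sum, sum_const, nsmul_eq_mul]
      _ ≤ _ := by
          have h1 : (((range m).filter (fun i => i + l ≤ m)).card : ℝ) ≤ m := by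
            exact_mod_cast (card_filter_le _ _).trans (by simp)
          have h2 := mul_le_mul_of_nonneg_right h1 hη.le
          linarith
  -- (2)
  have t1 : ∑ i ∈ (range m).filter (fun i => i + l ≤ m), Ψ i ≤ l * (δ * m + 8 * l * L) := by
    rw [hfibw]
    calc _ ≤ ∑ r ∈ range l, (δ * m + 8 * l * L) := by
          refine sum_le_sum fun r hr => ?_
          rw [hΨ, hL]
          refine (sum_psi hp hl (mem_range.1 hr) hlm γ X Y hw hw1).trans ?_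
          linarith
      _ = _ := by rw [sum_const, card_range, nsmul_eq_mul]
  -- (4)
  have hpsi := psi_nonneg (s := s) (w := w) hw (fun ω => X ω % (p : ℤ) ^ m)
    (fun ω => Y ω % (p : ℤ) ^ m) (fun ω => (X ω + Y ω) % (p : ℤ) ^ m) γ (by
      intro ω hω ω' hω' _ hXX
      change X ω ≡ X ω' [ZMOD _] at hXX
      constructor
      · intro h
        change X ω + Y ω ≡ X ω' + Y ω' [ZMOD _] at h
        exact Int.ModEq.add_left_cancel hXX h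
      · intro h
        change Y ω ≡ Y ω' [ZMOD _] at h
        exact hXX.add h)
  have hZ : CE s w (fun ω => (X ω % (p : ℤ) ^ m, Y ω % (p : ℤ) ^ m)) γ
      = CE s w (fun ω => X ω % (p : ℤ) ^ m) γ
        + CE s w (fun ω => Y ω % (p : ℤ) ^ m) (fun ω => (X ω % (p : ℤ) ^ m, γ ω)) := by
    rw [← CE_chain (fun ω => Y ω % (p : ℤ) ^ m) (fun ω => X ω % (p : ℤ) ^ m) γ]
    refine CE_congr (fun _ _ _ _ => Iff.rfl) fun ω _ ω' _ _ => ?_
    simp only [Prod.mk.injEq]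
    tauto
  have t2 : ∀ r < l, ∑ i ∈ (range m).filter (fun i => i % l = r ∧ i + l ≤ m),
      (ζ - CY i - q * ER i) ≤ (κ * c / (32 * L) + δ) * m + 2 * l * L := by
    intro r hr
    have h1 := sum_Y hp hl hr hlm γ X Y hw hw1
    have h2 := hRlow r hr
    have h3 : (((range m).filter (fun i => i % l = r ∧ i + l ≤ m)).card : ℝ) * ζ ≤ ζ / l * m := by
      have h4 : (((range m).filter (fun i => i % l = r ∧ i + l ≤ m)).card : ℝ) ≤ (m : ℝ) / l := by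
        rw [Ir_eq hl hr]
        refine le_trans ?_ (card_Ir hl (r := r))
        exact_mod_cast card_image_le.trans (by simp)
      have hζ0 : 0 ≤ ζ := le_trans (by positivity) hζ
      calc _ ≤ (m : ℝ) / l * ζ := mul_le_mul_of_nonneg_right h4 hζ0
        _ = ζ / l * m := by ring
    rw [sum_sub_distrib, sum_sub_distrib, ← mul_sum, sum_const, nsmul_eq_mul]
    have h5 : ∑ i ∈ (range m).filter (fun i => i % l = r ∧ i + l ≤ m), ER i
        = ∑ i ∈ (range m).filter (fun i => i % l = r ∧ i + l ≤ m),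
              ∑ ω ∈ s, w ω * Real.log (R i (γ ω) (Y ω % (p : ℤ) ^ (i + l))) := by rw [hER]
    have h6 : ∑ i ∈ (range m).filter (fun i => i % l = r ∧ i + l ≤ m), CY i
        = ∑ i ∈ (range m).filter (fun i => i % l = r ∧ i + l ≤ m),
          CE s w (fun ω => Y ω % (p : ℤ) ^ (i + l))
            (fun ω => (γ ω, X ω % (p : ℤ) ^ i, Y ω % (p : ℤ) ^ i)) := by rw [hCY]
    rw [h5, h6]
    rw [← hL] at h1
    obtain ⟨hp1, hp2⟩ := hpsi
    linarith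
  have t3 : ∑ i ∈ (range m).filter (fun i => i + l ≤ m), (ζ - CY i - q * ER i)
      ≤ l * ((κ * c / (32 * L) + δ) * m + 2 * l * L) := by
    rw [hfibw]
    calc _ ≤ ∑ r ∈ range l, ((κ * c / (32 * L) + δ) * m + 2 * l * L) :=
          sum_le_sum fun r hr => t2 r (mem_range.1 hr)
      _ = _ := by rw [sum_const, card_range, nsmul_eq_mul]
  -- final computation
  have u1 : L / θ * (∑ i ∈ (range m).filter (fun i => i + l ≤ m), Ψ i)
      ≤ c / 8 * m + 8 * l ^ 2 * L ^ 2 / θ := by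
    calc _ ≤ L / θ * (l * (δ * m + 8 * l * L)) := mul_le_mul_of_nonneg_left t1 (by positivity)
      _ ≤ L / θ * (l * (θ * c / (8 * l * L) * m + 8 * l * L)) := by
          apply mul_le_mul_of_nonneg_left _ (by positivity)
          apply mul_le_mul_of_nonneg_left _ hl0.le
          have := mul_le_mul_of_nonneg_right hδ2 hm0
          linarith
      _ = _ := by field_simp
  have u2 : 2 * L / (κ * l) * (∑ i ∈ (range m).filter (fun i => i + l ≤ m),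
            (ζ - CY i - q * ER i)) ≤ c / 8 * m + 4 * l * L ^ 2 / κ := by
    calc _ ≤ 2 * L / (κ * l) * (l * ((κ * c / (32 * L) + δ) * m + 2 * l * L)) :=
          mul_le_mul_of_nonneg_left t3 (by positivity)
      _ ≤ 2 * L / (κ * l) * (l * ((κ * c / (32 * L) + κ * c / (32 * L)) * m + 2 * l * L)) := by
          apply mul_le_mul_of_nonneg_left _ (by positivity)
          apply mul_le_mul_of_nonneg_left _ hl0.le
          have := mul_le_mul_of_nonneg_right hδ1 hm0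
          linarith
      _ = _ := by field_simp; ring
  have u3 : η * m ≤ c / 2 * m := mul_le_mul_of_nonneg_right hη1 hm0
  rw [hK] at hmK
  linarith

end Pool.Agent.H377R2.NK
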