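import Pool.Agent.H377R2.NK.Defs
import Pool.Agent.H412R2.Tree

/-! Task C2 (COUNT-LOW) -/

set_option autoImplicit false

namespace Pool.Agent.H377R2.NK

open Finset Pool.Agent.H320R2.PD

/-- the map on the natural numbers -/
def C2_T : ℕ → ℕ := fun n : ℕ => if n % 2 = 0 then n / 2 else (3 * n + 1) / 2

theorem C2_T_eq {m a : ℕ} (h : C2_T m = a) : m = 2 * a ∨ (3 * m + 1 = 2 * a) := by
  unfold C2_T at h
  split_ifs at h with h1
  · left; omega
  · right; omega

theorem C2_T_two (a : ℕ) : C2_T (2 * a) = a := by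
  unfold C2_T
  rw [if_pos (by omega)]
  omega

theorem C2_T_odd {a b : ℕ} (h : 3 * b + 1 = 2 * a) : C2_T b = a := by
  unfold C2_T
  rw [if_neg (by omega)]
  omega

theorem C2_fin (k a : ℕ) : {m : ℕ | C2_T^[k] m = a}.Finite := by
  induction k generalizing a with
  | zero => simp
  | succ k ih =>
    refine ((ih (2 * a)).union (ih ((2 * a - 1) / 3))).subset ?_
    intro n hn
    rw [Set.mem_ofPred_eq, Function.iterate_succ_apply'] at hn
    rcases C2_T_eq hn with h | h
    · exact Or.inl h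
    · right
      rw [Set.mem_ofPred_eq]
      omega

/-- pruned set -/
def C2_S (k a : ℕ) : Set ℕ := {m : ℕ | C2_T^[k] m = a ∧ ∀ j : ℕ, j ≤ k → C2_T^[j] m % 3 ≠ 0}

theorem C2_S_fin (k a : ℕ) : (C2_S k a).Finite :=
  (C2_fin k a).subset fun _ hm => hm.1

theorem C2_S_sub {k a b : ℕ} (ha : a % 3 ≠ 0) (hb : C2_T b = a) : C2_S k b ⊆ C2_S (k + 1) a := by
  rintro m ⟨h1, h2⟩
  have h3 : C2_T^[k + 1] m = a := by rw [Function.iterate_succ_apply', h1, hb]
  refine ⟨h3, fun j hj => ?_⟩
  rcases Nat.lt_or_ge j (k + 1) with h | h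
  · exact h2 j (by omega)
  · have : j = k + 1 := by omega
    rw [this, h3]
    exact ha

theorem C2_main (k a : ℕ) (ha : a % 3 ≠ 0) : Npr k (a : ℤ) ≤ (C2_S k a).ncard := by
  induction k generalizing a with
  | zero =>
    have h1 : ((a : ℤ) % 3 = 0) = False := by
      rw [eq_iff_iff, iff_false]; omega
    have h2 : C2_S 0 a = {a} := by
      ext m
      simp only [C2_S, Set.mem_ofPred_eq, Function.iterate_zero, id, Set.mem_singleton_iff]
      constructor
      · exact fun h => h.1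
      · rintro rfl
        refine ⟨rfl, fun j hj => ?_⟩
        have : j = 0 := by omega
        subst this
        exact ha
    rw [Npr, h2, Set.ncard_singleton]
    split_ifs <;> omega
  | succ k ih =>
    have h1 : ¬ ((a : ℤ) % 3 = 0) := by omega
    rw [Npr, if_neg h1]
    have e1 : (2 * (a : ℤ)) = ((2 * a : ℕ) : ℤ) := by push_cast; ring
    have ih1 := ih (2 * a) (by omega)
    rw [← e1] at ih1
    by_cases h2 : (a : ℤ) % 3 = 2
    · rw [if_pos h2]
      set b := (2 * a - 1) / 3 with hb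
      have hb3 : 3 * b + 1 = 2 * a := by omega
      have e2 : (2 * (a : ℤ) - 1) / 3 = (b : ℤ) := by omega
      rw [e2]
      by_cases hb0 : b % 3 = 0
      · have h3 : Npr k (b : ℤ) = 0 := by
          have hb0' : ((b : ℤ) % 3 = 0) := by omega
          cases k with
          | zero => rw [Npr, if_pos hb0']
          | succ k => rw [Npr, if_pos hb0']
        rw [h3, add_zero]
        exact ih1.trans (Set.ncard_le_ncard (C2_S_sub ha (C2_T_two a)) (C2_S_fin _ _))
      · have ih2 := ih b hb0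
        have hdisj : Disjoint (C2_S k (2 * a)) (C2_S k b) := by
          rw [Set.disjoint_left]
          rintro m ⟨h4, -⟩ ⟨h5, -⟩
          omega
        calc Npr k (2 * (a : ℤ)) + Npr k (b : ℤ) ≤ (C2_S k (2 * a)).ncard + (C2_S k b).ncard :=
              Nat.add_le_add ih1 ih2
          _ = (C2_S k (2 * a) ∪ C2_S k b).ncard :=
              (Set.ncard_union_eq hdisj (C2_S_fin _ _) (C2_S_fin _ _)).symm
          _ ≤ (C2_S (k + 1) a).ncard :=
              Set.ncard_le_ncard (Set.union_subset (C2_S_sub ha (C2_T_two a))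
                (C2_S_sub ha (C2_T_odd hb3))) (C2_S_fin _ _)
    · rw [if_neg h2, add_zero]
      exact ih1.trans (Set.ncard_le_ncard (C2_S_sub ha (C2_T_two a)) (C2_S_fin _ _))

theorem Npr_le_ncard (k a : ℕ) (ha : a % 3 ≠ 0) :
    Npr k (a : ℤ) ≤ Set.ncard {m : ℕ |
      (fun n : ℕ => if n % 2 = 0 then n / 2 else (3 * n + 1) / 2)^[k] m = a ∧
        ∀ j : ℕ, j ≤ k →
          (fun n : ℕ => if n % 2 = 0 then n / 2 else (3 * n + 1) / 2)^[j] m % 3 ≠ 0} :=
  C2_main k a ha

theorem Npr_pos (k : ℕ) {x : ℤ} (hx : ¬ (3 : ℤ) ∣ x) : 1 ≤ Npr k x := by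
  induction k generalizing x with
  | zero =>
    rw [Npr, if_neg (by omega)]
  | succ k ih =>
    rw [Npr, if_neg (by omega)]
    exact (ih (x := 2 * x) (by omega)).trans (Nat.le_add_right _ _)

/-- unrolling the doublings -/
theorem C2_unroll (k : ℕ) {x : ℤ} (hx : ¬ (3 : ℤ) ∣ x) :
    ∑ e ∈ Finset.Icc 1 k, (if (3 : ℤ) ∣ 2 ^ e * x - 1 then Npr (k - e) ((2 ^ e * x - 1) / 3) else 0)
      ≤ Npr k x := by
  induction k generalizing x with
  | zero => simp
  | succ k ih =>
    rw [Npr, if_neg (by omega)]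
    have ih1 := ih (x := 2 * x) (by omega)
    have h1 : ∑ e ∈ Finset.Icc 1 (k + 1),
        (if (3 : ℤ) ∣ 2 ^ e * x - 1 then Npr (k + 1 - e) ((2 ^ e * x - 1) / 3) else 0) =
        (if (3 : ℤ) ∣ 2 ^ 1 * x - 1 then Npr (k + 1 - 1) ((2 ^ 1 * x - 1) / 3) else 0) +
        ∑ e ∈ Finset.Icc 1 k,
        (if (3 : ℤ) ∣ 2 ^ (e + 1) * x - 1 then
          Npr (k + 1 - (e + 1)) ((2 ^ (e + 1) * x - 1) / 3) else 0) := by
      rw [← Finset.add_sum_Ioc_eq_sum_Icc (by omega)]
      congr 1
      refine Finset.sum_nbij' (fun e => e - 1) (fun e => e + 1) ?_ ?_ ?_ ?_ ?_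
      · intro e he
        rw [Finset.mem_Ioc] at he
        rw [Finset.mem_Icc]
        omega
      · intro e he
        rw [Finset.mem_Icc] at he
        rw [Finset.mem_Ioc]
        omega
      · intro e he
        rw [Finset.mem_Ioc] at he
        omega
      · intro e he
        simp
      · intro e he
        rw [Finset.mem_Ioc] at he
        have : e - 1 + 1 = e := by omega
        simp only [this]
    rw [h1, add_comm]
    refine Nat.add_le_add ?_ ?_
    · refine le_trans (le_of_eq ?_) ih1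
      refine Finset.sum_congr rfl fun e _ => ?_
      have h2 : (2 : ℤ) ^ (e + 1) * x = 2 ^ e * (2 * x) := by ring
      have h3 : k + 1 - (e + 1) = k - e := by omega
      rw [h2, h3]
    · rw [pow_one, Nat.add_sub_cancel]
      by_cases h : (3 : ℤ) ∣ 2 * x - 1
      · rw [if_pos h, if_pos (by omega)]
      · rw [if_neg h]
        exact Nat.zero_le _

open scoped Classical in
theorem C2_aux (E n : ℕ) : ∀ (s k : ℕ) (x : ℤ), s ≤ k →
    (((3 : ℤ) ∣ x → ∑ z ∈ Pool.Agent.H412R2.tr 3 E n s x,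
      (if (3 : ℤ) ∣ z then (0 : ℝ) else (Npr (k - s) z : ℝ)) = 0) ∧
    (¬ (3 : ℤ) ∣ x → ∑ z ∈ Pool.Agent.H412R2.tr 3 E n s x,
      (if (3 : ℤ) ∣ z then (0 : ℝ) else (Npr (k - s) z : ℝ)) ≤ (Npr k x : ℝ))) := by
  induction n with
  | zero =>
    intro s k x hs
    rw [Pool.Agent.H412R2.tr]
    by_cases h : s = 0
    · subst h
      rw [if_pos rfl, Finset.sum_singleton]
      refine ⟨fun hx => by rw [if_pos hx], fun hx => by rw [if_neg hx]; simp⟩
    · rw [if_neg h, Finset.sum_empty]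
      exact ⟨fun _ => rfl, fun _ => by positivity⟩
  | succ n ih =>
    intro s k x hs
    rw [Pool.Agent.H412R2.sum_tr_succ (by decide) (by norm_num)]
    constructor
    · intro hx
      refine Finset.sum_eq_zero fun e he => ?_
      rw [if_neg]
      intro h
      have h1 : (3 : ℤ) ∣ 2 ^ e * x := Dvd.dvd.mul_left hx _
      push_cast at h
      omega
    · intro hx
      have h1 := C2_unroll k hx
      have h2 : ∑ e ∈ Finset.Icc 1 (min s E),
          (if ((3 : ℕ) : ℤ) ∣ 2 ^ e * x - 1 then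
            ∑ z ∈ Pool.Agent.H412R2.tr 3 E n (s - e) ((2 ^ e * x - 1) / ((3 : ℕ) : ℤ)),
              (if (3 : ℤ) ∣ z then (0 : ℝ) else (Npr (k - s) z : ℝ)) else 0) ≤
          ∑ e ∈ Finset.Icc 1 (min s E),
          (((if (3 : ℤ) ∣ 2 ^ e * x - 1 then Npr (k - e) ((2 ^ e * x - 1) / 3) else 0 : ℕ)) : ℝ) := by
        refine Finset.sum_le_sum fun e he => ?_
        rw [Finset.mem_Icc] at he
        have he1 : e ≤ s := he.2.trans (min_le_left _ _)
        push_cast
        split_ifs with h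
        · obtain ⟨i1, i2⟩ := ih (s - e) (k - e) ((2 ^ e * x - 1) / 3) (by omega)
          have h3 : k - e - (s - e) = k - s := by omega
          rw [h3] at i1 i2
          by_cases hb : (3 : ℤ) ∣ (2 ^ e * x - 1) / 3
          · rw [i1 hb]
            positivity
          · exact i2 hb
        · exact le_rfl
      refine h2.trans ?_
      have h3 : ∑ e ∈ Finset.Icc 1 (min s E),
          (if (3 : ℤ) ∣ 2 ^ e * x - 1 then Npr (k - e) ((2 ^ e * x - 1) / 3) else 0) ≤ Npr k x := by
        refine le_trans (Finset.sum_le_sum_of_subset ?_) h1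
        refine Finset.Icc_subset_Icc le_rfl ?_
        exact (min_le_left _ _).trans hs
      exact_mod_cast h3

open scoped Classical in
/-- lower recursion along the words of `n` letters and size `s` -/
theorem Npr_ge_tr {E n s k : ℕ} {x : ℤ} (hx : ¬ (3 : ℤ) ∣ x) (hs : s ≤ k) :
    ∑ z ∈ (Pool.Agent.H412R2.tr 3 E n s x).filter (fun z => ¬ (3 : ℤ) ∣ z), Npr (k - s) z
      ≤ Npr k x := by
  have h := (C2_aux E n s k x hs).2 hx
  rw [Finset.sum_filter]
  have h2 : ∑ z ∈ Pool.Agent.H412R2.tr 3 E n s x,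
      (if (3 : ℤ) ∣ z then (0 : ℝ) else (Npr (k - s) z : ℝ)) =
      ((∑ z ∈ Pool.Agent.H412R2.tr 3 E n s x,
      (if ¬ (3 : ℤ) ∣ z then Npr (k - s) z else 0) : ℕ) : ℝ) := by
    push_cast
    refine Finset.sum_congr rfl fun z _ => ?_
    split_ifs <;> simp_all
  rw [h2] at h
  exact_mod_cast h

end Pool.Agent.H377R2.NK
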