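import Pool.Agent.H377R2.NK.Defs
import Pool.Agent.H320R2.PDWords

/-! Task C1 (COUNT-UP) -/

set_option autoImplicit false

namespace Pool.Agent.H377R2.NK

open Finset Pool.Agent.H320R2.PD

theorem C1_zz_pos {p : ℕ} (hp : 1 ≤ p) : 0 < zz p := by
  unfold zz
  have : (0 : ℝ) < p := by exact_mod_cast hp
  positivity

theorem C1_zz_lt_one (p : ℕ) : zz p < 1 := by
  unfold zz
  rw [div_lt_one (by positivity)]
  linarith

theorem Wk_le {p : ℕ} (hp : p = 3 ∨ p = 5) (k : ℕ) (a : ℤ) :
    zz p ^ k * (Wk p k a : ℝ) ≤ ∑ n ∈ range (k + 1), DD p k n a := by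
  have hz0 : 0 < zz p := C1_zz_pos (by rcases hp with rfl | rfl <;> norm_num)
  have hz1 := (C1_zz_lt_one p).le
  unfold Wk
  push_cast
  rw [Finset.mul_sum]
  refine Finset.sum_le_sum fun n _ => ?_
  unfold DD
  rw [Finset.card_eq_sum_ones]
  push_cast
  rw [Finset.mul_sum]
  calc ∑ w ∈ (VW p k n a).filter (fun w => w.sum ≤ k), zz p ^ k * 1
      ≤ ∑ w ∈ (VW p k n a).filter (fun w => w.sum ≤ k), zz p ^ w.sum := by
        refine Finset.sum_le_sum fun w hw => ?_
        rw [mul_one]
        exact pow_le_pow_of_le_one hz0.le hz1 (Finset.mem_filter.mp hw).2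
    _ ≤ ∑ w ∈ VW p k n a, zz p ^ w.sum :=
        Finset.sum_le_sum_of_subset_of_nonneg (Finset.filter_subset _ _)
          fun w _ _ => by positivity

open scoped Classical in
/-- all words valid at `a` of size at most `k` -/
noncomputable def C1_WF (p k : ℕ) (a : ℤ) : Finset (List ℕ) :=
  (range (k + 1)).biUnion fun n => (VW p k n a).filter fun w => w.sum ≤ k

theorem C1_card (p k : ℕ) (a : ℤ) : (C1_WF p k a).card = Wk p k a := by
  classical
  unfold C1_WF Wk
  rw [Finset.card_biUnion]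
  intro n _ m _ hnm
  refine Finset.disjoint_left.mpr fun w hw hw' => hnm ?_
  have h1 := (Finset.mem_filter.mp hw).1
  have h2 := (Finset.mem_filter.mp hw').1
  unfold VW at h1 h2
  rw [← (mem_FW.mp (Finset.mem_filter.mp h1).1).1, ← (mem_FW.mp (Finset.mem_filter.mp h2).1).1]

theorem C1_le_sum (w : List ℕ) (e : ℕ) (he : e ∈ w) : e ≤ w.sum :=
  List.single_le_sum (fun _ _ => Nat.zero_le _) _ he

theorem C1_length_le (w : List ℕ) (hw : ∀ e ∈ w, 1 ≤ e) : w.length ≤ w.sum := by
  induction w with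
  | nil => simp
  | cons e w ih =>
    have h1 := hw e (by simp)
    have h2 := ih fun e' he' => hw e' (by simp [he'])
    simp only [List.length_cons, List.sum_cons]
    omega

theorem C1_mem {p k : ℕ} {a : ℤ} {w : List ℕ} : w ∈ C1_WF p k a ↔
    (∀ e ∈ w, 1 ≤ e) ∧ w.sum ≤ k ∧ (p : ℤ) ^ w.length ∣ 2 ^ w.sum * a - Wp p w := by
  classical
  unfold C1_WF VW
  simp only [Finset.mem_biUnion, Finset.mem_range, Finset.mem_filter, mem_FW]
  constructor
  · rintro ⟨n, _, ⟨⟨h1, h2⟩, h3⟩, h4⟩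
    subst h1
    exact ⟨fun e he => (h2 e he).1, h4, h3⟩
  · rintro ⟨h1, h2, h3⟩
    refine ⟨w.length, ?_, ⟨⟨rfl, fun e he => ⟨h1 e he, (C1_le_sum w e he).trans h2⟩⟩, h3⟩, h2⟩
    have := C1_length_le w h1
    omega

/-- increase the first letter -/
def C1_inc : List ℕ → List ℕ
  | [] => []
  | e :: w => (e + 1) :: w

theorem C1_inc_inj : Function.Injective C1_inc := by
  intro u v h
  cases u with
  | nil => cases v with
    | nil => rfl
    | cons e w => simp [C1_inc] at h
  | cons e w => cases v with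
    | nil => simp [C1_inc] at h
    | cons e' w' =>
      simp only [C1_inc, List.cons.injEq, Nat.add_right_cancel_iff] at h
      rw [h.1, h.2]

theorem C1_inc_mem {p k : ℕ} {a : ℤ} {w : List ℕ} (hw : w ∈ C1_WF p k (2 * a)) :
    C1_inc w ∈ C1_WF p (k + 1) a := by
  rw [C1_mem] at hw ⊢
  obtain ⟨h1, h2, h3⟩ := hw
  cases w with
  | nil => simp [C1_inc]
  | cons e w =>
    refine ⟨fun e' he' => ?_, ?_, ?_⟩
    · simp only [C1_inc, List.mem_cons] at he'
      rcases he' with rfl | he'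
      · omega
      · exact h1 e' (by simp [he'])
    · simp only [C1_inc, List.sum_cons] at h2 ⊢
      omega
    · simp only [C1_inc, List.length_cons, List.sum_cons, Wp] at h3 ⊢
      have : (2 : ℤ) ^ (e + 1 + w.sum) * a = 2 ^ (e + w.sum) * (2 * a) := by ring
      rw [this]
      exact h3

theorem C1_cons_mem {p k : ℕ} {a b : ℤ} (hb : (p : ℤ) * b = 2 * a - 1) {w : List ℕ}
    (hw : w ∈ C1_WF p k b) : (1 :: w) ∈ C1_WF p (k + 1) a := by
  rw [C1_mem] at hw ⊢
  obtain ⟨h1, h2, h3⟩ := hw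
  refine ⟨fun e' he' => ?_, ?_, ?_⟩
  · simp only [List.mem_cons] at he'
    rcases he' with rfl | he'
    · exact le_rfl
    · exact h1 e' he'
  · simp only [List.sum_cons]
    omega
  · simp only [List.length_cons, List.sum_cons, Wp]
    have : (2 : ℤ) ^ (1 + w.sum) * a - ((2 ^ w.sum + p * Wp p w : ℕ) : ℤ) =
        (2 ^ w.sum * b - Wp p w) * p := by
      push_cast
      have h4 : (2 : ℤ) ^ w.sum * (2 * a - 1) = 2 ^ w.sum * (p * b) := by rw [hb]
      linear_combination h4
    rw [this, pow_succ]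
    exact mul_dvd_mul_right h3 _

theorem C1_succ {p k : ℕ} (a b : ℤ) (hb : (p : ℤ) * b = 2 * a - 1) :
    Wk p k (2 * a) + Wk p k b ≤ Wk p (k + 1) a := by
  classical
  rw [← C1_card, ← C1_card, ← C1_card, ← Finset.card_image_of_injective _ C1_inc_inj,
    ← Finset.card_image_of_injective (C1_WF p k b) (f := List.cons 1)
      (fun u v h => (List.cons.inj h).2),
    ← Finset.card_union_of_disjoint]
  · refine Finset.card_le_card ?_
    intro w hw
    rw [Finset.mem_union, Finset.mem_image, Finset.mem_image] at hw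
    rcases hw with ⟨u, hu, rfl⟩ | ⟨u, hu, rfl⟩
    · exact C1_inc_mem hu
    · exact C1_cons_mem hb hu
  · refine Finset.disjoint_left.mpr fun w hw hw' => ?_
    rw [Finset.mem_image] at hw hw'
    obtain ⟨u, hu, rfl⟩ := hw
    obtain ⟨v, hv, h⟩ := hw'
    cases u with
    | nil => simp [C1_inc] at h
    | cons e u =>
      simp only [C1_inc, List.cons.injEq] at h
      have := (C1_mem.mp hu).1 e (by simp)
      omega

theorem C1_succ' {p k : ℕ} (a : ℤ) : Wk p k (2 * a) ≤ Wk p (k + 1) a := by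
  classical
  rw [← C1_card, ← C1_card, ← Finset.card_image_of_injective _ C1_inc_inj]
  refine Finset.card_le_card ?_
  intro w hw
  rw [Finset.mem_image] at hw
  obtain ⟨u, hu, rfl⟩ := hw
  exact C1_inc_mem hu

theorem C1_zero (p : ℕ) (a : ℤ) : 1 ≤ Wk p 0 a := by
  rw [← C1_card, Nat.one_le_iff_ne_zero, Finset.card_ne_zero]
  exact ⟨[], C1_mem.mpr (by simp)⟩

theorem ncard_le_Wk {p : ℕ} (hp : p = 3 ∨ p = 5) (k : ℕ) (a : ℤ) :
    {n : ℤ | (fun m : ℤ => if m % 2 = 0 then m / 2 else ((p : ℤ) * m + 1) / 2)^[k] n = a}.Finite ∧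
    {n : ℤ | (fun m : ℤ => if m % 2 = 0 then m / 2 else ((p : ℤ) * m + 1) / 2)^[k] n = a}.ncard
      ≤ Wk p k a := by
  induction k generalizing a with
  | zero =>
    have : {n : ℤ | (fun m : ℤ => if m % 2 = 0 then m / 2 else ((p : ℤ) * m + 1) / 2)^[0] n = a}
        = {a} := by
      ext n; simp
    rw [this]
    exact ⟨Set.finite_singleton a, by rw [Set.ncard_singleton]; exact C1_zero p a⟩
  | succ k ih =>
    set T : ℤ → ℤ := fun m : ℤ => if m % 2 = 0 then m / 2 else ((p : ℤ) * m + 1) / 2 with hT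
    have hTa : ∀ m : ℤ, T m = a → m = 2 * a ∨ (p : ℤ) * m = 2 * a - 1 := by
      intro m hm
      simp only [hT] at hm
      split_ifs at hm with h
      · left; omega
      · right
        rcases hp with rfl | rfl
        · push_cast at hm ⊢
          omega
        · push_cast at hm ⊢
          omega
    by_cases hdiv : ∃ b : ℤ, (p : ℤ) * b = 2 * a - 1
    · obtain ⟨b, hb⟩ := hdiv
      have hsub : {n : ℤ | T^[k + 1] n = a} ⊆ {n | T^[k] n = 2 * a} ∪ {n | T^[k] n = b} := by
        intro n hn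
        rw [Set.mem_ofPred_eq, Function.iterate_succ_apply'] at hn
        rcases hTa _ hn with h | h
        · exact Or.inl h
        · right
          rw [Set.mem_ofPred_eq]
          have hp0 : (p : ℤ) ≠ 0 := by rcases hp with rfl | rfl <;> norm_num
          apply mul_left_cancel₀ hp0
          rw [h, hb]
      obtain ⟨f1, c1⟩ := ih (2 * a)
      obtain ⟨f2, c2⟩ := ih b
      refine ⟨(f1.union f2).subset hsub, ?_⟩
      calc {n : ℤ | T^[k + 1] n = a}.ncard ≤
            ({n | T^[k] n = 2 * a} ∪ {n | T^[k] n = b}).ncard :=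
            Set.ncard_le_ncard hsub (f1.union f2)
        _ ≤ {n | T^[k] n = 2 * a}.ncard + {n | T^[k] n = b}.ncard := Set.ncard_union_le _ _
        _ ≤ Wk p k (2 * a) + Wk p k b := Nat.add_le_add c1 c2
        _ ≤ Wk p (k + 1) a := C1_succ a b hb
    · have hsub : {n : ℤ | T^[k + 1] n = a} ⊆ {n | T^[k] n = 2 * a} := by
        intro n hn
        rw [Set.mem_ofPred_eq, Function.iterate_succ_apply'] at hn
        rcases hTa _ hn with h | h
        · exact h
        · exact absurd ⟨_, h⟩ hdiv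
      obtain ⟨f1, c1⟩ := ih (2 * a)
      refine ⟨f1.subset hsub, ?_⟩
      calc {n : ℤ | T^[k + 1] n = a}.ncard ≤ {n | T^[k] n = 2 * a}.ncard :=
            Set.ncard_le_ncard hsub f1
        _ ≤ Wk p k (2 * a) := c1
        _ ≤ Wk p (k + 1) a := C1_succ' a

end Pool.Agent.H377R2.NK
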