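import Pool.Agent.H320R2.PDDefs
import Pool.Agent.H412R2.Defs

/-!
Growth of the inverse trees of the `3x+1` map (and upper bounds for `5x+1`): shared definitions.

Words are lists of letters `e ≥ 1` (first letter first); a letter `e` leads from `x` to `b` with
`p b + 1 = 2^e x`.  A word `w` (length `n`, size `w.sum`, offset `Wp p w`) is valid at `x` iff
`p^n ∣ 2^{w.sum} x - Wp p w`, and its endpoint is `en p w x = (2^{w.sum} x - Wp p w)/p^n`.
-/

set_option autoImplicit false
set_option linter.unusedVariables false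

namespace Pool.Agent.H377R2.NK

open Finset Pool.Agent.H320R2.PD

/-! ### entropy of finite weighted families (weights need not be normalised) -/

section Entropy

variable {Ω α β : Type*}

open scoped Classical in
/-- mass of the atom of `f` containing `ω` -/
noncomputable def mm (s : Finset Ω) (w : Ω → ℝ) (f : Ω → α) (ω : Ω) : ℝ :=
  ∑ ω' ∈ s.filter (fun ω' => f ω' = f ω), w ω'

/-- conditional entropy `H(f | g)` for the weight `w` on `s` -/
noncomputable def CE (s : Finset Ω) (w : Ω → ℝ) (f : Ω → α) (g : Ω → β) : ℝ :=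
  ∑ ω ∈ s, w ω * (Real.log (mm s w g ω) - Real.log (mm s w (fun ω => (f ω, g ω)) ω))

end Entropy

/-! ### words for the map `p x + 1` -/

/-- offset of a word -/
def Wp (p : ℕ) : List ℕ → ℕ
  | [] => 0
  | _ :: w => 2 ^ w.sum + p * Wp p w

open scoped Classical in
/-- words of length `n` with letters in `[1,A]` valid at `x` -/
noncomputable def VW (p A n : ℕ) (x : ℤ) : Finset (List ℕ) :=
  (FW A n).filter fun w => (p : ℤ) ^ n ∣ 2 ^ w.sum * x - Wp p w

/-- endpoint of a word -/
def en (p : ℕ) (w : List ℕ) (x : ℤ) : ℤ := (2 ^ w.sum * x - Wp p w) / (p : ℤ) ^ w.length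

/-- the critical letter weight: `∑_{e ≥ 1} zz^e = p` -/
noncomputable def zz (p : ℕ) : ℝ := (p : ℝ) / (p + 1)

/-- the critical martingale (mean one) -/
noncomputable def DD (p A n : ℕ) (x : ℤ) : ℝ := ∑ w ∈ VW p A n x, zz p ^ w.sum

/-- moment of order `q` -/
noncomputable def Zq (p A n q : ℕ) : ℝ := ∑ x ∈ range (p ^ n), DD p A n (x : ℤ) ^ q

/-- supremum over the letter cap -/
noncomputable def sZ (p q n : ℕ) : ℝ := ⨆ A : ℕ, Zq p A n q

/-- admissible words of length `k`: valid and of size at most `60 k` -/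
noncomputable def VS (p A k : ℕ) (x : ℤ) : Finset (List ℕ) :=
  (VW p A k x).filter fun w => w.sum ≤ 60 * k

/-- truncated martingale: the first `k` letters are admissible, then `i` more letters -/
noncomputable def GG (p A k i : ℕ) (x : ℤ) : ℝ :=
  ∑ w ∈ VS p A k x, zz p ^ w.sum * DD p A i (en p w x)

/-- the truncated moment -/
noncomputable def ZG (p A k m q : ℕ) : ℝ := ∑ x ∈ range (p ^ (k + m)), GG p A k m (x : ℤ) ^ q

/-! ### the Gibbs law (task LAW): points are pairs (root, admissible word) -/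

open scoped Classical in
/-- the underlying set of the Gibbs law -/
noncomputable def Gs (p A k m : ℕ) : Finset (ℕ × List ℕ) :=
  (range (p ^ (k + m)) ×ˢ FW A k).filter fun ω => ω.2 ∈ VS p A k (ω.1 : ℤ)

/-- the Gibbs law -/
noncomputable def Gw (p A k m q : ℕ) (ω : ℕ × List ℕ) : ℝ :=
  GG p A k m (ω.1 : ℤ) ^ (q - 1) * (zz p ^ ω.2.sum * DD p A m (en p ω.2 (ω.1 : ℤ))) / ZG p A k m q

/-- conditioning variable: root mod `p^k`, size of the word -/
def Gγ (p k : ℕ) (ω : ℕ × List ℕ) : ℕ × ℕ := (ω.1 % p ^ k, ω.2.sum)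

/-- endpoint of the word from the root mod `p^k` -/
def GX (p k : ℕ) (ω : ℕ × List ℕ) : ℤ := en p ω.2 ((ω.1 % p ^ k : ℕ) : ℤ)

/-- contribution of the high digits of the root -/
def GY (p k : ℕ) (ω : ℕ × List ℕ) : ℤ := 2 ^ ω.2.sum * ((ω.1 / p ^ k : ℕ) : ℤ)

/-- the root recovered from `(γ, Y)`: `((p^m+1)/2)` is an inverse of 2 mod `p^m` -/
def Gr (p k m : ℕ) (g : ℕ × ℕ) (y : ℤ) : ℤ :=
  (g.1 : ℤ) + (p : ℤ) ^ k * ((((p ^ m + 1) / 2 : ℕ) : ℤ) ^ g.2 * y)

/-- ratios of the truncated martingale along windows of `l` digits -/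
noncomputable def GR (p A k m l : ℕ) (i : ℕ) (g : ℕ × ℕ) (y : ℤ) : ℝ :=
  GG p A k (i + l) (Gr p k m g y) / GG p A k i (Gr p k m g y)

/-- the entropy defect of the Gibbs law -/
noncomputable def GE (p A k m q : ℕ) : ℝ :=
  Real.log (Zq p A k q) + Real.log (Zq p A m q) - Real.log (ZG p A k m q)

/-! ### counting -/

/-- number of words (of any length) valid at `a` of size at most `k` -/
noncomputable def Wk (p k : ℕ) (a : ℤ) : ℕ :=
  ∑ n ∈ range (k + 1), ((VW p k n a).filter fun w => w.sum ≤ k).card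

/-- number of depth `k` nodes of the pruned inverse tree of `x` (`3x+1` map) -/
def Npr : ℕ → ℤ → ℕ
  | 0, x => if x % 3 = 0 then 0 else 1
  | k + 1, x => if x % 3 = 0 then 0 else
      Npr k (2 * x) + (if x % 3 = 2 then Npr k ((2 * x - 1) / 3) else 0)

/-! ### lower half (`3x+1`, critical tilt `z = 3/4`) -/

/-- weight of a word: letter law `(1/3) (3/4)^e` -/
noncomputable def qw (w : List ℕ) : ℝ := (1 / 3 : ℝ) ^ w.length * (3 / 4 : ℝ) ^ w.sum

/-- annealed nonuniformity of the digit `j` of the offset of `k` letters, given the size -/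
noncomputable def gz (A k j : ℕ) : ℝ :=
  ∑ T ∈ range (k * A + 1), Gam (FWT A k T) qw (fun w => (Wo w : ℤ)) j

/-- the critical operator and the critical martingale for `3x+1` (`= DD 3 A n`) -/
noncomputable def ffz (A n : ℕ) : ℤ → ℝ :=
  (Pool.Agent.H412R2.Lw A (fun e => (1 / 3 : ℝ) * (3 / 4) ^ e))^[n] (fun _ => 1)

open scoped Classical in
/-- number of endpoints prime to 3 of the words of `T` letters and size `s` -/
noncomputable def NU (T s : ℕ) (x : ℤ) : ℕ :=
  ((Pool.Agent.H412R2.tr 3 (6 * T) T s x).filter (fun z => ¬ (3 : ℤ) ∣ z)).card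

end Pool.Agent.H377R2.NK
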