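import Pool.Agent.H320R2.PDF3
import Pool.Agent.H377R2.NK.Defs

/-!
Task L0 (F3SHARP): `F3 ≤ (10/9) (log 3 - H)` (helper847).
-/

set_option autoImplicit false

namespace Pool.Agent.H377R2.NK

open Pool.Agent.H320R2.PD

namespace L0

/-- the auxiliary function in the main variable -/
noncomputable def Ga (y : ℝ) : ℝ := Real.log (1 + 2 * y) - Real.log (1 - y) - 27 / 10 * y

theorem Ga_deriv {y : ℝ} (h0 : 0 ≤ y) (h1 : y < 1) :
    HasDerivAt Ga (2 / (1 + 2 * y) + 1 / (1 - y) - 27 / 10) y := by
  have e1 : HasDerivAt (fun y : ℝ => 1 + 2 * y) 2 y := by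
    simpa using ((hasDerivAt_id y).const_mul 2).const_add 1
  have e2 : HasDerivAt (fun y : ℝ => 1 - y) (-1) y := by
    simpa using (hasDerivAt_id y).const_sub 1
  have d1 := e1.log (by linarith : (1 + 2 * y) ≠ 0)
  have d2 := e2.log (by linarith : (1 - y) ≠ 0)
  have d3 : HasDerivAt (fun y : ℝ => 27 / 10 * y) (27 / 10) y := by
    simpa using (hasDerivAt_id y).const_mul (27 / 10)
  have d4 := (d1.sub d2).sub d3
  refine d4.congr_deriv ?_
  ring

theorem Ga_factor {y : ℝ} (h0 : 0 ≤ y) (h1 : y < 1) :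
    2 / (1 + 2 * y) + 1 / (1 - y) - 27 / 10 =
      27 / 5 * (y - 1 / 6) * (y - 1 / 3) / ((1 + 2 * y) * (1 - y)) := by
  have a1 : (1 + 2 * y) ≠ 0 := by linarith
  have a2 : (1 - y) ≠ 0 := by linarith
  field_simp
  ring

theorem Ga_mono {a b : ℝ} (ha : 0 ≤ a) (hb : b < 1)
    (h : ∀ y, a < y → y < b → 0 ≤ (y - 1 / 6) * (y - 1 / 3)) : MonotoneOn Ga (Set.Icc a b) := by
  apply monotoneOn_of_deriv_nonneg (convex_Icc a b)
  · intro y hy
    exact (Ga_deriv (ha.trans hy.1) (lt_of_le_of_lt hy.2 hb)).continuousAt.continuousWithinAt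
  · intro y hy
    rw [interior_Icc] at hy
    exact (Ga_deriv (ha.trans hy.1.le)
      (hy.2.trans hb)).differentiableAt.differentiableWithinAt
  · intro y hy
    rw [interior_Icc] at hy
    have y0 : 0 ≤ y := ha.trans hy.1.le
    have y1 : y < 1 := hy.2.trans hb
    rw [(Ga_deriv y0 y1).deriv, Ga_factor y0 y1]
    apply div_nonneg
    · have := h y hy.1 hy.2
      nlinarith
    · have : 0 < 1 - y := by linarith
      positivity

theorem Ga_anti {a b : ℝ} (ha : 0 ≤ a) (hb : b < 1)
    (h : ∀ y, a < y → y < b → (y - 1 / 6) * (y - 1 / 3) ≤ 0) : AntitoneOn Ga (Set.Icc a b) := by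
  apply antitoneOn_of_deriv_nonpos (convex_Icc a b)
  · intro y hy
    exact (Ga_deriv (ha.trans hy.1) (lt_of_le_of_lt hy.2 hb)).continuousAt.continuousWithinAt
  · intro y hy
    rw [interior_Icc] at hy
    exact (Ga_deriv (ha.trans hy.1.le)
      (hy.2.trans hb)).differentiableAt.differentiableWithinAt
  · intro y hy
    rw [interior_Icc] at hy
    have y0 : 0 ≤ y := ha.trans hy.1.le
    have y1 : y < 1 := hy.2.trans hb
    rw [(Ga_deriv y0 y1).deriv, Ga_factor y0 y1]
    apply div_nonpos_of_nonpos_of_nonneg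
    · have := h y hy.1 hy.2
      nlinarith
    · have : 0 < 1 - y := by linarith
      positivity

theorem Ga_third : 0 ≤ Ga (1 / 3) := by
  unfold Ga
  have h1 : Real.log (1 + 2 * (1 / 3)) - Real.log (1 - 1 / 3) = Real.log (5 / 2) := by
    rw [← Real.log_div (by norm_num) (by norm_num)]
    norm_num
  rw [h1]
  have h2 : (9 / 10 : ℝ) ≤ Real.log (5 / 2) := by
    rw [Real.le_log_iff_exp_le (by norm_num)]
    have h3 := Real.exp_one_lt_d9
    have h4 : Real.exp (9 / 10) ^ 10 = Real.exp 1 ^ 9 := by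
      rw [← Real.exp_nat_mul, ← Real.exp_nat_mul]
      norm_num
    have h5 : Real.exp 1 ^ 9 ≤ (2.7182818286 : ℝ) ^ 9 :=
      pow_le_pow_left₀ (Real.exp_pos _).le h3.le 9
    have h6 : Real.exp (9 / 10) ^ 10 ≤ (5 / 2 : ℝ) ^ 10 := by
      rw [h4]
      refine h5.trans ?_
      norm_num
    exact (pow_le_pow_iff_left₀ (Real.exp_pos _).le (by norm_num) (by norm_num)).1 h6
  linarith

theorem Ga_nonneg {y : ℝ} (h0 : 0 ≤ y) (h1 : y < 1) : 0 ≤ Ga y := by
  rcases le_total y (1 / 6) with h2 | h2
  · have h3 := Ga_mono (a := 0) (b := y) le_rfl h1 (fun z hz hz' => by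
      apply mul_nonneg_of_nonpos_of_nonpos <;> linarith)
    have h4 := h3 (Set.left_mem_Icc.2 h0) (Set.right_mem_Icc.2 h0) h0
    have h5 : Ga 0 = 0 := by
      unfold Ga
      simp
    rw [h5] at h4
    exact h4
  · rcases le_total y (1 / 3) with h3 | h3
    · have h4 := Ga_anti (a := y) (b := 1 / 3) h0 (by norm_num) (fun z hz hz' => by
        apply mul_nonpos_of_nonneg_of_nonpos <;> linarith)
      exact Ga_third.trans (h4 (Set.left_mem_Icc.2 h3) (Set.right_mem_Icc.2 h3) h3)
    · have h4 := Ga_mono (a := 1 / 3) (b := y) (by norm_num) h1 (fun z hz hz' => by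
        apply mul_nonneg <;> linarith)
      exact Ga_third.trans (h4 (Set.left_mem_Icc.2 h3) (Set.right_mem_Icc.2 h3) h3)

/-- the inequality in one variable -/
theorem one_var {y : ℝ} (h0 : 0 ≤ y) (h1 : y ≤ 1) :
    27 / 10 * y ^ 2 ≤ (1 + 2 * y) * Real.log (1 + 2 * y) + 2 * ((1 - y) * Real.log (1 - y)) := by
  set G : ℝ → ℝ := fun y => (1 + 2 * y) * Real.log (1 + 2 * y) +
    2 * ((1 - y) * Real.log (1 - y)) - 27 / 10 * y ^ 2 with hG
  have hc : Continuous G := by
    have c1 : Continuous fun y : ℝ => (1 + 2 * y) * Real.log (1 + 2 * y) :=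
      Real.continuous_mul_log.comp (by fun_prop : Continuous fun y : ℝ => 1 + 2 * y)
    have c2 : Continuous fun y : ℝ => (1 - y) * Real.log (1 - y) :=
      Real.continuous_mul_log.comp (by fun_prop : Continuous fun y : ℝ => 1 - y)
    exact (c1.add (c2.const_mul 2)).sub (by fun_prop)
  have hd : ∀ z : ℝ, 0 < z → z < 1 → HasDerivAt G (2 * Ga z) z := by
    intro z z0 z1
    have e1 : HasDerivAt (fun y : ℝ => 1 + 2 * y) 2 z := by
      simpa using ((hasDerivAt_id z).const_mul 2).const_add 1
    have e2 : HasDerivAt (fun y : ℝ => 1 - y) (-1) z := by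
      simpa using (hasDerivAt_id z).const_sub 1
    have d1 := (e1.mul (e1.log (by linarith : (1 + 2 * z) ≠ 0)))
    have d2 := (e2.mul (e2.log (by linarith : (1 - z) ≠ 0))).const_mul 2
    have d3 : HasDerivAt (fun y : ℝ => 27 / 10 * y ^ 2) (27 / 10 * (2 * z)) z := by
      simpa using (hasDerivAt_pow 2 z).const_mul (27 / 10)
    have d4 := (d1.add d2).sub d3
    refine d4.congr_deriv ?_
    unfold Ga
    have a1 : (1 + 2 * z) ≠ 0 := by linarith
    have a2 : (1 - z) ≠ 0 := by linarith
    field_simp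
    ring
  have hm : MonotoneOn G (Set.Icc 0 1) := by
    apply monotoneOn_of_deriv_nonneg (convex_Icc 0 1) hc.continuousOn
    · intro z hz
      rw [interior_Icc] at hz
      exact (hd z hz.1 hz.2).differentiableAt.differentiableWithinAt
    · intro z hz
      rw [interior_Icc] at hz
      rw [(hd z hz.1 hz.2).deriv]
      have := Ga_nonneg hz.1.le hz.2
      linarith
  have h2 := hm (Set.left_mem_Icc.2 zero_le_one) (Set.mem_Icc.2 ⟨h0, h1⟩) h0
  have h3 : G 0 = 0 := by
    rw [hG]
    simp
  rw [h3, hG] at h2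
  simp only at h2
  linarith

/-- the binary inequality -/
theorem binary {u : ℝ} (h0 : 0 ≤ u) (h1 : u ≤ 1) :
    u ^ 2 ≤ (1 + u) * Real.log (1 + u) + (1 - u) * Real.log (1 - u) := by
  set G : ℝ → ℝ := fun y => (1 + y) * Real.log (1 + y) +
    (1 - y) * Real.log (1 - y) - y ^ 2 with hG
  set Hf : ℝ → ℝ := fun y => Real.log (1 + y) - Real.log (1 - y) - 2 * y with hH
  have hHd : ∀ z : ℝ, 0 ≤ z → z < 1 → HasDerivAt Hf (1 / (1 + z) + 1 / (1 - z) - 2) z := by
    intro z z0 z1
    have e1 : HasDerivAt (fun y : ℝ => 1 + y) 1 z := by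
      simpa using (hasDerivAt_id z).const_add 1
    have e2 : HasDerivAt (fun y : ℝ => 1 - y) (-1) z := by
      simpa using (hasDerivAt_id z).const_sub 1
    have d1 := e1.log (by linarith : (1 + z) ≠ 0)
    have d2 := e2.log (by linarith : (1 - z) ≠ 0)
    have d3 : HasDerivAt (fun y : ℝ => 2 * y) 2 z := by
      simpa using (hasDerivAt_id z).const_mul 2
    refine ((d1.sub d2).sub d3).congr_deriv ?_
    ring
  have hH0 : ∀ z : ℝ, 0 ≤ z → z < 1 → 0 ≤ Hf z := by
    intro z z0 z1
    have hm : MonotoneOn Hf (Set.Icc 0 z) := by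
      apply monotoneOn_of_deriv_nonneg (convex_Icc 0 z)
      · intro y hy
        exact (hHd y hy.1 (lt_of_le_of_lt hy.2 z1)).continuousAt.continuousWithinAt
      · intro y hy
        rw [interior_Icc] at hy
        exact (hHd y hy.1.le (hy.2.trans z1)).differentiableAt.differentiableWithinAt
      · intro y hy
        rw [interior_Icc] at hy
        have y1 : y < 1 := hy.2.trans z1
        rw [(hHd y hy.1.le y1).deriv]
        have a1 : (0 : ℝ) < 1 + y := by linarith [hy.1]
        have a2 : (0 : ℝ) < 1 - y := by linarith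
        have e : 1 / (1 + y) + 1 / (1 - y) - 2 = 2 * y ^ 2 / ((1 + y) * (1 - y)) := by
          field_simp
          ring
        rw [e]
        positivity
    have h2 := hm (Set.left_mem_Icc.2 z0) (Set.right_mem_Icc.2 z0) z0
    have h3 : Hf 0 = 0 := by
      rw [hH]
      simp
    rw [h3] at h2
    exact h2
  have hc : Continuous G := by
    have c1 : Continuous fun y : ℝ => (1 + y) * Real.log (1 + y) :=
      Real.continuous_mul_log.comp (by fun_prop : Continuous fun y : ℝ => 1 + y)
    have c2 : Continuous fun y : ℝ => (1 - y) * Real.log (1 - y) :=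
      Real.continuous_mul_log.comp (by fun_prop : Continuous fun y : ℝ => 1 - y)
    exact (c1.add c2).sub (by fun_prop)
  have hd : ∀ z : ℝ, 0 < z → z < 1 → HasDerivAt G (Hf z) z := by
    intro z z0 z1
    have e1 : HasDerivAt (fun y : ℝ => 1 + y) 1 z := by
      simpa using (hasDerivAt_id z).const_add 1
    have e2 : HasDerivAt (fun y : ℝ => 1 - y) (-1) z := by
      simpa using (hasDerivAt_id z).const_sub 1
    have d1 := (e1.mul (e1.log (by linarith : (1 + z) ≠ 0)))
    have d2 := (e2.mul (e2.log (by linarith : (1 - z) ≠ 0)))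
    have d3 : HasDerivAt (fun y : ℝ => y ^ 2) (2 * z) z := by
      simpa using hasDerivAt_pow 2 z
    refine ((d1.add d2).sub d3).congr_deriv ?_
    rw [hH]
    have a1 : (1 + z) ≠ 0 := by linarith
    have a2 : (1 - z) ≠ 0 := by linarith
    field_simp
    ring
  have hm : MonotoneOn G (Set.Icc 0 1) := by
    apply monotoneOn_of_deriv_nonneg (convex_Icc 0 1) hc.continuousOn
    · intro z hz
      rw [interior_Icc] at hz
      exact (hd z hz.1 hz.2).differentiableAt.differentiableWithinAt
    · intro z hz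
      rw [interior_Icc] at hz
      rw [(hd z hz.1 hz.2).deriv]
      exact hH0 z hz.1.le hz.2
  have h2 := hm (Set.left_mem_Icc.2 zero_le_one) (Set.mem_Icc.2 ⟨h0, h1⟩) h0
  have h3 : G 0 = 0 := by
    rw [hG]
    simp
  rw [h3, hG] at h2
  simp only at h2
  linarith

theorem binary' {u : ℝ} (h0 : -1 ≤ u) (h1 : u ≤ 1) :
    u ^ 2 ≤ (1 + u) * Real.log (1 + u) + (1 - u) * Real.log (1 - u) := by
  rcases le_total 0 u with h | h
  · exact binary h h1
  · have := binary (u := -u) (by linarith) (by linarith)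
    have e1 : 1 + -u = 1 - u := by ring
    have e2 : 1 - -u = 1 + u := by ring
    rw [e1, e2, neg_sq] at this
    linarith

/-- `x log x` for a product -/
theorem xlogx_mul {x y : ℝ} (hy : 0 < y) :
    (y * x) * Real.log (y * x) = y * x * Real.log y + y * (x * Real.log x) := by
  rcases eq_or_ne x 0 with h | h
  · subst h
    simp
  · rw [Real.log_mul hy.ne' h]
    ring

theorem two_var {b c : ℝ} (hb : 0 ≤ b) (hc : 0 ≤ c) (hs : b + c ≤ 2 / 3) :
    (b + c) * Real.log ((b + c) / 2) + 27 / 40 * (b - c) ^ 2 ≤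
      b * Real.log b + c * Real.log c := by
  rcases eq_or_lt_of_le (add_nonneg hb hc) with h | h
  · have hb0 : b = 0 := by linarith
    have hc0 : c = 0 := by linarith
    subst hb0
    subst hc0
    simp
  · set s := b + c with hsdef
    set u := (b - c) / s with hu
    have hs2 : 0 < s / 2 := by linarith
    have e1 : b = s / 2 * (1 + u) := by
      rw [hu]
      field_simp
      linarith
    have e2 : c = s / 2 * (1 - u) := by
      rw [hu]
      field_simp
      linarith
    have hu1 : u ≤ 1 := by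
      rw [hu, div_le_one h]
      linarith
    have hu2 : -1 ≤ u := by
      rw [hu, le_div_iff₀ h]
      linarith
    have h1 := binary' hu2 hu1
    have e3 : b * Real.log b = s / 2 * (1 + u) * Real.log (s / 2) +
        s / 2 * ((1 + u) * Real.log (1 + u)) := by
      rw [e1]
      exact xlogx_mul hs2
    have e4 : c * Real.log c = s / 2 * (1 - u) * Real.log (s / 2) +
        s / 2 * ((1 - u) * Real.log (1 - u)) := by
      rw [e2]
      exact xlogx_mul hs2
    have e5 : b - c = s * u := by
      rw [hu]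
      field_simp
    rw [e3, e4, e5]
    have h2 : s / 2 * u ^ 2 ≤ s / 2 * ((1 + u) * Real.log (1 + u) +
        (1 - u) * Real.log (1 - u)) := mul_le_mul_of_nonneg_left h1 hs2.le
    have h3 : 27 / 40 * (s * u) ^ 2 ≤ s / 2 * u ^ 2 := by
      have h4 : 27 / 40 * s ≤ 1 / 2 := by linarith
      have h5 : 27 / 40 * s * (s * u ^ 2) ≤ 1 / 2 * (s * u ^ 2) :=
        mul_le_mul_of_nonneg_right h4 (by positivity)
      nlinarith
    nlinarith

/-- the normalised inequality, `a` is the largest -/
theorem normed {a b c : ℝ} (hb : 0 ≤ b) (hc : 0 ≤ c) (h1 : a + b + c = 1)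
    (hab : b ≤ a) (hac : c ≤ a) :
    9 / 10 * (a ^ 2 + b ^ 2 + c ^ 2 - a * b - b * c - c * a) ≤
      Real.log 3 + (a * Real.log a + b * Real.log b + c * Real.log c) := by
  have hs : b + c ≤ 2 / 3 := by linarith
  have h2 := two_var hb hc hs
  set y : ℝ := 1 - 3 * (b + c) / 2 with hy
  have hy0 : 0 ≤ y := by linarith
  have hy1 : y ≤ 1 := by
    rw [hy]
    linarith
  have h3 := one_var hy0 hy1
  have e1 : a = 1 / 3 * (1 + 2 * y) := by
    rw [hy]
    linarith
  have e2 : (b + c) / 2 = 1 / 3 * (1 - y) := by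
    rw [hy]
    linarith
  have l3 : Real.log (1 / 3) = - Real.log 3 := by
    rw [one_div, Real.log_inv]
  have e3 : a * Real.log a = 1 / 3 * (1 + 2 * y) * (- Real.log 3) +
      1 / 3 * ((1 + 2 * y) * Real.log (1 + 2 * y)) := by
    rw [← l3, e1]
    exact xlogx_mul (by norm_num)
  have e4 : (b + c) * Real.log ((b + c) / 2) = 2 * (1 / 3 * (1 - y) * (- Real.log 3) +
      1 / 3 * ((1 - y) * Real.log (1 - y))) := by
    have : (b + c) * Real.log ((b + c) / 2) = 2 * ((b + c) / 2 * Real.log ((b + c) / 2)) := by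
      ring
    rw [this, ← l3, e2, xlogx_mul (by norm_num : (0 : ℝ) < 1 / 3)]
  have e5 : 9 / 10 * (a ^ 2 + b ^ 2 + c ^ 2 - a * b - b * c - c * a) =
      9 / 10 * y ^ 2 + 27 / 40 * (b - c) ^ 2 := by
    have ha : a = 1 - b - c := by linarith
    rw [hy, ha]
    ring
  rw [e5, e3]
  rw [e4] at h2
  linarith

theorem normed' {a b c : ℝ} (ha : 0 ≤ a) (hb : 0 ≤ b) (hc : 0 ≤ c) (h1 : a + b + c = 1) :
    9 / 10 * (a ^ 2 + b ^ 2 + c ^ 2 - a * b - b * c - c * a) ≤
      Real.log 3 + (a * Real.log a + b * Real.log b + c * Real.log c) := by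
  rcases le_total b a with h2 | h2
  · rcases le_total c a with h3 | h3
    · exact normed hb hc h1 h2 h3
    · have := normed (a := c) (b := a) (c := b) ha hb (by linarith) h3 (h2.trans h3)
      linarith
  · rcases le_total c b with h3 | h3
    · have := normed (a := b) (b := c) (c := a) hc ha (by linarith) h3 h2
      linarith
    · have := normed (a := c) (b := a) (c := b) ha hb (by linarith) (h2.trans h3) h3
      linarith

end L0

theorem F3_sharp {a b c : ℝ} (ha : 0 ≤ a) (hb : 0 ≤ b) (hc : 0 ≤ c) :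
    F3 a b c ≤ 10 / 9 * ((a + b + c) * Real.log 3 - (Real.negMulLog a + Real.negMulLog b
      + Real.negMulLog c - Real.negMulLog (a + b + c))) := by
  rcases eq_or_lt_of_le (add_nonneg (add_nonneg ha hb) hc) with h | h
  · have ha0 : a = 0 := by linarith
    have hb0 : b = 0 := by linarith
    have hc0 : c = 0 := by linarith
    subst ha0
    subst hb0
    subst hc0
    rw [F3_zero]
    simp
  · set S := a + b + c with hS
    have e : ∀ x : ℝ, x = S * (x / S) := fun x => by field_simp
    have h1 := L0.normed' (div_nonneg ha h.le) (div_nonneg hb h.le) (div_nonneg hc h.le)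
      (by rw [← add_div, ← add_div, ← hS, div_self h.ne'])
    have l1 : ∀ x : ℝ, x * Real.log x = x * Real.log S + S * (x / S * Real.log (x / S)) := by
      intro x
      have h2 := L0.xlogx_mul (x := x / S) h
      rw [← e x] at h2
      exact h2
    have hF : F3 a b c = S * ((a / S) ^ 2 + (b / S) ^ 2 + (c / S) ^ 2 - a / S * (b / S) -
        b / S * (c / S) - c / S * (a / S)) := by
      unfold F3
      rw [← hS]
      field_simp
    rw [hF]
    simp only [Real.negMulLog]
    have h3 := mul_le_mul_of_nonneg_left h1 h.le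
    have ea := l1 a
    have eb := l1 b
    have ec := l1 c
    have hSS : S * Real.log S = a * Real.log S + b * Real.log S + c * Real.log S := by
      rw [hS]
      ring
    nlinarith

end Pool.Agent.H377R2.NK
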