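import Pool.Agent.H377R2.NK.Upper
import Pool.Agent.H377R2.NK.CountUp

/-!
Final statements: uniform upper bounds for the number of inverse iterates of the maps `3x+1`, `5x+1`.
-/

set_option autoImplicit false

namespace Pool.Agent.H377R2.NK



/-- uniform upper bound for the number of valid words of size at most `k` -/
theorem Wk_upper {p : ℕ} (hp : p = 3 ∨ p = 5) {ε : ℝ} (hε : 0 < ε) :
    ∃ K : ℕ, ∀ k : ℕ, K ≤ k → ∀ a : ℤ,
      (Wk p k a : ℝ) ≤ (((p : ℝ) + 1) / p) ^ ((1 + ε) * (k : ℝ)) := by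
  have hp0 : (0 : ℝ) < p := by rcases hp with rfl | rfl <;> norm_num
  have hz : 0 < zz p := by unfold zz; positivity
  have hb : (0 : ℝ) < ((p : ℝ) + 1) / p := by positivity
  have hbz : ((p : ℝ) + 1) / p = (zz p)⁻¹ := by unfold zz; rw [inv_div]
  have h1 : 1 < ((p : ℝ) + 1) / p := by rw [lt_div_iff₀ hp0]; linarith
  set L : ℝ := Real.log (((p : ℝ) + 1) / p) with hL
  have hL0 : 0 < L := Real.log_pos h1
  set e : ℝ := ε * L / 2 with he
  have he0 : 0 < e := by positivity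
  obtain ⟨C, hC, hup⟩ := upper hp he0
  obtain ⟨K, hK⟩ := exists_nat_ge (4 * C / e ^ 2)
  refine ⟨max 1 K, fun k hk a => ?_⟩
  have hk1 : (1 : ℝ) ≤ k := by exact_mod_cast (le_max_left 1 K).trans hk
  have hkK : (K : ℝ) ≤ k := by exact_mod_cast (le_max_right 1 K).trans hk
  have h2 : zz p ^ k * (Wk p k a : ℝ) ≤ (k + 1) * (C * Real.exp (e * k)) := by
    refine (Wk_le hp k a).trans ?_
    refine (Finset.sum_le_sum (g := fun _ => C * Real.exp (e * k)) fun n hn => ?_).trans ?_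
    · refine (hup k n a).trans ?_
      refine mul_le_mul_of_nonneg_left ?_ hC.le
      apply Real.exp_le_exp.2
      refine mul_le_mul_of_nonneg_left ?_ he0.le
      have : n ≤ k := by
        rw [Finset.mem_range] at hn
        omega
      exact_mod_cast this
    · rw [Finset.sum_const, Finset.card_range, nsmul_eq_mul]
      push_cast
      exact le_rfl
  have h3 : ((k : ℝ) + 1) * C ≤ Real.exp (e * k) := by
    have h4 := Real.quadratic_le_exp_of_nonneg (x := e * k) (by positivity)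
    have h5 : 4 * C ≤ k * e ^ 2 := by
      have := hK.trans hkK
      rwa [div_le_iff₀ (by positivity)] at this
    have h6 : 4 * C * k ≤ (e * k) ^ 2 := by nlinarith
    have h7 : 0 < e * k := by positivity
    nlinarith
  have h4 : zz p ^ k * (Wk p k a : ℝ) ≤ Real.exp (2 * e * k) := by
    calc zz p ^ k * (Wk p k a : ℝ) ≤ (k + 1) * (C * Real.exp (e * k)) := h2
      _ = ((k + 1) * C) * Real.exp (e * k) := by ring
      _ ≤ Real.exp (e * k) * Real.exp (e * k) :=
          mul_le_mul_of_nonneg_right h3 (Real.exp_pos _).le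
      _ = Real.exp (2 * e * k) := by rw [← Real.exp_add]; congr 1; ring
  have h5 : (Wk p k a : ℝ) ≤ Real.exp (2 * e * k) * (((p : ℝ) + 1) / p) ^ k := by
    rw [hbz, inv_pow, ← div_eq_mul_inv, le_div_iff₀ (by positivity), mul_comm]
    exact h4
  refine h5.trans (le_of_eq ?_)
  rw [Real.rpow_def_of_pos hb, ← hL, ← Real.rpow_natCast, Real.rpow_def_of_pos hb, ← hL,
    ← Real.exp_add]
  congr 1
  rw [he]
  ring

/-- uniform upper bound for the number of integers reaching `a` in exactly `k` steps -/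
theorem ncard_upper {p : ℕ} (hp : p = 3 ∨ p = 5) {ε : ℝ} (hε : 0 < ε) :
    ∃ K : ℕ, ∀ k : ℕ, K ≤ k → ∀ a : ℤ,
      ({n : ℤ | (fun m : ℤ => if m % 2 = 0 then m / 2 else ((p : ℤ) * m + 1) / 2)^[k] n = a}.ncard
        : ℝ) ≤ (((p : ℝ) + 1) / p) ^ ((1 + ε) * (k : ℝ)) := by
  obtain ⟨K, hK⟩ := Wk_upper hp hε
  refine ⟨K, fun k hk a => le_trans ?_ (hK k hk a)⟩
  exact_mod_cast (ncard_le_Wk hp k a).2

theorem cast_iter (k : ℕ) (n : ℕ) :
    (((fun m : ℕ => if m % 2 = 0 then m / 2 else (3 * m + 1) / 2)^[k] n : ℕ) : ℤ) =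
      (fun m : ℤ => if m % 2 = 0 then m / 2 else (((3 : ℕ) : ℤ) * m + 1) / 2)^[k] (n : ℤ) := by
  induction k generalizing n with
  | zero => rfl
  | succ k ih =>
    rw [Function.iterate_succ_apply, Function.iterate_succ_apply, ih]
    congr 1
    by_cases h : n % 2 = 0
    · have h' : (n : ℤ) % 2 = 0 := by omega
      rw [if_pos h, if_pos h']
      push_cast
      rfl
    · have h' : ¬ (n : ℤ) % 2 = 0 := by omega
      rw [if_neg h, if_neg h']
      push_cast
      rfl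

/-- finiteness and comparison of the counts over `ℕ` and over `ℤ` -/
theorem nat_fin (k : ℕ) (a : ℕ) :
    {m : ℕ | (fun m : ℕ => if m % 2 = 0 then m / 2 else (3 * m + 1) / 2)^[k] m = a}.Finite ∧
    {m : ℕ | (fun m : ℕ => if m % 2 = 0 then m / 2 else (3 * m + 1) / 2)^[k] m = a}.ncard ≤
      {n : ℤ | (fun m : ℤ => if m % 2 = 0 then m / 2 else (((3 : ℕ) : ℤ) * m + 1) / 2)^[k] n
        = (a : ℤ)}.ncard := by
  have hf := (ncard_le_Wk (p := 3) (Or.inl rfl) k (a : ℤ)).1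
  have hmaps : ∀ m ∈ {m : ℕ | (fun m : ℕ => if m % 2 = 0 then m / 2 else (3 * m + 1) / 2)^[k] m = a},
      (m : ℤ) ∈ {n : ℤ | (fun m : ℤ => if m % 2 = 0 then m / 2 else (((3 : ℕ) : ℤ) * m + 1) / 2)^[k] n
        = (a : ℤ)} := by
    intro m hm
    rw [Set.mem_setOf_eq] at hm ⊢
    rw [← cast_iter, hm]
  constructor
  · exact Set.Finite.of_injOn hmaps (Nat.cast_injective.injOn) hf
  · exact Set.ncard_le_ncard_of_injOn (fun m : ℕ => (m : ℤ)) hmaps (Nat.cast_injective.injOn) hf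

/-- uniform upper bound for the number of positive integers reaching `a` in exactly `k` steps -/
theorem nat_upper {ε : ℝ} (hε : 0 < ε) :
    ∃ K : ℕ, ∀ k : ℕ, K ≤ k → ∀ a : ℕ,
      ({m : ℕ | (fun m : ℕ => if m % 2 = 0 then m / 2 else (3 * m + 1) / 2)^[k] m = a}.ncard : ℝ)
        ≤ ((4 : ℝ) / 3) ^ ((1 + ε) * (k : ℝ)) := by
  obtain ⟨K, hK⟩ := ncard_upper (p := 3) (Or.inl rfl) hε
  refine ⟨K, fun k hk a => ?_⟩
  have h1 := hK k hk (a : ℤ)
  have h2 : ((((3 : ℕ) : ℝ) + 1) / ((3 : ℕ) : ℝ)) = (4 : ℝ) / 3 := by norm_num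
  rw [h2] at h1
  refine le_trans ?_ h1
  exact_mod_cast (nat_fin k a).2

end Pool.Agent.H377R2.NK
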