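import Pool.Agent.H377R2.NK.F3sharp
import Pool.Agent.H320R2.PDGood

/-! Task L2 (GZ-AVG): the averaged nonuniformity `gz` for the critical letter law
`(1/3)(3/4)^e`. -/

set_option autoImplicit false
set_option linter.unusedVariables false

namespace Pool.Agent.H377R2.NK

open Finset Real Pool.Agent.H320R2.PD


/-! ### the letter law -/

lemma qw_pos' (w : List ℕ) : 0 < qw w := by unfold qw; positivity

lemma qw_of_mem' {A k T : ℕ} {w : List ℕ} (hw : w ∈ FWT A k T) :
    qw w = (1 / 3) ^ k * (3 / 4) ^ T := by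
  unfold FWT at hw
  rw [Finset.mem_filter] at hw
  unfold qw
  rw [hw.2, (mem_FW.1 hw.1).1]

lemma sum_qw_pow' (A n : ℕ) (θ : ℝ) :
    ∑ w ∈ FW A n, qw w * θ ^ w.sum = ((1 / 3) * ∑ e ∈ Icc 1 A, (3 / 4 * θ) ^ e) ^ n := by
  rw [mul_pow, ← sum_pow, mul_sum]
  refine sum_congr rfl fun w hw => ?_
  unfold qw
  rw [(mem_FW.1 hw).1, mul_pow]
  ring

lemma sum_Icc_34' (A : ℕ) : (1 / 3 : ℝ) * ∑ e ∈ Icc 1 A, (3 / 4 : ℝ) ^ e = 1 - (3 / 4) ^ A := by
  induction A with
  | zero => simp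
  | succ A ih =>
    rw [sum_Icc_succ_top (by omega), mul_add, ih]
    ring

lemma sum_qw' (A n : ℕ) : ∑ w ∈ FW A n, qw w = (1 - (3 / 4 : ℝ) ^ A) ^ n := by
  have h := sum_qw_pow' A n 1
  simp only [one_pow, mul_one] at h
  rw [h, sum_Icc_34']

lemma sum_qw_le' (A n : ℕ) : ∑ w ∈ FW A n, qw w ≤ 1 := by
  rw [sum_qw']
  have h : (3 / 4 : ℝ) ^ A ≤ 1 := pow_le_one₀ (by norm_num) (by norm_num)
  have h0 : (0 : ℝ) < (3 / 4 : ℝ) ^ A := by positivity
  exact pow_le_one₀ (by linarith) (by linarith)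

lemma gen_qw_le' (A n : ℕ) {θ : ℝ} (h0 : 0 < θ) (h2 : 3 * θ < 4) :
    ∑ w ∈ FW A n, qw w * θ ^ w.sum ≤ (θ / (4 - 3 * θ)) ^ n := by
  rw [sum_qw_pow']
  have h3 := sum_Icc_pow_le A (r := 3 / 4 * θ) (by linarith) (by linarith)
  have h4 : (1 / 3) * (3 / 4 * θ / (1 - 3 / 4 * θ)) = θ / (4 - 3 * θ) := by
    have : (4 - 3 * θ) ≠ 0 := by linarith
    have : (1 - 3 / 4 * θ) ≠ 0 := by
      intro h; apply this; linarith
    field_simp
  refine pow_le_pow_left₀ ?_ ?_ n
  · exact mul_nonneg (by norm_num) (sum_nonneg fun e _ => by positivity)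
  · rw [← h4]
    exact mul_le_mul_of_nonneg_left h3 (by norm_num)

lemma gen_exp' {s : ℝ} (hs : |s| ≤ 1 / 8) :
    (1 + s) / (4 - 3 * (1 + s)) ≤ exp (4 * log (1 + s) + 8 * s ^ 2) := by
  have hs' := abs_le.mp hs
  have h1 : 0 < 1 + s := by linarith
  have h2 : 0 < 1 - 3 * s := by linarith
  rw [exp_add, show 4 * log (1 + s) = ((4 : ℕ) : ℝ) * log (1 + s) by norm_num,
    exp_nat_mul, exp_log h1]
  rw [show 4 - 3 * (1 + s) = 1 - 3 * s by ring, div_le_iff₀ h2]
  have h3 : 8 * s ^ 2 + 1 ≤ exp (8 * s ^ 2) := add_one_le_exp _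
  have h5 : 1 ≤ (1 + s) ^ 3 * (1 - 3 * s) * exp (8 * s ^ 2) := by
    have h6 : 0 ≤ (1 + s) ^ 3 * (1 - 3 * s) := by positivity
    have h7 : 1 ≤ (1 + s) ^ 3 * (1 - 3 * s) * (8 * s ^ 2 + 1) := by
      have e : (1 + s) ^ 3 * (1 - 3 * s) * (8 * s ^ 2 + 1) - 1
          = s ^ 2 * (2 - 8 * s - 51 * s ^ 2 - 64 * s ^ 3 - 24 * s ^ 4) := by ring
      have h8 : 0 ≤ 2 - 8 * s - 51 * s ^ 2 - 64 * s ^ 3 - 24 * s ^ 4 := by
        have a1 : s ^ 2 ≤ 1 / 64 := by nlinarith
        have a2 : s ^ 3 ≤ 1 / 512 := by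
          have : s ^ 3 ≤ |s| ^ 3 := by
            rw [← abs_pow]; exact le_abs_self _
          have h9 : |s| ^ 3 ≤ (1 / 8) ^ 3 := pow_le_pow_left₀ (abs_nonneg _) hs 3
          norm_num at h9
          linarith
        have a3 : s ^ 4 ≤ 1 / 4096 := by
          have : s ^ 4 = (s ^ 2) ^ 2 := by ring
          rw [this]
          nlinarith [sq_nonneg s]
        linarith
      have h9 : 0 ≤ s ^ 2 * (2 - 8 * s - 51 * s ^ 2 - 64 * s ^ 3 - 24 * s ^ 4) :=
        mul_nonneg (sq_nonneg _) h8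
      linarith
    exact h7.trans (mul_le_mul_of_nonneg_left h3 h6)
  have h10 : (1 + s) ^ 4 * exp (8 * s ^ 2) * (1 - 3 * s)
      = (1 + s) * ((1 + s) ^ 3 * (1 - 3 * s) * exp (8 * s ^ 2)) := by ring
  rw [h10]
  nlinarith

/-- common part of the two tails -/
lemma tail_gen' (A n : ℕ) {s c : ℝ} (hs : |s| ≤ 1 / 8) (P : List ℕ → Prop) [DecidablePred P]
    (hP : ∀ w ∈ FW A n, P w → log (1 + s) * (c * n) ≤ log (1 + s) * w.sum) :
    ∑ w ∈ (FW A n).filter P, qw w
      ≤ exp (-(log (1 + s) * (c * n)) + (4 * log (1 + s) + 8 * s ^ 2) * n) := by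
  have hs' := abs_le.mp hs
  have hθ : 0 < 1 + s := by linarith
  have hpow : ∀ k : ℕ, (1 + s) ^ k = exp (log (1 + s) * k) := by
    intro k
    rw [mul_comm, exp_nat_mul, exp_log hθ]
  have h1 : ∀ w ∈ (FW A n).filter P,
      qw w ≤ exp (-(log (1 + s) * (c * n))) * (qw w * (1 + s) ^ w.sum) := by
    intro w hw
    rw [Finset.mem_filter] at hw
    have h2 : 1 ≤ exp (-(log (1 + s) * (c * n))) * (1 + s) ^ w.sum := by
      rw [hpow, ← exp_add]
      apply one_le_exp
      have := hP w hw.1 hw.2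
      linarith
    calc qw w = qw w * 1 := by ring
      _ ≤ qw w * (exp (-(log (1 + s) * (c * n))) * (1 + s) ^ w.sum) :=
          mul_le_mul_of_nonneg_left h2 (qw_pos' w).le
      _ = _ := by ring
  calc ∑ w ∈ (FW A n).filter P, qw w
      ≤ ∑ w ∈ (FW A n).filter P, exp (-(log (1 + s) * (c * n))) * (qw w * (1 + s) ^ w.sum) :=
        sum_le_sum h1
    _ ≤ ∑ w ∈ FW A n, exp (-(log (1 + s) * (c * n))) * (qw w * (1 + s) ^ w.sum) := by
        apply sum_le_sum_of_subset_of_nonneg (filter_subset _ _)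
        intro w _ _
        have := (qw_pos' w).le
        positivity
    _ = exp (-(log (1 + s) * (c * n))) * ∑ w ∈ FW A n, (qw w * (1 + s) ^ w.sum) := by
        rw [mul_sum]
    _ ≤ exp (-(log (1 + s) * (c * n))) * ((1 + s) / (4 - 3 * (1 + s))) ^ n :=
        mul_le_mul_of_nonneg_left (gen_qw_le' A n hθ (by linarith)) (exp_pos _).le
    _ ≤ exp (-(log (1 + s) * (c * n))) * (exp (4 * log (1 + s) + 8 * s ^ 2)) ^ n := by
        apply mul_le_mul_of_nonneg_left _ (exp_pos _).le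
        apply pow_le_pow_left₀
        · apply div_nonneg hθ.le; linarith
        · exact gen_exp' hs
    _ = _ := by
        rw [← exp_nat_mul, ← exp_add]
        congr 1; ring

lemma tail_qw' (A n : ℕ) {η : ℝ} (hη : 0 < η) (hη1 : η ≤ 1) :
    ∑ w ∈ (FW A n).filter (fun w => η * n ≤ |(w.sum : ℝ) - 4 * n|), qw w
      ≤ 2 * exp (-(η ^ 2 * n / 128)) := by
  classical
  have hn : (0 : ℝ) ≤ n := Nat.cast_nonneg n
  have hup : ∑ w ∈ (FW A n).filter (fun w => η * n ≤ (w.sum : ℝ) - 4 * n), qw w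
      ≤ exp (-(η ^ 2 * n / 128)) := by
    set s : ℝ := η / 32 with hs
    have hs0 : 0 < s := by positivity
    have hs1 : s ≤ 1 / 32 := by rw [hs]; linarith
    have hθ : 0 < 1 + s := by linarith
    have hlog : s / 2 ≤ log (1 + s) := by
      have := one_sub_inv_le_log_of_pos hθ
      have h2 : s / 2 ≤ 1 - (1 + s)⁻¹ := by
        rw [show 1 - (1 + s)⁻¹ = s / (1 + s) by field_simp; ring]
        rw [div_le_div_iff₀ (by norm_num) hθ]
        nlinarith
      linarith
    refine (tail_gen' A n (s := s) (c := 4 + η) (by rw [abs_of_pos hs0]; linarith) _ ?_).trans ?_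
    · intro w _ hw
      refine mul_le_mul_of_nonneg_left ?_ (by linarith)
      linarith
    · apply exp_le_exp.mpr
      have h5 : s / 2 * (η * n) ≤ log (1 + s) * (η * n) :=
        mul_le_mul_of_nonneg_right hlog (by positivity)
      have h6 : s / 2 * (η * n) = η ^ 2 * n / 64 := by rw [hs]; ring
      have h7 : 8 * s ^ 2 * n = η ^ 2 * n / 128 := by rw [hs]; ring
      nlinarith
  have hdown : ∑ w ∈ (FW A n).filter (fun w => η * n ≤ 4 * n - (w.sum : ℝ)), qw w
      ≤ exp (-(η ^ 2 * n / 128)) := by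
    set s : ℝ := -(η / 16) with hs
    have hs0 : s < 0 := by rw [hs]; linarith
    have hs1 : -(1 / 16) ≤ s := by rw [hs]; linarith
    have hθ : 0 < 1 + s := by linarith
    have hlog : log (1 + s) ≤ s := by
      have := log_le_sub_one_of_pos hθ
      linarith
    refine (tail_gen' A n (s := s) (c := 4 - η) (by rw [abs_of_neg hs0]; linarith) _ ?_).trans ?_
    · intro w _ hw
      refine mul_le_mul_of_nonpos_left ?_ (by linarith)
      linarith
    · apply exp_le_exp.mpr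
      have h5 : log (1 + s) * (η * n) ≤ s * (η * n) :=
        mul_le_mul_of_nonneg_right hlog (by positivity)
      have h6 : s * (η * n) = -(η ^ 2 * n / 16) := by rw [hs]; ring
      have h7 : 8 * s ^ 2 * n = η ^ 2 * n / 32 := by rw [hs]; ring
      have h8 : 0 ≤ η ^ 2 * n := by positivity
      nlinarith
  have hsub : (FW A n).filter (fun w => η * n ≤ |(w.sum : ℝ) - 4 * n|) ⊆
      (FW A n).filter (fun w => η * n ≤ (w.sum : ℝ) - 4 * n) ∪
      (FW A n).filter (fun w => η * n ≤ 4 * n - (w.sum : ℝ)) := by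
    intro w hw
    rw [Finset.mem_filter] at hw
    rw [Finset.mem_union, Finset.mem_filter, Finset.mem_filter]
    rcases le_abs.mp hw.2 with h | h
    · exact Or.inl ⟨hw.1, h⟩
    · exact Or.inr ⟨hw.1, by linarith⟩
  have h1 := sum_le_sum_of_subset_of_nonneg hsub fun w _ _ => (qw_pos' w).le
  have h2 : ∑ w ∈ (FW A n).filter (fun w => η * n ≤ (w.sum : ℝ) - 4 * n) ∪
      (FW A n).filter (fun w => η * n ≤ 4 * n - (w.sum : ℝ)), qw w ≤
      ∑ w ∈ (FW A n).filter (fun w => η * n ≤ (w.sum : ℝ) - 4 * n), qw w +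
      ∑ w ∈ (FW A n).filter (fun w => η * n ≤ 4 * n - (w.sum : ℝ)), qw w := by
    rw [← sum_union_inter]
    have : 0 ≤ ∑ w ∈ (FW A n).filter (fun w => η * n ≤ (w.sum : ℝ) - 4 * n) ∩
      (FW A n).filter (fun w => η * n ≤ 4 * n - (w.sum : ℝ)), qw w :=
      sum_nonneg fun w _ => (qw_pos' w).le
    linarith
  linarith

lemma first_moment' (A n : ℕ) :
    ∑ w ∈ FW A n, qw w * ((Wo w : ℝ) * (1 / 2) ^ w.sum) ≤ 1 := by
  induction n with
  | zero => simp [FW, Wo]
  | succ n ih =>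
    rw [sum_FW_succ]
    have h1 : ∀ e ∈ Icc 1 A, ∑ w ∈ FW A n, qw (e :: w) * ((Wo (e :: w) : ℝ) * (1 / 2) ^ (e :: w).sum)
        = (1 / 3) * (3 / 8) ^ e * (∑ w ∈ FW A n, qw w
          + 3 * ∑ w ∈ FW A n, qw w * ((Wo w : ℝ) * (1 / 2) ^ w.sum)) := by
      intro e _
      rw [mul_sum, ← sum_add_distrib, mul_sum]
      refine sum_congr rfl fun w _ => ?_
      unfold qw
      rw [List.length_cons, List.sum_cons, Wo]
      push_cast
      rw [pow_succ, pow_add, pow_add]
      have h2 : (2 : ℝ) ^ w.sum * (1 / 2) ^ w.sum = 1 := by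
        rw [← mul_pow]; norm_num
      have h3 : (3 / 8 : ℝ) ^ e = (3 / 4) ^ e * (1 / 2) ^ e := by
        rw [← mul_pow]; norm_num
      rw [h3]
      calc (1 / 3 : ℝ) ^ w.length * (1 / 3) * ((3 / 4) ^ e * (3 / 4) ^ w.sum)
            * ((2 ^ w.sum + 3 * (Wo w : ℝ)) * ((1 / 2) ^ e * (1 / 2) ^ w.sum))
          = (1 / 3) * ((3 / 4) ^ e * (1 / 2) ^ e) * ((1 / 3) ^ w.length * (3 / 4) ^ w.sum
            * ((2 : ℝ) ^ w.sum * (1 / 2) ^ w.sum)
            + 3 * ((1 / 3) ^ w.length * (3 / 4) ^ w.sum * ((Wo w : ℝ) * (1 / 2) ^ w.sum))) := by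
            ring
        _ = _ := by rw [h2]; ring
    rw [sum_congr rfl h1, ← sum_mul, ← mul_sum]
    have h2 : (1 / 3 : ℝ) * ∑ e ∈ Icc 1 A, (3 / 8 : ℝ) ^ e ≤ 1 / 5 := by
      have := sum_Icc_pow_le A (r := (3 / 8 : ℝ)) (by norm_num) (by norm_num)
      norm_num at this ⊢
      linarith
    have h3 := sum_qw_le' A n
    have h4 : 0 ≤ ∑ w ∈ FW A n, qw w + 3 * ∑ w ∈ FW A n, qw w * ((Wo w : ℝ) * (1 / 2) ^ w.sum) := by
      exact add_nonneg (sum_nonneg fun w _ => (qw_pos' w).le)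
        (mul_nonneg (by norm_num) (sum_nonneg fun w _ =>
          mul_nonneg (qw_pos' w).le (by positivity)))
    have h5 := mul_le_mul_of_nonneg_right h2 h4
    linarith

/-! ### entropy -/

lemma Gam_entropy' {ι : Type*} {s : Finset ι} {wt : ι → ℝ} (v : ι → ℤ) (M : ℕ)
    (h : ∀ i ∈ s, 0 ≤ wt i) :
    ∑ j ∈ range M, Gam s wt v j ≤ 10 / 9 * (M * Real.log 3 * ∑ i ∈ s, wt i
      - (∑ c ∈ range (3 ^ M), Real.negMulLog (cnt s wt v M (c : ℤ))
        - Real.negMulLog (∑ i ∈ s, wt i))) := by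
  induction M with
  | zero => simp [cnt]
  | succ M ih =>
    rw [sum_range_succ]
    have h1 : Gam s wt v M ≤ 10 / 9 * (Real.log 3 * ∑ i ∈ s, wt i
        - (∑ c ∈ range (3 ^ (M + 1)), Real.negMulLog (cnt s wt v (M + 1) (c : ℤ))
          - ∑ c ∈ range (3 ^ M), Real.negMulLog (cnt s wt v M (c : ℤ)))) := by
      rw [ent_range_split (fun c => Real.negMulLog (cnt s wt v (M + 1) c)) M,
        ← ent_cnt_sum s wt v M, mul_sum, ← sum_sub_distrib, ← sum_sub_distrib, mul_sum]
      unfold Gam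
      apply sum_le_sum
      intro c _
      have h2 := F3_sharp (ent_cnt_nonneg v (M + 1) (c : ℤ) h)
        (ent_cnt_nonneg v (M + 1) ((c : ℤ) + 3 ^ M) h)
        (ent_cnt_nonneg v (M + 1) ((c : ℤ) + 2 * 3 ^ M) h)
      rw [← ent_cnt_split s wt v M] at h2
      unfold Fib
      linarith
    push_cast
    linarith

open scoped Classical in
/-- typical words -/
noncomputable def typq (A k : ℕ) (η : ℝ) : Finset (List ℕ) :=
  (FW A k).filter fun w => |(w.sum : ℝ) - 4 * k| ≤ η * k ∧ (Wo w : ℝ) ≤ 2 ^ w.sum * (k : ℝ) ^ 2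

open scoped Classical in
lemma typq_mass {A k : ℕ} {η : ℝ} (hη : 0 < η) (hη1 : η ≤ 1) (hk : 1 ≤ k) (hA : 3 * k ≤ A) :
    1 - (k * (27 / 64 : ℝ) ^ k + 1 / (k : ℝ) ^ 2 + 2 * exp (-(η ^ 2 * k / 128)))
      ≤ ∑ w ∈ typq A k η, qw w := by
  have hk0 : (0 : ℝ) < k := by exact_mod_cast hk
  have h1 : ∑ w ∈ FW A k, qw w ≤ ∑ w ∈ typq A k η, qw w
      + ∑ w ∈ (FW A k).filter (fun w => η * k ≤ |(w.sum : ℝ) - 4 * k|), qw w
      + ∑ w ∈ FW A k, qw w * ((Wo w : ℝ) * (1 / 2) ^ w.sum) / (k : ℝ) ^ 2 := by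
    unfold typq
    rw [Finset.sum_filter, Finset.sum_filter, ← Finset.sum_add_distrib, ← Finset.sum_add_distrib]
    apply Finset.sum_le_sum
    intro w _
    have hw := qw_pos' w
    have hW : (0 : ℝ) ≤ Wo w := by positivity
    by_cases ha : |(w.sum : ℝ) - 4 * k| ≤ η * k
    · by_cases hb : (Wo w : ℝ) ≤ 2 ^ w.sum * (k : ℝ) ^ 2
      · rw [if_pos ⟨ha, hb⟩]
        have : 0 ≤ (if η * k ≤ |(w.sum : ℝ) - 4 * k| then qw w else 0) := by
          split_ifs <;> [exact hw.le; exact le_rfl]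
        have h2 : 0 ≤ qw w * ((Wo w : ℝ) * (1 / 2) ^ w.sum) / (k : ℝ) ^ 2 := by positivity
        linarith
      · rw [if_neg (fun h => hb h.2)]
        push Not at hb
        have : 0 ≤ (if η * k ≤ |(w.sum : ℝ) - 4 * k| then qw w else 0) := by
          split_ifs <;> [exact hw.le; exact le_rfl]
        have h2 : qw w ≤ qw w * ((Wo w : ℝ) * (1 / 2) ^ w.sum) / (k : ℝ) ^ 2 := by
          rw [le_div_iff₀ (by positivity)]
          refine mul_le_mul_of_nonneg_left ?_ hw.le
          have h3 : (1 / 2 : ℝ) ^ w.sum * 2 ^ w.sum = 1 := by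
            rw [← mul_pow]
            norm_num
          have h4 := mul_le_mul_of_nonneg_right hb.le (show (0 : ℝ) ≤ (1 / 2) ^ w.sum by positivity)
          calc (k : ℝ) ^ 2 = 2 ^ w.sum * (k : ℝ) ^ 2 * (1 / 2) ^ w.sum := by
                rw [mul_right_comm, mul_comm (2 ^ w.sum) ((1 / 2 : ℝ) ^ w.sum), h3, one_mul]
            _ ≤ _ := h4
        linarith
    · rw [if_neg (fun h => ha h.1), if_pos (le_of_lt (not_le.1 ha))]
      have h2 : 0 ≤ qw w * ((Wo w : ℝ) * (1 / 2) ^ w.sum) / (k : ℝ) ^ 2 := by positivity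
      linarith
  have h2 := tail_qw' A k hη hη1
  have h3 : ∑ w ∈ FW A k, qw w * ((Wo w : ℝ) * (1 / 2) ^ w.sum) / (k : ℝ) ^ 2
      ≤ 1 / (k : ℝ) ^ 2 := by
    rw [← Finset.sum_div]
    exact div_le_div_of_nonneg_right (first_moment' A k) (by positivity)
  have h4 : 1 - k * (27 / 64 : ℝ) ^ k ≤ ∑ w ∈ FW A k, qw w := by
    rw [sum_qw']
    have hb := one_add_mul_le_pow (a := -(3 / 4 : ℝ) ^ A) (by
      have : (3 / 4 : ℝ) ^ A ≤ 1 := pow_le_one₀ (by norm_num) (by norm_num)
      linarith) k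
    have h6 : (3 / 4 : ℝ) ^ A ≤ (27 / 64) ^ k := by
      calc (3 / 4 : ℝ) ^ A ≤ (3 / 4) ^ (3 * k) :=
            pow_le_pow_of_le_one (by norm_num) (by norm_num) hA
        _ = (27 / 64) ^ k := by rw [pow_mul]; norm_num
    have h7 : (1 + -(3 / 4 : ℝ) ^ A) ^ k = (1 - (3 / 4) ^ A) ^ k := by ring_nf
    rw [h7] at hb
    have h8 := mul_le_mul_of_nonneg_left h6 hk0.le
    linarith
  have h6 : ∑ w ∈ (FW A k).filter (fun w => η * k ≤ |(w.sum : ℝ) - 4 * k|), qw w
      ≤ 2 * exp (-(η ^ 2 * k / 128)) := by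
    convert h2 using 2
  linarith

open scoped Classical in
/-- entropy bound, summed over the sizes -/
lemma gz_sum_le' {A k : ℕ} {η : ℝ} (hη : 0 < η) (hη1 : η ≤ 1) (hk : 1 ≤ k) (M : ℕ)
    (hM : (2 : ℝ) ^ ((4 + η) * k) * (k : ℝ) ^ 2 < 3 ^ M) :
    ∑ j ∈ range M, gz A k j ≤ 10 / 9 * (M * log 3
      - (k * log 3 + (4 - η) * k * log (4 / 3)) * ∑ w ∈ typq A k η, qw w
      + log (5 * k + 1) + 1) := by
  have hk0 : (0 : ℝ) < k := by exact_mod_cast hk
  set s1 : ℕ → Finset (List ℕ) := fun T => (typq A k η).filter fun w => w.sum = T with hs1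
  have hs1sub : ∀ T, s1 T ⊆ FWT A k T := by
    intro T w hw
    simp only [hs1, typq, Finset.mem_filter] at hw
    unfold FWT
    rw [Finset.mem_filter]
    exact ⟨hw.1.1, hw.2⟩
  set pp : ℕ → ℝ := fun T => (1 / 3 : ℝ) ^ k * (3 / 4) ^ T with hpp
  have hpp0 : ∀ T, 0 < pp T := fun T => by simp only [hpp]; positivity
  have hpp1 : ∀ T, pp T ≤ 1 := fun T => by
    simp only [hpp]
    exact mul_le_one₀ (pow_le_one₀ (by norm_num) (by norm_num)) (by positivity)
      (pow_le_one₀ (by norm_num) (by norm_num))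
  set μ : ℕ → ℝ := fun T => (s1 T).card * pp T with hμ
  have hμ0 : ∀ T, 0 ≤ μ T := fun T => mul_nonneg (Nat.cast_nonneg _) (hpp0 T).le
  have hμs : ∀ T, ∑ w ∈ s1 T, qw w = μ T := by
    intro T
    rw [Finset.sum_congr rfl (fun w hw => qw_of_mem' (hs1sub T hw)), Finset.sum_const,
      nsmul_eq_mul]
  -- size constraints
  have hsize : ∀ T, (s1 T).Nonempty → |(T : ℝ) - 4 * k| ≤ η * k := by
    rintro T ⟨w, hw⟩
    simp only [hs1, typq, Finset.mem_filter] at hw
    rw [← hw.2]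
    exact hw.1.2.1
  have hWsmall : ∀ T, ∀ w ∈ s1 T, (Wo w : ℝ) < 3 ^ M := by
    intro T w hw
    have h1 := hsize T ⟨w, hw⟩
    simp only [hs1, typq, Finset.mem_filter] at hw
    have h2 := hw.1.2.2
    rw [hw.2] at h2
    refine (h2.trans ?_).trans_lt hM
    refine mul_le_mul_of_nonneg_right ?_ (by positivity)
    rw [← Real.rpow_natCast]
    apply Real.rpow_le_rpow_of_exponent_le (by norm_num)
    have := (abs_le.1 h1).2
    linarith
  have hinj : ∀ T, ∀ w ∈ s1 T, ∀ w' ∈ s1 T, (3 : ℤ) ^ M ∣ (Wo w : ℤ) - Wo w' → w = w' := by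
    intro T w hw w' hw' hd
    have h1 := hWsmall T w hw
    have h2 := hWsmall T w' hw'
    have h1' : (Wo w : ℤ) < 3 ^ M := by exact_mod_cast h1
    have h2' : (Wo w' : ℤ) < 3 ^ M := by exact_mod_cast h2
    have h3 : (Wo w : ℤ) - Wo w' = 0 := by
      apply Int.eq_zero_of_abs_lt_dvd hd
      rw [abs_lt]
      constructor
      · have : (0 : ℤ) ≤ Wo w := by positivity
        linarith
      · have : (0 : ℤ) ≤ Wo w' := by positivity
        linarith
    have h4 : Wo w = Wo w' := by exact_mod_cast sub_eq_zero.1 h3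
    have m1 := hs1sub T hw
    have m2 := hs1sub T hw'
    unfold FWT at m1 m2
    rw [Finset.mem_filter] at m1 m2
    have f1 := mem_FW.1 m1.1
    have f2 := mem_FW.1 m2.1
    exact Wo_inj (fun e he => (f1.2 e he).1) (fun e he => (f2.2 e he).1) (by rw [f1.1, f2.1])
      (by rw [m1.2, m2.2]) h4
  have hlpp : ∀ T : ℕ, log (1 / pp T) = k * log 3 + T * log (4 / 3) := by
    intro T
    have e : 1 / pp T = (3 : ℝ) ^ k * (4 / 3) ^ T := by
      simp only [hpp]
      rw [one_div, mul_inv, ← inv_pow, ← inv_pow]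
      norm_num
    rw [e, log_mul (by positivity) (by positivity), log_pow, log_pow]
  have hT : ∀ T ∈ range (k * A + 1), ∑ j ∈ range M, Gam (FWT A k T) qw (fun w => (Wo w : ℤ)) j
      ≤ 10 / 9 * (M * log 3 * ∑ w ∈ FWT A k T, qw w
        - ((k * log 3 + T * log (4 / 3)) * μ T - negMulLog (μ T))) := by
    intro T _
    have h1 := Gam_entropy' (s := FWT A k T) (wt := qw) (fun w => (Wo w : ℤ)) M
      (fun w _ => (qw_pos' w).le)
    have h2 := ent_lower (s := FWT A k T) (s₁ := s1 T) (wt := qw) (fun w => (Wo w : ℤ)) M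
      (fun w _ => (qw_pos' w).le) (hs1sub T) (p := pp T) (hpp0 T)
      (hpp1 T) (fun w hw => qw_of_mem' (hs1sub T hw))
      (hinj T)
    rw [hlpp T] at h2
    refine h1.trans ?_
    have e : ((s1 T).card : ℝ) * pp T = μ T := rfl
    rw [e] at h2
    nlinarith
  have hsum : ∑ j ∈ range M, gz A k j
      ≤ ∑ T ∈ range (k * A + 1), 10 / 9 * (M * log 3 * ∑ w ∈ FWT A k T, qw w
        - ((k * log 3 + T * log (4 / 3)) * μ T - negMulLog (μ T))) := by
    unfold gz
    rw [Finset.sum_comm]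
    exact Finset.sum_le_sum hT
  refine hsum.trans ?_
  rw [← Finset.mul_sum]
  refine mul_le_mul_of_nonneg_left ?_ (by norm_num)
  rw [Finset.sum_sub_distrib, ← Finset.mul_sum, Finset.sum_sub_distrib]
  have hmaps : ∀ w ∈ FW A k, w.sum ∈ range (k * A + 1) := by
    intro w hw
    rw [mem_range]
    have := (sum_le_of_mem hw).2
    omega
  have t1 : ∑ T ∈ range (k * A + 1), ∑ w ∈ FWT A k T, qw w ≤ 1 := by
    have h1 : ∑ T ∈ range (k * A + 1), ∑ w ∈ FWT A k T, qw w = ∑ w ∈ FW A k, qw w :=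
      Finset.sum_fiberwise_of_maps_to hmaps qw
    rw [h1]
    exact sum_qw_le' A k
  have t2 : ∑ T ∈ range (k * A + 1), μ T = ∑ w ∈ typq A k η, qw w := by
    have hmaps2 : ∀ w ∈ typq A k η, w.sum ∈ range (k * A + 1) := by
      intro w hw
      unfold typq at hw
      rw [Finset.mem_filter] at hw
      exact hmaps w hw.1
    rw [← Finset.sum_fiberwise_of_maps_to hmaps2 qw]
    exact Finset.sum_congr rfl fun T _ => (hμs T).symm
  have hl43 : 0 < log (4 / 3 : ℝ) := log_pos (by norm_num)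
  have t3 : (k * log 3 + (4 - η) * k * log (4 / 3)) * ∑ w ∈ typq A k η, qw w
      ≤ ∑ T ∈ range (k * A + 1), (k * log 3 + T * log (4 / 3)) * μ T := by
    rw [← t2, Finset.mul_sum]
    apply Finset.sum_le_sum
    intro T _
    rcases (s1 T).eq_empty_or_nonempty with h | h
    · have : μ T = 0 := by simp only [hμ, h]; simp
      rw [this]; simp
    · have h1 := (abs_le.1 (hsize T h)).1
      refine mul_le_mul_of_nonneg_right ?_ (hμ0 T)
      have h2 : (4 - η) * k * log (4 / 3) ≤ T * log (4 / 3) := by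
        refine mul_le_mul_of_nonneg_right ?_ hl43.le
        linarith
      linarith
  have t4 : ∑ T ∈ range (k * A + 1), negMulLog (μ T) ≤ log (5 * k + 1) + 1 := by
    set R : ℝ := 5 * k + 1 with hR
    have hR0 : 0 < R := by positivity
    have h1 : ∀ T ∈ range (k * A + 1), negMulLog (μ T)
        ≤ μ T * log R + (if T ∈ range (5 * k + 1) then 1 / R else 0) := by
      intro T _
      rcases (s1 T).eq_empty_or_nonempty with h | h
      · have : μ T = 0 := by simp only [hμ, h]; simp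
        rw [this]
        simp only [negMulLog_zero, zero_mul, zero_add]
        split_ifs
        · positivity
        · exact le_rfl
      · have h2 := (abs_le.1 (hsize T h)).2
        have h3 : T ∈ range (5 * k + 1) := by
          rw [mem_range]
          have : (T : ℝ) ≤ 5 * k := by nlinarith
          have : T ≤ 5 * k := by exact_mod_cast this
          omega
        rw [if_pos h3]
        exact nml_le (hμ0 T) hR0
    refine (Finset.sum_le_sum h1).trans ?_
    rw [Finset.sum_add_distrib, ← Finset.sum_mul, t2]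
    have h2 : ∑ w ∈ typq A k η, qw w ≤ 1 := by
      refine le_trans (Finset.sum_le_sum_of_subset_of_nonneg (t := FW A k)
        (Finset.filter_subset _ _) ?_) (sum_qw_le' A k)
      intro w _ _
      exact (qw_pos' w).le
    have h3 : 0 ≤ log R := log_nonneg (by rw [hR]; nlinarith)
    have h4 : ∑ T ∈ range (k * A + 1), (if T ∈ range (5 * k + 1) then 1 / R else 0) ≤ 1 := by
      rw [← Finset.sum_filter, Finset.sum_const, nsmul_eq_mul, mul_one_div, div_le_one hR0]
      have : ((range (k * A + 1)).filter (fun T => T ∈ range (5 * k + 1))).card ≤ 5 * k + 1 := by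
        refine (Finset.card_le_card (t := range (5 * k + 1)) ?_).trans (by rw [card_range])
        intro T hT
        exact (Finset.mem_filter.1 hT).2
      rw [hR]
      exact_mod_cast this
    have h5 := mul_le_mul_of_nonneg_right h2 h3
    rw [one_mul] at h5
    linarith
  have hM0 : 0 ≤ (M : ℝ) * log 3 := mul_nonneg (by positivity) (log_nonneg (by norm_num))
  have := mul_le_mul_of_nonneg_left t1 hM0
  rw [mul_one] at this
  linarith

/-! ### the final bound -/

lemma gz_nonneg' (A k j : ℕ) : 0 ≤ gz A k j :=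
  Finset.sum_nonneg fun T _ => Gam_nonneg _ _ fun w _ => (qw_pos' w).le

lemma eventually_small' (η : ℝ) (hη : 0 < η) : ∀ᶠ k : ℕ in Filter.atTop,
    (k : ℝ) * (27 / 64 : ℝ) ^ k + 1 / (k : ℝ) ^ 2 + 2 * exp (-(η ^ 2 * k / 128)) ≤ 1 / 1000 := by
  have h1 : Filter.Tendsto (fun k : ℕ => (k : ℝ) * (27 / 64 : ℝ) ^ k) Filter.atTop (nhds 0) := by
    have := tendsto_self_mul_const_pow_of_lt_one (r := (27 / 64 : ℝ)) (by norm_num) (by norm_num)
    exact this
  have h2 : Filter.Tendsto (fun k : ℕ => 1 / (k : ℝ) ^ 2) Filter.atTop (nhds 0) := by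
    have h := tendsto_one_div_atTop_nhds_zero_nat (𝕜 := ℝ)
    have h' := h.mul h
    rw [zero_mul] at h'
    refine h'.congr fun k => ?_
    rw [div_mul_div_comm, one_mul, pow_two]
  have h3 : Filter.Tendsto (fun k : ℕ => 2 * exp (-(η ^ 2 * k / 128))) Filter.atTop (nhds 0) := by
    have h4 : Filter.Tendsto (fun k : ℕ => η ^ 2 / 128 * (k : ℝ)) Filter.atTop Filter.atTop :=
      Filter.Tendsto.const_mul_atTop (by positivity) tendsto_natCast_atTop_atTop
    have h5 := (Real.tendsto_exp_neg_atTop_nhds_zero.comp h4).const_mul 2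
    rw [mul_zero] at h5
    refine h5.congr fun k => ?_
    simp only [Function.comp]
    congr 2
    ring
  have h4 := (h1.add h2).add h3
  rw [add_zero, add_zero] at h4
  exact (h4.eventually (gt_mem_nhds (show (0 : ℝ) < 1 / 1000 by norm_num))).mono fun k hk => hk.le

lemma eventually_log' : ∀ᶠ k : ℕ in Filter.atTop,
    2 * log k + log 3 + log (5 * k + 1) + 1 ≤ 1 / 1000 * (k : ℝ) := by
  have h1 : ∀ᶠ x : ℝ in Filter.atTop, |log x| ≤ 1 / 4000 * |x| := by
    have := Real.isLittleO_log_id_atTop.def (c := 1 / 4000) (by norm_num)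
    simpa using this
  have h2 : ∀ᶠ k : ℕ in Filter.atTop, |log (k : ℝ)| ≤ 1 / 4000 * |(k : ℝ)| :=
    tendsto_natCast_atTop_atTop.eventually h1
  filter_upwards [h2, Filter.eventually_ge_atTop 40000] with k hk hk2
  have hk0 : (40000 : ℝ) ≤ k := by exact_mod_cast hk2
  have h3 : log (k : ℝ) ≤ 1 / 4000 * k := by
    have := (abs_le.1 hk).2
    rwa [abs_of_nonneg (by positivity)] at this
  have h4 : log (5 * (k : ℝ) + 1) ≤ log 6 + log k := by
    rw [← log_mul (by norm_num) (by positivity)]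
    apply log_le_log (by positivity)
    linarith
  have h5 : log (6 : ℝ) ≤ 2 := by
    rw [show (6 : ℝ) = 2 * 3 by norm_num, log_mul (by norm_num) (by norm_num)]
    have h1 := log_two_lt_d9
    have h4 : log ((3 : ℝ) ^ 41) ≤ log ((2 : ℝ) ^ 65) := by
      apply log_le_log (by norm_num); norm_num
    rw [log_pow, log_pow] at h4
    push_cast at h4
    norm_num at h1
    linarith
  have h6 : log (3 : ℝ) ≤ 2 := by
    have := log_le_sub_one_of_pos (x := 3) (by norm_num)
    linarith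
  linarith

theorem gz_avg : ∃ k₀ : ℕ, 1 ≤ k₀ ∧ ∀ k, k₀ ≤ k → ∀ A, 3 * k ≤ A →
    ∑ i ∈ range (152 * k / 100), gz A k (k + i) ≤ 59 / 100 * k := by
  obtain ⟨k1, hk1⟩ := Filter.eventually_atTop.1 (eventually_small' (1 / 1000) (by norm_num))
  obtain ⟨k2, hk2⟩ := Filter.eventually_atTop.1 eventually_log'
  refine ⟨max 1 (max k1 k2), le_max_left _ _, fun k hk A hA => ?_⟩
  have hk0 : 1 ≤ k := (le_max_left _ _).trans hk
  have e1 := hk1 k (((le_max_left _ _).trans (le_max_right _ _)).trans hk)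
  have e2 := hk2 k (((le_max_right _ _).trans (le_max_right _ _)).trans hk)
  have hkp : (0 : ℝ) < k := by exact_mod_cast hk0
  have hl2 : 0 < log 2 := log_pos (by norm_num)
  have hl3 : 0 < log 3 := log_pos (by norm_num)
  have hlk : 0 ≤ log k := log_nonneg (by exact_mod_cast hk0)
  set η : ℝ := 1 / 1000 with hη
  set E : ℝ := (4 + η) * k * log 2 + 2 * log k with hE
  have hE0 : 0 ≤ E := by positivity
  set M : ℕ := ⌊E / log 3⌋₊ + 1 with hM
  have hM1 : E < M * log 3 := by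
    have := Nat.lt_floor_add_one (E / log 3)
    rw [div_lt_iff₀ hl3] at this
    rw [hM]; push_cast; exact this
  have hM2 : (M : ℝ) * log 3 ≤ E + log 3 := by
    have := Nat.floor_le (a := E / log 3) (by positivity)
    rw [le_div_iff₀ hl3] at this
    rw [hM]; push_cast
    linarith
  have hM3 : (2 : ℝ) ^ ((4 + η) * k) * (k : ℝ) ^ 2 < 3 ^ M := by
    rw [← log_lt_log_iff (by positivity) (by positivity), log_mul (by positivity) (by positivity),
      log_rpow (by norm_num), log_pow, log_pow]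
    push_cast
    exact hM1
  have hsum := gz_sum_le' (A := A) (k := k) (η := η) (by norm_num [hη]) (by norm_num [hη]) hk0 M hM3
  have htyp := typq_mass (A := A) (k := k) (η := η) (by norm_num [hη]) (by norm_num [hη]) hk0 hA
  -- the range of digits
  have hMk : k + 152 * k / 100 ≤ M := by
    have h1 : (252 * (k : ℝ) / 100) < M := by
      have h3 : 252 / 100 * log 3 ≤ 4 * log 2 := by
        have h4 : log ((3 : ℝ) ^ 63) ≤ log ((2 : ℝ) ^ 100) := log_le_log (by norm_num) (by norm_num)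
        rw [log_pow, log_pow] at h4
        push_cast at h4
        linarith
      have h2 : 4 * log 2 * k ≤ E := by
        rw [hE]
        have : 0 ≤ η * k * log 2 := by positivity
        nlinarith
      have h5 : 252 * (k : ℝ) / 100 * log 3 < M * log 3 := by
        calc 252 * (k : ℝ) / 100 * log 3 = (252 / 100 * log 3) * k := by ring
          _ ≤ (4 * log 2) * k := by gcongr
          _ ≤ E := h2
          _ < M * log 3 := hM1
      exact lt_of_mul_lt_mul_right h5 hl3.le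
    have h2 : ((k + 152 * k / 100 : ℕ) : ℝ) ≤ 252 * k / 100 := by
      have := Nat.cast_div_le (α := ℝ) (m := 152 * k) (n := 100)
      push_cast at this ⊢
      linarith
    exact_mod_cast (h2.trans_lt h1).le
  have hsub : ∑ i ∈ range (152 * k / 100), gz A k (k + i) ≤ ∑ j ∈ range M, gz A k j := by
    have h1 : ∑ i ∈ range (152 * k / 100), gz A k (k + i)
        ≤ ∑ j ∈ range (k + 152 * k / 100), gz A k j := by
      rw [sum_range_add]
      have : 0 ≤ ∑ j ∈ range k, gz A k j := sum_nonneg fun j _ => gz_nonneg' A k j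
      linarith
    refine h1.trans ?_
    apply Finset.sum_le_sum_of_subset_of_nonneg
    · intro j hj
      rw [mem_range] at hj ⊢
      omega
    · intro j _ _
      exact gz_nonneg' A k j
  refine hsub.trans (hsum.trans ?_)
  -- numerics
  have hl43 : log (4 / 3 : ℝ) = 2 * log 2 - log 3 := by
    rw [log_div (by norm_num) (by norm_num), show (4 : ℝ) = 2 ^ 2 by norm_num, log_pow]
    push_cast; ring
  have n2 := log_two_lt_d9
  have n2' := log_two_gt_d9
  have n3 : 41 * log (3 : ℝ) ≤ 65 * log 2 := by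
    have h4 : log ((3 : ℝ) ^ 41) ≤ log ((2 : ℝ) ^ 65) := by
      apply log_le_log (by norm_num); norm_num
    rw [log_pow, log_pow] at h4
    push_cast at h4
    exact h4
  have hS : 1 - 1 / 1000 ≤ ∑ w ∈ typq A k η, qw w := by linarith
  have hc0 : 0 ≤ k * log 3 + (4 - η) * k * log (4 / 3) := by
    have : 0 < log (4 / 3 : ℝ) := log_pos (by norm_num)
    have : 0 ≤ 4 - η := by rw [hη]; norm_num
    positivity
  have h1 := mul_le_mul_of_nonneg_left hS hc0
  have h2 : (M : ℝ) * log 3 - (k * log 3 + (4 - η) * k * log (4 / 3)) * ∑ w ∈ typq A k η, qw w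
      + log (5 * k + 1) + 1 ≤ 531 / 1000 * k := by
    rw [hl43] at h1 hc0 ⊢
    generalize (∑ w ∈ typq A k η, qw w) = S at h1 ⊢
    have h3 : (M : ℝ) * log 3 + log (5 * k + 1) + 1 ≤ (4 + 1 / 1000) * k * log 2
        + 1 / 1000 * k := by
      have e3 : (4 + η) * k * log 2 = (4 + 1 / 1000) * k * log 2 := by rw [hη]
      have e4 : η * (k : ℝ) = 1 / 1000 * k := by rw [hη]
      rw [← e3, ← e4]
      linarith
    have h4 : (k * log 3 + (4 - η) * k * (2 * log 2 - log 3)) * (1 - 1 / 1000)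
        = k * (999 / 1000 * (7998 / 1000 * log 2 - 2999 / 1000 * log 3)) := by
      rw [hη]; ring
    rw [h4] at h1
    have h5 : (4 + 1 / 1000) * k * log 2 + 1 / 1000 * k
        - k * (999 / 1000 * (7998 / 1000 * log 2 - 2999 / 1000 * log 3))
        = k * ((4 + 1 / 1000) * log 2 + 1 / 1000
        - (999 / 1000 * (7998 / 1000 * log 2 - 2999 / 1000 * log 3))) := by ring
    have h6 : ((4 + 1 / 1000) * log 2 + 1 / 1000
        - (999 / 1000 * (7998 / 1000 * log 2 - 2999 / 1000 * log 3))) ≤ 531 / 1000 := by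
      norm_num at n2 n2' ⊢
      linarith
    have h7 := mul_le_mul_of_nonneg_left h6 hkp.le
    linarith
  linarith

end Pool.Agent.H377R2.NK
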