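import Pool.Agent.H377R2.NK.Defs
import Pool.Agent.H320R2.PDRec

/-!
Task L1 (GZ-REC): positivity, trivial bound and recursion for the annealed nonuniformity at the
critical tilt (adapted from `H320R2.PDRec`; helper363).
-/

set_option autoImplicit false
set_option linter.unusedVariables false

namespace Pool.Agent.H377R2.NK

open Finset Real Pool.Agent.H320R2.PD

theorem qw_pos (w : List ℕ) : 0 < qw w := by unfold qw; positivity

theorem qw_append (u v : List ℕ) : qw (u ++ v) = qw u * qw v := by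
  unfold qw
  rw [List.length_append, List.sum_append, pow_add, pow_add]
  ring

theorem qw_cons (e : ℕ) (v : List ℕ) : qw (e :: v) = (1 / 3 * (3 / 4) ^ e) * qw v := by
  unfold qw
  rw [List.length_cons, List.sum_cons, pow_add, pow_succ]
  ring

theorem sum_qletter (A : ℕ) :
    ∑ e ∈ Icc 1 A, (1 / 3 * (3 / 4) ^ e : ℝ) = 1 - (3 / 4) ^ A := by
  induction A with
  | zero => simp
  | succ A ih =>
    rw [sum_Icc_succ_top (by omega), ih]
    ring

theorem sum_qw (A n : ℕ) : ∑ w ∈ FW A n, qw w = (1 - (3 / 4) ^ A) ^ n := by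
  induction n with
  | zero => simp [FW, qw]
  | succ n ih =>
    rw [sum_FW_succ, pow_succ', ← ih, ← sum_qletter, sum_mul]
    refine sum_congr rfl fun e _ => ?_
    rw [mul_sum]
    exact sum_congr rfl fun v _ => qw_cons e v

theorem sum_qw_le (A n : ℕ) : ∑ w ∈ FW A n, qw w ≤ 1 := by
  rw [sum_qw]
  have h : (3 / 4 : ℝ) ^ A ≤ 1 := pow_le_one₀ (by norm_num) (by norm_num)
  have h0 : (0 : ℝ) < (3 / 4 : ℝ) ^ A := by positivity
  exact pow_le_one₀ (by linarith) (by linarith)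

theorem gz_nonneg (A k j : ℕ) : 0 ≤ gz A k j :=
  Finset.sum_nonneg fun T _ => Gam_nonneg _ _ fun w _ => (qw_pos w).le

theorem gz_le_one (A k j : ℕ) : gz A k j ≤ 1 := by
  unfold gz
  have h1 : ∑ T ∈ range (k * A + 1), Gam (FWT A k T) qw (fun w => (Wo w : ℤ)) j
      ≤ ∑ T ∈ range (k * A + 1), ∑ w ∈ FWT A k T, qw w :=
    Finset.sum_le_sum fun T _ => Gam_le _ _ fun w _ => (qw_pos w).le
  refine h1.trans ?_
  have hmaps : ∀ w ∈ FW A k, w.sum ∈ range (k * A + 1) := by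
    intro w hw
    rw [mem_range]
    have := (sum_le_of_mem hw).2
    omega
  have h2 : ∑ T ∈ range (k * A + 1), ∑ w ∈ FWT A k T, qw w = ∑ w ∈ FW A k, qw w :=
    Finset.sum_fiberwise_of_maps_to hmaps qw
  rw [h2]
  exact sum_qw_le A k

/-! ### positivity -/

theorem FWT_self {A : ℕ} (hA : 1 ≤ A) (k : ℕ) : FWT A k k = {List.replicate k 1} := by
  ext w
  unfold FWT
  rw [Finset.mem_filter, Finset.mem_singleton, mem_FW]
  constructor
  · rintro ⟨⟨hl, hw⟩, hs⟩
    rw [List.eq_replicate_iff]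
    refine ⟨hl, fun e he => ?_⟩
    by_contra hne
    have h1 := (hw e he).1
    have h2 : 2 ≤ e := by omega
    obtain ⟨u, v, rfl⟩ := List.append_of_mem he
    have hu := List.card_nsmul_le_sum u 1 (fun x hx => (hw x (by simp [hx])).1)
    have hv := List.card_nsmul_le_sum v 1 (fun x hx => (hw x (by simp [hx])).1)
    simp only [List.length_append, List.length_cons, List.sum_append, List.sum_cons,
      smul_eq_mul, mul_one] at hl hs hu hv
    omega
  · rintro rfl
    refine ⟨⟨by simp, fun e he => ?_⟩, by simp⟩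
    rw [List.eq_of_mem_replicate he]
    exact ⟨le_rfl, hA⟩

theorem cnt_singleton_cases {ι : Type*} (a : ι) (wt : ι → ℝ) (v : ι → ℤ) (M : ℕ) (c : ℤ) :
    cnt {a} wt v M c = 0 ∨ cnt {a} wt v M c = wt a := by
  unfold cnt
  rw [sum_singleton]
  by_cases h : (3 : ℤ) ^ M ∣ v a - c
  · right; rw [if_pos h]
  · left; rw [if_neg h]

/-- the nonuniformity of a singleton family is maximal -/
theorem Fib_singleton {ι : Type*} (a : ι) (wt : ι → ℝ) (v : ι → ℤ) (J : ℕ) (c : ℤ)
    (ha : 0 < wt a) : Fib {a} wt v J c = cnt {a} wt v J c := by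
  have hs := cnt_split {a} wt v J c
  unfold Fib
  rcases cnt_singleton_cases a wt v J c with h | h
  · rw [h] at hs ⊢
    have hn : ∀ M d, 0 ≤ cnt {a} wt v M d := fun M d => cnt_nonneg (by simpa using ha.le) M d
    have h1 := hn (J + 1) c
    have h2 := hn (J + 1) (c + 3 ^ J)
    have h3 := hn (J + 1) (c + 2 * 3 ^ J)
    rw [show cnt {a} wt v (J + 1) c = 0 by linarith,
      show cnt {a} wt v (J + 1) (c + 3 ^ J) = 0 by linarith,
      show cnt {a} wt v (J + 1) (c + 2 * 3 ^ J) = 0 by linarith]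
    exact F3_zero
  · rw [h] at hs ⊢
    rcases cnt_singleton_cases a wt v (J + 1) c with h1 | h1 <;>
    rcases cnt_singleton_cases a wt v (J + 1) (c + 3 ^ J) with h2 | h2 <;>
    rcases cnt_singleton_cases a wt v (J + 1) (c + 2 * 3 ^ J) with h3 | h3 <;>
    rw [h1, h2, h3] at hs ⊢ <;>
    first
      | (exfalso; linarith)
      | (unfold F3; field_simp; ring)

theorem gz_pos {A : ℕ} (hA : 1 ≤ A) (k j : ℕ) : 0 < gz A k j := by
  have hk : k ∈ range (k * A + 1) := by
    rw [mem_range]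
    nlinarith
  have h1 : Gam (FWT A k k) qw (fun w => (Wo w : ℤ)) j ≤ gz A k j := by
    unfold gz
    exact Finset.single_le_sum
      (f := fun T => Gam (FWT A k T) qw (fun w => (Wo w : ℤ)) j)
      (fun T _ => Gam_nonneg _ _ fun w _ => (qw_pos w).le) hk
  refine lt_of_lt_of_le ?_ h1
  rw [FWT_self hA]
  unfold Gam
  have h2 : ∀ c ∈ range (3 ^ j), Fib {List.replicate k 1} qw (fun w => (Wo w : ℤ)) j (c : ℤ)
      = cnt {List.replicate k 1} qw (fun w => (Wo w : ℤ)) j (c : ℤ) :=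
    fun c _ => Fib_singleton _ _ _ _ _ (qw_pos _)
  rw [Finset.sum_congr rfl h2, sum_cnt, sum_singleton]
  exact qw_pos _

/-! ### recursion -/

open scoped Classical in
lemma cnt_pairs_qw (A k₁ k₂ T M : ℕ) (c : ℤ) :
    cnt (FWT A (k₁ + k₂) T) qw (fun w => (Wo w : ℤ)) M c
      = ∑ p ∈ (range (k₁ * A + 1) ×ˢ range (k₂ * A + 1)).filter (fun p => p.1 + p.2 = T),
          cnt (FWT A k₁ p.1 ×ˢ FWT A k₂ p.2) (fun q => qw q.1 * qw q.2)
            (fun q => 2 ^ p.2 * (Wo q.1 : ℤ) + 3 ^ k₁ * (Wo q.2 : ℤ)) M c := by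
  have h1 : cnt (FWT A (k₁ + k₂) T) qw (fun w => (Wo w : ℤ)) M c
      = ∑ u ∈ FW A k₁, ∑ v ∈ FW A k₂, (if u.sum + v.sum = T then
          (if (3 : ℤ) ^ M ∣ (Wo (u ++ v) : ℤ) - c then qw u * qw v else 0) else 0) := by
    unfold cnt FWT
    rw [Finset.sum_filter, sum_FW_add]
    refine Finset.sum_congr rfl fun u _ => Finset.sum_congr rfl fun v _ => ?_
    rw [List.sum_append, qw_append]
  rw [h1, sum_pairs A k₁ k₂ T
    (fun u v => if (3 : ℤ) ^ M ∣ (Wo (u ++ v) : ℤ) - c then qw u * qw v else 0)]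
  refine Finset.sum_congr rfl fun p _ => ?_
  unfold cnt
  refine Finset.sum_congr rfl fun q hq => ?_
  rw [Finset.mem_product] at hq
  unfold FWT at hq
  rw [Finset.mem_filter, Finset.mem_filter] at hq
  have e : (Wo (q.1 ++ q.2) : ℤ) = 2 ^ p.2 * (Wo q.1 : ℤ) + 3 ^ k₁ * (Wo q.2 : ℤ) := by
    rw [Wo_append, hq.2.2, (mem_FW.1 hq.1.1).1]
    push_cast
    ring
  rw [e]

theorem gz_rec (A k₁ k₂ j : ℕ) :
    gz A (k₁ + k₂) (k₁ + j) ≤ gz A k₁ (k₁ + j) * gz A k₂ j := by
  classical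
  set R := range (k₁ * A + 1) ×ˢ range (k₂ * A + 1) with hR
  set G : ℕ × ℕ → ℝ := fun p => Gam (FWT A k₁ p.1) qw (fun w => (Wo w : ℤ)) (k₁ + j)
    * Gam (FWT A k₂ p.2) qw (fun w => (Wo w : ℤ)) j with hG
  have hT : ∀ T, Gam (FWT A (k₁ + k₂) T) qw (fun w => (Wo w : ℤ)) (k₁ + j)
      ≤ ∑ p ∈ R.filter (fun p => p.1 + p.2 = T), G p := by
    intro T
    have h1 : Gam (FWT A (k₁ + k₂) T) qw (fun w => (Wo w : ℤ)) (k₁ + j)
        ≤ ∑ p ∈ R.filter (fun p => p.1 + p.2 = T),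
          Gam (FWT A k₁ p.1 ×ˢ FWT A k₂ p.2) (fun q => qw q.1 * qw q.2)
            (fun q => 2 ^ p.2 * (Wo q.1 : ℤ) + 3 ^ k₁ * (Wo q.2 : ℤ)) (k₁ + j) := by
      unfold Gam
      rw [Finset.sum_comm]
      apply Finset.sum_le_sum
      intro c _
      unfold Fib
      rw [cnt_pairs_qw, cnt_pairs_qw, cnt_pairs_qw]
      apply F3_sum <;>
      · intro p _
        apply cnt_nonneg
        intro q _
        exact mul_nonneg (qw_pos _).le (qw_pos _).le
    refine h1.trans (Finset.sum_le_sum fun p _ => ?_)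
    exact Gam_conv (fun w => (Wo w : ℤ)) (fun w => (Wo w : ℤ)) (fun w _ => (qw_pos w).le)
      (fun w _ => (qw_pos w).le) p.2 k₁ j
  have h2 : gz A (k₁ + k₂) (k₁ + j) ≤ ∑ p ∈ R, G p := by
    unfold gz
    refine (Finset.sum_le_sum fun T _ => hT T).trans (le_of_eq ?_)
    apply Finset.sum_fiberwise_of_maps_to
    intro p hp
    rw [hR, Finset.mem_product, mem_range, mem_range] at hp
    rw [mem_range, add_mul]
    omega
  refine h2.trans (le_of_eq ?_)
  unfold gz
  rw [Finset.sum_mul_sum, hR, Finset.sum_product]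

end Pool.Agent.H377R2.NK
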