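import Pool.Agent.H377R2.NK.TypZ
import Pool.Agent.H412R2.Tree

/-! L7a (KERNEL): the kernel built from `typical` (adapted from `H412R2.FinalOf`). -/

set_option autoImplicit false
set_option linter.unusedVariables false

namespace Pool.Agent.H377R2.NK

open Finset Pool.Agent.H320R2.PD

namespace KER

open Pool.Agent.H412R2 (tr Path Ker mem_tr_shift mem_tr_zero tr_comp tr_fallback tr_off_nonneg
  tr_off_le tr_middle)

/-- `s` is a good size for `x` -/
def Good (η : ℝ) (T : ℕ) (x : ℤ) (s : ℕ) : Prop :=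
  (4 - η) * T ≤ s ∧ s ≤ (4 + η) * T ∧ (4 / 3 : ℝ) ^ s * Real.exp (-(η * T)) ≤ (NU T s x : ℝ)

theorem mem_unit_shift (T s : ℕ) (x y z : ℤ) :
    z + 2 ^ s * (3 * y) ∈ (tr 3 (6 * T) T s (x + 3 ^ (T + 1) * y)).filter (fun z => ¬ (3 : ℤ) ∣ z) ↔
      z ∈ (tr 3 (6 * T) T s x).filter (fun z => ¬ (3 : ℤ) ∣ z) := by
  have h := mem_tr_shift (q := 3) (E := 6 * T) (n := T) (s := s) (by norm_num) x (3 * y) z
  have e : x + 3 ^ (T + 1) * y = x + ((3 : ℕ) : ℤ) ^ T * (3 * y) := by
    push_cast; ring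
  rw [e, Finset.mem_filter, Finset.mem_filter, h]
  have h3 : (3 : ℤ) ∣ z + 2 ^ s * (3 * y) ↔ (3 : ℤ) ∣ z := by
    have : (3 : ℤ) ∣ 2 ^ s * (3 * y) := ⟨2 ^ s * y, by ring⟩
    exact dvd_add_left this
  rw [h3]

theorem NU_eq (T s : ℕ) (x : ℤ) :
    NU T s x = ((tr 3 (6 * T) T s x).filter (fun z => ¬ (3 : ℤ) ∣ z)).card := by
  classical
  unfold NU
  congr

theorem NU_shift (T s : ℕ) (x y : ℤ) : NU T s (x + 3 ^ (T + 1) * y) = NU T s x := by
  rw [NU_eq, NU_eq]
  symm
  refine Finset.card_bij (fun z _ => z + 2 ^ s * (3 * y)) ?_ ?_ ?_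
  · intro z hz
    exact (mem_unit_shift T s x y z).2 hz
  · intro z _ z' _ h
    simpa using h
  · intro w hw
    refine ⟨w - 2 ^ s * (3 * y), ?_, by ring⟩
    apply (mem_unit_shift T s x y _).1
    simpa using hw

theorem good_shift (η : ℝ) (T : ℕ) (x y : ℤ) (s : ℕ) :
    Good η T (x + 3 ^ (T + 1) * y) s ↔ Good η T x s := by
  unfold Good; rw [NU_shift]

open scoped Classical in
/-- the size used from `x` -/
noncomputable def SS (η : ℝ) (T : ℕ) (x : ℤ) : ℕ :=
  if h : ∃ s, Good η T x s then Nat.find h else 6 * T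

/-- the children of `x` -/
noncomputable def KK (η : ℝ) (T : ℕ) (x : ℤ) : Finset ℤ :=
  (tr 3 (6 * T) T (SS η T x) x).filter (fun z => ¬ (3 : ℤ) ∣ z)

theorem SS_shift (η : ℝ) (T : ℕ) (x y : ℤ) : SS η T (x + 3 ^ (T + 1) * y) = SS η T x := by
  have h : Good η T (x + 3 ^ (T + 1) * y) = Good η T x := by
    funext s; exact propext (good_shift η T x y s)
  unfold SS
  rw [h]

theorem SS_good {η : ℝ} {T : ℕ} {x : ℤ} (h : ∃ s, Good η T x s) : Good η T x (SS η T x) := by
  classical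
  unfold SS
  rw [dif_pos h]
  convert Nat.find_spec h

theorem SS_bad {η : ℝ} {T : ℕ} {x : ℤ} (h : ¬ ∃ s, Good η T x s) : SS η T x = 6 * T := by
  unfold SS
  rw [dif_neg h]

theorem SS_le {η : ℝ} (hη : η ≤ 1 / 2) (T : ℕ) (x : ℤ) : SS η T x ≤ 6 * T := by
  by_cases h : ∃ s, Good η T x s
  · have h1 := (SS_good h).2.1
    have h2 : (SS η T x : ℝ) ≤ ((6 * T : ℕ) : ℝ) := by
      push_cast
      have : (0 : ℝ) ≤ T := Nat.cast_nonneg _
      nlinarith
    exact_mod_cast h2
  · rw [SS_bad h]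

theorem SS_ge {η : ℝ} (hη : η ≤ 1 / 2) (T : ℕ) (x : ℤ) : (7 / 2 : ℝ) * T ≤ SS η T x := by
  by_cases h : ∃ s, Good η T x s
  · have h1 := (SS_good h).1
    have : (0 : ℝ) ≤ T := Nat.cast_nonneg _
    nlinarith
  · rw [SS_bad h]
    push_cast
    have : (0 : ℝ) ≤ T := Nat.cast_nonneg _
    linarith

theorem path_size {η : ℝ} (hη : η ≤ 1 / 2) {T j s : ℕ} {x z : ℤ}
    (h : Path (SS η T) (KK η T) j s x z) : s ≤ 6 * T * j := by
  induction h with
  | refl x => simp
  | step hb _ ih =>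
    rename_i j s x b z _
    have := SS_le hη T x
    calc s + SS η T x ≤ 6 * T * j + 6 * T := by omega
      _ = 6 * T * (j + 1) := by ring

theorem path_tr {η : ℝ} {T j s : ℕ} {x z : ℤ} (h : Path (SS η T) (KK η T) j s x z) :
    z ∈ tr 3 (6 * T) (T * j) s x := by
  induction h with
  | refl x => 
    rw [Nat.mul_zero, mem_tr_zero]; exact ⟨rfl, rfl⟩
  | step hb _ ih =>
    rename_i j s x b z _
    have h1 : b ∈ tr 3 (6 * T) T (SS η T x) x := (Finset.mem_filter.1 hb).1
    have h2 := tr_comp (q := 3) (by norm_num) h1 ih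
    have e1 : T + T * j = T * (j + 1) := by ring
    have e2 : SS η T x + s = s + SS η T x := by ring
    rw [e1, e2] at h2
    exact h2

theorem KK_card (η : ℝ) (T : ℕ) (x : ℤ) : (KK η T x).card = NU T (SS η T x) x := by
  rw [NU_eq]
  rfl

theorem log_card_good {η : ℝ} {T : ℕ} {x : ℤ} (h : ∃ s, Good η T x s) :
    SS η T x * Real.log (4 / 3) - η * T ≤ Real.log ((KK η T x).card : ℝ) := by
  have h1 : (4 / 3 : ℝ) ^ (SS η T x) * Real.exp (-(η * T)) ≤ ((KK η T x).card : ℝ) := by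
    rw [KK_card]
    exact (SS_good h).2.2
  have h2 := Real.log_le_log (by positivity) h1
  rw [Real.log_mul (by positivity) (by positivity), Real.log_exp, Real.log_pow] at h2
  linarith

theorem log43_gt : (28 / 100 : ℝ) < Real.log (4 / 3) := by
  rw [Real.log_div (by norm_num) (by norm_num)]
  have h2 := Real.log_two_gt_d9
  have h3 := Real.log_three_lt_d9
  have h4 : Real.log 4 = 2 * Real.log 2 := by
    rw [show (4 : ℝ) = 2 ^ 2 by norm_num, Real.log_pow]
    norm_num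
  rw [h4]
  norm_num at *
  linarith

theorem log43_lt : Real.log (4 / 3) < (1 / 3 : ℝ) := by
  have := Real.log_lt_sub_one_of_pos (show (0 : ℝ) < 4 / 3 by norm_num) (by norm_num)
  linarith

theorem KK_card_ge {η : ℝ} (hη : η ≤ 1 / 2) {T : ℕ} (hT : 20 ≤ T) {x : ℤ}
    (hx : ¬ (3 : ℤ) ∣ x) : 2 ≤ (KK η T x).card := by
  by_cases h : ∃ s, Good η T x s
  · have h2 := log_card_good h
    have h3 := SS_ge hη T x
    have hc := log43_gt
    have hT' : (20 : ℝ) ≤ T := by exact_mod_cast hT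
    have h4 : (1 : ℝ) ≤ Real.log ((KK η T x).card : ℝ) := by
      have h5 : (7 / 2 : ℝ) * T * (28 / 100) ≤ SS η T x * Real.log (4 / 3) := by
        apply mul_le_mul h3 hc.le (by norm_num) (Nat.cast_nonneg _)
      have h6 : η * T ≤ 1 / 2 * T := by
        apply mul_le_mul_of_nonneg_right hη (by positivity)
      linarith
    by_contra hlt
    have h5 : ((KK η T x).card : ℝ) ≤ 1 := by
      have : (KK η T x).card ≤ 1 := by omega
      exact_mod_cast this
    have h6 := Real.log_nonpos (by positivity) h5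
    linarith
  · have h1 := tr_fallback (E := 6 * T) (n := T - 2) (s := 6 * T) hx (by omega) le_rfl
    rw [show T - 2 + 2 = T by omega] at h1
    unfold KK
    rw [SS_bad h]
    exact h1

theorem path_sep {η : ℝ} (hη : η ≤ 1 / 2) {T : ℕ} (hT : 1 ≤ T) (j s : ℕ) (x b b' z z' : ℤ)
    (hb : b ∈ KK η T x) (hb' : b' ∈ KK η T x)
    (h : Path (SS η T) (KK η T) j s b z) (h' : Path (SS η T) (KK η T) j s b' z')
    (hz : z ≡ z' [ZMOD (3 : ℤ) ^ (6 * T * (j + 1))]) : b = b' := by
  have h1 : b ∈ tr 3 (6 * T) T (SS η T x) x := (Finset.mem_filter.1 hb).1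
  have h1' : b' ∈ tr 3 (6 * T) T (SS η T x) x := (Finset.mem_filter.1 hb').1
  have h2 := path_tr h
  have h2' := path_tr h'
  have h3 := tr_comp (q := 3) (by norm_num) h1 h2
  have h3' := tr_comp (q := 3) (by norm_num) h1' h2'
  have a1 := tr_off_nonneg (by norm_num) h3
  have a2 := tr_off_le (by norm_num) h3
  have a1' := tr_off_nonneg (by norm_num) h3'
  have a2' := tr_off_le (by norm_num) h3'
  have hs : SS η T x + s ≤ 6 * T * (j + 1) := by
    have e1 := SS_le hη T x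
    have e2 := path_size hη h
    calc SS η T x + s ≤ 6 * T + 6 * T * j := by omega
      _ = 6 * T * (j + 1) := by ring
  have hzz : z = z' := by
    by_contra hne
    have hd : (3 : ℤ) ^ (6 * T * (j + 1)) ∣ z' - z := (Int.modEq_iff_dvd).1 hz
    have hle : (3 : ℤ) ^ (6 * T * (j + 1)) ≤ |z' - z| := by
      apply Int.le_of_dvd
      · exact abs_pos.2 (sub_ne_zero.2 (Ne.symm hne))
      · exact (dvd_abs _ _).2 hd
    have hup : |z' - z| ≤ 2 ^ (SS η T x + s) := by
      have hp : (0 : ℤ) < ((3 : ℕ) : ℤ) ^ (T + T * j) := by positivity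
      rw [abs_le]
      constructor
      · nlinarith
      · nlinarith
    have h23 : (2 : ℤ) ^ (SS η T x + s) < 3 ^ (6 * T * (j + 1)) := by
      calc (2 : ℤ) ^ (SS η T x + s) ≤ 2 ^ (6 * T * (j + 1)) := pow_le_pow_right₀ (by norm_num) hs
        _ < 3 ^ (6 * T * (j + 1)) := by
          apply pow_lt_pow_left₀ (by norm_num) (by norm_num)
          have : 0 < 6 * T * (j + 1) := by positivity
          omega
    omega
  subst hzz
  exact tr_middle (q := 3) (by decide) hT h1 h2 h1' h2'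

/-- the kernel of the project -/
noncomputable def ker (η : ℝ) (T : ℕ) (hη : η ≤ 1 / 2) (hT : 20 ≤ T) : Ker 3 T where
  S := SS η T
  K := KK η T
  Smax := 6 * T
  D := 6 * T
  hSmax := SS_le hη T
  hS := by
    intro x y _
    have := SS_shift η T x y
    exact_mod_cast this
  hK := by
    intro x y b _
    unfold KK
    push_cast
    rw [SS_shift η T x y]
    exact mem_unit_shift T (SS η T x) x y b
  hcard := by
    intro x hx
    exact KK_card_ge hη hT (by exact_mod_cast hx)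
  hlive := by
    intro x b _ hb
    have := (Finset.mem_filter.1 hb).2
    exact_mod_cast this
  hsep := by
    intro j s x b b' z z' _ hb hb' h h' hz
    exact path_sep hη (by omega) j s x b b' z z' hb hb' h h' (by exact_mod_cast hz)

theorem class_card (T r : ℕ) (hr : r ∈ Finset.Ico 1 3) :
    ((Finset.range (3 ^ (T + 1))).filter (fun x => x % 3 = r)).card = 3 ^ T := by
  have hr' := Finset.mem_Ico.1 hr
  have : (Finset.range (3 ^ (T + 1))).filter (fun x => x % 3 = r) =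
      (Finset.range (3 ^ T)).image (fun y => 3 * y + r) := by
    ext x
    simp only [Finset.mem_filter, Finset.mem_range, Finset.mem_image, pow_succ]
    constructor
    · rintro ⟨h1, h2⟩
      exact ⟨x / 3, by omega, by omega⟩
    · rintro ⟨y, h1, h2⟩
      constructor <;> omega
  rw [this, Finset.card_image_of_injective, Finset.card_range]
  intro a b h
  simpa using h

theorem term_good {η g₀ : ℝ} (hη : η ≤ 1 / 2) {T : ℕ} (hη1 : η ≤ Real.log (4 / 3) - g₀)
    (hη0 : 0 ≤ η) {x : ℤ} (h : ∃ s, Good η T x s) :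
    5 / 2 * η * T ≤ Real.log ((KK η T x).card) - g₀ * (SS η T x : ℝ) := by
  have h1 := log_card_good h
  have h2 := SS_ge hη T x
  have h3 : (7 / 2 : ℝ) * T * η ≤ SS η T x * (Real.log (4 / 3) - g₀) :=
    mul_le_mul h2 hη1 hη0 (Nat.cast_nonneg _)
  nlinarith

theorem term_bad {η g₀ : ℝ} (hη : η ≤ 1 / 2) {T : ℕ} (h0 : 0 ≤ g₀) (h1 : g₀ < Real.log (4 / 3))
    (x : ℤ) : -(2 * T : ℝ) ≤ Real.log ((KK η T x).card) - g₀ * (SS η T x : ℝ) := by
  have h2 : 0 ≤ Real.log ((KK η T x).card) := Real.log_natCast_nonneg _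
  have h3 := SS_le hη T x
  have h4 : (SS η T x : ℝ) ≤ 6 * T := by exact_mod_cast h3
  have h5 := log43_lt
  have h6 : g₀ * (SS η T x : ℝ) ≤ 1 / 3 * (6 * T) :=
    mul_le_mul (by linarith) h4 (Nat.cast_nonneg _) (by norm_num)
  linarith

end KER

open KER in
theorem exists_kernel {g₀ : ℝ} (h0 : 0 ≤ g₀) (h1 : g₀ < Real.log (4 / 3)) :
    ∃ (T : ℕ) (κ : Pool.Agent.H412R2.Ker 3 T), 1 ≤ T ∧
      (∀ x b : ℤ, ¬ (3 : ℤ) ∣ x → b ∈ κ.K x → b ∈ Pool.Agent.H412R2.tr 3 (6 * T) T (κ.S x) x) ∧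
      (∀ x : ℤ, ¬ (3 : ℤ) ∣ x → 1 ≤ κ.S x) ∧
      ∀ r ∈ Finset.Ico 1 3,
        0 < ∑ x ∈ (range (3 ^ (T + 1))).filter (fun x => x % 3 = r),
          (Real.log ((κ.K (x : ℤ)).card) - g₀ * (κ.S (x : ℤ) : ℝ)) := by
  classical
  set η : ℝ := min (1 / 2) (Real.log (4 / 3) - g₀) with hη
  have hη1 : η ≤ 1 / 2 := min_le_left _ _
  have hη2 : η ≤ Real.log (4 / 3) - g₀ := min_le_right _ _
  have hη0 : 0 < η := lt_min (by norm_num) (by linarith)
  set A : ℝ := 5 / 2 * η with hA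
  have hA0 : 0 < A := by positivity
  obtain ⟨T₀, hT₀⟩ := typical η (A / (2 * (A + 2))) hη0 (by positivity)
  have hT20 : 20 ≤ max T₀ 20 := le_max_right _ _
  refine ⟨max T₀ 20, ker η (max T₀ 20) hη1 hT20, by omega, ?_, ?_, ?_⟩
  · intro x b _ hb
    exact (Finset.mem_filter.1 hb).1
  · intro x _
    have h2 := SS_ge hη1 (max T₀ 20) x
    have h3 : (20 : ℝ) ≤ ((max T₀ 20 : ℕ) : ℝ) := by exact_mod_cast hT20
    have h4 : (1 : ℝ) ≤ (SS η (max T₀ 20) x : ℝ) := by linarith
    change 1 ≤ SS η (max T₀ 20) x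
    exact_mod_cast h4
  · intro r hr
    have hty := hT₀ (max T₀ 20) (le_max_left _ _)
    change 0 < ∑ x ∈ (range (3 ^ (max T₀ 20 + 1))).filter (fun x => x % 3 = r),
          (Real.log ((KK η (max T₀ 20) (x : ℤ)).card) - g₀ * (SS η (max T₀ 20) (x : ℤ) : ℝ))
    generalize max T₀ 20 = T at *
    set C := (Finset.range (3 ^ (T + 1))).filter (fun x => x % 3 = r) with hC
    have hCc : (C.card : ℝ) = 3 ^ T := by
      have := class_card T r hr
      rw [hC, this]; push_cast; ring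
    set Bd := C.filter (fun x : ℕ => ¬ ∃ s, Good η T (x : ℤ) s) with hBd
    have hBdc : (Bd.card : ℝ) ≤ A / (2 * (A + 2)) * 3 ^ T := by
      refine le_trans ?_ hty
      have : Bd.card ≤ _ := Finset.card_le_card (s := Bd)
        (t := (range (3 ^ (T + 1))).filter (fun x : ℕ => ¬ (3 : ℤ) ∣ (x : ℤ) ∧
      ∀ s : ℕ, (4 - η) * T ≤ s → s ≤ (4 + η) * T →
        (NU T s (x : ℤ) : ℝ) < (4 / 3) ^ s * Real.exp (-(η * T)))) ?_
      · exact_mod_cast this
      · intro x hx
        rw [hBd, Finset.mem_filter, hC, Finset.mem_filter] at hx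
        obtain ⟨⟨hx1, hx2⟩, hx3⟩ := hx
        rw [Finset.mem_filter]
        have hr' := Finset.mem_Ico.1 hr
        refine ⟨hx1, by omega, ?_⟩
        intro s hs1 hs2
        by_contra hlt
        exact hx3 ⟨s, hs1, hs2, not_lt.1 hlt⟩
    have hterm : ∀ x ∈ C, A * T - (if ¬ ∃ s, Good η T (x : ℤ) s then (A + 2) * T else 0) ≤
        Real.log ((KK η T (x : ℤ)).card) - g₀ * (SS η T (x : ℤ) : ℝ) := by
      intro x _
      by_cases h : ∃ s, Good η T (x : ℤ) s
      · rw [if_neg (not_not.2 h)]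
        have := term_good hη1 hη2 hη0.le h
        have e : 5 / 2 * η * T = A * T := by rw [hA]
        linarith
      · rw [if_pos h]
        have := term_bad (η := η) (T := T) hη1 h0 h1 (x : ℤ)
        linarith
    refine lt_of_lt_of_le ?_ (Finset.sum_le_sum hterm)
    rw [Finset.sum_sub_distrib, Finset.sum_const, nsmul_eq_mul, ← Finset.sum_filter,
      Finset.sum_const, nsmul_eq_mul, hCc]
    have hTpos : (0 : ℝ) < T := by
      have : 0 < T := by omega
      exact_mod_cast this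
    have h1 : (Bd.card : ℝ) * ((A + 2) * T) ≤ A / (2 * (A + 2)) * 3 ^ T * ((A + 2) * T) := by
      apply mul_le_mul_of_nonneg_right hBdc (by positivity)
    have h2 : A / (2 * (A + 2)) * 3 ^ T * ((A + 2) * T) = 3 ^ T * (A * T) / 2 := by
      field_simp
    have h3 : 0 < 3 ^ T * (A * T) := by positivity
    have h4 : (Bd.card : ℝ) * ((A + 2) * T) =
      ((C.filter (fun x : ℕ => ¬ ∃ s, Good η T (x : ℤ) s)).card : ℝ) * ((A + 2) * T) := rfl
    linarith

end Pool.Agent.H377R2.NK
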