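import Pool.Agent.H377R2.NK.SpreadB
import Pool.Agent.H412R2.LogAvg

/-!
Task L5 (LOG): average of `-log ffz` by a first-passage argument (critical tilt `3/4`).
-/

set_option autoImplicit false

namespace Pool.Agent.H377R2.NK

open Pool.Agent.H412R2 (Lw Lw_smul Lw_iter_smul Lw_iter_mono Lw_periodic Lw_iter_sum Lw_total uu
  uu_nonneg valid_parity Av Av_eq Av_mono Av_lin Av_const unit_shift)

/-- the critical letter weights -/
noncomputable def uz (e : ℕ) : ℝ := (1 / 3 : ℝ) * (3 / 4) ^ e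

theorem uz_nonneg (e : ℕ) : 0 ≤ uz e := by unfold uz; positivity

theorem ffz_def (A n : ℕ) : ffz A n = (Lw A uz)^[n] (fun _ => 1) := rfl

theorem ffz_zero (A : ℕ) (x : ℤ) : ffz A 0 x = 1 := rfl

theorem ffz_add (A t n : ℕ) (x : ℤ) : ffz A (t + n) x = (Lw A uz)^[t] (ffz A n) x := by
  rw [ffz_def, ffz_def, Function.iterate_add_apply]

theorem ffz_periodic (A t : ℕ) (x y : ℤ) : ffz A t (x + 3 ^ t * y) = ffz A t x := by
  have := Lw_periodic (E := A) (u := uz) (h := fun _ => 1) (m := 0)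
    (fun _ _ => rfl) t x y
  simpa [ffz_def] using this

theorem ffz_nonneg (A t : ℕ) (x : ℤ) : 0 ≤ ffz A t x := by
  have h := Lw_iter_mono (E := A) (u := uz) uz_nonneg
    (h₁ := fun _ => 0 * 1) (h₂ := fun _ => 1) (fun _ => by norm_num) t x
  rw [Lw_iter_smul A _ 0 t (fun _ => 1) x] at h
  simpa [ffz_def] using h

theorem ffz_one_eq (A : ℕ) (x : ℤ) : ffz A 1 x = ∑ e ∈ Finset.Icc 1 A, if (3 : ℤ) ∣ 2 ^ e * x - 1 then
      3 * uz e * 1 else 0 := rfl

theorem ffz_one_ge {A : ℕ} (hA : 6 ≤ A) {x : ℤ} (hx : ¬ (3 : ℤ) ∣ x) : 9 / 16 ≤ ffz A 1 x := by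
  rw [ffz_one_eq]
  have hx2 : x % 3 = 1 ∨ x % 3 = 2 := by omega
  have hnn : ∀ e ∈ Finset.Icc 1 A, (0 : ℝ) ≤ if (3 : ℤ) ∣ 2 ^ e * x - 1 then
      3 * uz e * 1 else 0 := by
    intro e _; have := uz_nonneg e; split_ifs
    · positivity
    · exact le_refl _
  rcases hx2 with h | h
  · have h1 := Finset.single_le_sum hnn (Finset.mem_Icc.2 ⟨by norm_num, by omega⟩ : 2 ∈ Finset.Icc 1 A)
    rw [if_pos (by norm_num; omega)] at h1
    refine le_trans ?_ h1
    unfold uz; norm_num
  · have h1 := Finset.single_le_sum hnn (Finset.mem_Icc.2 ⟨by norm_num, by omega⟩ : 1 ∈ Finset.Icc 1 A)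
    rw [if_pos (by norm_num; omega)] at h1
    refine le_trans ?_ h1
    unfold uz; norm_num

theorem sum_uz_le (A : ℕ) : ∑ e ∈ Finset.Icc 1 A, uz e ≤ 1 := by
  have h : ∑ e ∈ Finset.Icc 1 A, uz e = 1 - (3 / 4) ^ A := by
    induction A with
    | zero => simp
    | succ n ih =>
      rw [Finset.sum_Icc_succ_top (by omega), ih]
      unfold uz
      ring
  rw [h]
  have : (0 : ℝ) < (3 / 4) ^ A := by positivity
  linarith

theorem Lz_uu_ge {A : ℕ} (hA : 6 ≤ A) (x : ℤ) :
    (1 / 6) * Lw A uz (fun _ => 1) x ≤ Lw A uz uu x := by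
  have h0 : Lw A uz (fun _ => 1) x = ∑ e ∈ Finset.Icc 1 A, if (3 : ℤ) ∣ 2 ^ e * x - 1 then
      3 * uz e * 1 else 0 := rfl
  have h1 : Lw A uz uu x = ∑ e ∈ Finset.Icc 1 A, if (3 : ℤ) ∣ 2 ^ e * x - 1 then
      3 * uz e * uu ((2 ^ e * x - 1) / 3) else 0 := rfl
  have hnn : ∀ e ∈ Finset.Icc 1 A, (0 : ℝ) ≤ if (3 : ℤ) ∣ 2 ^ e * x - 1 then
      3 * uz e * uu ((2 ^ e * x - 1) / 3) else 0 := by
    intro e _; have := uu_nonneg ((2 ^ e * x - 1) / 3); have := uz_nonneg e; split_ifs
    · positivity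
    · exact le_refl _
  have hx2 : x % 3 = 0 ∨ x % 3 = 1 ∨ x % 3 = 2 := by omega
  have hle1 := sum_uz_le A
  rcases hx2 with h | h | h
  · -- non unit
    have : Lw A uz (fun _ => 1) x = 0 := by
      rw [h0]
      refine Finset.sum_eq_zero fun e _ => ?_
      rw [if_neg]
      intro hv
      have := valid_parity hv
      omega
    rw [this, mul_zero, h1]
    exact Finset.sum_nonneg hnn
  · -- x = 1 mod 3
    have hup : Lw A uz (fun _ => 1) x ≤ 3 * (1 - 1 / 4 - 9 / 64) := by
      rw [h0]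
      have h2 : ∀ e ∈ Finset.Icc 1 A, (if (3 : ℤ) ∣ 2 ^ e * x - 1 then
          3 * uz e * 1 else 0) ≤ 3 * (uz e -
            (if e = 1 then 1 / 4 else 0) - (if e = 3 then 9 / 64 else 0)) := by
        intro e _
        by_cases h3 : e = 1
        · subst h3
          rw [if_neg (by intro hv; have := valid_parity hv; omega)]
          unfold uz; norm_num
        by_cases h4 : e = 3
        · subst h4
          rw [if_neg (by intro hv; have := valid_parity hv; omega)]
          unfold uz; norm_num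
        rw [if_neg h3, if_neg h4, sub_zero, sub_zero]
        have := uz_nonneg e
        split_ifs with hv
        · exact le_of_eq (by ring)
        · positivity
      refine le_trans (Finset.sum_le_sum h2) ?_
      rw [← Finset.mul_sum, Finset.sum_sub_distrib, Finset.sum_sub_distrib,
        Finset.sum_ite_eq', Finset.sum_ite_eq', if_pos (Finset.mem_Icc.2 ⟨by norm_num, by omega⟩),
        if_pos (Finset.mem_Icc.2 ⟨by norm_num, by omega⟩)]
      linarith
    have hlow : (81 / 256 : ℝ) ≤ Lw A uz uu x := by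
      rw [h1]
      by_cases h3 : (3 : ℤ) ∣ (2 ^ 2 * x - 1) / 3
      · have h4 := Finset.single_le_sum hnn (Finset.mem_Icc.2 ⟨by norm_num, by omega⟩ : 4 ∈ Finset.Icc 1 A)
        rw [if_pos (by norm_num; omega)] at h4
        refine le_trans ?_ h4
        unfold uu
        rw [if_neg (by norm_num at h3 ⊢; omega)]
        unfold uz; norm_num
      · have h4 := Finset.single_le_sum hnn (Finset.mem_Icc.2 ⟨by norm_num, by omega⟩ : 2 ∈ Finset.Icc 1 A)
        rw [if_pos (by norm_num; omega)] at h4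
        refine le_trans ?_ h4
        unfold uu
        rw [if_neg h3]
        unfold uz; norm_num
    linarith
  · -- x = 2 mod 3
    have hup : Lw A uz (fun _ => 1) x ≤ 3 * (1 - 3 / 16) := by
      rw [h0]
      have h2 : ∀ e ∈ Finset.Icc 1 A, (if (3 : ℤ) ∣ 2 ^ e * x - 1 then
          3 * uz e * 1 else 0) ≤ 3 * (uz e -
            (if e = 2 then 3 / 16 else 0)) := by
        intro e _
        by_cases h3 : e = 2
        · subst h3
          rw [if_neg (by intro hv; have := valid_parity hv; omega)]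
          unfold uz; norm_num
        rw [if_neg h3, sub_zero]
        have := uz_nonneg e
        split_ifs with hv
        · exact le_of_eq (by ring)
        · positivity
      refine le_trans (Finset.sum_le_sum h2) ?_
      rw [← Finset.mul_sum, Finset.sum_sub_distrib,
        Finset.sum_ite_eq', if_pos (Finset.mem_Icc.2 ⟨by norm_num, by omega⟩)]
      linarith
    have hlow : (27 / 64 : ℝ) ≤ Lw A uz uu x := by
      rw [h1]
      by_cases h3 : (3 : ℤ) ∣ (2 ^ 1 * x - 1) / 3
      · have h4 := Finset.single_le_sum hnn (Finset.mem_Icc.2 ⟨by norm_num, by omega⟩ : 3 ∈ Finset.Icc 1 A)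
        rw [if_pos (by norm_num; omega)] at h4
        refine le_trans ?_ h4
        unfold uu
        rw [if_neg (by norm_num at h3 ⊢; omega)]
        unfold uz; norm_num
      · have h4 := Finset.single_le_sum hnn (Finset.mem_Icc.2 ⟨by norm_num, by omega⟩ : 1 ∈ Finset.Icc 1 A)
        rw [if_pos (by norm_num; omega)] at h4
        refine le_trans ?_ h4
        unfold uu
        rw [if_neg h3]
        unfold uz; norm_num
    linarith

theorem ffz_ratio {A t : ℕ} (hA : 6 ≤ A) {x : ℤ} (hx : ¬ (3 : ℤ) ∣ x) :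
    (1 / 12 : ℝ) * ffz A t x ≤ ffz A (t + 1) x := by
  cases t with
  | zero => rw [ffz_zero]; have := ffz_one_ge hA hx; simp at this ⊢; linarith
  | succ t =>
    have hmono := @Lw_iter_mono A uz uz_nonneg
    have h0 := ffz_nonneg A (t + 1) x
    have h1 : (9 / 16 : ℝ) * (Lw A uz)^[t + 1] uu x ≤ ffz A (t + 1 + 1) x := by
      rw [ffz_add A (t + 1) 1]
      have := hmono (h₁ := fun z => (9 / 16 : ℝ) * uu z) (h₂ := ffz A 1) (by
        intro z
        unfold uu
        split_ifs with hz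
        · rw [mul_zero]; exact ffz_nonneg A 1 z
        · rw [mul_one]; exact ffz_one_ge hA hz) (t + 1) x
      rw [Lw_iter_smul] at this
      exact this
    have h2 : (1 / 6 : ℝ) * ffz A (t + 1) x ≤ (Lw A uz)^[t + 1] uu x := by
      rw [ffz_add A t 1, Function.iterate_succ_apply]
      have := hmono (h₁ := fun z => (1 / 6 : ℝ) * ffz A 1 z) (h₂ := Lw A uz uu) (by
        intro z
        exact Lz_uu_ge hA z) t x
      rw [Lw_iter_smul] at this
      exact this
    linarith

theorem ffz_pos {A t : ℕ} (hA : 6 ≤ A) {x : ℤ} (hx : ¬ (3 : ℤ) ∣ x) : 0 < ffz A t x := by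
  induction t with
  | zero => rw [ffz_zero]; norm_num
  | succ t ih => have := ffz_ratio (t := t) hA hx; linarith

theorem Avz_iter {A : ℕ} {h : ℤ → ℝ} {m : ℕ}
    (hper : ∀ x y : ℤ, h (x + 3 ^ m * y) = h x) (t : ℕ) (x : ℤ) :
    3 ^ m * Av m t ((Lw A uz)^[t] h) x = ffz A t x * ∑ y ∈ Finset.range (3 ^ m), h (y : ℤ) := by
  rw [Av_eq]
  exact Lw_iter_sum hper t x

theorem Av_ffz (A m t : ℕ) (x : ℤ) : Av m t (ffz A (t + m)) x ≤ ffz A t x := by
  have h1 : ffz A (t + m) = (Lw A uz)^[t] (ffz A m) := by funext z; exact ffz_add A t m z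
  have h2 := Avz_iter (A := A) (h := ffz A m) (m := m) (fun x y => ffz_periodic A m x y) t x
  have h3 : ∑ y ∈ Finset.range (3 ^ m), ffz A m (y : ℤ) ≤ 3 ^ m := by
    have := Lw_total (E := A) (u := uz) (h := fun _ => 1) (m := 0)
      (fun _ _ => rfl) m
    have h4 := sum_uz_le A
    have h5 : 0 ≤ ∑ e ∈ Finset.Icc 1 A, uz e := Finset.sum_nonneg fun e _ => uz_nonneg e
    have h6 : (3 * ∑ e ∈ Finset.Icc 1 A, uz e) ^ m ≤ 3 ^ m :=
      pow_le_pow_left₀ (by positivity) (by linarith) m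
    simp only [pow_zero, Finset.range_one, Finset.sum_singleton, mul_one, add_zero] at this
    rw [ffz_def, this]
    exact h6
  rw [← h1] at h2
  have h4 : (0 : ℝ) < 3 ^ m := by positivity
  have h0 := ffz_nonneg A t x
  have h5 : (3 : ℝ) ^ m * Av m t (ffz A (t + m)) x ≤ 3 ^ m * ffz A t x := by
    rw [h2, mul_comm]
    exact mul_le_mul_of_nonneg_right h3 h0
  exact le_of_mul_le_mul_left h5 h4

/-- the spread property at any past -/
theorem spreadz_Av {A n : ℕ} {M : ℝ} (hM0 : 0 < M)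
    (hsp : ∃ h : ℤ → ℝ, (∀ x y : ℤ, h (x + 3 ^ n * y) = h x) ∧ (∀ x, 0 ≤ h x) ∧
      (∀ x, h x ≤ ffz A n x) ∧ (∀ x, h x ≤ M) ∧
      (1 / 2 : ℝ) * 3 ^ n ≤ ∑ y ∈ Finset.range (3 ^ n), h (y : ℤ))
    (t : ℕ) {x : ℤ} (hx : 0 < ffz A t x) :
    1 / (4 * M) ≤
      Av n t (fun z => if ffz A t x / 4 ≤ ffz A (t + n) z then 1 else 0) x := by
  obtain ⟨h, hper, h0, hle, hbd, hsum⟩ := hsp
  have h1 := Avz_iter (A := A) hper t x
  have h3 : (0 : ℝ) < 3 ^ n := by positivity
  have h2 : ffz A t x / 2 ≤ Av n t ((Lw A uz)^[t] h) x := by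
    have h4 : ffz A t x * ((1 / 2 : ℝ) * 3 ^ n) ≤ 3 ^ n * Av n t ((Lw A uz)^[t] h) x := by
      rw [h1]; exact mul_le_mul_of_nonneg_left hsum hx.le
    have h5 : (3 : ℝ) ^ n * (ffz A t x / 2) ≤ 3 ^ n * Av n t ((Lw A uz)^[t] h) x := by linarith
    exact le_of_mul_le_mul_left h5 h3
  have hmono := @Lw_iter_mono A uz uz_nonneg
  have h4 : ∀ z, (Lw A uz)^[t] h z ≤ ffz A (t + n) z := by
    intro z; rw [ffz_add]; exact hmono hle t z
  have h5 : ∀ z, (Lw A uz)^[t] h z ≤ M * ffz A t z := by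
    intro z
    have := hmono (h₁ := h) (h₂ := fun _ => M * 1) (fun z => by rw [mul_one]; exact hbd z) t z
    rw [Lw_iter_smul] at this
    exact this
  have h6 : Av n t ((Lw A uz)^[t] h) x ≤ Av n t (fun z => (M * ffz A t x) *
      (if ffz A t x / 4 ≤ ffz A (t + n) z then 1 else 0) + (ffz A t x / 4) * 1) x := by
    apply Av_mono
    intro y
    split_ifs with h7
    · have := h5 (x + 3 ^ t * y)
      rw [ffz_periodic] at this
      linarith
    · push Not at h7
      have := h4 (x + 3 ^ t * y)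
      linarith
  rw [Av_lin n (M * ffz A t x) (ffz A t x / 4) _ (fun _ => 1), Av_const] at h6
  set P := Av n t (fun z => if ffz A t x / 4 ≤ ffz A (t + n) z then (1 : ℝ) else 0) x with hP
  have h8 : ffz A t x * (1 / 4) ≤ ffz A t x * (M * P) := by nlinarith
  have h9 : 1 / 4 ≤ M * P := le_of_mul_le_mul_left h8 hx
  rw [div_le_iff₀ (by positivity)]
  linarith

/-- survival probability above the level `l` -/
noncomputable def survz (A : ℕ) (l : ℝ) : ℕ → ℕ → ℤ → ℝ
  | 0, _, _ => 1
  | m + 1, t, x => (1 / 3) * ∑ d ∈ Finset.range 3,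
      if l ≤ ffz A (t + 1) (x + 3 ^ t * (d : ℤ)) then survz A l m (t + 1) (x + 3 ^ t * (d : ℤ)) else 0

theorem survz_lower {A : ℕ} {l hh : ℝ} (hh0 : 0 < hh) (m : ℕ) :
    ∀ (t : ℕ) (x : ℤ),
    Av m t (fun z => if hh ≤ ffz A (t + m) z then 1 else 0) x ≤ survz A l m t x + l / hh ∨ l < 0 := by
  by_cases hl : l < 0
  · exact fun _ _ => Or.inr hl
  push Not at hl
  have hlh : 0 ≤ l / hh := by positivity
  induction m with
  | zero =>
    intro t x
    left
    simp only [Av, survz]
    split_ifs <;> linarith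
  | succ m ih =>
    intro t x
    left
    simp only [Av, survz]
    have h1 : ∀ d ∈ Finset.range 3,
        Av m (t + 1) (fun z => if hh ≤ ffz A (t + (m + 1)) z then 1 else 0) (x + 3 ^ t * (d : ℤ)) ≤
        (if l ≤ ffz A (t + 1) (x + 3 ^ t * (d : ℤ)) then survz A l m (t + 1) (x + 3 ^ t * (d : ℤ)) else 0)
          + l / hh := by
      intro d _
      have he : t + (m + 1) = t + 1 + m := by ring
      rw [he]
      split_ifs with h2
      · rcases ih (t + 1) (x + 3 ^ t * (d : ℤ)) with h3 | h3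
        · exact h3
        · linarith
      · push Not at h2
        rw [zero_add]
        have h3 : Av m (t + 1) (fun z => if hh ≤ ffz A (t + 1 + m) z then 1 else 0) (x + 3 ^ t * (d : ℤ)) ≤
            Av m (t + 1) (fun z => (1 / hh) * ffz A (t + 1 + m) z + 0 * 1) (x + 3 ^ t * (d : ℤ)) := by
          apply Av_mono
          intro y
          have h5 := ffz_nonneg A (t + 1 + m) (x + 3 ^ t * (d : ℤ) + 3 ^ (t + 1) * y)
          split_ifs with h4
          · rw [zero_mul, add_zero, one_div, inv_mul_eq_div, le_div_iff₀ hh0]; linarith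
          · rw [zero_mul, add_zero]; positivity
        rw [Av_lin m (1 / hh) 0 (ffz A (t + 1 + m)) (fun _ => 1)] at h3
        rw [zero_mul, add_zero] at h3
        refine le_trans h3 ?_
        rw [one_div, inv_mul_eq_div]
        exact div_le_div_of_nonneg_right (le_trans (Av_ffz A m (t + 1) _) h2.le) hh0.le
    have h2 := Finset.sum_le_sum h1
    rw [Finset.sum_add_distrib] at h2
    have h3 : ∑ _d ∈ Finset.range 3, l / hh = 3 * (l / hh) := by simp
    rw [h3] at h2
    linarith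

theorem survz_upper {A : ℕ} (hA : 6 ≤ A) {l B : ℝ} (hl : 0 < l) (n : ℕ)
    (hIH : ∀ m < n, ∀ (t : ℕ) (x : ℤ), 1 ≤ t → ¬ (3 : ℤ) ∣ x →
      Av m t (fun z => - Real.log (ffz A (t + m) z)) x + Real.log (ffz A t x) ≤ B) (m : ℕ) :
    ∀ (t : ℕ) (x : ℤ), m ≤ n → 1 ≤ t → ¬ (3 : ℤ) ∣ x → l ≤ ffz A t x →
      Av m t (fun z => - Real.log (ffz A (t + m) z)) x ≤
        - Real.log (l * (1 / 12)) + B * (1 - survz A l m t x) := by
  induction m with
  | zero =>
    intro t x _ ht hx hlx
    simp only [Av, survz]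
    have h1 : Real.log (l * (1 / 12)) ≤ Real.log (ffz A (t + 0) x) := by
      apply Real.log_le_log (by positivity)
      rw [add_zero]; linarith
    linarith
  | succ m ih =>
    intro t x hm ht hx hlx
    simp only [Av, survz]
    have h1 : ∀ d ∈ Finset.range 3,
        Av m (t + 1) (fun z => - Real.log (ffz A (t + (m + 1)) z)) (x + 3 ^ t * (d : ℤ)) ≤
        (- Real.log (l * (1 / 12)) + B) - B *
        (if l ≤ ffz A (t + 1) (x + 3 ^ t * (d : ℤ)) then survz A l m (t + 1) (x + 3 ^ t * (d : ℤ)) else 0) := by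
      intro d _
      have he : t + (m + 1) = t + 1 + m := by ring
      rw [he]
      have hxd := unit_shift hx ht (d : ℤ)
      split_ifs with h2
      · have := ih (t + 1) (x + 3 ^ t * (d : ℤ)) (by omega) (by omega) hxd h2
        linarith
      · rw [mul_zero, sub_zero]
        have h3 := hIH m (by omega) (t + 1) (x + 3 ^ t * (d : ℤ)) (by omega) hxd
        have h4 := ffz_ratio (t := t) hA hxd
        rw [ffz_periodic] at h4
        have h5 : Real.log (l * (1 / 12)) ≤ Real.log (ffz A (t + 1) (x + 3 ^ t * (d : ℤ))) := by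
          apply Real.log_le_log (by positivity)
          linarith
        linarith
    have h2 := Finset.sum_le_sum h1
    rw [Finset.sum_sub_distrib, ← Finset.mul_sum] at h2
    have h3 : ∑ _d ∈ Finset.range 3, (- Real.log (l * (1 / 12)) + B) =
        3 * (- Real.log (l * (1 / 12)) + B) := by
      rw [Finset.sum_const, Finset.card_range, nsmul_eq_mul]; norm_num
    rw [h3] at h2
    linarith

theorem logz_avg_aux {A N : ℕ} {M : ℝ} (hA : 6 ≤ A) (hM1 : 1 ≤ M)
    (hsp : ∀ n, n ≤ N → ∃ h : ℤ → ℝ, (∀ x y : ℤ, h (x + 3 ^ n * y) = h x) ∧ (∀ x, 0 ≤ h x) ∧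
      (∀ x, h x ≤ ffz A n x) ∧ (∀ x, h x ≤ M) ∧
      (1 / 2 : ℝ) * 3 ^ n ≤ ∑ y ∈ Finset.range (3 ^ n), h (y : ℤ)) (n : ℕ) (hn : n ≤ N) :
    ∀ (t : ℕ) (x : ℤ), 1 ≤ t → ¬ (3 : ℤ) ∣ x →
      Av n t (fun z => - Real.log (ffz A (t + n) z)) x + Real.log (ffz A t x) ≤
        8 * M * Real.log (384 * M) := by
  induction n using Nat.strong_induction_on with
  | _ n ih =>
  intro t x ht hx
  set c : ℝ := 1 / (4 * M) with hc
  have hc0 : 0 < c := by positivity
  have hc1 : c ≤ 1 := by rw [hc, div_le_iff₀ (by positivity)]; linarith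
  have hcM : c * M = 1 / 4 := by rw [hc]; field_simp
  set f0 := ffz A t x with hf0
  have hf0p : 0 < f0 := ffz_pos hA hx
  set l : ℝ := c / 8 * f0 with hl
  have hl0 : 0 < l := by positivity
  set B : ℝ := 8 * M * Real.log (384 * M) with hB
  have hlogM : 0 ≤ Real.log (384 * M) := Real.log_nonneg (by linarith)
  have hB0 : 0 ≤ B := by positivity
  have h1 := spreadz_Av (by linarith) (hsp n hn) t hf0p
  have h2 : Av n t (fun z => if f0 / 4 ≤ ffz A (t + n) z then 1 else 0) x ≤
      survz A l n t x + l / (f0 / 4) := by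
    rcases survz_lower (A := A) (l := l) (hh := f0 / 4) (by positivity) n t x with h | h
    · exact h
    · linarith
  have h3 : l / (f0 / 4) = c / 2 := by rw [hl]; field_simp; norm_num
  have h4 : c / 2 ≤ survz A l n t x := by
    have : c ≤ Av n t (fun z => if f0 / 4 ≤ ffz A (t + n) z then 1 else 0) x := h1
    linarith
  have h5 := survz_upper hA hl0 (B := B) n (fun m hm t x ht hx => ih m hm (by omega) t x ht hx) n t x
    le_rfl ht hx (by rw [hl]; nlinarith)
  have h6 : Real.log (l * (1 / 12)) = Real.log f0 - Real.log (384 * M) := by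
    rw [← Real.log_div hf0p.ne' (by positivity)]
    congr 1
    rw [hl, hc]
    field_simp
    norm_num
  rw [h6] at h5
  have h7 : B * (1 - survz A l n t x) ≤ B * (1 - c / 2) :=
    mul_le_mul_of_nonneg_left (by linarith) hB0
  have h8 : B * (c / 2) = Real.log (384 * M) := by
    rw [hB]
    have : 8 * M * Real.log (384 * M) * (c / 2) = 4 * (c * M) * Real.log (384 * M) := by ring
    rw [this, hcM]; ring
  nlinarith

theorem log_avg : ∃ C : ℝ, 0 < C ∧ ∀ T A : ℕ, 1 ≤ T → 3 * (T + 3) ≤ A → ∀ x : ℤ, ¬ (3 : ℤ) ∣ x →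
    ∑ y ∈ Finset.range (3 ^ T), - Real.log (ffz A (T + 1) (x + 3 * (y : ℤ))) ≤ 3 ^ T * C := by
  obtain ⟨M, hM1, hsp0⟩ := exists_spread
  have hlogC : 0 ≤ Real.log (384 * M) := Real.log_nonneg (by linarith)
  refine ⟨8 * M * Real.log (384 * M) + 1, by positivity, ?_⟩
  intro T A hT hTA x hx
  have hA : 6 ≤ A := by omega
  have h1 := logz_avg_aux hA hM1 (fun n (hn : n ≤ T) => hsp0 n A (by omega)) T le_rfl 1 x le_rfl hx
  have h2 := Av_eq T 1 (fun z => - Real.log (ffz A (1 + T) z)) x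
  rw [pow_one, add_comm 1 T] at h2
  rw [add_comm 1 T] at h1
  rw [← h2]
  apply mul_le_mul_of_nonneg_left _ (by positivity)
  have h3 : Real.log (9 / 16) ≤ Real.log (ffz A 1 x) :=
    Real.log_le_log (by norm_num) (ffz_one_ge hA hx)
  have h4 : -1 ≤ Real.log (9 / 16) := by
    have : Real.log (9 / 16) = - Real.log (16 / 9) := by
      rw [← Real.log_inv]; norm_num
    rw [this]
    have := Real.log_le_sub_one_of_pos (show (0 : ℝ) < 16 / 9 by norm_num)
    linarith
  linarith

end Pool.Agent.H377R2.NK
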