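import Pool.Agent.H377R2.NK.Kernel
import Pool.Agent.H377R2.NK.CountLow
import Pool.Agent.H412R2.Rigidity

/-! L7b (LOWER): lower bound of `Npr` from `exists_kernel` and `H412R2.positive`. -/

set_option autoImplicit false
set_option linter.unusedVariables false

namespace Pool.Agent.H377R2.NK

open Finset Pool.Agent.H320R2.PD

namespace LOW

open Pool.Agent.H412R2 (tr Path Ker)

variable {R : ℕ}

/-- partition function -/
noncomputable def WW (κ : Ker 3 R) (g₀ : ℝ) : ℕ → ℤ → ℝ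
  | 0, _ => 1
  | k + 1, x => ∑ b ∈ κ.K x, Real.exp (-(g₀ * κ.S x)) * WW κ g₀ k b

theorem log_WW (κ : Ker 3 R) (g₀ : ℝ) (k : ℕ) :
    ∀ x : ℤ, ¬ (3 : ℤ) ∣ x → 0 < WW κ g₀ k x ∧
      ∑ i ∈ range k, (κ.P)^[i] (fun x => Real.log ((κ.K x).card) - g₀ * (κ.S x : ℝ)) x ≤
        Real.log (WW κ g₀ k x) := by
  induction k with
  | zero => intro x hx; simp [WW]
  | succ k ih =>
    intro x hx
    have hx' : ¬ ((3 : ℕ) : ℤ) ∣ x := by exact_mod_cast hx
    have hlive : ∀ b ∈ κ.K x, ¬ (3 : ℤ) ∣ b := by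
      intro b hb
      have := κ.hlive x b hx' hb
      exact_mod_cast this
    have hc := κ.hcard x hx'
    have hcpos : (0 : ℝ) < ((κ.K x).card : ℝ) := by
      have : 0 < (κ.K x).card := by omega
      exact_mod_cast this
    have hne : (κ.K x).Nonempty := by
      rw [← Finset.card_pos]; omega
    have hZb : ∀ b ∈ κ.K x, 0 < WW κ g₀ k b := fun b hb => (ih b (hlive b hb)).1
    have hsum : 0 < ∑ b ∈ κ.K x, WW κ g₀ k b := Finset.sum_pos hZb hne
    have hZ : WW κ g₀ (k + 1) x = Real.exp (-(g₀ * κ.S x)) * ∑ b ∈ κ.K x, WW κ g₀ k b := by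
      rw [WW, Finset.mul_sum]
    have hrp : 0 < Real.exp (-(g₀ * κ.S x)) := Real.exp_pos _
    refine ⟨by rw [hZ]; positivity, ?_⟩
    have hlog : Real.log (WW κ g₀ (k + 1) x) = -(g₀ * κ.S x) +
        (Real.log ((κ.K x).card) + Real.log (∑ b ∈ κ.K x, ((κ.K x).card : ℝ)⁻¹ • WW κ g₀ k b)) := by
      rw [hZ, Real.log_mul hrp.ne' hsum.ne', Real.log_exp, ← Finset.smul_sum, smul_eq_mul,
        Real.log_mul (by positivity) hsum.ne', Real.log_inv]
      ring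
    have hJ : ∑ b ∈ κ.K x, ((κ.K x).card : ℝ)⁻¹ • Real.log (WW κ g₀ k b) ≤
        Real.log (∑ b ∈ κ.K x, ((κ.K x).card : ℝ)⁻¹ • WW κ g₀ k b) := by
      refine strictConcaveOn_log_Ioi.concaveOn.le_map_sum (fun _ _ => by positivity) ?_
        (fun b hb => hZb b hb)
      rw [Finset.sum_const, nsmul_eq_mul, mul_inv_cancel₀ hcpos.ne']
    have hI : ∑ i ∈ range k, (κ.P)^[i + 1]
          (fun x => Real.log ((κ.K x).card) - g₀ * (κ.S x : ℝ)) x ≤
        ∑ b ∈ κ.K x, ((κ.K x).card : ℝ)⁻¹ • Real.log (WW κ g₀ k b) := by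
      have e1 : ∑ i ∈ range k, (κ.P)^[i + 1]
          (fun x => Real.log ((κ.K x).card) - g₀ * (κ.S x : ℝ)) x =
          ∑ b ∈ κ.K x, ((κ.K x).card : ℝ)⁻¹ • ∑ i ∈ range k, (κ.P)^[i]
          (fun x => Real.log ((κ.K x).card) - g₀ * (κ.S x : ℝ)) b := by
        simp only [Function.iterate_succ_apply', Ker.P, smul_eq_mul]
        rw [← Finset.sum_div, Finset.sum_comm, ← Finset.mul_sum]
        rw [div_eq_mul_inv, mul_comm]
      rw [e1]
      refine Finset.sum_le_sum (fun b hb => ?_)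
      rw [smul_eq_mul, smul_eq_mul]
      exact mul_le_mul_of_nonneg_left (ih b (hlive b hb)).2 (by positivity)
    rw [Finset.sum_range_succ', hlog]
    simp only [Function.iterate_zero, id_eq]
    linarith

theorem card_shift (κ : Ker 3 R) {x : ℤ} (hx : ¬ ((3 : ℕ) : ℤ) ∣ x) (y : ℤ) :
    (κ.K (x + ((3 : ℕ) : ℤ) ^ (R + 1) * y)).card = (κ.K x).card := by
  symm
  refine Finset.card_bij (fun b _ => b + 2 ^ (κ.S x) * (((3 : ℕ) : ℤ) * y)) ?_ ?_ ?_
  · intro b hb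
    exact (κ.hK x y b hx).2 hb
  · intro b _ b' _ h
    simpa using h
  · intro w hw
    refine ⟨w - 2 ^ (κ.S x) * (((3 : ℕ) : ℤ) * y), ?_, by ring⟩
    rw [← κ.hK x y _ hx]
    simpa using hw

/-- iteration of the lower recursion -/
theorem iter_lower (κ : Ker 3 R) (g₀ c : ℝ)
    (hrec : ∀ (x : ℤ) (k : ℕ), ¬ (3 : ℤ) ∣ x → κ.S x ≤ k →
      ∑ b ∈ κ.K x, (Npr (k - κ.S x) b : ℝ) ≤ (Npr k x : ℝ))
    (hS1 : ∀ x : ℤ, ¬ (3 : ℤ) ∣ x → 1 ≤ κ.S x) (j : ℕ) :
    ∀ (x : ℤ), ¬ (3 : ℤ) ∣ x → ∀ k : ℕ, j * κ.Smax ≤ k →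
      (∀ k' : ℕ, k' + j ≤ k → ∀ y : ℤ, ¬ (3 : ℤ) ∣ y → c * Real.exp (g₀ * k') ≤ (Npr k' y : ℝ)) →
      c * Real.exp (g₀ * k) * WW κ g₀ j x ≤ (Npr k x : ℝ) := by
  induction j with
  | zero =>
    intro x hx k _ h
    have := h k (by omega) x hx
    simpa [WW] using this
  | succ j ih =>
    intro x hx k hk h
    have hx' : ¬ ((3 : ℕ) : ℤ) ∣ x := by exact_mod_cast hx
    have hSm := κ.hSmax x
    have hk2 : j * κ.Smax + κ.Smax ≤ k := by
      rw [← Nat.succ_mul]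
      exact hk
    have hSk : κ.S x ≤ k := by omega
    have hS := hS1 x hx
    refine le_trans ?_ (hrec x k hx hSk)
    rw [WW, Finset.mul_sum]
    apply Finset.sum_le_sum
    intro b hb
    have hb' : ¬ (3 : ℤ) ∣ b := by
      have := κ.hlive x b hx' hb
      exact_mod_cast this
    have h2 := ih b hb' (k - κ.S x) (by omega) (by
      intro k' hk' y hy
      exact h k' (by omega) y hy)
    refine le_trans (le_of_eq ?_) h2
    have e1 : ((k - κ.S x : ℕ) : ℝ) = (k : ℝ) - (κ.S x : ℝ) := by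
      rw [Nat.cast_sub hSk]
    rw [e1]
    have e2 : Real.exp (g₀ * ((k : ℝ) - (κ.S x : ℝ))) =
        Real.exp (g₀ * k) * Real.exp (-(g₀ * κ.S x)) := by
      rw [← Real.exp_add]
      congr 1
      ring
    rw [e2]
    ring

end LOW

open LOW in
theorem lower_exp {g₀ : ℝ} (h0 : 0 ≤ g₀) (h1 : g₀ < Real.log (4 / 3)) :
    ∃ c : ℝ, 0 < c ∧ ∀ k : ℕ, ∀ x : ℤ, ¬ (3 : ℤ) ∣ x → c * Real.exp (g₀ * k) ≤ (Npr k x : ℝ) := by
  classical
  obtain ⟨T, κ, hT, htr, hS1, hpos⟩ := exists_kernel h0 h1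
  obtain ⟨N, hN, hN2⟩ := Pool.Agent.H412R2.positive κ Nat.prime_three (by norm_num) hT
    (fun x => Real.log ((κ.K x).card) - g₀ * (κ.S x : ℝ))
    (by
      intro x y hx
      rw [card_shift κ hx y, κ.hS x y hx])
    hpos
  have hrec : ∀ (x : ℤ) (k : ℕ), ¬ (3 : ℤ) ∣ x → κ.S x ≤ k →
      ∑ b ∈ κ.K x, (Npr (k - κ.S x) b : ℝ) ≤ (Npr k x : ℝ) := by
    intro x k hx hk
    have hx' : ¬ ((3 : ℕ) : ℤ) ∣ x := by exact_mod_cast hx
    have h2 := Npr_ge_tr (E := 6 * T) (n := T) hx hk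
    have h3 : ∑ b ∈ κ.K x, Npr (k - κ.S x) b ≤
        ∑ z ∈ (Pool.Agent.H412R2.tr 3 (6 * T) T (κ.S x) x).filter (fun z => ¬ (3 : ℤ) ∣ z),
          Npr (k - κ.S x) z := by
      apply Finset.sum_le_sum_of_subset
      intro b hb
      rw [Finset.mem_filter]
      refine ⟨htr x b hx hb, ?_⟩
      have := κ.hlive x b hx' hb
      exact_mod_cast this
    have h4 := h3.trans h2
    exact_mod_cast h4
  set c : ℝ := Real.exp (-(g₀ * (N * κ.Smax : ℕ))) with hc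
  have hc0 : 0 < c := Real.exp_pos _
  refine ⟨c, hc0, ?_⟩
  intro k
  induction k using Nat.strong_induction_on with
  | _ k ih =>
    intro x hx
    by_cases hk : N * κ.Smax ≤ k
    · have hS := hS1 x hx
      have hSm := κ.hSmax x
      have hk1 : 1 ≤ k := by
        have : 1 ≤ N * κ.Smax := Nat.mul_pos hN (by omega)
        omega
      have h2 := iter_lower κ g₀ c hrec hS1 N x hx k hk (by
        intro k' hk' y hy
        exact ih k' (by omega) y hy)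
      refine le_trans ?_ h2
      have hx' : ¬ ((3 : ℕ) : ℤ) ∣ x := by exact_mod_cast hx
      obtain ⟨hW0, hW⟩ := log_WW κ g₀ N x hx
      have hp := hN2 x hx'
      have h3 : 0 < Real.log (WW κ g₀ N x) := lt_of_lt_of_le hp hW
      have h4 : 1 ≤ WW κ g₀ N x := by
        by_contra hlt
        have := Real.log_nonpos hW0.le (not_le.1 hlt).le
        linarith
      have h5 : 0 ≤ c * Real.exp (g₀ * k) := by positivity
      nlinarith
    · have h2 : 1 ≤ Npr k x := Npr_pos k hx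
      have h3 : (1 : ℝ) ≤ (Npr k x : ℝ) := by exact_mod_cast h2
      refine le_trans ?_ h3
      rw [hc, ← Real.exp_add]
      apply Real.exp_le_one_iff.2
      have h4 : (k : ℝ) ≤ ((N * κ.Smax : ℕ) : ℝ) := by exact_mod_cast (not_le.1 hk).le
      have h5 : g₀ * k ≤ g₀ * ((N * κ.Smax : ℕ) : ℝ) := mul_le_mul_of_nonneg_left h4 h0
      linarith

theorem lower {ε : ℝ} (hε : 0 < ε) : ∃ K : ℕ, ∀ k : ℕ, K ≤ k → ∀ x : ℤ, ¬ (3 : ℤ) ∣ x →
    (4 / 3 : ℝ) ^ ((1 - ε) * (k : ℝ)) ≤ (Npr k x : ℝ) := by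
  have hl : 0 < Real.log (4 / 3) := Real.log_pos (by norm_num)
  set ε' : ℝ := min ε 1 / 2 with hε'
  have h1 : 0 < ε' := by
    have : 0 < min ε 1 := lt_min hε one_pos
    positivity
  have h2 : ε' < ε := by
    have h3 : min ε 1 ≤ ε := min_le_left _ _
    linarith
  have h3 : ε' ≤ 1 / 2 := by
    have h4 : min ε 1 ≤ 1 := min_le_right _ _
    linarith
  obtain ⟨c, hc, hlow⟩ := lower_exp (g₀ := (1 - ε') * Real.log (4 / 3))
    (mul_nonneg (by linarith) hl.le) (by nlinarith)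
  obtain ⟨K, hK⟩ := exists_nat_ge (-Real.log c / ((ε - ε') * Real.log (4 / 3)))
  refine ⟨K, fun k hk x hx => le_trans ?_ (hlow k x hx)⟩
  have hd : 0 < (ε - ε') * Real.log (4 / 3) := mul_pos (by linarith) hl
  have hk' : (K : ℝ) ≤ k := by exact_mod_cast hk
  have h5 : -Real.log c ≤ k * ((ε - ε') * Real.log (4 / 3)) := by
    rw [div_le_iff₀ hd] at hK
    exact hK.trans (mul_le_mul_of_nonneg_right hk' hd.le)
  rw [Real.rpow_def_of_pos (by norm_num)]
  have h6 : c = Real.exp (Real.log c) := (Real.exp_log hc).symm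
  rw [h6, ← Real.exp_add]
  apply Real.exp_le_exp.2
  nlinarith

end Pool.Agent.H377R2.NK
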