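import Pool.Agent.H377R2.NK.GzRec
import Pool.Agent.H377R2.NK.GzAvg
import Pool.Agent.H377R2.NK.Avg

/-!
Task L4a (SPREAD1): `ffz = DD 3` and the summability of the annealed nonuniformity (helper363).
-/

set_option autoImplicit false
set_option linter.unusedVariables false

namespace Pool.Agent.H377R2.NK

open Finset Real Pool.Agent.H320R2.PD


lemma three_ndvd_two_pow (t : ℕ) : ¬ (3 : ℤ) ∣ 2 ^ t := by
  intro h
  have h2 := Int.prime_three.dvd_of_dvd_pow h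
  omega

lemma isCoprime_three_two_pow (n t : ℕ) : IsCoprime ((3 : ℤ) ^ n) ((2 : ℤ) ^ t) := by
  apply IsCoprime.pow
  exact ⟨1, -1, by norm_num⟩

lemma valid_cons_iff (n e : ℕ) (v : List ℕ) (x : ℤ) :
    ((3 : ℤ) ^ (n + 1) ∣ 2 ^ (e :: v).sum * x - (Wp 3 (e :: v) : ℤ)) ↔
      (3 : ℤ) ∣ 2 ^ e * x - 1 ∧
        (3 : ℤ) ^ n ∣ 2 ^ v.sum * ((2 ^ e * x - 1) / 3) - (Wp 3 v : ℤ) := by
  have e1 : (2 : ℤ) ^ (e :: v).sum * x - (Wp 3 (e :: v) : ℤ)
      = 2 ^ v.sum * (2 ^ e * x - 1) - 3 * (Wp 3 v : ℤ) := by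
    simp only [Wp, List.sum_cons]
    push_cast
    rw [pow_add]
    ring
  rw [e1]
  constructor
  · intro h
    have h3 : (3 : ℤ) ∣ 2 ^ v.sum * (2 ^ e * x - 1) := by
      have h4 : (3 : ℤ) ∣ 2 ^ v.sum * (2 ^ e * x - 1) - 3 * (Wp 3 v : ℤ) :=
        (dvd_pow_self 3 (Nat.succ_ne_zero n)).trans h
      have h5 := dvd_add h4 (Dvd.intro (Wp 3 v : ℤ) rfl : (3 : ℤ) ∣ 3 * (Wp 3 v : ℤ))
      simpa using h5
    have h6 : (3 : ℤ) ∣ 2 ^ e * x - 1 := by
      rcases Int.prime_three.dvd_or_dvd h3 with h7 | h7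
      · exact absurd h7 (three_ndvd_two_pow _)
      · exact h7
    refine ⟨h6, ?_⟩
    obtain ⟨y, hy⟩ := h6
    rw [hy, Int.mul_ediv_cancel_left _ (by norm_num : (3 : ℤ) ≠ 0)]
    rw [hy] at h
    have h8 : (2 : ℤ) ^ v.sum * (3 * y) - 3 * (Wp 3 v : ℤ)
        = 3 * (2 ^ v.sum * y - (Wp 3 v : ℤ)) := by ring
    rw [h8, pow_succ'] at h
    exact (mul_dvd_mul_iff_left (by norm_num : (3 : ℤ) ≠ 0)).mp h
  · rintro ⟨⟨y, hy⟩, h⟩
    rw [hy, Int.mul_ediv_cancel_left _ (by norm_num : (3 : ℤ) ≠ 0)] at h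
    rw [hy]
    have h8 : (2 : ℤ) ^ v.sum * (3 * y) - 3 * (Wp 3 v : ℤ)
        = 3 * (2 ^ v.sum * y - (Wp 3 v : ℤ)) := by ring
    rw [h8, pow_succ']
    exact mul_dvd_mul_left _ h

lemma zz_three : zz 3 = 3 / 4 := by
  unfold zz
  norm_num

lemma DD3_succ (A n : ℕ) (x : ℤ) : DD 3 A (n + 1) x =
    ∑ e ∈ Icc 1 A, if (3 : ℤ) ∣ 2 ^ e * x - 1 then
      (3 / 4 : ℝ) ^ e * DD 3 A n ((2 ^ e * x - 1) / 3) else 0 := by
  classical
  unfold DD VW
  rw [sum_filter, sum_FW_succ]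
  refine sum_congr rfl fun e _ => ?_
  by_cases h : (3 : ℤ) ∣ 2 ^ e * x - 1
  · rw [if_pos h, sum_filter, mul_sum]
    refine sum_congr rfl fun v _ => ?_
    have hv := valid_cons_iff n e v x
    simp only [h, true_and] at hv
    by_cases h2 : (3 : ℤ) ^ n ∣ 2 ^ v.sum * ((2 ^ e * x - 1) / 3) - (Wp 3 v : ℤ)
    · rw [if_pos (by exact_mod_cast hv.mpr h2), if_pos (by exact_mod_cast h2), zz_three,
        List.sum_cons, pow_add]
    · rw [if_neg (fun h3 => h2 (hv.mp (by exact_mod_cast h3))),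
        if_neg (fun h3 => h2 (by exact_mod_cast h3)), mul_zero]
  · rw [if_neg h]
    refine sum_eq_zero fun v _ => ?_
    rw [if_neg]
    intro h3
    exact h ((valid_cons_iff n e v x).mp (by exact_mod_cast h3)).1

theorem ffz_eq (A n : ℕ) (x : ℤ) : ffz A n x = DD 3 A n x := by
  induction n generalizing x with
  | zero =>
    classical
    have h1 : ffz A 0 x = 1 := rfl
    rw [h1]
    unfold DD VW
    rw [sum_filter, sum_FW_zero]
    simp
  | succ n ih =>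
    rw [DD3_succ]
    have h1 : ffz A (n + 1) x
        = Pool.Agent.H412R2.Lw A (fun e => (1 / 3 : ℝ) * (3 / 4) ^ e) (ffz A n) x := by
      unfold ffz
      rw [Function.iterate_succ_apply']
    rw [h1]
    unfold Pool.Agent.H412R2.Lw
    refine sum_congr rfl fun e _ => ?_
    by_cases h : (3 : ℤ) ∣ 2 ^ e * x - 1
    · rw [if_pos h, if_pos h, ih]
      ring
    · rw [if_neg h, if_neg h]

theorem gz_anti (A : ℕ) {m m' : ℕ} (h : m ≤ m') : gz A m' m' ≤ gz A m m := by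
  obtain ⟨d, rfl⟩ := Nat.exists_eq_add_of_le' h
  refine (gz_rec A d m m).trans ?_
  have h1 := gz_le_one A d (d + m)
  have h2 := gz_nonneg A m m
  nlinarith

theorem gz_sum : ∃ C : ℝ, 0 < C ∧ ∀ N A : ℕ, 3 * N ≤ A →
    ∑ m ∈ range (N + 1), gz A m m ≤ C := by
  obtain ⟨k₀, hk₀, hav⟩ := gz_avg
  obtain ⟨C, hC, hdec⟩ := avg_decay k₀
  refine ⟨C + 1, by linarith, fun N A hNA => ?_⟩
  rcases Nat.eq_zero_or_pos N with hN | hN
  · subst hN
    have h1 := gz_le_one A 0 0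
    simp only [zero_add, range_one, sum_singleton]
    linarith
  have hA : 1 ≤ A := by omega
  refine (hdec N (fun m => gz A m m) (fun m _ => gz_pos hA m m) (fun m _ => gz_le_one A m m)
    (fun m m' h _ => gz_anti A h) ?_).trans (by linarith)
  intro k hk hkN
  refine le_trans (Finset.sum_le_sum fun i _ => ?_) (hav k hk A (by omega))
  have hi := gz_pos hA i i
  rw [div_le_iff₀ hi]
  exact gz_rec A k i i

end Pool.Agent.H377R2.NK
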