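import Mathlib
import Pool.Agent.H320R2.PDF3
import Pool.Agent.H320R2.PDWords
import Pool.Agent.H377R2.NK.GzRec
import Pool.Agent.H377R2.NK.SpreadA
import Pool.Agent.H377R2.NK.Basic
import Pool.Agent.H377R2.NK.Basic2

/-! L4b (SPREAD2): bounded entropy of the critical martingale and spread. -/

set_option autoImplicit false
set_option linter.unusedVariables false

namespace Pool.Agent.H377R2.NK

open Finset Pool.Agent.H320R2.PD

theorem qw_nonneg (w : List ℕ) : 0 ≤ qw w := by unfold qw; positivity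

/-- the critical martingale in terms of the counting functions of the offsets -/
theorem DD_eq_cnt (A n : ℕ) (x : ℤ) :
    DD 3 A n x = 3 ^ n * ∑ T ∈ range (n * A + 1),
      cnt (FWT A n T) qw (fun w => (Wo w : ℤ)) n (2 ^ T * x) := by
  classical
  unfold DD VW
  rw [sum_filter]
  have hmaps : ∀ w ∈ FW A n, w.sum ∈ range (n * A + 1) := fun w hw => by
    have := (sum_le_of_mem hw).2
    rw [mem_range]; omega
  rw [← sum_fiberwise_of_maps_to hmaps, mul_sum]
  refine sum_congr rfl fun T _ => ?_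
  unfold cnt
  rw [mul_sum]
  change ∑ w ∈ FWT A n T, _ = _
  refine sum_congr rfl fun w hw => ?_
  obtain ⟨hw1, hw2⟩ := mem_filter.1 hw
  have hlen : w.length = n := (mem_FW.1 hw1).1
  have hiff : (((3 : ℕ) : ℤ) ^ n ∣ 2 ^ w.sum * x - (Wp 3 w : ℤ)) ↔
      ((3 : ℤ) ^ n ∣ (Wo w : ℤ) - 2 ^ T * x) := by
    rw [Wp_three, hw2, ← dvd_neg]
    have e : -(2 ^ T * x - (Wo w : ℤ)) = (Wo w : ℤ) - 2 ^ T * x := by ring
    rw [e]
    norm_num
  by_cases h : (3 : ℤ) ^ n ∣ (Wo w : ℤ) - 2 ^ T * x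
  · rw [if_pos (hiff.2 h), if_pos h, zz_three]
    unfold qw
    rw [hlen, ← mul_assoc, ← mul_pow]
    norm_num
  · rw [if_neg (fun h' => h (hiff.1 h')), if_neg h, mul_zero]

/-- the three lifts, up to a permutation -/
theorem F3_lifts (s : Finset (List ℕ)) (wt : List ℕ → ℝ) (v : List ℕ → ℤ) (n T : ℕ) (x : ℤ) :
    F3 (cnt s wt v (n + 1) (2 ^ T * x)) (cnt s wt v (n + 1) (2 ^ T * (x + 3 ^ n)))
      (cnt s wt v (n + 1) (2 ^ T * (x + 2 * 3 ^ n))) = Fib s wt v n (2 ^ T * x) := by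
  have h2 : ((2 : ℤ) ^ T) % 3 = 1 ∨ ((2 : ℤ) ^ T) % 3 = 2 := by
    induction T with
    | zero => left; norm_num
    | succ t ih => rw [pow_succ]; omega
  unfold Fib
  generalize hu : (2 : ℤ) ^ T = u at h2 ⊢
  rcases h2 with h2 | h2
  · have h3 : u = 3 * (u / 3) + 1 := by omega
    have e1 : cnt s wt v (n + 1) (u * (x + 3 ^ n)) = cnt s wt v (n + 1) (u * x + 3 ^ n) := by
      apply cnt_congr
      refine ⟨u / 3, ?_⟩
      rw [pow_succ]
      linear_combination (3 : ℤ) ^ n * h3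
    have e2 : cnt s wt v (n + 1) (u * (x + 2 * 3 ^ n)) =
        cnt s wt v (n + 1) (u * x + 2 * 3 ^ n) := by
      apply cnt_congr
      refine ⟨2 * (u / 3), ?_⟩
      rw [pow_succ]
      linear_combination 2 * (3 : ℤ) ^ n * h3
    rw [e1, e2]
  · have h3 : u = 3 * (u / 3) + 2 := by omega
    have e1 : cnt s wt v (n + 1) (u * (x + 3 ^ n)) = cnt s wt v (n + 1) (u * x + 2 * 3 ^ n) := by
      apply cnt_congr
      refine ⟨u / 3, ?_⟩
      rw [pow_succ]
      linear_combination (3 : ℤ) ^ n * h3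
    have e2 : cnt s wt v (n + 1) (u * (x + 2 * 3 ^ n)) =
        cnt s wt v (n + 1) (u * x + 3 ^ n) := by
      apply cnt_congr
      refine ⟨2 * (u / 3) + 1, ?_⟩
      rw [pow_succ]
      linear_combination 2 * (3 : ℤ) ^ n * h3
    rw [e1, e2, F3_swap]

theorem F3_DD_le (A n : ℕ) (x : ℤ) :
    F3 (DD 3 A (n + 1) x) (DD 3 A (n + 1) (x + 3 ^ n)) (DD 3 A (n + 1) (x + 2 * 3 ^ n)) ≤
      3 ^ (n + 1) * ∑ T ∈ range ((n + 1) * A + 1),
        Fib (FWT A (n + 1) T) qw (fun w => (Wo w : ℤ)) n (2 ^ T * x) := by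
  rw [DD_eq_cnt, DD_eq_cnt, DD_eq_cnt, F3_smul]
  refine mul_le_mul_of_nonneg_left ?_ (by positivity)
  refine (F3_sum _ _ _ _ (fun T _ => cnt_nonneg (fun w _ => qw_nonneg w) _ _)
    (fun T _ => cnt_nonneg (fun w _ => qw_nonneg w) _ _)
    (fun T _ => cnt_nonneg (fun w _ => qw_nonneg w) _ _)).trans (le_of_eq ?_)
  exact sum_congr rfl fun T _ => F3_lifts _ _ _ _ _ _

theorem sum_F3_DD_le (A n : ℕ) :
    ∑ x ∈ range (3 ^ n), F3 (DD 3 A (n + 1) (x : ℤ)) (DD 3 A (n + 1) ((x : ℤ) + 3 ^ n))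
      (DD 3 A (n + 1) ((x : ℤ) + 2 * 3 ^ n)) ≤ 3 ^ (n + 1) * gz A (n + 1) n := by
  calc _ ≤ ∑ x ∈ range (3 ^ n), 3 ^ (n + 1) * ∑ T ∈ range ((n + 1) * A + 1),
        Fib (FWT A (n + 1) T) qw (fun w => (Wo w : ℤ)) n (2 ^ T * (x : ℤ)) :=
        sum_le_sum fun x _ => F3_DD_le A n x
    _ = 3 ^ (n + 1) * ∑ T ∈ range ((n + 1) * A + 1), ∑ x ∈ range (3 ^ n),
        Fib (FWT A (n + 1) T) qw (fun w => (Wo w : ℤ)) n (2 ^ T * (x : ℤ)) := by
        rw [← mul_sum, sum_comm]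
    _ ≤ _ := by
        refine mul_le_mul_of_nonneg_left ?_ (by positivity)
        unfold gz
        refine sum_le_sum fun T _ => ?_
        refine sum_Fib_le _ _ (fun w _ => qw_nonneg w) (range (3 ^ n))
          (fun x : ℕ => (2 : ℤ) ^ T * (x : ℤ)) ?_
        intro x hx y hy hxy
        have h1 : (3 : ℤ) ^ n ∣ (x : ℤ) - y := by
          have h2 : (2 : ℤ) ^ T * (x : ℤ) - 2 ^ T * y = 2 ^ T * ((x : ℤ) - y) := by ring
          rw [h2] at hxy
          exact (two_pow_isCoprime T n).dvd_of_dvd_mul_left hxy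
        have hx' : (x : ℤ) < 3 ^ n := by exact_mod_cast mem_range.1 hx
        have hy' : (y : ℤ) < 3 ^ n := by exact_mod_cast mem_range.1 hy
        obtain ⟨c, hc⟩ := h1
        have h3p : (0 : ℤ) < 3 ^ n := by positivity
        have hc0 : c = 0 := by
          by_contra hne
          rcases lt_or_gt_of_ne hne with h | h
          · have : (3 : ℤ) ^ n * c ≤ 3 ^ n * (-1) :=
              mul_le_mul_of_nonneg_left (by omega) h3p.le
            omega
          · have : (3 : ℤ) ^ n * 1 ≤ 3 ^ n * c :=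
              mul_le_mul_of_nonneg_left (by omega) h3p.le
            omega
        rw [hc0, mul_zero] at hc
        omega

/-- exact lifting identity -/
theorem DD_lift_eq (A n : ℕ) (x : ℤ) :
    DD 3 A (n + 1) x + DD 3 A (n + 1) (x + 3 ^ n) + DD 3 A (n + 1) (x + 2 * 3 ^ n) =
      3 * (1 - (3 / 4 : ℝ) ^ A) * DD 3 A n x := by
  have hodd : Odd 3 := by decide
  have hmain : ∑ v ∈ range 3, DD 3 A (n + 1) (x + 3 ^ n * (v : ℤ)) =
      3 * (1 - (3 / 4 : ℝ) ^ A) * DD 3 A n x := by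
    have h1 : ∀ v : ℕ, DD 3 A (n + 1) (x + 3 ^ n * (v : ℤ)) =
        ∑ w ∈ VW 3 A n x, zz 3 ^ w.sum * DD 3 A 1 (en 3 w x + 2 ^ w.sum * (v : ℤ)) := by
      intro v
      rw [DD_add hodd]
      have hV : VW 3 A n (x + 3 ^ n * (v : ℤ)) = VW 3 A n x := by
        exact_mod_cast VW_shift (p := 3) A n x v
      rw [hV]
      refine sum_congr rfl fun w hw => ?_
      have hlen : w.length = n := (mem_VW.1 hw).1
      have he : en 3 w (x + 3 ^ n * (v : ℤ)) = en 3 w x + 2 ^ w.sum * (v : ℤ) := by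
        have := en_shift (p := 3) (by norm_num) (w := w) x (v : ℤ)
        rw [hlen] at this
        exact_mod_cast this
      rw [he]
    rw [sum_congr rfl fun v _ => h1 v, sum_comm]
    have h2 : ∀ w ∈ VW 3 A n x, ∑ v ∈ range 3,
        zz 3 ^ w.sum * DD 3 A 1 (en 3 w x + 2 ^ w.sum * (v : ℤ)) =
        3 * (1 - (3 / 4 : ℝ) ^ A) * zz 3 ^ w.sum := by
      intro w _
      rw [← mul_sum]
      have h3 := sum_affine (p := 3) (by norm_num) 1 ((2 : ℤ) ^ w.sum) (en 3 w x)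
        (by
          have := (two_pow_isCoprime w.sum 1).symm
          simpa using this)
        (h := DD 3 A 1) (fun a b => DD_shift A 1 a b)
      have h4 := DD_total (p := 3) hodd A 1
      rw [zz_three] at h4
      rw [pow_one] at h3 h4
      rw [h3, h4]
      push_cast
      ring
    rw [sum_congr rfl h2, ← mul_sum]
    rfl
  rw [← hmain]
  simp only [sum_range_succ, sum_range_zero]
  push_cast
  rw [show (x + 3 ^ n * 0 : ℤ) = x by ring, show (x + 3 ^ n * 1 : ℤ) = x + 3 ^ n by ring,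
    show (x + 3 ^ n * 2 : ℤ) = x + 2 * 3 ^ n by ring]
  ring

theorem mul_log_le {t u : ℝ} (ht : 0 ≤ t) (hu : 0 < u) :
    t * Real.log t - t * Real.log u ≤ t * (t / u - 1) := by
  rcases ht.eq_or_lt with h | h
  · rw [← h]; simp
  · rw [← mul_sub, ← Real.log_div h.ne' hu.ne']
    exact mul_le_mul_of_nonneg_left (Real.log_le_sub_one_of_pos (div_pos h hu)) ht

/-- relative entropy is at most the `χ²` distance -/
theorem ent3_le {a b c : ℝ} (ha : 0 ≤ a) (hb : 0 ≤ b) (hc : 0 ≤ c) :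
    a * Real.log a + b * Real.log b + c * Real.log c ≤
      (a + b + c) * Real.log ((a + b + c) / 3) + 2 * F3 a b c := by
  rcases eq_or_lt_of_le (show 0 ≤ a + b + c by linarith) with h0 | h0
  · have h1 : a = 0 := by linarith
    have h2 : b = 0 := by linarith
    have h3 : c = 0 := by linarith
    rw [h1, h2, h3, F3_zero]
    simp
  · have hS : 0 < (a + b + c) / 3 := by positivity
    have h1 := mul_log_le ha hS
    have h2 := mul_log_le hb hS
    have h3 := mul_log_le hc hS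
    have h4 : a * (a / ((a + b + c) / 3) - 1) + b * (b / ((a + b + c) / 3) - 1) +
        c * (c / ((a + b + c) / 3) - 1) = 2 * F3 a b c := by
      unfold F3
      field_simp
      ring
    nlinarith

theorem sum_range_three (n : ℕ) (g : ℤ → ℝ) :
    ∑ x ∈ range (3 ^ (n + 1)), g (x : ℤ) =
      ∑ x ∈ range (3 ^ n), (g (x : ℤ) + g ((x : ℤ) + 3 ^ n) + g ((x : ℤ) + 2 * 3 ^ n)) := by
  have h : 3 ^ (n + 1) = 3 ^ n + 3 ^ n + 3 ^ n := by ring
  rw [h, sum_range_add, sum_range_add, sum_add_distrib, sum_add_distrib]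
  congr 1
  · congr 1
    refine sum_congr rfl fun x _ => ?_
    congr 1
    push_cast
    ring
  · refine sum_congr rfl fun x _ => ?_
    congr 1
    push_cast
    ring

/-- the entropy -/
noncomputable def EntD (A n : ℕ) : ℝ :=
  ∑ x ∈ range (3 ^ n), DD 3 A n (x : ℤ) * Real.log (DD 3 A n (x : ℤ))

theorem EntD_succ (A n : ℕ) : EntD A (n + 1) ≤
    3 * (1 - (3 / 4 : ℝ) ^ A) * EntD A n + 2 * 3 ^ (n + 1) * gz A (n + 1) n := by
  have hr0 : 0 ≤ 1 - (3 / 4 : ℝ) ^ A := by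
    have : (3 / 4 : ℝ) ^ A ≤ 1 := pow_le_one₀ (by norm_num) (by norm_num)
    linarith
  have hr1 : 1 - (3 / 4 : ℝ) ^ A ≤ 1 := by
    have : (0 : ℝ) ≤ (3 / 4 : ℝ) ^ A := by positivity
    linarith
  set r := 1 - (3 / 4 : ℝ) ^ A with hr
  unfold EntD
  rw [sum_range_three n fun x => DD 3 A (n + 1) x * Real.log (DD 3 A (n + 1) x)]
  have h1 : ∀ x ∈ range (3 ^ n),
      DD 3 A (n + 1) (x : ℤ) * Real.log (DD 3 A (n + 1) (x : ℤ)) +
        DD 3 A (n + 1) ((x : ℤ) + 3 ^ n) * Real.log (DD 3 A (n + 1) ((x : ℤ) + 3 ^ n)) +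
        DD 3 A (n + 1) ((x : ℤ) + 2 * 3 ^ n) *
          Real.log (DD 3 A (n + 1) ((x : ℤ) + 2 * 3 ^ n)) ≤
      3 * r * (DD 3 A n (x : ℤ) * Real.log (DD 3 A n (x : ℤ))) +
        2 * F3 (DD 3 A (n + 1) (x : ℤ)) (DD 3 A (n + 1) ((x : ℤ) + 3 ^ n))
          (DD 3 A (n + 1) ((x : ℤ) + 2 * 3 ^ n)) := by
    intro x _
    refine (ent3_le (DD_nonneg _ _ _) (DD_nonneg _ _ _) (DD_nonneg _ _ _)).trans ?_
    rw [DD_lift_eq, ← hr]
    have hf := DD_nonneg (p := 3) A n (x : ℤ)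
    set f := DD 3 A n (x : ℤ) with hfdef
    have h2 : 3 * r * f * Real.log (3 * r * f / 3) ≤ 3 * r * (f * Real.log f) := by
      rcases hr0.eq_or_lt with h | h
      · rw [← h]; simp
      · rcases hf.eq_or_lt with h' | h'
        · rw [← h']; simp
        · have h3 : Real.log (3 * r * f / 3) ≤ Real.log f := by
            apply Real.log_le_log (by positivity)
            nlinarith
          calc 3 * r * f * Real.log (3 * r * f / 3) ≤ 3 * r * f * Real.log f :=
                mul_le_mul_of_nonneg_left h3 (by positivity)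
            _ = _ := by ring
    linarith
  refine (sum_le_sum h1).trans ?_
  rw [sum_add_distrib, ← mul_sum, ← mul_sum]
  have h2 := sum_F3_DD_le A n
  nlinarith

theorem EntD_le (A n : ℕ) (hA : 1 ≤ A) :
    EntD A n ≤ 3 ^ n * (2 * ∑ m ∈ range n, gz A m m) := by
  induction n with
  | zero =>
    unfold EntD
    simp [DD_zero]
  | succ n ih =>
    have h1 := EntD_succ A n
    have hr0 : 0 ≤ 1 - (3 / 4 : ℝ) ^ A := by
      have : (3 / 4 : ℝ) ^ A ≤ 1 := pow_le_one₀ (by norm_num) (by norm_num)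
      linarith
    have hr1 : 1 - (3 / 4 : ℝ) ^ A ≤ 1 := by
      have : (0 : ℝ) ≤ (3 / 4 : ℝ) ^ A := by positivity
      linarith
    have hnn : 0 ≤ 3 ^ n * (2 * ∑ m ∈ range n, gz A m m) := by
      have : 0 ≤ ∑ m ∈ range n, gz A m m := sum_nonneg fun m _ => (gz_pos hA m m).le
      positivity
    have h2 : (1 - (3 / 4 : ℝ) ^ A) * EntD A n ≤ 3 ^ n * (2 * ∑ m ∈ range n, gz A m m) := by
      calc (1 - (3 / 4 : ℝ) ^ A) * EntD A n
          ≤ (1 - (3 / 4 : ℝ) ^ A) * (3 ^ n * (2 * ∑ m ∈ range n, gz A m m)) :=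
            mul_le_mul_of_nonneg_left ih hr0
        _ ≤ 1 * (3 ^ n * (2 * ∑ m ∈ range n, gz A m m)) :=
            mul_le_mul_of_nonneg_right hr1 hnn
        _ = _ := one_mul _
    have h3 : gz A (n + 1) n ≤ gz A n n := by
      have := gz_rec A n 1 0
      rw [add_zero] at this
      refine this.trans ?_
      have h5 := gz_le_one A 1 0
      have h6 := (gz_pos hA n n).le
      nlinarith
    rw [sum_range_succ]
    have h7 : (0 : ℝ) < 3 ^ (n + 1) := by positivity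
    have h8 : 2 * (3 : ℝ) ^ (n + 1) * gz A (n + 1) n ≤ 2 * 3 ^ (n + 1) * gz A n n :=
      mul_le_mul_of_nonneg_left h3 (by positivity)
    calc EntD A (n + 1) ≤ 3 * (1 - (3 / 4 : ℝ) ^ A) * EntD A n +
          2 * 3 ^ (n + 1) * gz A (n + 1) n := h1
      _ ≤ 3 * (3 ^ n * (2 * ∑ m ∈ range n, gz A m m)) + 2 * 3 ^ (n + 1) * gz A n n := by
          nlinarith
      _ = _ := by ring

theorem mul_pow_le_tenth (n : ℕ) : (n : ℝ) * (27 / 64 : ℝ) ^ (n + 2) ≤ 1 / 10 := by
  rcases Nat.eq_zero_or_pos n with h | h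
  · rw [h]; norm_num
  · induction n, h using Nat.le_induction with
    | base => norm_num
    | succ n hn ih =>
      have h1 : (0 : ℝ) < (27 / 64 : ℝ) ^ (n + 2) := by positivity
      have h2 : (1 : ℝ) ≤ n := by exact_mod_cast hn
      have h3 : ((n + 1 : ℕ) : ℝ) * (27 / 64 : ℝ) ^ (n + 1 + 2) =
          (((n : ℝ) + 1) * (27 / 64)) * (27 / 64 : ℝ) ^ (n + 2) := by
        push_cast
        ring
      rw [h3]
      refine le_trans ?_ ih
      refine mul_le_mul_of_nonneg_right ?_ h1.le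
      nlinarith

theorem DD_sum_ge (A n : ℕ) (hA : 3 * (n + 2) ≤ A) :
    9 / 10 * (3 : ℝ) ^ n ≤ ∑ x ∈ range (3 ^ n), DD 3 A n (x : ℤ) := by
  have h := DD_total (p := 3) (by decide) A n
  rw [h, zz_three]
  push_cast
  rw [mul_pow]
  have h1 : (3 / 4 : ℝ) ^ A ≤ (27 / 64 : ℝ) ^ (n + 2) := by
    have : (27 / 64 : ℝ) ^ (n + 2) = (3 / 4 : ℝ) ^ (3 * (n + 2)) := by
      rw [pow_mul]; norm_num
    rw [this]
    exact pow_le_pow_of_le_one (by norm_num) (by norm_num) hA
  have h2 : (1 : ℝ) - n * (3 / 4 : ℝ) ^ A ≤ (1 - (3 / 4 : ℝ) ^ A) ^ n := by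
    have h3 : (3 / 4 : ℝ) ^ A ≤ 1 := pow_le_one₀ (by norm_num) (by norm_num)
    have := one_add_mul_le_pow (a := -((3 / 4 : ℝ) ^ A)) (by linarith) n
    calc (1 : ℝ) - n * (3 / 4 : ℝ) ^ A = 1 + n * -((3 / 4 : ℝ) ^ A) := by ring
      _ ≤ (1 + -((3 / 4 : ℝ) ^ A)) ^ n := this
      _ = _ := by ring
  have h4 : (n : ℝ) * (3 / 4 : ℝ) ^ A ≤ 1 / 10 :=
    (mul_le_mul_of_nonneg_left h1 (Nat.cast_nonneg n)).trans (mul_pow_le_tenth n)
  have h5 : (0 : ℝ) < 3 ^ n := by positivity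
  nlinarith

theorem exists_spread : ∃ H : ℝ, 1 ≤ H ∧ ∀ n A : ℕ, 3 * (n + 2) ≤ A →
    ∃ h : ℤ → ℝ, (∀ x y : ℤ, h (x + 3 ^ n * y) = h x) ∧ (∀ x, 0 ≤ h x) ∧
      (∀ x, h x ≤ ffz A n x) ∧ (∀ x, h x ≤ H) ∧
      (1 / 2 : ℝ) * 3 ^ n ≤ ∑ y ∈ range (3 ^ n), h (y : ℤ) := by
  classical
  obtain ⟨C, hC, hsum⟩ := gz_sum
  set M : ℝ := (2 * C + 1) / (4 / 10) with hM
  have hM1 : 1 ≤ M := by rw [hM, le_div_iff₀ (by norm_num)]; linarith
  refine ⟨Real.exp M, Real.one_le_exp (by linarith), ?_⟩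
  intro n A hA
  refine ⟨fun x => if DD 3 A n x ≤ Real.exp M then DD 3 A n x else 0, ?_, ?_, ?_, ?_, ?_⟩
  · intro x y
    have h := DD_shift (p := 3) A n x y
    have h' : DD 3 A n (x + 3 ^ n * y) = DD 3 A n x := by exact_mod_cast h
    simp only [h']
  · intro x
    dsimp only
    split_ifs
    · exact DD_nonneg _ _ _
    · exact le_rfl
  · intro x
    rw [ffz_eq]
    dsimp only
    split_ifs
    · exact le_rfl
    · exact DD_nonneg _ _ _
  · intro x
    dsimp only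
    split_ifs with h
    · exact h
    · positivity
  · have hpt : ∀ x ∈ range (3 ^ n), DD 3 A n (x : ℤ) ≤
        (if DD 3 A n (x : ℤ) ≤ Real.exp M then DD 3 A n (x : ℤ) else 0) +
          (DD 3 A n (x : ℤ) * Real.log (DD 3 A n (x : ℤ)) + 1) / M := by
      intro x _
      have hf := DD_nonneg (p := 3) A n (x : ℤ)
      set f := DD 3 A n (x : ℤ) with hfdef
      have hlow : 0 ≤ f * Real.log f + 1 := by
        rcases hf.eq_or_lt with h | h
        · rw [← h]; simp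
        · have h1 := Real.one_sub_inv_le_log_of_pos h
          have h2 : f * (1 - f⁻¹) ≤ f * Real.log f := mul_le_mul_of_nonneg_left h1 hf
          have h3 : f * (1 - f⁻¹) = f - 1 := by field_simp
          linarith
      have hMpos : 0 < M := by linarith
      split_ifs with h
      · have : 0 ≤ (f * Real.log f + 1) / M := div_nonneg hlow hMpos.le
        linarith
      · push Not at h
        have h1 : M ≤ Real.log f := by
          rw [Real.le_log_iff_exp_le (lt_trans (Real.exp_pos _) h)]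
          exact h.le
        rw [zero_add, le_div_iff₀ hMpos]
        nlinarith
    have h1 := sum_le_sum hpt
    rw [sum_add_distrib, ← sum_div, sum_add_distrib] at h1
    simp only [sum_const, card_range, nsmul_eq_mul, mul_one] at h1
    have h2 := EntD_le A n (by omega)
    unfold EntD at h2
    have h3 : ∑ m ∈ range n, gz A m m ≤ C := by
      refine le_trans ?_ (hsum n A (by omega))
      rw [sum_range_succ]
      have := (gz_pos (A := A) (by omega) n n).le
      linarith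
    have h4 := DD_sum_ge A n hA
    have h5 : (0 : ℝ) < 3 ^ n := by positivity
    have h6 : (∑ x ∈ range (3 ^ n), DD 3 A n (x : ℤ) * Real.log (DD 3 A n (x : ℤ)) +
        ((3 ^ n : ℕ) : ℝ)) / M ≤ 4 / 10 * 3 ^ n := by
      rw [div_le_iff₀ (by linarith)]
      have h7 : 4 / 10 * (3 : ℝ) ^ n * M = 3 ^ n * (2 * C + 1) := by
        rw [hM]; field_simp
      rw [h7]
      push_cast
      nlinarith
    linarith

end Pool.Agent.H377R2.NK
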