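import Pool.Agent.H377R2.NK.Defs

/-! Blueprint of the project (all statements, with `sorry`). NEVER import this file in a hand-in. -/

set_option autoImplicit false
set_option linter.unusedVariables false

namespace Pool.Agent.H377R2.NK.Stubs

open Finset Pool.Agent.H320R2.PD Pool.Agent.H377R2.NK

/-! ### U1 (ENT) : file Ent.lean -/

section Ent

variable {Ω α β γ α' β' : Type*} {s : Finset Ω} {w : Ω → ℝ}

theorem mm_nonneg (hw : ∀ ω ∈ s, 0 ≤ w ω) (f : Ω → α) (ω : Ω) : 0 ≤ mm s w f ω := by sorry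

theorem le_mm (hw : ∀ ω ∈ s, 0 ≤ w ω) (f : Ω → α) {ω : Ω} (h : ω ∈ s) : w ω ≤ mm s w f ω := by sorry

theorem mm_congr {f : Ω → α} {f' : Ω → α'} (h : ∀ ω ∈ s, ∀ ω' ∈ s, f ω = f ω' ↔ f' ω = f' ω') :
    ∀ ω ∈ s, mm s w f ω = mm s w f' ω := by sorry

theorem CE_congr {f : Ω → α} {g : Ω → β} {f' : Ω → α'} {g' : Ω → β'}
    (hg : ∀ ω ∈ s, ∀ ω' ∈ s, g ω = g ω' ↔ g' ω = g' ω')
    (hf : ∀ ω ∈ s, ∀ ω' ∈ s, g ω = g ω' → (f ω = f ω' ↔ f' ω = f' ω')) :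
    CE s w f g = CE s w f' g' := by sorry

/-- chain rule -/
theorem CE_chain (f : Ω → α) (g : Ω → β) (h : Ω → γ) :
    CE s w (fun ω => (f ω, g ω)) h = CE s w g h + CE s w f (fun ω => (g ω, h ω)) := by sorry

theorem CE_nonneg (hw : ∀ ω ∈ s, 0 ≤ w ω) (f : Ω → α) (g : Ω → β) : 0 ≤ CE s w f g := by sorry

/-- the fundamental inequality (Gibbs) : `H(f|g) + E log F ≤ E log B` when `∑_a F a b ≤ B b` -/
theorem CE_gibbs (hw : ∀ ω ∈ s, 0 ≤ w ω) (f : Ω → α) (g : Ω → β) (S : β → Finset α)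
    (F : α → β → ℝ) (B : β → ℝ) (hS : ∀ ω ∈ s, 0 < w ω → f ω ∈ S (g ω))
    (hF0 : ∀ ω ∈ s, 0 < w ω → ∀ a ∈ S (g ω), 0 ≤ F a (g ω))
    (hF : ∀ ω ∈ s, 0 < w ω → 0 < F (f ω) (g ω))
    (hB : ∀ ω ∈ s, 0 < w ω → ∑ a ∈ S (g ω), F a (g ω) ≤ B (g ω)) :
    CE s w f g + ∑ ω ∈ s, w ω * Real.log (F (f ω) (g ω)) ≤ ∑ ω ∈ s, w ω * Real.log (B (g ω)) := by
  sorry

theorem CE_le_log (hw : ∀ ω ∈ s, 0 ≤ w ω) (f : Ω → α) (g : Ω → β) (S : β → Finset α) {N : ℕ}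
    (hN : 1 ≤ N) (hS : ∀ ω ∈ s, f ω ∈ S (g ω)) (hc : ∀ ω ∈ s, (S (g ω)).card ≤ N) :
    CE s w f g ≤ (∑ ω ∈ s, w ω) * Real.log N := by sorry

/-- conditioning on more decreases entropy -/
theorem CE_mono_right (hw : ∀ ω ∈ s, 0 ≤ w ω) (f : Ω → α) {g : Ω → β} {g' : Ω → β'}
    (h : ∀ ω ∈ s, ∀ ω' ∈ s, g' ω = g' ω' → g ω = g ω') : CE s w f g' ≤ CE s w f g := by sorry

/-- a function of `f'` (given `g`) has smaller entropy -/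
theorem CE_mono_left (hw : ∀ ω ∈ s, 0 ≤ w ω) {f : Ω → α} {f' : Ω → α'} (g : Ω → β)
    (h : ∀ ω ∈ s, ∀ ω' ∈ s, g ω = g ω' → f' ω = f' ω' → f ω = f ω') :
    CE s w f g ≤ CE s w f' g := by sorry

open scoped Classical in
/-- conditional entropy as a sum over the fibres of the conditioning variable -/
theorem CE_fiber (f : Ω → α) (h : Ω → γ) :
    CE s w f h = ∑ c ∈ s.image h, CE (s.filter fun ω => h ω = c) w f (fun _ => ()) := by sorry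

theorem CE_smul {c : ℝ} (hc : 0 < c) (f : Ω → α) (g : Ω → β) (hw : ∀ ω ∈ s, 0 ≤ w ω) :
    CE s (fun ω => c * w ω) f g = c * CE s w f g := by sorry

/-- if the mass of the atoms of `g` is `a` and of `(f,g)` is `b` then `H(f|g) = E log (a/b)` -/
theorem CE_eval {f : Ω → α} {g : Ω → β} {a b : Ω → ℝ}
    (ha : ∀ ω ∈ s, w ω ≠ 0 → mm s w g ω = a ω)
    (hb : ∀ ω ∈ s, w ω ≠ 0 → mm s w (fun ω => (f ω, g ω)) ω = b ω) :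
    CE s w f g = ∑ ω ∈ s, w ω * (Real.log (a ω) - Real.log (b ω)) := by sorry

end Ent

/-! ### U2 (WIN) : file Win.lean, a compactness lemma on `ℤ/p^l` -/

theorem win {p l : ℕ} (hp : p.Prime) (hl : 1 ≤ l) {η : ℝ} (hη : 0 < η) :
    ∃ θ : ℝ, 0 < θ ∧ ∀ {Ω : Type} (s : Finset Ω) (w : Ω → ℝ), (∀ ω ∈ s, 0 ≤ w ω) →
      ∀ U V : Ω → ℤ,
        η * ∑ ω ∈ s, w ω ≤ CE s w (fun ω => U ω % (p : ℤ)) (fun _ => ()) →
        CE s w (fun ω => V ω % (p : ℤ) ^ l) (fun _ => ())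
          ≤ (l * Real.log p - η) * ∑ ω ∈ s, w ω →
        θ * ∑ ω ∈ s, w ω ≤ CE s w (fun ω => (U ω + V ω) % (p : ℤ) ^ l) (fun _ => ())
          + 2 * CE s w (fun ω => U ω % (p : ℤ) ^ l) (fun _ => ())
          + CE s w (fun ω => V ω % (p : ℤ) ^ l) (fun _ => ())
          - 2 * CE s w (fun ω => (U ω % (p : ℤ) ^ l, V ω % (p : ℤ) ^ l)) (fun _ => ()) := by sorry

/-! ### U3 (CORE) : file Core.lean -/

theorem core {p : ℕ} (hp : p.Prime) {q : ℕ} (hq : 2 ≤ q) {c κ : ℝ} (hc : 0 < c) (hκ : 0 < κ) :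
    ∃ ε₀ : ℝ, 0 < ε₀ ∧ ∀ l : ℕ, 1 ≤ l → ∃ δ : ℝ, 0 < δ ∧ ∃ m₀ : ℕ, ∀ m : ℕ, m₀ ≤ m →
      ∀ ζ : ℝ, (l : ℝ) * (Real.log p + κ) ≤ ζ →
      ∀ {Ω Γ : Type} (s : Finset Ω) (w : Ω → ℝ) (γ : Ω → Γ) (X Y : Ω → ℤ) (R : ℕ → Γ → ℤ → ℝ),
        (∀ ω ∈ s, 0 ≤ w ω) → ∑ ω ∈ s, w ω = 1 →
        (∀ i g y, 0 ≤ R i g y) →
        (∀ i, i + l ≤ m → ∀ ω ∈ s, 0 < w ω → 0 < R i (γ ω) (Y ω % (p : ℤ) ^ (i + l))) →
        (∀ i, i + l ≤ m → ∀ ω ∈ s,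
          ∑ v ∈ range (p ^ l), R i (γ ω) (Y ω % (p : ℤ) ^ i + (p : ℤ) ^ i * v) ≤ (p : ℝ) ^ l) →
        (∀ i, i + l ≤ m → ∀ ω ∈ s,
          ∑ v ∈ range (p ^ l), R i (γ ω) (Y ω % (p : ℤ) ^ i + (p : ℤ) ^ i * v) ^ q ≤ Real.exp ζ) →
        c * m ≤ CE s w (fun ω => X ω % (p : ℤ) ^ m) (fun ω => (Y ω % (p : ℤ) ^ m, γ ω)) →
        CE s w (fun ω => (X ω + Y ω) % (p : ℤ) ^ m) γ + 2 * CE s w (fun ω => X ω % (p : ℤ) ^ m) γ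
          + CE s w (fun ω => Y ω % (p : ℤ) ^ m) γ
          - 2 * CE s w (fun ω => (X ω % (p : ℤ) ^ m, Y ω % (p : ℤ) ^ m)) γ ≤ δ * m →
        (∀ r < l, ζ / l * m - ε₀ * m ≤ CE s w (fun ω => Y ω % (p : ℤ) ^ m) γ
          + q * ∑ i ∈ (range m).filter (fun i => i % l = r ∧ i + l ≤ m),
              ∑ ω ∈ s, w ω * Real.log (R i (γ ω) (Y ω % (p : ℤ) ^ (i + l)))) →
        False := by sorry

/-! ### U4 (BASIC) : file Basic.lean -/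

section Basic

variable {p : ℕ}

theorem zz_pos (hp : 1 ≤ p) : 0 < zz p := by sorry
theorem zz_lt_one (p : ℕ) : zz p < 1 := by sorry

theorem Wp_append (p : ℕ) (u v : List ℕ) :
    Wp p (u ++ v) = 2 ^ v.sum * Wp p u + p ^ u.length * Wp p v := by sorry

theorem Wp_three (w : List ℕ) : Wp 3 w = Wo w := by sorry

/-- offsets are injective on words of the same length and size -/
theorem Wp_inj (hp : Odd p) {u v : List ℕ} (hu : ∀ e ∈ u, 1 ≤ e) (hv : ∀ e ∈ v, 1 ≤ e)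
    (hl : u.length = v.length) (hs : u.sum = v.sum) (hW : Wp p u = Wp p v) : u = v := by sorry

theorem Wp_lt (hp : 3 ≤ p) {w : List ℕ} (hw : ∀ e ∈ w, 1 ≤ e) :
    Wp p w < 2 ^ w.sum * p ^ w.length := by sorry

theorem mem_VW {A n : ℕ} {x : ℤ} {w : List ℕ} : w ∈ VW p A n x ↔
    w.length = n ∧ (∀ e ∈ w, 1 ≤ e ∧ e ≤ A) ∧ (p : ℤ) ^ n ∣ 2 ^ w.sum * x - Wp p w := by sorry

theorem VW_shift (A n : ℕ) (x y : ℤ) : VW p A n (x + (p : ℤ) ^ n * y) = VW p A n x := by sorry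

theorem VS_shift (A n : ℕ) (x y : ℤ) : VS p A n (x + (p : ℤ) ^ n * y) = VS p A n x := by sorry

theorem en_shift (hp : 1 ≤ p) {w : List ℕ} (x y : ℤ) :
    en p w (x + (p : ℤ) ^ w.length * y) = en p w x + 2 ^ w.sum * y := by sorry

theorem en_append (hp : Odd p) {u v : List ℕ} {x : ℤ}
    (hu : (p : ℤ) ^ u.length ∣ 2 ^ u.sum * x - Wp p u)
    (hv : (p : ℤ) ^ v.length ∣ 2 ^ v.sum * en p u x - Wp p v) :
    (p : ℤ) ^ (u ++ v).length ∣ 2 ^ (u ++ v).sum * x - Wp p (u ++ v) ∧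
      en p (u ++ v) x = en p v (en p u x) := by sorry

theorem DD_zero (A : ℕ) (x : ℤ) : DD p A 0 x = 1 := by sorry
theorem DD_nonneg (A n : ℕ) (x : ℤ) : 0 ≤ DD p A n x := by sorry
theorem DD_mono (n : ℕ) (x : ℤ) {A A' : ℕ} (h : A ≤ A') : DD p A n x ≤ DD p A' n x := by sorry
theorem DD_shift (A n : ℕ) (x y : ℤ) : DD p A n (x + (p : ℤ) ^ n * y) = DD p A n x := by sorry

/-- splitting after `k` letters -/
theorem DD_add (hp : Odd p) (A k m : ℕ) (x : ℤ) :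
    DD p A (k + m) x = ∑ w ∈ VW p A k x, zz p ^ w.sum * DD p A m (en p w x) := by sorry

theorem DD_one_le (hp : 1 ≤ p) (A : ℕ) (x : ℤ) : DD p A 1 x ≤ p := by sorry
theorem DD_succ_le (hp : Odd p) (A n : ℕ) (x : ℤ) : DD p A (n + 1) x ≤ p * DD p A n x := by sorry
theorem DD_le (hp : Odd p) (A n : ℕ) (x : ℤ) : DD p A n x ≤ (p : ℝ) ^ n := by sorry

/-- sums over the lifts of a periodic function -/
theorem sum_affine (hp : 1 ≤ p) (m : ℕ) (u c : ℤ) (hu : IsCoprime u (p : ℤ)) {h : ℤ → ℝ}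
    (hper : ∀ x y : ℤ, h (x + (p : ℤ) ^ m * y) = h x) :
    ∑ y ∈ range (p ^ m), h (c + u * (y : ℤ)) = ∑ y ∈ range (p ^ m), h (y : ℤ) := by sorry

/-- total mass -/
theorem DD_total (hp : Odd p) (A n : ℕ) :
    ∑ x ∈ range (p ^ n), DD p A n (x : ℤ) = ((p : ℝ) * (1 - zz p ^ A)) ^ n := by sorry

theorem DD_lift (hp : Odd p) (A i l : ℕ) (x : ℤ) :
    ∑ v ∈ range (p ^ l), DD p A (i + l) (x + (p : ℤ) ^ i * v) ≤ (p : ℝ) ^ l * DD p A i x := by sorry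

theorem DD_lift_pow (hp : Odd p) {q : ℕ} (hq : 1 ≤ q) (A i l : ℕ) (x : ℤ) :
    ∑ v ∈ range (p ^ l), DD p A (i + l) (x + (p : ℤ) ^ i * v) ^ q
      ≤ DD p A i x ^ q * Zq p A l q := by sorry

theorem Zq_sub (hp : Odd p) {q : ℕ} (hq : 1 ≤ q) (A k m : ℕ) :
    Zq p A (k + m) q ≤ Zq p A k q * Zq p A m q := by sorry

theorem GG_nonneg (A k i : ℕ) (x : ℤ) : 0 ≤ GG p A k i x := by sorry
theorem GG_le (hp : Odd p) (A k i : ℕ) (x : ℤ) : GG p A k i x ≤ DD p A (k + i) x := by sorry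
theorem GG_shift (hp : Odd p) (A k i : ℕ) (x y : ℤ) :
    GG p A k i (x + (p : ℤ) ^ (k + i) * y) = GG p A k i x := by sorry
theorem GG_succ_le (hp : Odd p) (A k i : ℕ) (x : ℤ) :
    GG p A k (i + 1) x ≤ p * GG p A k i x := by sorry

theorem GG_lift (hp : Odd p) (A k i l : ℕ) (x : ℤ) :
    ∑ v ∈ range (p ^ l), GG p A k (i + l) (x + (p : ℤ) ^ (k + i) * v)
      ≤ (p : ℝ) ^ l * GG p A k i x := by sorry

theorem GG_lift_pow (hp : Odd p) {q : ℕ} (hq : 1 ≤ q) (A k i l : ℕ) (x : ℤ) :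
    ∑ v ∈ range (p ^ l), GG p A k (i + l) (x + (p : ℤ) ^ (k + i) * v) ^ q
      ≤ GG p A k i x ^ q * Zq p A l q := by sorry

theorem Zq_pos (hp : Odd p) (A n q : ℕ) (hA : 1 ≤ A) : 0 < Zq p A n q := by sorry

end Basic

/-! ### U5 (ZSUB) : file Zsub.lean -/

section Zsub

variable {p : ℕ}

theorem Zq_le (hp : Odd p) (A n q : ℕ) : Zq p A n q ≤ (p : ℝ) ^ (n * (q + 1)) := by sorry

theorem Zq_le_sZ (hp : Odd p) (A n q : ℕ) : Zq p A n q ≤ sZ p q n := by sorry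

/-- power mean and `A → ∞` -/
theorem le_sZ (hp : Odd p) {q : ℕ} (hq : 1 ≤ q) (n : ℕ) : (p : ℝ) ^ n ≤ sZ p q n := by sorry

theorem sZ_sub (hp : Odd p) {q : ℕ} (hq : 1 ≤ q) (k m : ℕ) :
    sZ p q (k + m) ≤ sZ p q k * sZ p q m := by sorry

/-- for all large caps the moments are almost maximal and the mean is almost one -/
theorem exists_cap (hp : Odd p) {q : ℕ} (hq : 1 ≤ q) (k n : ℕ) :
    ∃ A₀ : ℕ, 1 ≤ A₀ ∧ ∀ A, A₀ ≤ A → (p : ℝ) ^ k ≤ 2 ^ q * Zq p A k q ∧ sZ p q n ≤ 2 * Zq p A n q := by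
  sorry

/-- the truncation at size `60 k` is harmless -/
theorem ZG_ge (hp : p = 3 ∨ p = 5) {q : ℕ} (hq : 2 ≤ q) (A k : ℕ)
    (h : 2 ^ q * Zq p A (60 * k) q ≤ 100 ^ k * Zq p A (k + 60 * k) q) :
    Zq p A (k + 60 * k) q ≤ 2 ^ q * ZG p A k (60 * k) q := by sorry

end Zsub

/-! ### U6 (LAW) : file Law.lean (with `m = 60 k`) -/

section Law

variable {p q A k l : ℕ}

theorem Gw_nonneg (hp : p = 3 ∨ p = 5) (hG : 0 < ZG p A k (60 * k) q) :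
    ∀ ω ∈ Gs p A k (60 * k), 0 ≤ Gw p A k (60 * k) q ω := by sorry

theorem Gw_total (hp : p = 3 ∨ p = 5) (hq : 2 ≤ q) (hG : 0 < ZG p A k (60 * k) q) :
    ∑ ω ∈ Gs p A k (60 * k), Gw p A k (60 * k) q ω = 1 := by sorry

theorem GR_nonneg (m i : ℕ) (g : ℕ × ℕ) (y : ℤ) : 0 ≤ GR p A k m l i g y := by sorry

theorem GR_pos (hp : p = 3 ∨ p = 5) (hq : 2 ≤ q) (hG : 0 < ZG p A k (60 * k) q) (i : ℕ)
    (hi : i + l ≤ 60 * k) : ∀ ω ∈ Gs p A k (60 * k), 0 < Gw p A k (60 * k) q ω →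
      0 < GR p A k (60 * k) l i (Gγ p k ω) (GY p k ω % (p : ℤ) ^ (i + l)) := by sorry

theorem GR_sum (hp : p = 3 ∨ p = 5) (m i : ℕ) (hi : i + l ≤ m) (g : ℕ × ℕ) (y : ℤ) :
    ∑ v ∈ range (p ^ l), GR p A k m l i g (y + (p : ℤ) ^ i * v) ≤ (p : ℝ) ^ l := by sorry

theorem GR_sum_pow (hp : p = 3 ∨ p = 5) (hq : 2 ≤ q) (m i : ℕ) (hi : i + l ≤ m) (g : ℕ × ℕ)
    (y : ℤ) (hA : 1 ≤ A) :
    ∑ v ∈ range (p ^ l), GR p A k m l i g (y + (p : ℤ) ^ i * v) ^ q ≤ Zq p A l q := by sorry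

/-- (a) -/
theorem law_X (hp : p = 3 ∨ p = 5) (hq : 2 ≤ q) (hk : 1 ≤ k) (hA : 1 ≤ A)
    (hG : 0 < ZG p A k (60 * k) q) (h1 : (p : ℝ) ^ k ≤ 2 ^ q * Zq p A k q) :
    k * Real.log (1 / zz p) - 3 * GE p A k (60 * k) q - Real.log 2 - Real.log (60 * k + 1)
      ≤ CE (Gs p A k (60 * k)) (Gw p A k (60 * k) q) (fun ω => GX p k ω % (p : ℤ) ^ (60 * k))
          (fun ω => (GY p k ω % (p : ℤ) ^ (60 * k), Gγ p k ω)) := by sorry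

/-- (b) -/
theorem law_sum (hp : p = 3 ∨ p = 5) (hq : 2 ≤ q) (hk : 1 ≤ k) (hA : 1 ≤ A)
    (hG : 0 < ZG p A k (60 * k) q) :
    CE (Gs p A k (60 * k)) (Gw p A k (60 * k) q)
        (fun ω => (GX p k ω + GY p k ω) % (p : ℤ) ^ (60 * k)) (Gγ p k)
      + 2 * CE (Gs p A k (60 * k)) (Gw p A k (60 * k) q)
        (fun ω => GX p k ω % (p : ℤ) ^ (60 * k)) (Gγ p k)
      + CE (Gs p A k (60 * k)) (Gw p A k (60 * k) q)
        (fun ω => GY p k ω % (p : ℤ) ^ (60 * k)) (Gγ p k)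
      - 2 * CE (Gs p A k (60 * k)) (Gw p A k (60 * k) q)
        (fun ω => (GX p k ω % (p : ℤ) ^ (60 * k), GY p k ω % (p : ℤ) ^ (60 * k))) (Gγ p k)
      ≤ 4 * GE p A k (60 * k) q := by sorry

/-- (e) -/
theorem law_R (hp : p = 3 ∨ p = 5) (hq : 2 ≤ q) (hk : 1 ≤ k) (hA : 1 ≤ A) (hl : 1 ≤ l)
    (hG : 0 < ZG p A k (60 * k) q) (r : ℕ) (hr : r < l) :
    Real.log (Zq p A (60 * k) q) - 2 * GE p A k (60 * k) q - 2 * q * l * Real.log p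
      ≤ CE (Gs p A k (60 * k)) (Gw p A k (60 * k) q)
          (fun ω => GY p k ω % (p : ℤ) ^ (60 * k)) (Gγ p k)
        + q * ∑ i ∈ (range (60 * k)).filter (fun i => i % l = r ∧ i + l ≤ 60 * k),
            ∑ ω ∈ Gs p A k (60 * k), Gw p A k (60 * k) q ω *
              Real.log (GR p A k (60 * k) l i (Gγ p k ω) (GY p k ω % (p : ℤ) ^ (i + l))) := by sorry

end Law

/-! ### U7 (UPPER) : file Upper.lean -/

theorem Zq_upper {p q : ℕ} (hp : p = 3 ∨ p = 5) (hq : 2 ≤ q) {ε : ℝ} (hε : 0 < ε) :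
    ∃ n₀ : ℕ, ∀ n, n₀ ≤ n → ∀ A, Zq p A n q ≤ (p : ℝ) ^ n * Real.exp (ε * n) := by sorry

/-- the upper half -/
theorem upper {p : ℕ} (hp : p = 3 ∨ p = 5) {ε : ℝ} (hε : 0 < ε) :
    ∃ C : ℝ, 0 < C ∧ ∀ (A n : ℕ) (x : ℤ), DD p A n x ≤ C * Real.exp (ε * n) := by sorry

/-! ### C1 (COUNT-UP) : file CountUp.lean -/

theorem Wk_le {p : ℕ} (hp : p = 3 ∨ p = 5) (k : ℕ) (a : ℤ) :
    zz p ^ k * (Wk p k a : ℝ) ≤ ∑ n ∈ range (k + 1), DD p k n a := by sorry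

theorem ncard_le_Wk {p : ℕ} (hp : p = 3 ∨ p = 5) (k : ℕ) (a : ℤ) :
    {n : ℤ | (fun m : ℤ => if m % 2 = 0 then m / 2 else ((p : ℤ) * m + 1) / 2)^[k] n = a}.Finite ∧
    {n : ℤ | (fun m : ℤ => if m % 2 = 0 then m / 2 else ((p : ℤ) * m + 1) / 2)^[k] n = a}.ncard
      ≤ Wk p k a := by sorry

/-! ### C2 (COUNT-LOW) : file CountLow.lean -/

theorem Npr_le_ncard (k a : ℕ) (ha : a % 3 ≠ 0) :
    Npr k (a : ℤ) ≤ Set.ncard {m : ℕ |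
      (fun n : ℕ => if n % 2 = 0 then n / 2 else (3 * n + 1) / 2)^[k] m = a ∧
        ∀ j : ℕ, j ≤ k →
          (fun n : ℕ => if n % 2 = 0 then n / 2 else (3 * n + 1) / 2)^[j] m % 3 ≠ 0} := by sorry

theorem Npr_pos (k : ℕ) {x : ℤ} (hx : ¬ (3 : ℤ) ∣ x) : 1 ≤ Npr k x := by sorry

open scoped Classical in
/-- lower recursion along the words of `n` letters and size `s` -/
theorem Npr_ge_tr {E n s k : ℕ} {x : ℤ} (hx : ¬ (3 : ℤ) ∣ x) (hs : s ≤ k) :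
    ∑ z ∈ (Pool.Agent.H412R2.tr 3 E n s x).filter (fun z => ¬ (3 : ℤ) ∣ z), Npr (k - s) z
      ≤ Npr k x := by sorry

/-! ### L0 (F3SHARP) : file F3sharp.lean -/

theorem F3_sharp {a b c : ℝ} (ha : 0 ≤ a) (hb : 0 ≤ b) (hc : 0 ≤ c) :
    F3 a b c ≤ 10 / 9 * ((a + b + c) * Real.log 3 - (Real.negMulLog a + Real.negMulLog b
      + Real.negMulLog c - Real.negMulLog (a + b + c))) := by sorry

/-! ### L1 (GZ-REC) : file GzRec.lean -/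

theorem gz_pos {A : ℕ} (hA : 1 ≤ A) (k j : ℕ) : 0 < gz A k j := by sorry
theorem gz_le_one (A k j : ℕ) : gz A k j ≤ 1 := by sorry
theorem gz_rec (A k₁ k₂ j : ℕ) :
    gz A (k₁ + k₂) (k₁ + j) ≤ gz A k₁ (k₁ + j) * gz A k₂ j := by sorry

/-! ### L2 (GZ-AVG) : file GzAvg.lean (uses F3_sharp) -/

theorem gz_avg : ∃ k₀ : ℕ, 1 ≤ k₀ ∧ ∀ k, k₀ ≤ k → ∀ A, 3 * k ≤ A →
    ∑ i ∈ range (152 * k / 100), gz A k (k + i) ≤ 59 / 100 * k := by sorry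

/-! ### L3 (ANALYSIS) : file Avg.lean -/

theorem avg_decay (k₀ : ℕ) : ∃ C : ℝ, 0 < C ∧ ∀ (N : ℕ) (b : ℕ → ℝ),
    (∀ m ≤ N, 0 < b m) → (∀ m ≤ N, b m ≤ 1) → (∀ m m', m ≤ m' → m' ≤ N → b m' ≤ b m) →
    (∀ k, k₀ ≤ k → k + 152 * k / 100 ≤ N →
      ∑ i ∈ range (152 * k / 100), b (k + i) / b i ≤ 59 / 100 * k) →
    ∑ m ∈ range (N + 1), b m ≤ C := by sorry

/-! ### L4 (SPREAD) : file Spread.lean (uses L1, L2, L3) -/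

theorem ffz_eq (A n : ℕ) (x : ℤ) : ffz A n x = DD 3 A n x := by sorry

theorem gz_sum : ∃ C : ℝ, 0 < C ∧ ∀ N A : ℕ, 3 * N ≤ A →
    ∑ m ∈ range (N + 1), gz A m m ≤ C := by sorry

theorem exists_spread : ∃ H : ℝ, 1 ≤ H ∧ ∀ n A : ℕ, 3 * (n + 2) ≤ A →
    ∃ h : ℤ → ℝ, (∀ x y : ℤ, h (x + 3 ^ n * y) = h x) ∧ (∀ x, 0 ≤ h x) ∧
      (∀ x, h x ≤ ffz A n x) ∧ (∀ x, h x ≤ H) ∧
      (1 / 2 : ℝ) * 3 ^ n ≤ ∑ y ∈ range (3 ^ n), h (y : ℤ) := by sorry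

/-! ### L5 (LOG) : file LogZ.lean (uses L4) -/

theorem ffz_pos {A t : ℕ} (hA : 6 ≤ A) {x : ℤ} (hx : ¬ (3 : ℤ) ∣ x) : 0 < ffz A t x := by sorry

theorem log_avg : ∃ C : ℝ, 0 < C ∧ ∀ T A : ℕ, 1 ≤ T → 3 * (T + 3) ≤ A → ∀ x : ℤ, ¬ (3 : ℤ) ∣ x →
    ∑ y ∈ range (3 ^ T), - Real.log (ffz A (T + 1) (x + 3 * (y : ℤ))) ≤ 3 ^ T * C := by sorry

/-! ### L6 (TYPICAL) : file TypZ.lean (uses L5) -/

open scoped Classical in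
theorem typical (η δ : ℝ) (hη : 0 < η) (hδ : 0 < δ) : ∃ T₀ : ℕ, ∀ T : ℕ, T₀ ≤ T →
    (((range (3 ^ (T + 1))).filter (fun x : ℕ => ¬ (3 : ℤ) ∣ (x : ℤ) ∧
      ∀ s : ℕ, (4 - η) * T ≤ s → s ≤ (4 + η) * T →
        (NU T s (x : ℤ) : ℝ) < (4 / 3) ^ s * Real.exp (-(η * T)))).card : ℝ) ≤ δ * 3 ^ T := by sorry

/-! ### L7a (KERNEL) : file Kernel.lean (uses L6; adapt `H412R2.FinalOf`) -/

theorem exists_kernel {g₀ : ℝ} (h0 : 0 ≤ g₀) (h1 : g₀ < Real.log (4 / 3)) :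
    ∃ (T : ℕ) (κ : Pool.Agent.H412R2.Ker 3 T), 1 ≤ T ∧
      (∀ x b : ℤ, ¬ (3 : ℤ) ∣ x → b ∈ κ.K x → b ∈ Pool.Agent.H412R2.tr 3 (6 * T) T (κ.S x) x) ∧
      (∀ x : ℤ, ¬ (3 : ℤ) ∣ x → 1 ≤ κ.S x) ∧
      ∀ r ∈ Finset.Ico 1 3,
        0 < ∑ x ∈ (range (3 ^ (T + 1))).filter (fun x => x % 3 = r),
          (Real.log ((κ.K (x : ℤ)).card) - g₀ * (κ.S (x : ℤ) : ℝ)) := by sorry

/-! ### L7b (LOWER) : file Lower.lean (uses L7a, C2 and `H412R2.positive`) -/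

theorem lower {ε : ℝ} (hε : 0 < ε) : ∃ K : ℕ, ∀ k : ℕ, K ≤ k → ∀ x : ℤ, ¬ (3 : ℤ) ∣ x →
    (4 / 3 : ℝ) ^ ((1 - ε) * (k : ℝ)) ≤ (Npr k x : ℝ) := by sorry

/-! ### F (FINAL) : helper377 -/

theorem S12161 :
    ∀ ε : ℝ, 0 < ε → ∃ K : ℕ, ∀ k : ℕ, K ≤ k → ∀ a : ℕ, a < 3 ^ (k + 1) → a % 3 ≠ 0 →
      ((4 : ℝ) / 3) ^ ((1 - ε) * (k : ℝ)) ≤
          ((Set.ncard {m : ℕ |
              (fun n : ℕ => if n % 2 = 0 then n / 2 else (3 * n + 1) / 2)^[k] m = a ∧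
              ∀ j : ℕ, j ≤ k →
                (fun n : ℕ => if n % 2 = 0 then n / 2 else (3 * n + 1) / 2)^[j] m % 3 ≠ 0} : ℕ) : ℝ) ∧
      ((Set.ncard {m : ℕ |
              (fun n : ℕ => if n % 2 = 0 then n / 2 else (3 * n + 1) / 2)^[k] m = a ∧
              ∀ j : ℕ, j ≤ k →
                (fun n : ℕ => if n % 2 = 0 then n / 2 else (3 * n + 1) / 2)^[j] m % 3 ≠ 0} : ℕ) : ℝ) ≤
          ((4 : ℝ) / 3) ^ ((1 + ε) * (k : ℝ)) := by sorry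

end Pool.Agent.H377R2.NK.Stubs
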