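import Pool.Agent.H377R2.NK.LogZ
import Pool.Agent.H412R2.Typical

/-!
Task L6 (TYPICAL): most residues have full growth, critical tilt `3/4`.
-/

set_option autoImplicit false

namespace Pool.Agent.H377R2.NK

namespace TZ

open Finset
open Pool.Agent.H412R2 (Lw Lw_iter_mono Lw_total Lw_iter_tr tr)
open Pool.Agent.H412R2.Typ (geo_le sum_range_three Lw_one_nonneg)

/-- operator with letter weights `w^e / 3` -/
noncomputable def Fw (w : ℝ) (T : ℕ) (x : ℤ) : ℝ :=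
  (Lw (6 * T) (fun e => (1 / 3 : ℝ) * w ^ e))^[T] (fun _ => 1) x

theorem Fw_nonneg {w : ℝ} (hw : 0 ≤ w) (T : ℕ) (x : ℤ) : 0 ≤ Fw w T x :=
  Lw_one_nonneg (fun e => by positivity) x

theorem Fw_eq (w : ℝ) (T : ℕ) (x : ℤ) : Fw w T x = ∑ s ∈ range (T * (6 * T) + 1),
    w ^ s * ∑ z ∈ tr 3 (6 * T) T s x, (1 : ℝ) := by
  unfold Fw
  rw [Lw_iter_tr]
  refine sum_congr rfl fun s _ => ?_
  norm_num

theorem sum_Fw {w : ℝ} (hw : 0 ≤ w) (hw1 : w < 1) (T : ℕ) :
    ∑ x ∈ range (3 ^ (T + 1)), Fw w T (x : ℤ) ≤ 3 * (w / (1 - w)) ^ T := by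
  unfold Fw
  rw [Lw_total (m := 1) (fun _ _ => rfl)]
  have h1 : 3 * ∑ e ∈ Icc 1 (6 * T), (1 / 3 : ℝ) * w ^ e ≤ w / (1 - w) := by
    rw [← mul_sum]
    have := geo_le w hw hw1 (6 * T)
    linarith
  have h0 : 0 ≤ 3 * ∑ e ∈ Icc 1 (6 * T), (1 / 3 : ℝ) * w ^ e :=
    mul_nonneg (by norm_num) (sum_nonneg fun e _ => by positivity)
  have h2 := pow_le_pow_left₀ h0 h1 T
  have h3 : (∑ _y ∈ range (3 ^ 1), (1 : ℝ)) = 3 := by simp
  rw [h3]
  linarith

theorem ffz_one_le (A : ℕ) (x : ℤ) : ffz A 1 x ≤ (if (3 : ℤ) ∣ x then 0 else 3) := by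
  rw [ffz_one_eq]
  split_ifs with hx
  · apply le_of_eq
    apply sum_eq_zero
    intro e _
    rw [if_neg]
    intro h
    have h2 : (3 : ℤ) ∣ 2 ^ e * x := Dvd.dvd.mul_left hx _
    have h3 : (3 : ℤ) ∣ 1 := by
      have := dvd_sub h2 h
      rwa [sub_sub_cancel] at this
    norm_num at h3
  · calc _ ≤ ∑ e ∈ Icc 1 A, 3 * uz e := by
          apply sum_le_sum
          intro e _
          have := uz_nonneg e
          split_ifs
          · simp
          · positivity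
      _ ≤ 3 := by rw [← mul_sum]; have := sum_uz_le A; linarith

theorem ffz_le (T : ℕ) (x : ℤ) :
    ffz (6 * T) (T + 1) x ≤ ∑ s ∈ range (T * (6 * T) + 1), (3 / 4 : ℝ) ^ s * (3 * (NU T s x : ℝ)) := by
  have h1 : ffz (6 * T) (T + 1) x ≤
      (Lw (6 * T) uz)^[T] (fun z => if (3 : ℤ) ∣ z then (0 : ℝ) else 3) x := by
    rw [ffz_add]
    exact Lw_iter_mono uz_nonneg (fun z => ffz_one_le _ z) T x
  refine h1.trans (le_of_eq ?_)
  have h2 := Lw_iter_tr (E := 6 * T) (1 / 3) (3 / 4) (fun z => if (3 : ℤ) ∣ z then (0 : ℝ) else 3) x T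
  refine Eq.trans h2 ?_
  apply sum_congr rfl
  intro s _
  have h3 : ((3 : ℝ) * (1 / 3)) ^ T = 1 := by norm_num
  rw [h3, one_mul]
  congr 1
  unfold NU
  rw [card_filter]
  push_cast
  rw [mul_sum]
  apply sum_congr rfl
  intro z _
  by_cases hz : (3 : ℤ) ∣ z <;> simp [hz]

theorem NU_le {T s : ℕ} (x : ℤ) : (NU T s x : ℝ) ≤ ∑ z ∈ tr 3 (6 * T) T s x, (1 : ℝ) := by
  unfold NU
  rw [sum_const, nsmul_eq_mul, mul_one]
  exact_mod_cast card_filter_le _ _

theorem term_gen {T s : ℕ} {r E : ℝ} (hr : 0 < r) (x : ℤ) (hs : (1 / r) ^ s ≤ E) :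
    (3 / 4 : ℝ) ^ s * (3 * (NU T s x : ℝ)) ≤
      3 * E * ((3 / 4 * r) ^ s * ∑ z ∈ tr 3 (6 * T) T s x, (1 : ℝ)) := by
  have hN := NU_le (T := T) (s := s) x
  have h3 : ((3 : ℝ) / 4) ^ s = (1 / r) ^ s * (3 / 4 * r) ^ s := by
    rw [← mul_pow]; congr 1; field_simp
  have h5 : (0 : ℝ) ≤ (3 / 4 * r) ^ s := by positivity
  have h6 : (0 : ℝ) ≤ (1 / r) ^ s := by positivity
  rw [h3]
  calc (1 / r) ^ s * (3 / 4 * r) ^ s * (3 * (NU T s x : ℝ))
      = (3 * (1 / r) ^ s) * ((3 / 4 * r) ^ s * (NU T s x : ℝ)) := by ring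
    _ ≤ (3 * E) * ((3 / 4 * r) ^ s * ∑ z ∈ tr 3 (6 * T) T s x, (1 : ℝ)) := by
        apply mul_le_mul
        · linarith
        · exact mul_le_mul_of_nonneg_left hN h5
        · positivity
        · have : 0 ≤ E := h6.trans hs
          positivity

/-- a bad residue has a small martingale value up to the lower and the upper part -/
theorem bad_le {T : ℕ} {η r₁ r₂ : ℝ} (hη : 0 < η) (hr1 : 0 < r₁) (hr1' : r₁ ≤ 1) (hr2 : 1 ≤ r₂) (x : ℤ)
    (hbad : ∀ s : ℕ, (4 - η) * T ≤ s → s ≤ (4 + η) * T →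
        (NU T s x : ℝ) < (4 / 3) ^ s * Real.exp (-(η * T))) :
    ffz (6 * T) (T + 1) x ≤ 3 * Real.exp (-(4 - η) * Real.log r₁ * T) * Fw (3 / 4 * r₁) T x +
      3 * Real.exp (-(4 + η) * Real.log r₂ * T) * Fw (3 / 4 * r₂) T x +
      ((4 + η) * T + 1) * (3 * Real.exp (-(η * T))) := by
  refine (ffz_le T x).trans ?_
  have hr2' : 0 < r₂ := by linarith
  rw [Fw_eq, Fw_eq, mul_sum, mul_sum]
  have hmid : ∑ s ∈ range (T * (6 * T) + 1),
      (if (s : ℝ) ≤ (4 + η) * T then 3 * Real.exp (-(η * T)) else 0) ≤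
      ((4 + η) * T + 1) * (3 * Real.exp (-(η * T))) := by
    rw [← sum_filter, sum_const, nsmul_eq_mul]
    apply mul_le_mul_of_nonneg_right _ (by positivity)
    have hfl : ((range (T * (6 * T) + 1)).filter (fun s : ℕ => (s : ℝ) ≤ (4 + η) * T)).card ≤
        ⌊(4 + η) * (T : ℝ)⌋₊ + 1 := by
      calc _ ≤ (range (⌊(4 + η) * (T : ℝ)⌋₊ + 1)).card := by
            apply card_le_card
            intro s hs
            simp only [mem_filter, mem_range] at hs ⊢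
            have := Nat.le_floor hs.2
            omega
        _ = _ := card_range _
    have hf2 : ((⌊(4 + η) * (T : ℝ)⌋₊ : ℕ) : ℝ) ≤ (4 + η) * T := Nat.floor_le (by positivity)
    have hf3 : ((((range (T * (6 * T) + 1)).filter
        (fun s : ℕ => (s : ℝ) ≤ (4 + η) * T)).card : ℕ) : ℝ) ≤ ((⌊(4 + η) * (T : ℝ)⌋₊ + 1 : ℕ) : ℝ) := by
      exact_mod_cast hfl
    push_cast at hf3
    linarith
  refine le_trans ?_ (add_le_add_right hmid _)
  rw [← sum_add_distrib, ← sum_add_distrib]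
  apply sum_le_sum
  intro s _
  have hn1 : 0 ≤ 3 * Real.exp (-(4 - η) * Real.log r₁ * T) * ((3 / 4 * r₁) ^ s *
        ∑ z ∈ tr 3 (6 * T) T s x, (1 : ℝ)) := by positivity
  have hn2 : 0 ≤ 3 * Real.exp (-(4 + η) * Real.log r₂ * T) * ((3 / 4 * r₂) ^ s *
        ∑ z ∈ tr 3 (6 * T) T s x, (1 : ℝ)) := by positivity
  have hn3 : 0 ≤ (if (s : ℝ) ≤ (4 + η) * T then 3 * Real.exp (-(η * T)) else 0) := by
    split_ifs
    · positivity
    · exact le_rfl
  have hl1 : Real.log r₁ ≤ 0 := Real.log_nonpos hr1.le hr1'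
  have hl2 : 0 ≤ Real.log r₂ := Real.log_nonneg hr2
  rcases lt_or_ge (s : ℝ) ((4 - η) * T) with h | h
  · have h1 : (1 / r₁) ^ s ≤ Real.exp (-(4 - η) * Real.log r₁ * T) := by
      have : (1 / r₁) ^ s = Real.exp (-(s : ℝ) * Real.log r₁) := by
        rw [one_div, inv_pow, neg_mul, Real.exp_neg, mul_comm, Real.exp_mul, Real.exp_log hr1,
          Real.rpow_natCast]
      rw [this]
      apply Real.exp_le_exp.2
      nlinarith
    have := term_gen (T := T) hr1 x h1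
    linarith
  · rcases lt_or_ge ((4 + η) * T) (s : ℝ) with h' | h'
    · have h1 : (1 / r₂) ^ s ≤ Real.exp (-(4 + η) * Real.log r₂ * T) := by
        have : (1 / r₂) ^ s = Real.exp (-(s : ℝ) * Real.log r₂) := by
          rw [one_div, inv_pow, neg_mul, Real.exp_neg, mul_comm, Real.exp_mul, Real.exp_log hr2',
            Real.rpow_natCast]
        rw [this]
        apply Real.exp_le_exp.2
        nlinarith
      have := term_gen (T := T) hr2' x h1
      linarith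
    · rw [if_pos h']
      have h1 := (hbad s h h').le
      have h2 : (3 / 4 : ℝ) ^ s * (3 * (NU T s x : ℝ)) ≤ 3 * Real.exp (-(η * T)) := by
        calc (3 / 4 : ℝ) ^ s * (3 * (NU T s x : ℝ))
            ≤ (3 / 4 : ℝ) ^ s * (3 * ((4 / 3) ^ s * Real.exp (-(η * T)))) := by
              apply mul_le_mul_of_nonneg_left _ (by positivity)
              linarith
          _ = ((3 / 4 : ℝ) ^ s * (4 / 3) ^ s) * (3 * Real.exp (-(η * T))) := by ring
          _ = 3 * Real.exp (-(η * T)) := by rw [← mul_pow]; norm_num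
      linarith

theorem sum_ffz (T : ℕ) :
    ∑ x ∈ range (3 ^ (T + 1)), ffz (6 * T) (T + 1) (x : ℤ) ≤ 3 * 3 ^ T := by
  have h := Lw_total (E := 6 * T) (u := uz) (h := fun _ => 1) (m := 0) (fun _ _ => rfl) (T + 1)
  simp only [pow_zero, range_one, sum_singleton, mul_one, add_zero] at h
  rw [ffz_def, h]
  have h4 := sum_uz_le (6 * T)
  have h5 : 0 ≤ ∑ e ∈ Icc 1 (6 * T), uz e := sum_nonneg fun e _ => uz_nonneg e
  have h6 : (3 * ∑ e ∈ Icc 1 (6 * T), uz e) ^ (T + 1) ≤ 3 ^ (T + 1) :=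
    pow_le_pow_left₀ (by positivity) (by linarith) (T + 1)
  rw [pow_succ (3 : ℝ) T] at h6
  linarith

theorem sum_units {T : ℕ} {K : ℝ}
    (hlog : ∀ x : ℤ, ¬ (3 : ℤ) ∣ x →
      ∑ y ∈ range (3 ^ T), - Real.log (ffz (6 * T) (T + 1) (x + 3 * (y : ℤ))) ≤ K) :
    ∑ x ∈ range (3 ^ (T + 1)),
      (if (3 : ℤ) ∣ (x : ℤ) then 0 else - Real.log (ffz (6 * T) (T + 1) (x : ℤ))) ≤ 2 * K := by
  rw [show 3 ^ (T + 1) = 3 * 3 ^ T by ring, Pool.Agent.H412R2.Typ.sum_range_three]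
  have h1 := hlog 1 (by norm_num)
  have h2 := hlog 2 (by norm_num)
  have h3 : ∑ y ∈ range (3 ^ T),
      ((if (3 : ℤ) ∣ ((3 * y : ℕ) : ℤ) then 0 else
          - Real.log (ffz (6 * T) (T + 1) ((3 * y : ℕ) : ℤ))) +
        (if (3 : ℤ) ∣ ((3 * y + 1 : ℕ) : ℤ) then 0 else
          - Real.log (ffz (6 * T) (T + 1) ((3 * y + 1 : ℕ) : ℤ))) +
        (if (3 : ℤ) ∣ ((3 * y + 2 : ℕ) : ℤ) then 0 else
          - Real.log (ffz (6 * T) (T + 1) ((3 * y + 2 : ℕ) : ℤ)))) =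
      ∑ y ∈ range (3 ^ T), - Real.log (ffz (6 * T) (T + 1) (1 + 3 * (y : ℤ))) +
      ∑ y ∈ range (3 ^ T), - Real.log (ffz (6 * T) (T + 1) (2 + 3 * (y : ℤ))) := by
    rw [← sum_add_distrib]
    apply sum_congr rfl
    intro y _
    rw [if_pos (by omega), if_neg (by omega), if_neg (by omega)]
    push_cast
    rw [zero_add, add_comm (3 * (y : ℤ)) 1, add_comm (3 * (y : ℤ)) 2]
  rw [h3]
  linarith

/-- the pointwise inequality -/
theorem pointwise {T : ℕ} (hT : 1 ≤ T) {η c L : ℝ} (hc : 0 < c) (hL0 : 0 ≤ L)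
    (hA : ((4 + η) * T + 1) * (3 * Real.exp (-(η * T))) ≤ Real.exp (-(c * T)) / 2) (x : ℤ)
    (hx : ¬ (3 : ℤ) ∣ x)
    (hbad : ffz (6 * T) (T + 1) x ≤ L + ((4 + η) * T + 1) * (3 * Real.exp (-(η * T)))) :
    1 ≤ (- Real.log (ffz (6 * T) (T + 1) x) + ffz (6 * T) (T + 1) x) / (c * T) +
      2 * Real.exp (c * T) * L := by
  have hG : 0 < ffz (6 * T) (T + 1) x := ffz_pos (by omega) hx
  have hT' : (0 : ℝ) < T := by exact_mod_cast (by omega : 0 < T)
  have hcT : 0 < c * T := mul_pos hc hT'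
  have hlog : Real.log (ffz (6 * T) (T + 1) x) ≤ ffz (6 * T) (T + 1) x - 1 :=
    Real.log_le_sub_one_of_pos hG
  have hexp : Real.exp (c * T) * Real.exp (-(c * T)) = 1 := by
    rw [← Real.exp_add]; simp
  rcases lt_or_ge (ffz (6 * T) (T + 1) x) (Real.exp (-(c * T))) with h | h
  · have h1 : Real.log (ffz (6 * T) (T + 1) x) < -(c * T) := by
      rw [Real.log_lt_iff_lt_exp hG]
      exact h
    have h2 : 1 ≤ (- Real.log (ffz (6 * T) (T + 1) x) + ffz (6 * T) (T + 1) x) / (c * T) := by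
      rw [le_div_iff₀ hcT]
      linarith
    have h3 : 0 ≤ 2 * Real.exp (c * T) * L := by positivity
    linarith
  · have h2 : Real.exp (-(c * T)) / 2 ≤ L := by linarith
    have h3 : 1 ≤ 2 * Real.exp (c * T) * L := by
      have := mul_le_mul_of_nonneg_left h2 (by positivity : 0 ≤ 2 * Real.exp (c * T))
      calc (1 : ℝ) = Real.exp (c * T) * Real.exp (-(c * T)) := hexp.symm
        _ = 2 * Real.exp (c * T) * (Real.exp (-(c * T)) / 2) := by ring
        _ ≤ _ := this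
    have h4 : 0 ≤ (- Real.log (ffz (6 * T) (T + 1) x) + ffz (6 * T) (T + 1) x) / (c * T) := by
      apply div_nonneg _ hcT.le
      linarith
    linarith

/-- Chernoff, lower side -/
theorem chernoff_lo {η : ℝ} (hη : 0 < η) (hη1 : η ≤ 1) :
    Real.exp (-(4 - η) * Real.log (1 - η / 13)) *
      ((3 / 4 * (1 - η / 13)) / (1 - 3 / 4 * (1 - η / 13))) < 3 := by
  set ε : ℝ := η / 13 with hε
  have hε0 : 0 < ε := by positivity
  have hε1 : ε ≤ 1 / 13 := by rw [hε]; linarith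
  have hη' : η = 13 * ε := by rw [hε]; ring
  have hr : 0 < 1 - ε := by linarith
  have h1 : -Real.log (1 - ε) ≤ ε / (1 - ε) := by
    have := Real.one_sub_inv_le_log_of_pos hr
    have e1 : 1 - (1 - ε)⁻¹ = -(ε / (1 - ε)) := by field_simp; ring
    linarith
  have h2 : 3 * ε / (1 + 3 * ε) ≤ Real.log (1 + 3 * ε) := by
    have := Real.one_sub_inv_le_log_of_pos (show 0 < 1 + 3 * ε by linarith)
    have e1 : 1 - (1 + 3 * ε)⁻¹ = 3 * ε / (1 + 3 * ε) := by field_simp; ring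
    linarith
  have h3 : (3 / 4 * (1 - ε)) / (1 - 3 / 4 * (1 - ε)) = 3 * Real.exp (Real.log (1 - ε) - Real.log (1 + 3 * ε)) := by
    rw [Real.exp_sub, Real.exp_log hr, Real.exp_log (by linarith)]
    have : (1 - 3 / 4 * (1 - ε)) = (1 + 3 * ε) / 4 := by ring
    rw [this]
    field_simp
  rw [h3]
  have h4 : Real.exp (-(4 - η) * Real.log (1 - ε)) * (3 * Real.exp (Real.log (1 - ε) - Real.log (1 + 3 * ε))) =
      3 * Real.exp ((3 - η) * (-Real.log (1 - ε)) - Real.log (1 + 3 * ε)) := by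
    rw [mul_left_comm, ← Real.exp_add]
    congr 2
    ring
  rw [h4]
  have h5 : (3 - η) * (-Real.log (1 - ε)) - Real.log (1 + 3 * ε) < 0 := by
    have h6 : (3 - η) * (-Real.log (1 - ε)) ≤ (3 - η) * (ε / (1 - ε)) :=
      mul_le_mul_of_nonneg_left h1 (by linarith)
    have h7 : (3 - η) * (ε / (1 - ε)) < 3 * ε / (1 + 3 * ε) := by
      rw [← mul_div_assoc, div_lt_div_iff₀ hr (by linarith), hη']
      nlinarith [mul_pos hε0 hε0, mul_pos (mul_pos hε0 hε0) hε0]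
    linarith
  have := (Real.exp_lt_exp.2 h5).trans_eq Real.exp_zero
  linarith

/-- Chernoff, upper side -/
theorem chernoff_hi {η : ℝ} (hη : 0 < η) (hη1 : η ≤ 1) :
    Real.exp (-(4 + η) * Real.log (1 + η / 20)) *
      ((3 / 4 * (1 + η / 20)) / (1 - 3 / 4 * (1 + η / 20))) < 3 := by
  set ε : ℝ := η / 20 with hε
  have hε0 : 0 < ε := by positivity
  have hε1 : ε ≤ 1 / 20 := by rw [hε]; linarith
  have hη' : η = 20 * ε := by rw [hε]; ring
  have hr : 0 < 1 + ε := by linarith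
  have hs : 0 < 1 - 3 * ε := by linarith
  have h1 : ε / (1 + ε) ≤ Real.log (1 + ε) := by
    have := Real.one_sub_inv_le_log_of_pos hr
    have e1 : 1 - (1 + ε)⁻¹ = ε / (1 + ε) := by field_simp; ring
    linarith
  have h2 : - Real.log (1 - 3 * ε) ≤ 3 * ε / (1 - 3 * ε) := by
    have := Real.one_sub_inv_le_log_of_pos hs
    have e1 : 1 - (1 - 3 * ε)⁻¹ = -(3 * ε / (1 - 3 * ε)) := by field_simp; ring
    linarith
  have h3 : (3 / 4 * (1 + ε)) / (1 - 3 / 4 * (1 + ε)) = 3 * Real.exp (Real.log (1 + ε) - Real.log (1 - 3 * ε)) := by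
    rw [Real.exp_sub, Real.exp_log hr, Real.exp_log hs]
    have : (1 - 3 / 4 * (1 + ε)) = (1 - 3 * ε) / 4 := by ring
    rw [this]
    field_simp
  rw [h3]
  have h4 : Real.exp (-(4 + η) * Real.log (1 + ε)) * (3 * Real.exp (Real.log (1 + ε) - Real.log (1 - 3 * ε))) =
      3 * Real.exp (-((3 + η) * Real.log (1 + ε)) + (- Real.log (1 - 3 * ε))) := by
    rw [mul_left_comm, ← Real.exp_add]
    congr 2
    ring
  rw [h4]
  have h5 : -((3 + η) * Real.log (1 + ε)) + (- Real.log (1 - 3 * ε)) < 0 := by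
    have h6 : (3 + η) * (ε / (1 + ε)) ≤ (3 + η) * Real.log (1 + ε) :=
      mul_le_mul_of_nonneg_left h1 (by linarith)
    have h7 : 3 * ε / (1 - 3 * ε) < (3 + η) * (ε / (1 + ε)) := by
      have e1 : (3 + η) * (ε / (1 + ε)) = ((3 + η) * ε) / (1 + ε) := by ring
      rw [e1, div_lt_div_iff₀ hs hr, hη']
      nlinarith [mul_pos hε0 hε0, mul_pos (mul_pos hε0 hε0) hε0]
    linarith
  have := (Real.exp_lt_exp.2 h5).trans_eq Real.exp_zero
  linarith

theorem eventually_small (C η δ θ : ℝ) (hη : 0 < η) (hδ : 0 < δ) (hθ0 : 0 < θ) (hθ : θ < 1) :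
    ∃ c : ℝ, 0 < c ∧ ∃ T₀ : ℕ, ∀ T : ℕ, T₀ ≤ T → 3 ≤ T ∧
      ((4 + η) * T + 1) * (3 * Real.exp (-(η * T))) ≤ Real.exp (-(c * T)) / 2 ∧
      (2 * C + 3) / (c * T) ≤ δ / 2 ∧
      2 * Real.exp (c * T) * (18 * θ ^ T) ≤ δ / 2 := by
  set c : ℝ := min (η / 2) (-Real.log θ / 2) with hcdef
  have hlθ : Real.log θ < 0 := Real.log_neg hθ0 hθ
  have hc : 0 < c := lt_min (by positivity) (by linarith)
  have hc1 : c ≤ η / 2 := min_le_left _ _
  have hc2 : c ≤ -Real.log θ / 2 := min_le_right _ _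
  refine ⟨c, hc, ?_⟩
  have t0 : Filter.Tendsto (fun T : ℕ => (T : ℝ)) Filter.atTop Filter.atTop :=
    tendsto_natCast_atTop_atTop
  have t3 : Filter.Tendsto (fun T : ℕ => 1 / (T : ℝ)) Filter.atTop (nhds 0) := by
    simp_rw [one_div]
    exact tendsto_inv_atTop_zero.comp t0
  have tB : Filter.Tendsto (fun T : ℕ => ((2 * C + 3) / c) * (1 / (T : ℝ))) Filter.atTop (nhds 0) := by
    have := t3.const_mul ((2 * C + 3) / c)
    simpa using this
  have tA : Filter.Tendsto (fun T : ℕ => ((4 + η) * (T : ℝ) + 1) * 6 * Real.exp (-(η / 2 * T)))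
      Filter.atTop (nhds 0) := by
    have h1 : Filter.Tendsto (fun x : ℝ => ((4 + η) * x + 1) * 6 * Real.exp (-(η / 2 * x)))
        Filter.atTop (nhds 0) := by
      have e1 := Real.tendsto_pow_mul_exp_neg_atTop_nhds_zero 1
      have e0 := Real.tendsto_pow_mul_exp_neg_atTop_nhds_zero 0
      have s1 : Filter.Tendsto (fun x : ℝ => η / 2 * x) Filter.atTop Filter.atTop :=
        Filter.tendsto_id.const_mul_atTop (by positivity)
      have f1 := (e1.comp s1).const_mul (6 * (4 + η) * (2 / η))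
      have f0 := (e0.comp s1).const_mul 6
      have f := f1.add f0
      simp only [mul_zero, add_zero] at f
      refine f.congr (fun x => ?_)
      simp only [Function.comp, pow_one, pow_zero]
      field_simp
    exact h1.comp t0
  have tC : Filter.Tendsto (fun T : ℕ => 36 * (Real.exp (Real.log θ / 2)) ^ T)
      Filter.atTop (nhds 0) := by
    have hlt : Real.exp (Real.log θ / 2) < 1 :=
      (Real.exp_lt_exp.2 (show Real.log θ / 2 < 0 by linarith)).trans_eq Real.exp_zero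
    have := (tendsto_pow_atTop_nhds_zero_of_lt_one (by positivity) hlt).const_mul 36
    simpa using this
  have eA := tA.eventually (ge_mem_nhds (show (0 : ℝ) < 1 by norm_num))
  have eB := tB.eventually (ge_mem_nhds (show (0 : ℝ) < δ / 2 by positivity))
  have eC := tC.eventually (ge_mem_nhds (show (0 : ℝ) < δ / 2 by positivity))
  obtain ⟨T₀, hT₀⟩ := Filter.eventually_atTop.mp (((Filter.eventually_ge_atTop 3).and eA).and
    (eB.and eC))
  refine ⟨T₀, fun T hT => ?_⟩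
  obtain ⟨⟨h1, h2⟩, h3, h4⟩ := hT₀ T hT
  have hT' : (0 : ℝ) < T := by exact_mod_cast (by omega : 0 < T)
  refine ⟨h1, ?_, ?_, ?_⟩
  · have e1 : Real.exp (-(η * T)) = Real.exp (-(η / 2 * T)) * Real.exp (-(η / 2 * T)) := by
      rw [← Real.exp_add]; congr 1; ring
    have e2 : Real.exp (-(η / 2 * T)) ≤ Real.exp (-(c * T)) := by
      apply Real.exp_le_exp.mpr
      nlinarith
    have e3 : 0 < Real.exp (-(η / 2 * T)) := Real.exp_pos _
    rw [e1]
    calc ((4 + η) * (T : ℝ) + 1) * (3 * (Real.exp (-(η / 2 * T)) * Real.exp (-(η / 2 * T))))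
        = (((4 + η) * (T : ℝ) + 1) * 6 * Real.exp (-(η / 2 * T))) * Real.exp (-(η / 2 * T)) / 2 := by
          ring
      _ ≤ 1 * Real.exp (-(c * T)) / 2 := by
          have := mul_le_mul h2 e2 e3.le (by norm_num)
          linarith
      _ = _ := by ring
  · refine le_trans (le_of_eq ?_) h3
    field_simp
  · refine le_trans ?_ h4
    have e1 : Real.exp (c * T) * θ ^ T ≤ Real.exp (Real.log θ / 2) ^ T := by
      have e2 : θ ^ T = Real.exp (Real.log θ * T) := by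
        rw [Real.exp_mul, Real.exp_log hθ0, Real.rpow_natCast]
      rw [e2, ← Real.exp_add, ← Real.exp_nat_mul]
      apply Real.exp_le_exp.mpr
      nlinarith
    calc 2 * Real.exp (c * T) * (18 * θ ^ T) = 36 * (Real.exp (c * T) * θ ^ T) := by ring
      _ ≤ _ := by linarith

end TZ

open Finset

open scoped Classical in
theorem typical_aux (η δ : ℝ) (hη : 0 < η) (hη1 : η ≤ 1) (hδ : 0 < δ) : ∃ T₀ : ℕ, ∀ T : ℕ, T₀ ≤ T →
    (((range (3 ^ (T + 1))).filter (fun x : ℕ => ¬ (3 : ℤ) ∣ (x : ℤ) ∧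
      ∀ s : ℕ, (4 - η) * T ≤ s → s ≤ (4 + η) * T →
        (NU T s (x : ℤ) : ℝ) < (4 / 3) ^ s * Real.exp (-(η * T)))).card : ℝ) ≤ δ * 3 ^ T := by
  obtain ⟨C, hC, hlog⟩ := log_avg
  set r₁ : ℝ := 1 - η / 13 with hr1
  set r₂ : ℝ := 1 + η / 20 with hr2
  have hr1p : 0 < r₁ := by rw [hr1]; linarith
  have hr1' : r₁ ≤ 1 := by rw [hr1]; linarith
  have hr2' : 1 ≤ r₂ := by rw [hr2]; linarith
  have hr2u : 3 / 4 * r₂ < 1 := by rw [hr2]; linarith
  have hr2p : 0 < r₂ := by linarith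
  set θ₁ : ℝ := Real.exp (-(4 - η) * Real.log r₁) * ((3 / 4 * r₁) / (1 - 3 / 4 * r₁)) / 3 with hθ1
  set θ₂ : ℝ := Real.exp (-(4 + η) * Real.log r₂) * ((3 / 4 * r₂) / (1 - 3 / 4 * r₂)) / 3 with hθ2
  have hd1 : 0 < 1 - 3 / 4 * r₁ := by linarith
  have hd2 : 0 < 1 - 3 / 4 * r₂ := by linarith
  have hθ1p : 0 < θ₁ := by rw [hθ1]; positivity
  have hθ2p : 0 < θ₂ := by rw [hθ2]; positivity
  have hθ1l : θ₁ < 1 := by
    have := TZ.chernoff_lo hη hη1
    rw [← hr1] at this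
    rw [hθ1]; linarith
  have hθ2l : θ₂ < 1 := by
    have := TZ.chernoff_hi hη hη1
    rw [← hr2] at this
    rw [hθ2]; linarith
  set θ : ℝ := max θ₁ θ₂ with hθ
  have hθp : 0 < θ := lt_max_of_lt_left hθ1p
  have hθl : θ < 1 := max_lt hθ1l hθ2l
  obtain ⟨c, hc, T₀, hT₀⟩ := TZ.eventually_small C η δ θ hη hδ hθp hθl
  refine ⟨T₀, fun T hT => ?_⟩
  obtain ⟨hT3, hA, hB, hCC⟩ := hT₀ T hT
  have hT1 : 1 ≤ T := by omega
  have hT' : (0 : ℝ) < T := by exact_mod_cast (by omega : 0 < T)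
  have hcT : 0 < c * T := mul_pos hc hT'
  have h3T : (0 : ℝ) < 3 ^ T := by positivity
  have hsumlog := TZ.sum_units (T := T) (fun x hx => hlog T (6 * T) hT1 (by omega) x hx)
  set lo : ℤ → ℝ := fun x => 3 * Real.exp (-(4 - η) * Real.log r₁ * T) * TZ.Fw (3 / 4 * r₁) T x with hlo
  set hi : ℤ → ℝ := fun x => 3 * Real.exp (-(4 + η) * Real.log r₂ * T) * TZ.Fw (3 / 4 * r₂) T x with hhi
  have hlo0 : ∀ x, 0 ≤ lo x := fun x => by
    have := TZ.Fw_nonneg (w := 3 / 4 * r₁) (by positivity) T x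
    rw [hlo]; positivity
  have hhi0 : ∀ x, 0 ≤ hi x := fun x => by
    have := TZ.Fw_nonneg (w := 3 / 4 * r₂) (by positivity) T x
    rw [hhi]; positivity
  have hslo : ∑ x ∈ range (3 ^ (T + 1)), lo (x : ℤ) ≤ 9 * θ ^ T * 3 ^ T := by
    rw [hlo, ← mul_sum]
    have h1 := TZ.sum_Fw (w := 3 / 4 * r₁) (by positivity) (by linarith) T
    have h2 : Real.exp (-(4 - η) * Real.log r₁ * T) = Real.exp (-(4 - η) * Real.log r₁) ^ T := by
      rw [← Real.exp_nat_mul]; congr 1; ring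
    calc 3 * Real.exp (-(4 - η) * Real.log r₁ * T) * ∑ x ∈ range (3 ^ (T + 1)), TZ.Fw (3 / 4 * r₁) T (x : ℤ)
        ≤ 3 * Real.exp (-(4 - η) * Real.log r₁ * T) * (3 * ((3 / 4 * r₁) / (1 - 3 / 4 * r₁)) ^ T) :=
          mul_le_mul_of_nonneg_left h1 (by positivity)
      _ = 9 * θ₁ ^ T * 3 ^ T := by
          have e : θ₁ ^ T * 3 ^ T = Real.exp (-(4 - η) * Real.log r₁) ^ T *
              ((3 / 4 * r₁) / (1 - 3 / 4 * r₁)) ^ T := by
            rw [← mul_pow, ← mul_pow, hθ1]; congr 1; ring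
          rw [h2, mul_assoc 9, e]; ring
      _ ≤ 9 * θ ^ T * 3 ^ T := by
          have := pow_le_pow_left₀ hθ1p.le (le_max_left θ₁ θ₂) T
          rw [← hθ] at this
          apply mul_le_mul_of_nonneg_right _ h3T.le
          linarith
  have hshi : ∑ x ∈ range (3 ^ (T + 1)), hi (x : ℤ) ≤ 9 * θ ^ T * 3 ^ T := by
    rw [hhi, ← mul_sum]
    have h1 := TZ.sum_Fw (w := 3 / 4 * r₂) (by positivity) hr2u T
    have h2 : Real.exp (-(4 + η) * Real.log r₂ * T) = Real.exp (-(4 + η) * Real.log r₂) ^ T := by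
      rw [← Real.exp_nat_mul]; congr 1; ring
    calc 3 * Real.exp (-(4 + η) * Real.log r₂ * T) * ∑ x ∈ range (3 ^ (T + 1)), TZ.Fw (3 / 4 * r₂) T (x : ℤ)
        ≤ 3 * Real.exp (-(4 + η) * Real.log r₂ * T) * (3 * ((3 / 4 * r₂) / (1 - 3 / 4 * r₂)) ^ T) :=
          mul_le_mul_of_nonneg_left h1 (by positivity)
      _ = 9 * θ₂ ^ T * 3 ^ T := by
          have e : θ₂ ^ T * 3 ^ T = Real.exp (-(4 + η) * Real.log r₂) ^ T *
              ((3 / 4 * r₂) / (1 - 3 / 4 * r₂)) ^ T := by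
            rw [← mul_pow, ← mul_pow, hθ2]; congr 1; ring
          rw [h2, mul_assoc 9, e]; ring
      _ ≤ 9 * θ ^ T * 3 ^ T := by
          have := pow_le_pow_left₀ hθ2p.le (le_max_right θ₁ θ₂) T
          rw [← hθ] at this
          apply mul_le_mul_of_nonneg_right _ h3T.le
          linarith
  rw [card_filter]
  push_cast
  calc (∑ x ∈ range (3 ^ (T + 1)), (if ¬ (3 : ℤ) ∣ (x : ℤ) ∧
      ∀ s : ℕ, (4 - η) * T ≤ s → s ≤ (4 + η) * T →
        (NU T s (x : ℤ) : ℝ) < (4 / 3) ^ s * Real.exp (-(η * T)) then (1 : ℝ) else 0))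
      ≤ ∑ x ∈ range (3 ^ (T + 1)),
        (((if (3 : ℤ) ∣ (x : ℤ) then 0 else - Real.log (ffz (6 * T) (T + 1) (x : ℤ))) +
          ffz (6 * T) (T + 1) (x : ℤ)) / (c * T) +
          2 * Real.exp (c * T) * (lo (x : ℤ) + hi (x : ℤ))) := by
        apply sum_le_sum
        intro x _
        have hlo' := hlo0 (x : ℤ)
        have hhi' := hhi0 (x : ℤ)
        have hf := ffz_nonneg (6 * T) (T + 1) (x : ℤ)
        split_ifs with h1 h2 h2
        · exact absurd h2 h1.1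
        · refine TZ.pointwise hT1 hc (by linarith) hA (x : ℤ) h1.1 ?_
          exact TZ.bad_le hη hr1p hr1' hr2' (x : ℤ) h1.2
        · positivity
        · have hG : 0 < ffz (6 * T) (T + 1) (x : ℤ) := ffz_pos (by omega) h2
          have hl := Real.log_le_sub_one_of_pos hG
          have h4 : 0 ≤ (- Real.log (ffz (6 * T) (T + 1) (x : ℤ)) + ffz (6 * T) (T + 1) (x : ℤ)) /
              (c * T) := by
            apply div_nonneg _ hcT.le
            linarith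
          positivity
    _ = ((∑ x ∈ range (3 ^ (T + 1)),
          (if (3 : ℤ) ∣ (x : ℤ) then 0 else - Real.log (ffz (6 * T) (T + 1) (x : ℤ)))) +
          ∑ x ∈ range (3 ^ (T + 1)), ffz (6 * T) (T + 1) (x : ℤ)) / (c * T) +
          2 * Real.exp (c * T) * (∑ x ∈ range (3 ^ (T + 1)), lo (x : ℤ) +
            ∑ x ∈ range (3 ^ (T + 1)), hi (x : ℤ)) := by
        rw [sum_add_distrib, ← sum_div, sum_add_distrib, ← mul_sum, sum_add_distrib]
    _ ≤ (2 * (3 ^ T * C) + 3 * 3 ^ T) / (c * T) +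
          2 * Real.exp (c * T) * (9 * θ ^ T * 3 ^ T + 9 * θ ^ T * 3 ^ T) := by
        have hsf := TZ.sum_ffz T
        apply add_le_add
        · rw [div_le_div_iff_of_pos_right hcT]
          linarith
        · apply mul_le_mul_of_nonneg_left _ (by positivity)
          exact add_le_add hslo hshi
    _ = ((2 * C + 3) / (c * T) + 2 * Real.exp (c * T) * (18 * θ ^ T)) * 3 ^ T := by
        ring
    _ ≤ (δ / 2 + δ / 2) * 3 ^ T := by
        apply mul_le_mul_of_nonneg_right _ h3T.le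
        exact add_le_add hB hCC
    _ = δ * 3 ^ T := by ring

open scoped Classical in
theorem typical (η δ : ℝ) (hη : 0 < η) (hδ : 0 < δ) : ∃ T₀ : ℕ, ∀ T : ℕ, T₀ ≤ T →
    (((range (3 ^ (T + 1))).filter (fun x : ℕ => ¬ (3 : ℤ) ∣ (x : ℤ) ∧
      ∀ s : ℕ, (4 - η) * T ≤ s → s ≤ (4 + η) * T →
        (NU T s (x : ℤ) : ℝ) < (4 / 3) ^ s * Real.exp (-(η * T)))).card : ℝ) ≤ δ * 3 ^ T := by
  have hη' : 0 < min η 1 := lt_min hη one_pos
  obtain ⟨T₀, hT₀⟩ := typical_aux (min η 1) δ hη' (min_le_right _ _) hδ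
  refine ⟨T₀, fun T hT => le_trans ?_ (hT₀ T hT)⟩
  have hle : min η 1 ≤ η := min_le_left _ _
  have hT0 : (0 : ℝ) ≤ T := by positivity
  have : ((range (3 ^ (T + 1))).filter (fun x : ℕ => ¬ (3 : ℤ) ∣ (x : ℤ) ∧
      ∀ s : ℕ, (4 - η) * T ≤ s → s ≤ (4 + η) * T →
        (NU T s (x : ℤ) : ℝ) < (4 / 3) ^ s * Real.exp (-(η * T)))) ⊆
      ((range (3 ^ (T + 1))).filter (fun x : ℕ => ¬ (3 : ℤ) ∣ (x : ℤ) ∧
      ∀ s : ℕ, (4 - min η 1) * T ≤ s → s ≤ (4 + min η 1) * T →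
        (NU T s (x : ℤ) : ℝ) < (4 / 3) ^ s * Real.exp (-(min η 1 * T)))) := by
    intro x hx
    rw [mem_filter] at hx ⊢
    refine ⟨hx.1, hx.2.1, fun s h1 h2 => ?_⟩
    have h3 := hx.2.2 s (by nlinarith) (by nlinarith)
    refine lt_of_lt_of_le h3 ?_
    apply mul_le_mul_of_nonneg_left _ (by positivity)
    apply Real.exp_le_exp.2
    nlinarith
  exact_mod_cast card_le_card this

end Pool.Agent.H377R2.NK
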