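import Pool.Agent.H377R2.NK.Basic
import Pool.Agent.H377R2.NK.Basic2
import Pool.Agent.H320R2.PDWords

/-! U5 (ZSUB): supremum over the cap, submultiplicativity, truncation. -/

set_option autoImplicit false
set_option linter.unusedVariables false

namespace Pool.Agent.H377R2.NK

open Finset Pool.Agent.H320R2.PD

/-- Jensen for powers, unnormalised weights -/
theorem jensen_pow {ι : Type*} (s : Finset ι) (w f : ι → ℝ) (hw : ∀ i ∈ s, 0 ≤ w i)
    (hf : ∀ i ∈ s, 0 ≤ f i) {q : ℕ} (hq : 1 ≤ q) :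
    (∑ i ∈ s, w i * f i) ^ q ≤ (∑ i ∈ s, w i) ^ (q - 1) * ∑ i ∈ s, w i * f i ^ q := by
  have hW : 0 ≤ ∑ i ∈ s, w i := Finset.sum_nonneg hw
  rcases eq_or_lt_of_le hW with h0 | h0
  · have hz : ∀ i ∈ s, w i = 0 := fun i hi =>
      (Finset.sum_eq_zero_iff_of_nonneg hw).1 h0.symm i hi
    have e1 : ∑ i ∈ s, w i * f i = 0 := Finset.sum_eq_zero fun i hi => by rw [hz i hi, zero_mul]
    have e2 : ∑ i ∈ s, w i * f i ^ q = 0 :=
      Finset.sum_eq_zero fun i hi => by rw [hz i hi, zero_mul]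
    rw [e1, e2, zero_pow (by omega), mul_zero]
  · set W := ∑ i ∈ s, w i with hWdef
    have hj := Real.pow_arith_mean_le_arith_mean_pow s (fun i => w i / W) f
      (fun i hi => div_nonneg (hw i hi) hW) (by
        rw [← Finset.sum_div, ← hWdef, div_self h0.ne']) hf q
    have e1 : ∑ i ∈ s, w i / W * f i = (∑ i ∈ s, w i * f i) / W := by
      rw [Finset.sum_div]
      exact Finset.sum_congr rfl fun i _ => by ring
    have e2 : ∑ i ∈ s, w i / W * f i ^ q = (∑ i ∈ s, w i * f i ^ q) / W := by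
      rw [Finset.sum_div]
      exact Finset.sum_congr rfl fun i _ => by ring
    rw [e1, e2, div_pow, div_le_div_iff₀ (by positivity) h0] at hj
    have e3 : W ^ q = W ^ (q - 1) * W := by
      rw [← pow_succ]
      congr 1
      omega
    rw [e3] at hj
    have e4 : (∑ i ∈ s, w i * f i) ^ q * W ≤ (W ^ (q - 1) * ∑ i ∈ s, w i * f i ^ q) * W := by
      calc (∑ i ∈ s, w i * f i) ^ q * W ≤ (∑ i ∈ s, w i * f i ^ q) * (W ^ (q - 1) * W) := hj
        _ = _ := by ring
    exact le_of_mul_le_mul_right e4 h0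

/-- splitting a range -/
theorem sum_range_split (M N : ℕ) (hM : 0 < M) (f : ℕ → ℝ) :
    ∑ x ∈ range (M * N), f x = ∑ a ∈ range M, ∑ y ∈ range N, f (a + M * y) := by
  rw [← Finset.sum_product' (f := fun a y => f (a + M * y))]
  refine Finset.sum_nbij' (fun x => (x % M, x / M)) (fun p => p.1 + M * p.2) ?_ ?_ ?_ ?_ ?_
  · intro x hx
    rw [Finset.mem_range] at hx
    rw [Finset.mem_product, Finset.mem_range, Finset.mem_range]
    exact ⟨Nat.mod_lt _ hM, Nat.div_lt_of_lt_mul hx⟩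
  · rintro ⟨a, y⟩ hp
    rw [Finset.mem_product, Finset.mem_range, Finset.mem_range] at hp
    rw [Finset.mem_range]
    simp only at hp ⊢
    calc a + M * y < M + M * y := by omega
      _ = M * (y + 1) := by ring
      _ ≤ M * N := Nat.mul_le_mul_left _ hp.2
  · intro x _
    exact Nat.mod_add_div x M
  · rintro ⟨a, y⟩ hp
    rw [Finset.mem_product, Finset.mem_range, Finset.mem_range] at hp
    simp only at hp ⊢
    rw [Nat.add_mul_mod_self_left, Nat.mod_eq_of_lt hp.1, Nat.add_mul_div_left _ _ hM,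
      Nat.div_eq_of_lt hp.1, zero_add]
  · intro x _
    simp only [Nat.mod_add_div]

section Zsub

variable {p : ℕ}

theorem Zq_le (hp : Odd p) (A n q : ℕ) : Zq p A n q ≤ (p : ℝ) ^ (n * (q + 1)) := by
  unfold Zq
  calc ∑ x ∈ range (p ^ n), DD p A n (x : ℤ) ^ q ≤ ∑ x ∈ range (p ^ n), ((p : ℝ) ^ n) ^ q := by
        apply Finset.sum_le_sum
        intro x _
        exact pow_le_pow_left₀ (DD_nonneg A n _) (DD_le hp A n _) q
    _ = (p : ℝ) ^ (n * (q + 1)) := by
        rw [Finset.sum_const, Finset.card_range, nsmul_eq_mul]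
        push_cast
        rw [← pow_mul, ← pow_add]
        congr 1
        ring

theorem Zq_nonneg (A n q : ℕ) : 0 ≤ Zq p A n q :=
  Finset.sum_nonneg fun _ _ => pow_nonneg (DD_nonneg _ _ _) _

theorem Zq_bdd (hp : Odd p) (n q : ℕ) : BddAbove (Set.range fun A : ℕ => Zq p A n q) :=
  ⟨(p : ℝ) ^ (n * (q + 1)), by
    rintro _ ⟨A, rfl⟩
    exact Zq_le hp A n q⟩

theorem Zq_le_sZ (hp : Odd p) (A n q : ℕ) : Zq p A n q ≤ sZ p q n := by
  unfold sZ
  exact le_ciSup (Zq_bdd hp n q) A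

/-- lower bound of the moments by the mean -/
theorem Zq_ge_mean (hp : Odd p) {q : ℕ} (hq : 1 ≤ q) (A n : ℕ) :
    (p : ℝ) ^ n * (1 - zz p ^ A) ^ (n * q) ≤ Zq p A n q := by
  have hp1 : 1 ≤ p := hp.pos
  have hpn : (0 : ℝ) < (p : ℝ) ^ n := by
    have : (0 : ℝ) < p := by exact_mod_cast hp1
    positivity
  have hj := jensen_pow (range (p ^ n)) (fun _ => (1 : ℝ)) (fun x => DD p A n (x : ℤ))
    (fun _ _ => zero_le_one) (fun x _ => DD_nonneg A n _) hq
  simp only [one_mul, Finset.sum_const, Finset.card_range, nsmul_eq_mul, mul_one] at hj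
  rw [DD_total hp] at hj
  have e1 : ((p ^ n : ℕ) : ℝ) = (p : ℝ) ^ n := by push_cast; rfl
  rw [e1] at hj
  have hZ : ∑ i ∈ range (p ^ n), DD p A n (i : ℤ) ^ q = Zq p A n q := rfl
  rw [hZ] at hj
  have e2 : (((p : ℝ) * (1 - zz p ^ A)) ^ n) ^ q =
      ((p : ℝ) ^ n) ^ (q - 1) * ((p : ℝ) ^ n * (1 - zz p ^ A) ^ (n * q)) := by
    rw [mul_pow, mul_pow, ← mul_assoc, ← pow_succ, ← pow_mul (1 - zz p ^ A)]
    congr 2
    omega
  rw [e2] at hj
  exact le_of_mul_le_mul_left hj (by positivity)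

/-- power mean and `A → ∞` -/
theorem le_sZ (hp : Odd p) {q : ℕ} (hq : 1 ≤ q) (n : ℕ) : (p : ℝ) ^ n ≤ sZ p q n := by
  have hp1 : 1 ≤ p := hp.pos
  have hz0 := zz_pos hp1
  have hz1 := zz_lt_one p
  have h1 : Filter.Tendsto (fun A : ℕ => (p : ℝ) ^ n * (1 - zz p ^ A) ^ (n * q)) Filter.atTop
      (nhds ((p : ℝ) ^ n * (1 - 0) ^ (n * q))) := by
    apply Filter.Tendsto.const_mul
    apply Filter.Tendsto.pow
    apply Filter.Tendsto.const_sub
    exact tendsto_pow_atTop_nhds_zero_of_lt_one hz0.le hz1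
  simp only [sub_zero, one_pow, mul_one] at h1
  apply le_of_tendsto h1
  filter_upwards with A
  exact (Zq_ge_mean hp hq A n).trans (Zq_le_sZ hp A n q)

theorem sZ_nonneg (hp : Odd p) (q n : ℕ) : 0 ≤ sZ p q n :=
  (Zq_nonneg 0 n q).trans (Zq_le_sZ hp 0 n q)

theorem sZ_sub (hp : Odd p) {q : ℕ} (hq : 1 ≤ q) (k m : ℕ) :
    sZ p q (k + m) ≤ sZ p q k * sZ p q m := by
  unfold sZ
  apply ciSup_le
  intro A
  refine (Zq_sub hp hq A k m).trans ?_
  exact mul_le_mul (Zq_le_sZ hp A k q) (Zq_le_sZ hp A m q) (Zq_nonneg _ _ _) (sZ_nonneg hp q k)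

theorem Zq_mono {A A' : ℕ} (h : A ≤ A') (n q : ℕ) : Zq p A n q ≤ Zq p A' n q :=
  Finset.sum_le_sum fun _ _ => pow_le_pow_left₀ (DD_nonneg _ _ _) (DD_mono _ _ h) _

/-- for all large caps the moments are almost maximal and the mean is almost one -/
theorem exists_cap (hp : Odd p) {q : ℕ} (hq : 1 ≤ q) (k n : ℕ) :
    ∃ A₀ : ℕ, 1 ≤ A₀ ∧ ∀ A, A₀ ≤ A → (p : ℝ) ^ k ≤ 2 ^ q * Zq p A k q ∧
      sZ p q n ≤ 2 * Zq p A n q := by
  have hp1 : 1 ≤ p := hp.pos
  have hz0 := zz_pos hp1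
  have hz1 := zz_lt_one p
  have h1 : Filter.Tendsto (fun A : ℕ => (1 - zz p ^ A) ^ k) Filter.atTop
      (nhds ((1 - 0) ^ k)) := by
    apply Filter.Tendsto.pow
    apply Filter.Tendsto.const_sub
    exact tendsto_pow_atTop_nhds_zero_of_lt_one hz0.le hz1
  simp only [sub_zero, one_pow] at h1
  have h2 := h1.eventually (lt_mem_nhds (show (1 / 2 : ℝ) < 1 by norm_num))
  obtain ⟨A₁, hA₁⟩ := Filter.eventually_atTop.1 h2
  have hs : 0 < sZ p q n := lt_of_lt_of_le (by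
    have : (0 : ℝ) < p := by exact_mod_cast hp1
    positivity) (le_sZ hp hq n)
  obtain ⟨A₂, hA₂⟩ := exists_lt_of_lt_ciSup (show sZ p q n / 2 < ⨆ A : ℕ, Zq p A n q by
    have : sZ p q n = ⨆ A : ℕ, Zq p A n q := rfl
    rw [← this]
    linarith)
  refine ⟨max 1 (max A₁ A₂), le_max_left _ _, fun A hA => ⟨?_, ?_⟩⟩
  · have hA' : A₁ ≤ A := le_trans (le_trans (le_max_left _ _) (le_max_right _ _)) hA
    have h3 := hA₁ A hA'
    have h4 : (1 / 2 : ℝ) ^ q ≤ (1 - zz p ^ A) ^ (k * q) := by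
      rw [pow_mul]
      exact pow_le_pow_left₀ (by norm_num) h3.le q
    have h5 := Zq_ge_mean hp hq A k
    have hpk : (0 : ℝ) ≤ (p : ℝ) ^ k := by positivity
    calc (p : ℝ) ^ k = 2 ^ q * ((p : ℝ) ^ k * (1 / 2 : ℝ) ^ q) := by
          rw [one_div, inv_pow]
          field_simp
      _ ≤ 2 ^ q * ((p : ℝ) ^ k * (1 - zz p ^ A) ^ (k * q)) := by gcongr
      _ ≤ 2 ^ q * Zq p A k q := by gcongr
  · have hA' : A₂ ≤ A := le_trans (le_trans (le_max_right _ _) (le_max_right _ _)) hA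
    have := Zq_mono (p := p) hA' n q
    linarith

/-! truncation -/

/-- the words of the tail -/
noncomputable def VT (p A k : ℕ) (x : ℤ) : Finset (List ℕ) :=
  (VW p A k x).filter fun w => ¬ w.sum ≤ 60 * k

/-- the tail mass -/
noncomputable def vt (p A k : ℕ) (x : ℤ) : ℝ := ∑ w ∈ VT p A k x, zz p ^ w.sum

theorem VT_shift (A k : ℕ) (x y : ℤ) : VT p A k (x + (p : ℤ) ^ k * y) = VT p A k x := by
  unfold VT
  rw [VW_shift]

/-- the tail of the martingale -/
noncomputable def tl (p A k i : ℕ) (x : ℤ) : ℝ :=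
  ∑ w ∈ VT p A k x, zz p ^ w.sum * DD p A i (en p w x)

theorem DD_split (hp : Odd p) (A k m : ℕ) (x : ℤ) :
    DD p A (k + m) x = GG p A k m x + tl p A k m x := by
  rw [DD_add hp]
  unfold GG tl VS VT
  exact (Finset.sum_filter_add_sum_filter_not _ _ _).symm

theorem tl_nonneg (A k m : ℕ) (x : ℤ) : 0 ≤ tl p A k m x := by
  unfold tl
  apply Finset.sum_nonneg
  intro w _
  exact mul_nonneg (pow_nonneg (by unfold zz; positivity) _) (DD_nonneg _ _ _)

theorem GG_nn (A k m : ℕ) (x : ℤ) : 0 ≤ GG p A k m x := by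
  unfold GG
  apply Finset.sum_nonneg
  intro w _
  exact mul_nonneg (pow_nonneg (by unfold zz; positivity) _) (DD_nonneg _ _ _)

theorem sum_tl_pow (hp : Odd p) {q : ℕ} (hq : 1 ≤ q) (A k m : ℕ) :
    ∑ x ∈ range (p ^ (k + m)), tl p A k m (x : ℤ) ^ q ≤
      (∑ a ∈ range (p ^ k), vt p A k (a : ℤ) ^ q) * Zq p A m q := by
  have hp1 : 1 ≤ p := hp.pos
  rw [pow_add, sum_range_split _ _ (by positivity), Finset.sum_mul]
  apply Finset.sum_le_sum
  intro a _
  have hzn : ∀ w : List ℕ, 0 ≤ zz p ^ w.sum := fun w => pow_nonneg (zz_pos hp1).le _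
  have hstep : ∀ y ∈ range (p ^ m), tl p A k m ((a + p ^ k * y : ℕ) : ℤ) ^ q ≤
      vt p A k (a : ℤ) ^ (q - 1) * ∑ w ∈ VT p A k (a : ℤ), zz p ^ w.sum *
        DD p A m (en p w (a : ℤ) + 2 ^ w.sum * (y : ℤ)) ^ q := by
    intro y _
    have hc : ((a + p ^ k * y : ℕ) : ℤ) = (a : ℤ) + (p : ℤ) ^ k * (y : ℤ) := by
      push_cast
      ring
    unfold tl
    rw [hc, VT_shift]
    refine (jensen_pow _ _ _ (fun w _ => hzn w) (fun w _ => DD_nonneg _ _ _) hq).trans ?_
    apply le_of_eq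
    congr 1
    apply Finset.sum_congr rfl
    intro w hw
    have hl : w.length = k := by
      unfold VT at hw
      exact (mem_VW.1 (Finset.mem_filter.1 hw).1).1
    have h1 := en_shift (w := w) hp1 (a : ℤ) (y : ℤ)
    rw [hl] at h1
    rw [h1]
  calc ∑ y ∈ range (p ^ m), tl p A k m ((a + p ^ k * y : ℕ) : ℤ) ^ q
      ≤ ∑ y ∈ range (p ^ m), vt p A k (a : ℤ) ^ (q - 1) * ∑ w ∈ VT p A k (a : ℤ), zz p ^ w.sum *
        DD p A m (en p w (a : ℤ) + 2 ^ w.sum * (y : ℤ)) ^ q := Finset.sum_le_sum hstep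
    _ = vt p A k (a : ℤ) ^ (q - 1) * ∑ w ∈ VT p A k (a : ℤ), zz p ^ w.sum *
        ∑ y ∈ range (p ^ m), DD p A m (en p w (a : ℤ) + 2 ^ w.sum * (y : ℤ)) ^ q := by
        rw [← Finset.mul_sum, Finset.sum_comm]
        congr 1
        apply Finset.sum_congr rfl
        intro w _
        rw [Finset.mul_sum]
    _ = vt p A k (a : ℤ) ^ (q - 1) * ∑ w ∈ VT p A k (a : ℤ), zz p ^ w.sum * Zq p A m q := by
        congr 1
        apply Finset.sum_congr rfl
        intro w _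
        congr 1
        have hcop : IsCoprime ((2 : ℤ) ^ w.sum) (p : ℤ) := by
          apply IsCoprime.pow_left
          have h2 : Nat.Coprime 2 p := Nat.coprime_two_left.2 hp
          exact_mod_cast Nat.isCoprime_iff_coprime.2 h2
        exact sum_affine hp1 m (2 ^ w.sum) (en p w (a : ℤ)) hcop
          (h := fun x => DD p A m x ^ q) (fun x y => by simp only [DD_shift])
    _ = vt p A k (a : ℤ) ^ q * Zq p A m q := by
        rw [← Finset.sum_mul, ← mul_assoc]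
        congr 1
        have : ∑ w ∈ VT p A k (a : ℤ), zz p ^ w.sum = vt p A k (a : ℤ) := rfl
        rw [this, ← pow_succ]
        congr 1
        omega

theorem vt_le (hp : 1 ≤ p) (A k : ℕ) (x : ℤ) :
    vt p A k x ≤ (((2 * p : ℝ) / (2 * p + 1)) ^ 60 * (2 * p + 1)) ^ k := by
  have hp0 : (0 : ℝ) < p := by exact_mod_cast hp
  set z1 : ℝ := (2 * p + 1) / (2 * p + 2) with hz1
  set r : ℝ := (2 * p : ℝ) / (2 * p + 1) with hr
  have hr0 : 0 < r := by positivity
  have hr1 : r ≤ 1 := by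
    rw [hr, div_le_one (by positivity)]
    linarith
  have hz0 : 0 < z1 := by positivity
  have hz11 : z1 < 1 := by
    rw [hz1, div_lt_one (by positivity)]
    linarith
  have hzz : zz p = r * z1 := by
    unfold zz
    rw [hr, hz1]
    field_simp
  have h1 : vt p A k x ≤ ∑ w ∈ FW A k, r ^ (60 * k) * z1 ^ w.sum := by
    unfold vt
    calc ∑ w ∈ VT p A k x, zz p ^ w.sum ≤ ∑ w ∈ VT p A k x, r ^ (60 * k) * z1 ^ w.sum := by
          apply Finset.sum_le_sum
          intro w hw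
          have hs : 60 * k ≤ w.sum := by
            unfold VT at hw
            have := (Finset.mem_filter.1 hw).2
            omega
          rw [hzz, mul_pow]
          exact mul_le_mul_of_nonneg_right (pow_le_pow_of_le_one hr0.le hr1 hs) (by positivity)
      _ ≤ _ := by
          apply Finset.sum_le_sum_of_subset_of_nonneg
          · intro w hw
            unfold VT VW at hw
            exact (Finset.mem_filter.1 (Finset.mem_filter.1 hw).1).1
          · intro w _ _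
            positivity
  refine h1.trans ?_
  rw [← Finset.mul_sum, Pool.Agent.H320R2.PD.sum_pow, mul_pow, pow_mul]
  apply mul_le_mul_of_nonneg_left _ (by positivity)
  apply pow_le_pow_left₀ (Finset.sum_nonneg fun e _ => by positivity)
  refine (sum_Icc_pow_le A hz0.le hz11).trans (le_of_eq ?_)
  rw [hz1]
  have h2 : (1 : ℝ) - (2 * p + 1) / (2 * p + 2) = 1 / (2 * p + 2) := by
    field_simp
    ring
  rw [h2]
  field_simp

/-- numerical bound of the tail -/
theorem rho_bound (hp : p = 3 ∨ p = 5) :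
    (p : ℝ) * (((2 * p : ℝ) / (2 * p + 1)) ^ 60 * (2 * p + 1)) ^ 2 ≤ 1 / 100 ∧
    ((2 * p : ℝ) / (2 * p + 1)) ^ 60 * (2 * p + 1) ≤ 1 := by
  rcases hp with rfl | rfl
  · norm_num
  · norm_num

/-- the truncation at size `60 k` is harmless -/
theorem ZG_ge (hp : p = 3 ∨ p = 5) {q : ℕ} (hq : 2 ≤ q) (A k : ℕ)
    (h : 2 ^ q * Zq p A (60 * k) q ≤ 100 ^ k * Zq p A (k + 60 * k) q) :
    Zq p A (k + 60 * k) q ≤ 2 ^ q * ZG p A k (60 * k) q := by
  have hodd : Odd p := by rcases hp with rfl | rfl <;> decide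
  have hp1 : 1 ≤ p := hodd.pos
  set ρ : ℝ := ((2 * p : ℝ) / (2 * p + 1)) ^ 60 * (2 * p + 1) with hρ
  have hρ0 : 0 ≤ ρ := by positivity
  obtain ⟨hr1, hr2⟩ := rho_bound hp
  rw [← hρ] at hr1 hr2
  have hvt : ∀ a : ℤ, vt p A k a ≤ ρ ^ k := fun a => vt_le hp1 A k a
  clear_value ρ
  -- split
  have h1 : Zq p A (k + 60 * k) q ≤ 2 ^ (q - 1) * ZG p A k (60 * k) q +
      2 ^ (q - 1) * ∑ x ∈ range (p ^ (k + 60 * k)), tl p A k (60 * k) (x : ℤ) ^ q := by
    unfold Zq ZG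
    rw [Finset.mul_sum, Finset.mul_sum, ← Finset.sum_add_distrib]
    apply Finset.sum_le_sum
    intro x _
    rw [DD_split hodd, ← mul_add]
    exact add_pow_le (GG_nn _ _ _ _) (tl_nonneg _ _ _ _) q
  have h2 := sum_tl_pow hodd (show 1 ≤ q by omega) A k (60 * k)
  have h3 : ∑ a ∈ range (p ^ k), vt p A k (a : ℤ) ^ q ≤ (1 / 100) ^ k := by
    calc ∑ a ∈ range (p ^ k), vt p A k (a : ℤ) ^ q ≤ ∑ a ∈ range (p ^ k), (ρ ^ k) ^ 2 := by
          apply Finset.sum_le_sum
          intro a _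
          have hv := hvt (a : ℤ)
          have hv0 : 0 ≤ vt p A k (a : ℤ) := by
            unfold vt
            exact Finset.sum_nonneg fun w _ => pow_nonneg (zz_pos hp1).le _
          calc vt p A k (a : ℤ) ^ q ≤ (ρ ^ k) ^ q := pow_le_pow_left₀ hv0 hv q
            _ ≤ (ρ ^ k) ^ 2 := pow_le_pow_of_le_one (by positivity) (pow_le_one₀ hρ0 hr2) hq
      _ = (p * ρ ^ 2) ^ k := by
          rw [Finset.sum_const, Finset.card_range, nsmul_eq_mul, mul_pow, ← pow_mul, ← pow_mul,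
            mul_comm k 2]
          push_cast
          rfl
      _ ≤ (1 / 100) ^ k := pow_le_pow_left₀ (by positivity) hr1 k
  have hZ0 := Zq_nonneg (p := p) A (60 * k) q
  have h4 : ∑ x ∈ range (p ^ (k + 60 * k)), tl p A k (60 * k) (x : ℤ) ^ q ≤
      (1 / 100) ^ k * Zq p A (60 * k) q :=
    h2.trans (mul_le_mul_of_nonneg_right h3 hZ0)
  have h5 : 2 ^ q * ((1 / 100 : ℝ) ^ k * Zq p A (60 * k) q) ≤ Zq p A (k + 60 * k) q := by
    have h6 : (1 / 100 : ℝ) ^ k * (2 ^ q * Zq p A (60 * k) q) ≤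
        (1 / 100 : ℝ) ^ k * (100 ^ k * Zq p A (k + 60 * k) q) :=
      mul_le_mul_of_nonneg_left h (by positivity)
    have h7 : (1 / 100 : ℝ) ^ k * (100 ^ k * Zq p A (k + 60 * k) q) = Zq p A (k + 60 * k) q := by
      rw [← mul_assoc, ← mul_pow]
      norm_num
    rw [h7] at h6
    linarith
  have h8 : (2 : ℝ) ^ q = 2 * 2 ^ (q - 1) := by
    rw [← pow_succ']
    congr 1
    omega
  rw [h8] at h5 ⊢
  have h9 : (0 : ℝ) < 2 ^ (q - 1) := by positivity
  nlinarith [mul_le_mul_of_nonneg_left h4 h9.le]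

end Zsub

end Pool.Agent.H377R2.NK
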