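import Pool.Agent.H377R2.NK.Core
import Pool.Agent.H377R2.NK.Zsub
import Pool.Agent.H377R2.NK.LawR
import Pool.Agent.H377R2.NK.Law2

/-! Task U7 (UPPER): Fekete's lemma, the contradiction with `core`, and the sup bound. -/

set_option autoImplicit false

namespace Pool.Agent.H377R2.NK

open Finset Filter Topology

section

variable {p q : ℕ}

lemma odd_of (hp : p = 3 ∨ p = 5) : Odd p := by rcases hp with rfl | rfl <;> decide

lemma prime_of (hp : p = 3 ∨ p = 5) : p.Prime := by rcases hp with rfl | rfl <;> norm_num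

lemma sZ_pos (hp : p = 3 ∨ p = 5) (hq : 2 ≤ q) (n : ℕ) : 0 < sZ p q n := by
  have h := le_sZ (odd_of hp) (q := q) (by omega) n
  have h2 : (0 : ℝ) < (p : ℝ) ^ n := by
    have : 0 < p := (prime_of hp).pos
    positivity
  linarith

lemma sub_log (hp : p = 3 ∨ p = 5) (hq : 2 ≤ q) : Subadditive fun n => Real.log (sZ p q n) := by
  intro m n
  rw [← Real.log_mul (sZ_pos hp hq m).ne' (sZ_pos hp hq n).ne']
  exact Real.log_le_log (sZ_pos hp hq _) (sZ_sub (odd_of hp) (by omega) m n)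

lemma le_log_sZ (hp : p = 3 ∨ p = 5) (hq : 2 ≤ q) (n : ℕ) :
    (n : ℝ) * Real.log p ≤ Real.log (sZ p q n) := by
  have h := le_sZ (odd_of hp) (q := q) (by omega) n
  have h2 : (0 : ℝ) < (p : ℝ) ^ n := by
    have : 0 < p := (prime_of hp).pos
    positivity
  have h3 := Real.log_le_log h2 h
  rwa [Real.log_pow] at h3

lemma bdd (hp : p = 3 ∨ p = 5) (hq : 2 ≤ q) :
    BddBelow (Set.range fun n : ℕ => Real.log (sZ p q n) / n) := by
  refine ⟨0, ?_⟩
  rintro _ ⟨n, rfl⟩
  have h := le_log_sZ hp hq n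
  have hp1 : (1 : ℝ) ≤ p := by
    have : 1 ≤ p := (prime_of hp).one_le
    exact_mod_cast this
  have : 0 ≤ (n : ℝ) * Real.log p := mul_nonneg (Nat.cast_nonneg _) (Real.log_nonneg hp1)
  exact div_nonneg (by linarith) (Nat.cast_nonneg _)

lemma ZG_le (hp : p = 3 ∨ p = 5) (hq : 2 ≤ q) (A k m : ℕ) :
    ZG p A k m q ≤ Zq p A (k + m) q := by
  unfold ZG Zq
  refine Finset.sum_le_sum fun x _ => ?_
  exact pow_le_pow_left₀ (GG_nonneg A k m _) (GG_le (odd_of hp) A k m _) q

lemma log_p_gt (hp : p = 3 ∨ p = 5) : 1 < Real.log p := by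
  have h3 : (1 : ℝ) < Real.log 3 := by
    have := Real.exp_one_lt_d9
    rw [Real.lt_log_iff_exp_lt (by norm_num)]
    linarith
  rcases hp with rfl | rfl
  · exact_mod_cast h3
  · refine lt_trans h3 ?_
    push_cast
    exact Real.log_lt_log (by norm_num) (by norm_num)

/-- the exponential growth rate of the moments is that of `p^n` -/
theorem lim_le (hp : p = 3 ∨ p = 5) (hq : 2 ≤ q) : (sub_log (p := p) (q := q) hp hq).lim ≤ Real.log p := by
  by_contra hcon
  push Not at hcon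
  set u : ℕ → ℝ := fun n => Real.log (sZ p q n) with hu
  set L : ℝ := (sub_log (p := p) (q := q) hp hq).lim with hL
  set κ : ℝ := L - Real.log p with hκ
  have hκ0 : 0 < κ := by rw [hκ]; linarith
  have hodd := odd_of hp
  have hprime := prime_of hp
  have hlogp := log_p_gt hp
  have hLpos : 1 < L := by linarith
  have hzz := zz_pos (p := p) hprime.one_le
  have hzz1 := zz_lt_one p
  set c : ℝ := Real.log (1 / zz p) / 120 with hc
  have hc0 : 0 < c := by
    rw [hc]
    apply div_pos _ (by norm_num)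
    apply Real.log_pos
    rw [lt_div_iff₀ hzz]
    linarith
  have h120 : Real.log (1 / zz p) = 120 * c := by rw [hc]; ring
  obtain ⟨ε₀, hε₀, hcore⟩ := core hprime hq hc0 hκ0
  have htend : Tendsto (fun n : ℕ => u n / n) atTop (𝓝 L) :=
    (sub_log (p := p) (q := q) hp hq).tendsto_lim (bdd hp hq)
  have hLle : ∀ n : ℕ, n * L ≤ u n := by
    intro n
    rcases Nat.eq_zero_or_pos n with rfl | hn
    · have := le_log_sZ hp hq 0
      simpa using this
    · have := (sub_log (p := p) (q := q) hp hq).lim_le_div (bdd hp hq) hn.ne'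
      have hn' : (0 : ℝ) < n := by exact_mod_cast hn
      rw [le_div_iff₀ hn'] at this
      linarith
  have hev : ∀ d : ℝ, 0 < d → ∃ n₁ : ℕ, 1 ≤ n₁ ∧ ∀ n, n₁ ≤ n → u n ≤ (L + d) * n := by
    intro d hd
    have h1 : ∀ᶠ n : ℕ in atTop, u n / n < L + d := (tendsto_order.1 htend).2 _ (by linarith)
    obtain ⟨n₁, hn₁⟩ := eventually_atTop.1 h1
    refine ⟨max n₁ 1, le_max_right _ _, fun n hn => ?_⟩
    have hn1 : 1 ≤ n := le_trans (le_max_right _ _) hn
    have hn0 : (0 : ℝ) < n := by exact_mod_cast hn1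
    have := hn₁ n (le_trans (le_max_left _ _) hn)
    rw [div_lt_iff₀ hn0] at this
    exact this.le
  -- the window length
  obtain ⟨l, hl1, hl⟩ := hev (ε₀ / 4) (by positivity)
  have hul := hl l le_rfl
  have hlr : (0 : ℝ) < l := by exact_mod_cast hl1
  obtain ⟨δ, hδ, m₀, hm⟩ := hcore l hl1
  have hζ : (l : ℝ) * (Real.log p + κ) ≤ u l := by
    have := hLle l
    rw [hκ]
    linarith
  -- the small parameter
  set d : ℝ := min (c / 100) (min (δ / 100) (min (ε₀ / 100) (1 / 1000))) with hd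
  have hd0 : 0 < d := by
    rw [hd]
    exact lt_min (by positivity) (lt_min (by positivity) (lt_min (by positivity) (by norm_num)))
  have hdc : d ≤ c / 100 := min_le_left _ _
  have hdδ : d ≤ δ / 100 := le_trans (min_le_right _ _) (min_le_left _ _)
  have hdε : d ≤ ε₀ / 100 :=
    le_trans (min_le_right _ _) (le_trans (min_le_right _ _) (min_le_left _ _))
  have hd1 : d ≤ 1 / 1000 :=
    le_trans (min_le_right _ _) (le_trans (min_le_right _ _) (min_le_right _ _))
  obtain ⟨n₁, hn₁, hev1⟩ := hev d hd0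
  set K0 : ℝ := 3 * (q + 1) * Real.log 2 + Real.log 2 + c / 4 - 1 - Real.log (c / 4) with hK0
  obtain ⟨k₁, hk₁⟩ := exists_nat_ge (|K0| / (43 * c))
  obtain ⟨k₂, hk₂⟩ := exists_nat_ge (4 * (q + 1) * Real.log 2 / (57 * δ))
  obtain ⟨k₃, hk₃⟩ := exists_nat_ge ((2 * (q + 1) * Real.log 2 + 2 * q * l * Real.log p) / (44 * ε₀))
  set k : ℕ := n₁ + k₁ + k₂ + k₃ + m₀ + q + 1 with hk
  have hk1 : 1 ≤ k := by omega
  have hkr : (1 : ℝ) ≤ k := by exact_mod_cast hk1
  have hkk₁ : (k₁ : ℝ) ≤ k := by exact_mod_cast (show k₁ ≤ k by omega)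
  have hkk₂ : (k₂ : ℝ) ≤ k := by exact_mod_cast (show k₂ ≤ k by omega)
  have hkk₃ : (k₃ : ℝ) ≤ k := by exact_mod_cast (show k₃ ≤ k by omega)
  have hkq : ((q : ℝ) + 1) ≤ k := by exact_mod_cast (show q + 1 ≤ k by omega)
  have e1 : K0 ≤ 43 * c * k := by
    have h1 : |K0| / (43 * c) ≤ k := le_trans hk₁ hkk₁
    rw [div_le_iff₀ (by positivity)] at h1
    have := le_abs_self K0
    linarith
  have e2 : 4 * (q + 1) * Real.log 2 ≤ 57 * δ * k := by
    have h1 : 4 * (q + 1) * Real.log 2 / (57 * δ) ≤ k := le_trans hk₂ hkk₂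
    rw [div_le_iff₀ (by positivity)] at h1
    linarith
  have e3 : 2 * (q + 1) * Real.log 2 + 2 * q * l * Real.log p ≤ 44 * ε₀ * k := by
    have h1 := le_trans hk₃ hkk₃
    rw [div_le_iff₀ (by positivity)] at h1
    linarith
  have hlog2 : 0 < Real.log 2 := Real.log_pos (by norm_num)
  have hlog2' : Real.log 2 < 1 := by have := Real.log_two_lt_d9; linarith
  have huk : u k ≤ (L + d) * k := hev1 k (by omega)
  have hu60 : u (60 * k) ≤ (L + d) * (60 * k) := by
    have := hev1 (60 * k) (by omega)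
    push_cast at this
    exact this
  have hu61 : 61 * k * L ≤ u (k + 60 * k) := by
    have := hLle (k + 60 * k)
    push_cast at this
    linarith
  -- the cap
  obtain ⟨A, hA1, hA⟩ := exists_cap hodd (q := q) (by omega) k (k + 60 * k)
  obtain ⟨hcap1, hcap2⟩ := hA A le_rfl
  have hZk := Zq_pos hodd A k q hA1
  have hZm := Zq_pos hodd A (60 * k) q hA1
  have hZn := Zq_pos hodd A (k + 60 * k) q hA1
  have hlogZk : Real.log (Zq p A k q) ≤ u k := Real.log_le_log hZk (Zq_le_sZ hodd A k q)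
  have hlogZm : Real.log (Zq p A (60 * k) q) ≤ u (60 * k) :=
    Real.log_le_log hZm (Zq_le_sZ hodd A (60 * k) q)
  have hlogZn : u (k + 60 * k) - Real.log 2 ≤ Real.log (Zq p A (k + 60 * k) q) := by
    have h1 := Real.log_le_log (sZ_pos hp hq (k + 60 * k)) hcap2
    rw [Real.log_mul (by norm_num) hZn.ne'] at h1
    show Real.log (sZ p q (k + 60 * k)) - Real.log 2 ≤ _
    linarith
  -- truncation
  have htr : 2 ^ q * Zq p A (60 * k) q ≤ 100 ^ k * Zq p A (k + 60 * k) q := by
    have h100 : (4 : ℝ) ≤ Real.log 100 := by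
      have h : Real.exp 4 ≤ 100 := by
        have h1 := Real.exp_one_lt_d9
        have h2 : Real.exp 4 = Real.exp 1 ^ 4 := by rw [← Real.exp_nat_mul]; norm_num
        rw [h2]
        calc Real.exp 1 ^ 4 ≤ (2.7182818286 : ℝ) ^ 4 := pow_le_pow_left₀ (Real.exp_pos 1).le h1.le 4
          _ ≤ 100 := by norm_num
      rw [Real.le_log_iff_exp_le (by norm_num)]
      exact h
    have h1 : Real.log (2 ^ q * Zq p A (60 * k) q) ≤ Real.log (100 ^ k * Zq p A (k + 60 * k) q) := by
      rw [Real.log_mul (by positivity) hZm.ne', Real.log_mul (by positivity) hZn.ne',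
        Real.log_pow, Real.log_pow]
      have h2 : (k : ℝ) * 4 ≤ k * Real.log 100 := mul_le_mul_of_nonneg_left h100 (by linarith)
      have h3 : ((q : ℝ) + 1) * Real.log 2 ≤ k * 1 :=
        mul_le_mul hkq hlog2'.le hlog2.le (by linarith)
      have h4 : d * (60 * k) ≤ 1 / 1000 * (60 * k) := mul_le_mul_of_nonneg_right hd1 (by linarith)
      have h5 : 0 ≤ (k : ℝ) * L := by nlinarith
      nlinarith
    exact (Real.log_le_log_iff (by positivity) (by positivity)).1 h1
  have hZG := ZG_ge hp hq A k htr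
  have hG : 0 < ZG p A k (60 * k) q := by
    have h2 : (0 : ℝ) < 2 ^ q := by positivity
    by_contra hneg
    push Not at hneg
    have := mul_nonpos_of_nonneg_of_nonpos h2.le hneg
    linarith
  have hlogG : Real.log (Zq p A (k + 60 * k) q) - q * Real.log 2 ≤ Real.log (ZG p A k (60 * k) q) := by
    have h1 := Real.log_le_log hZn hZG
    rw [Real.log_mul (by positivity) hG.ne', Real.log_pow] at h1
    linarith
  set GEE : ℝ := GE p A k (60 * k) q with hGE
  have hGEeq : GEE = Real.log (Zq p A k q) + Real.log (Zq p A (60 * k) q)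
      - Real.log (ZG p A k (60 * k) q) := rfl
  have hGEle : GEE ≤ 61 * d * k + (q + 1) * Real.log 2 := by
    rw [hGEeq]
    nlinarith
  have hGE0 : 0 ≤ GEE := by
    rw [hGEeq]
    have h1 := Real.log_le_log hG (ZG_le hp hq A k (60 * k))
    have h2 := Real.log_le_log hZn (Zq_sub hodd (q := q) (by omega) A k (60 * k))
    rw [Real.log_mul hZk.ne' hZm.ne'] at h2
    linarith
  -- apply core
  have hZl : ∀ A, Zq p A l q ≤ Real.exp (u l) := by
    intro A
    show _ ≤ Real.exp (Real.log (sZ p q l))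
    rw [Real.exp_log (sZ_pos hp hq l)]
    exact Zq_le_sZ hodd A l q
  have hcast : (((60 * k : ℕ)) : ℝ) = 60 * k := by push_cast; ring
  refine hm (60 * k) (by omega) (u l) hζ (Gs p A k (60 * k)) (Gw p A k (60 * k) q) (Gγ p k)
    (GX p k) (GY p k) (fun i g y => GR p A k (60 * k) l i g y)
    (Gw_nonneg hp hG) (Gw_total hp hq hG) (fun i g y => GR_nonneg _ i g y)
    (fun i hi => GR_pos hp hq hG i hi)
    (fun i hi ω hω => GR_sum hp _ i hi _ _)
    (fun i hi ω hω => (GR_sum_pow hp hq _ i hi _ _ hA1).trans (hZl A)) ?_ ?_ ?_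
  · refine le_trans ?_ (law_X hp hq hk1 hA1 hG hcap1)
    rw [hcast, h120]
    have hlogk : Real.log (60 * k + 1) ≤ c / 4 * (60 * k + 1) - 1 - Real.log (c / 4) := by
      have hx : (0 : ℝ) < 60 * k + 1 := by linarith
      have h1 := Real.log_le_sub_one_of_pos (mul_pos (show (0 : ℝ) < c / 4 by positivity) hx)
      rw [Real.log_mul (by positivity) hx.ne'] at h1
      linarith
    have h3 : 183 * d * k ≤ 183 * (c / 100) * k := by
      have := mul_le_mul_of_nonneg_right hdc (show (0 : ℝ) ≤ k by linarith)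
      linarith
    have h4 : 0 ≤ c * k := by positivity
    show c * (60 * k) ≤ k * (120 * c) - 3 * GEE - Real.log 2 - Real.log (60 * k + 1)
    nlinarith
  · refine le_trans (law_sum hp hq hk1 hA1 hG) ?_
    rw [hcast]
    show 4 * GEE ≤ δ * (60 * k)
    have h3 : 244 * d * k ≤ 244 * (δ / 100) * k := by
      have := mul_le_mul_of_nonneg_right hdδ (show (0 : ℝ) ≤ k by linarith)
      linarith
    have h4 : 0 ≤ δ * k := by positivity
    nlinarith
  · intro r hr
    refine le_trans ?_ (law_R hp hq hk1 hA1 hl1 hG r hr)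
    rw [hcast]
    show u l / l * (60 * k) - ε₀ * (60 * k) ≤
      Real.log (Zq p A (60 * k) q) - 2 * GEE - 2 * q * l * Real.log p
    have h1 : u l / l ≤ L + ε₀ / 4 := by rw [div_le_iff₀ hlr]; exact hul
    have h2 : u l / l * (60 * k) ≤ (L + ε₀ / 4) * (60 * k) :=
      mul_le_mul_of_nonneg_right h1 (by linarith)
    have h3 : 62 * d * k ≤ 62 * (ε₀ / 100) * k := by
      have := mul_le_mul_of_nonneg_right hdε (show (0 : ℝ) ≤ k by linarith)
      linarith
    have h4 : 0 ≤ ε₀ * k := by positivity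
    have h5 : Real.log (Zq p A (60 * k) q) = GEE + Real.log (ZG p A k (60 * k) q)
        - Real.log (Zq p A k q) := by rw [hGEeq]; ring
    rw [h5]
    nlinarith

end

theorem Zq_upper {p q : ℕ} (hp : p = 3 ∨ p = 5) (hq : 2 ≤ q) {ε : ℝ} (hε : 0 < ε) :
    ∃ n₀ : ℕ, ∀ n, n₀ ≤ n → ∀ A, Zq p A n q ≤ (p : ℝ) ^ n * Real.exp (ε * n) := by
  have h1 : ∀ᶠ n : ℕ in atTop, Real.log (sZ p q n) / n < Real.log p + ε :=
    (tendsto_order.1 ((sub_log (p := p) (q := q) hp hq).tendsto_lim (bdd hp hq))).2 _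
      (by have := lim_le (p := p) (q := q) hp hq; linarith)
  obtain ⟨n₁, hn₁⟩ := eventually_atTop.1 h1
  refine ⟨max n₁ 1, fun n hn A => ?_⟩
  have hn1 : 1 ≤ n := le_trans (le_max_right _ _) hn
  have hn0 : (0 : ℝ) < n := by exact_mod_cast hn1
  have h2 := hn₁ n (le_trans (le_max_left _ _) hn)
  rw [div_lt_iff₀ hn0] at h2
  refine le_trans (Zq_le_sZ (odd_of hp) A n q) ?_
  have h3 : sZ p q n ≤ Real.exp ((Real.log p + ε) * n) := by
    rw [← Real.log_le_iff_le_exp (sZ_pos hp hq n)]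
    exact h2.le
  refine le_trans h3 (le_of_eq ?_)
  have hp0 : (0 : ℝ) < p := by exact_mod_cast (prime_of hp).pos
  rw [add_mul, Real.exp_add, mul_comm (Real.log p) (n : ℝ), Real.exp_nat_mul, Real.exp_log hp0]

/-- the upper half -/
theorem upper {p : ℕ} (hp : p = 3 ∨ p = 5) {ε : ℝ} (hε : 0 < ε) :
    ∃ C : ℝ, 0 < C ∧ ∀ (A n : ℕ) (x : ℤ), DD p A n x ≤ C * Real.exp (ε * n) := by
  have hp0 : (0 : ℝ) < p := by exact_mod_cast (prime_of hp).pos
  have hp1 : (1 : ℝ) ≤ p := by exact_mod_cast (prime_of hp).one_le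
  have hlogp := log_p_gt hp
  obtain ⟨q', hq'⟩ := exists_nat_ge (2 * Real.log p / ε)
  set q : ℕ := q' + 2 with hq
  have hq2 : 2 ≤ q := by omega
  have hqr : (2 : ℝ) ≤ q := by exact_mod_cast hq2
  have hqε : 2 * Real.log p ≤ ε * q := by
    rw [div_le_iff₀ hε] at hq'
    have : (q' : ℝ) ≤ q := by exact_mod_cast (show q' ≤ q by omega)
    nlinarith
  obtain ⟨n₀, hn₀⟩ := Zq_upper (p := p) (q := q) hp hq2 (ε := ε / 2) (by positivity)
  refine ⟨(p : ℝ) ^ n₀, by positivity, fun A n x => ?_⟩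
  rcases le_or_gt n₀ n with hn | hn
  · have hN : (0 : ℤ) < (p : ℤ) ^ n := by
      have : 0 < p := (prime_of hp).pos
      positivity
    -- reduce mod p^n
    have hx : DD p A n x = DD p A n ((x % (p : ℤ) ^ n).toNat : ℤ) := by
      have h1 : x = (x % (p : ℤ) ^ n).toNat + (p : ℤ) ^ n * (x / (p : ℤ) ^ n) := by
        rw [Int.toNat_of_nonneg (Int.emod_nonneg _ hN.ne')]
        exact (Int.emod_add_mul_ediv _ _).symm
      conv_lhs => rw [h1]
      exact DD_shift A n _ _
    have hmem : (x % (p : ℤ) ^ n).toNat ∈ range (p ^ n) := by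
      rw [Finset.mem_range]
      have h1 := Int.emod_lt_of_pos x hN
      have h2 := Int.emod_nonneg x hN.ne'
      have h3 : (((x % (p : ℤ) ^ n).toNat : ℕ) : ℤ) < ((p ^ n : ℕ) : ℤ) := by
        rw [Int.toNat_of_nonneg h2]
        push_cast
        exact h1
      exact_mod_cast h3
    have h1 : DD p A n x ^ q ≤ Zq p A n q := by
      rw [hx]
      unfold Zq
      exact Finset.single_le_sum (f := fun y : ℕ => DD p A n (y : ℤ) ^ q)
        (fun y _ => pow_nonneg (DD_nonneg A n _) q) hmem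
    have h2 := hn₀ n hn A
    have h3 : DD p A n x ^ q ≤ (Real.exp (ε * n)) ^ q := by
      refine le_trans (le_trans h1 h2) ?_
      rw [← Real.exp_nat_mul]
      have h4 : (p : ℝ) ^ n = Real.exp (n * Real.log p) := by
        rw [Real.exp_nat_mul, Real.exp_log hp0]
      rw [h4, ← Real.exp_add]
      apply Real.exp_le_exp.2
      have hnn : (0 : ℝ) ≤ n := Nat.cast_nonneg n
      nlinarith [mul_le_mul_of_nonneg_left hqε hnn, mul_nonneg hε.le hnn,
        mul_nonneg (mul_nonneg hε.le hnn) (show (0 : ℝ) ≤ q - 2 by linarith)]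
    have h4 : DD p A n x ≤ Real.exp (ε * n) :=
      le_of_pow_le_pow_left₀ (by omega) (Real.exp_pos _).le h3
    have h5 : (1 : ℝ) ≤ (p : ℝ) ^ n₀ := one_le_pow₀ hp1
    have h6 := Real.exp_pos (ε * n)
    nlinarith
  · have h1 := DD_le (odd_of hp) A n x
    have h2 : (p : ℝ) ^ n ≤ (p : ℝ) ^ n₀ := pow_le_pow_right₀ hp1 hn.le
    have h3 : 1 ≤ Real.exp (ε * n) := Real.one_le_exp (by positivity)
    have h4 : (0 : ℝ) < (p : ℝ) ^ n₀ := by positivity
    nlinarith

end Pool.Agent.H377R2.NK
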