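import Pool.Agent.H377R2.NK.Defs

/-!
Task U2 (WIN): a compactness lemma on `ℤ/p^l`.
-/

set_option autoImplicit false
set_option linter.unusedVariables false
set_option linter.unusedSectionVars false

namespace Pool.Agent.H377R2.NK

open Finset

namespace Win

/-! ### push-forwards and entropies on finite types -/

/-- Shannon entropy -/
noncomputable def HH {κ : Type*} [Fintype κ] (m : κ → ℝ) : ℝ := ∑ c, Real.negMulLog (m c)

theorem HH_eq {κ : Type*} [Fintype κ] (m : κ → ℝ) : HH m = - ∑ c, m c * Real.log (m c) := by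
  unfold HH
  rw [← Finset.sum_neg_distrib]
  refine Finset.sum_congr rfl fun c _ => ?_
  rw [Real.negMulLog]; ring

section Push

variable {X κ : Type*} [Fintype X] [DecidableEq κ]

/-- push-forward -/
noncomputable def push (φ : X → κ) (π : X → ℝ) (c : κ) : ℝ :=
  ∑ x ∈ univ.filter (fun x => φ x = c), π x

theorem push_nonneg {φ : X → κ} {π : X → ℝ} (h : ∀ x, 0 ≤ π x) (c : κ) : 0 ≤ push φ π c :=
  Finset.sum_nonneg fun x _ => h x

theorem le_push {φ : X → κ} {π : X → ℝ} (h : ∀ x, 0 ≤ π x) (x : X) : π x ≤ push φ π (φ x) := by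
  unfold push
  exact Finset.single_le_sum (f := π) (fun y _ => h y) (by simp)

theorem sum_push_mul [Fintype κ] (φ : X → κ) (π : X → ℝ) (g : κ → ℝ) :
    ∑ c, push φ π c * g c = ∑ x, π x * g (φ x) := by
  unfold push
  rw [← Finset.sum_fiberwise (s := univ) (g := φ) (f := fun x => π x * g (φ x))]
  refine Finset.sum_congr rfl fun c _ => ?_
  rw [Finset.sum_mul]
  refine Finset.sum_congr rfl fun x hx => ?_
  rw [(Finset.mem_filter.1 hx).2]

theorem sum_push [Fintype κ] (φ : X → κ) (π : X → ℝ) : ∑ c, push φ π c = ∑ x, π x := by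
  have := sum_push_mul φ π (fun _ => 1)
  simpa using this

theorem HH_push [Fintype κ] (φ : X → κ) (π : X → ℝ) :
    HH (push φ π) = - ∑ x, π x * Real.log (push φ π (φ x)) := by
  rw [HH_eq, sum_push_mul φ π (fun c => Real.log (push φ π c))]

end Push

/-! ### Gibbs inequality with equality case -/

theorem gibbs_term {a b : ℝ} (ha : 0 ≤ a) (hb : 0 ≤ b) (hab : b = 0 → a = 0) :
    a - b ≤ a * (Real.log a - Real.log b) := by
  rcases ha.eq_or_lt with h | h
  · rw [← h]; simp; exact hb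
  · have hb' : 0 < b := by
      rcases hb.eq_or_lt with h' | h'
      · exact absurd (hab h'.symm) h.ne'
      · exact h'
    have h1 := Real.log_le_sub_one_of_pos (div_pos hb' h)
    rw [Real.log_div hb'.ne' h.ne'] at h1
    have h2 : a * (Real.log b - Real.log a) ≤ a * (b / a - 1) := mul_le_mul_of_nonneg_left h1 h.le
    have h3 : a * (b / a - 1) = b - a := by field_simp
    nlinarith

theorem gibbs_term_eq {a b : ℝ} (ha : 0 ≤ a) (hb : 0 ≤ b) (hab : b = 0 → a = 0)
    (h0 : a * (Real.log a - Real.log b) ≤ a - b) : a = b := by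
  rcases ha.eq_or_lt with h | h
  · rw [← h] at h0 ⊢; simp at h0; linarith
  · have hb' : 0 < b := by
      rcases hb.eq_or_lt with h' | h'
      · exact absurd (hab h'.symm) h.ne'
      · exact h'
    by_contra hne
    have h1 := Real.log_lt_sub_one_of_pos (div_pos hb' h) (by
      intro h5; apply hne; rw [div_eq_one_iff_eq h.ne'] at h5; exact h5.symm)
    rw [Real.log_div hb'.ne' h.ne'] at h1
    have h2 : a * (Real.log b - Real.log a) < a * (b / a - 1) := mul_lt_mul_of_pos_left h1 h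
    have h3 : a * (b / a - 1) = b - a := by field_simp
    nlinarith

theorem gibbs_nonneg {X : Type*} [Fintype X] (a b : X → ℝ) (ha : ∀ x, 0 ≤ a x)
    (hb : ∀ x, 0 ≤ b x) (hab : ∀ x, b x = 0 → a x = 0) (hs : ∑ x, a x = ∑ x, b x) :
    0 ≤ ∑ x, a x * (Real.log (a x) - Real.log (b x)) := by
  have : ∑ x, (a x - b x) ≤ ∑ x, a x * (Real.log (a x) - Real.log (b x)) :=
    Finset.sum_le_sum fun x _ => gibbs_term (ha x) (hb x) (hab x)
  rw [Finset.sum_sub_distrib, hs, sub_self] at this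
  exact this

theorem gibbs_eq {X : Type*} [Fintype X] (a b : X → ℝ) (ha : ∀ x, 0 ≤ a x)
    (hb : ∀ x, 0 ≤ b x) (hab : ∀ x, b x = 0 → a x = 0) (hs : ∑ x, a x = ∑ x, b x)
    (h0 : ∑ x, a x * (Real.log (a x) - Real.log (b x)) ≤ 0) : ∀ x, a x = b x := by
  intro x
  apply gibbs_term_eq (ha x) (hb x) (hab x)
  by_contra hlt
  push Not at hlt
  have : ∑ x, (a x - b x) < ∑ x, a x * (Real.log (a x) - Real.log (b x)) :=
    Finset.sum_lt_sum (fun y _ => gibbs_term (ha y) (hb y) (hab y)) ⟨x, mem_univ x, hlt⟩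
  rw [Finset.sum_sub_distrib, hs, sub_self] at this
  linarith

/-! ### conditional entropy of the formal definition -/

section Law

variable {Ω X : Type*} [DecidableEq X]

/-- the normalised law of `T` -/
noncomputable def law (s : Finset Ω) (w : Ω → ℝ) (T : Ω → X) (x : X) : ℝ :=
  (∑ ω ∈ s.filter (fun ω => T ω = x), w ω) / ∑ ω ∈ s, w ω

theorem law_nonneg {s : Finset Ω} {w : Ω → ℝ} (hw : ∀ ω ∈ s, 0 ≤ w ω) (T : Ω → X) (x : X) :
    0 ≤ law s w T x :=
  div_nonneg (Finset.sum_nonneg fun ω hω => hw ω (Finset.mem_filter.1 hω).1)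
    (Finset.sum_nonneg hw)

theorem law_sum [Fintype X] {s : Finset Ω} {w : Ω → ℝ} (hW : 0 < ∑ ω ∈ s, w ω) (T : Ω → X) :
    ∑ x, law s w T x = 1 := by
  unfold law
  rw [← Finset.sum_div, Finset.sum_fiberwise, div_self hW.ne']

theorem push_law [Fintype X] {κ : Type*} [DecidableEq κ] {s : Finset Ω} {w : Ω → ℝ}
    (hW : 0 < ∑ ω ∈ s, w ω) (T : Ω → X) (φ : X → κ) (c : κ) :
    (∑ ω ∈ s, w ω) * push φ (law s w T) c = ∑ ω ∈ s.filter (fun ω => φ (T ω) = c), w ω := by
  unfold push law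
  rw [← Finset.sum_div, mul_div_cancel₀ _ hW.ne']
  rw [← Finset.sum_fiberwise (s := s.filter (fun ω => φ (T ω) = c)) (g := T) (f := w)]
  rw [Finset.sum_filter]
  refine Finset.sum_congr rfl fun x _ => ?_
  split_ifs with h
  · refine Finset.sum_congr ?_ fun _ _ => rfl
    ext ω
    simp only [Finset.mem_filter]
    constructor
    · rintro ⟨h1, h2⟩; exact ⟨⟨h1, by rw [h2]; exact h⟩, h2⟩
    · rintro ⟨⟨h1, _⟩, h2⟩; exact ⟨h1, h2⟩
  · symm
    apply Finset.sum_eq_zero
    intro ω hω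
    simp only [Finset.mem_filter] at hω
    exact absurd (by rw [← hω.2]; exact hω.1.2) h

theorem CE_push [Fintype X] {α κ : Type*} [Fintype κ] [DecidableEq κ] {s : Finset Ω} {w : Ω → ℝ}
    (hw : ∀ ω ∈ s, 0 ≤ w ω) (hW : 0 < ∑ ω ∈ s, w ω) (T : Ω → X) (φ : X → κ) (f : Ω → α)
    (hf : ∀ ω ω', f ω' = f ω ↔ φ (T ω') = φ (T ω)) :
    CE s w f (fun _ => ()) = (∑ ω ∈ s, w ω) * HH (push φ (law s w T)) := by
  classical
  have h1 : ∀ ω, mm s w (fun _ : Ω => ()) ω = ∑ ω ∈ s, w ω := by
    intro ω; unfold mm; simp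
  have h2 : ∀ ω, mm s w (fun ω => (f ω, ())) ω
      = (∑ ω ∈ s, w ω) * push φ (law s w T) (φ (T ω)) := by
    intro ω
    rw [push_law hW]
    unfold mm
    refine Finset.sum_congr ?_ fun _ _ => rfl
    ext ω'
    simp only [Finset.mem_filter, Prod.mk.injEq, and_true]
    rw [hf]
  unfold CE
  simp only [h1, h2]
  have h3 : ∀ ω ∈ s, w ω * (Real.log (∑ ω ∈ s, w ω) -
      Real.log ((∑ ω ∈ s, w ω) * push φ (law s w T) (φ (T ω)))) =
      - (w ω * Real.log (push φ (law s w T) (φ (T ω)))) := by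
    intro ω hω
    rcases (hw ω hω).eq_or_lt with h | h
    · rw [← h]; simp
    · have hp : 0 < push φ (law s w T) (φ (T ω)) := by
        have h4 : (∑ ω ∈ s, w ω) * push φ (law s w T) (φ (T ω)) > 0 := by
          rw [push_law hW]
          refine lt_of_lt_of_le h ?_
          exact Finset.single_le_sum (f := w)
            (fun y hy => hw y (Finset.mem_filter.1 hy).1) (by simp [hω])
        exact pos_of_mul_pos_right h4 hW.le
      rw [Real.log_mul hW.ne' hp.ne']
      ring
  rw [Finset.sum_congr rfl h3, Finset.sum_neg_distrib, HH_eq, mul_neg, Finset.mul_sum]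
  congr 1
  rw [← Finset.sum_fiberwise (s := s) (g := fun ω => φ (T ω))]
  refine Finset.sum_congr rfl fun c _ => ?_
  rw [← mul_assoc, push_law hW, Finset.sum_mul]
  refine Finset.sum_congr rfl fun ω hω => ?_
  rw [(Finset.mem_filter.1 hω).2]

end Law

/-! ### the functional on `ℤ/N × ℤ/N` -/

section Fun

variable {N : ℕ} [NeZero N]

/-- the functional -/
noncomputable def FF (π : ZMod N × ZMod N → ℝ) : ℝ :=
  HH (push (fun x => x.1 + x.2) π) + 2 * HH (push Prod.fst π) + HH (push Prod.snd π) - 2 * HH π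

theorem FF_eq (π : ZMod N × ZMod N → ℝ) (h0 : ∀ x, 0 ≤ π x) :
    FF π = ∑ x, π x * (Real.log (π x) - Real.log (push Prod.fst π x.1 * push Prod.snd π x.2)) +
      ∑ x, π x * (Real.log (π x) -
        Real.log (push Prod.fst π x.1 * push (fun x => x.1 + x.2) π (x.1 + x.2))) := by
  unfold FF
  rw [HH_push, HH_push, HH_push, HH_eq π]
  have e1 : ∀ x, π x * (Real.log (π x) - Real.log (push Prod.fst π x.1 * push Prod.snd π x.2)) =
      π x * Real.log (π x) - π x * Real.log (push Prod.fst π x.1) -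
        π x * Real.log (push Prod.snd π x.2) := by
    intro x
    rcases (h0 x).eq_or_lt with h | h
    · rw [← h]; simp
    · have h1 := lt_of_lt_of_le h (le_push (φ := Prod.fst) h0 x)
      have h2 := lt_of_lt_of_le h (le_push (φ := Prod.snd) h0 x)
      rw [Real.log_mul h1.ne' h2.ne']; ring
  have e2 : ∀ x, π x * (Real.log (π x) -
        Real.log (push Prod.fst π x.1 * push (fun x => x.1 + x.2) π (x.1 + x.2))) =
      π x * Real.log (π x) - π x * Real.log (push Prod.fst π x.1) -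
        π x * Real.log (push (fun x => x.1 + x.2) π (x.1 + x.2)) := by
    intro x
    rcases (h0 x).eq_or_lt with h | h
    · rw [← h]; simp
    · have h1 := lt_of_lt_of_le h (le_push (φ := Prod.fst) h0 x)
      have h2 := lt_of_lt_of_le h (le_push (φ := fun x : ZMod N × ZMod N => x.1 + x.2) h0 x)
      rw [Real.log_mul h1.ne' h2.ne']; ring
  rw [Finset.sum_congr rfl fun x _ => e1 x, Finset.sum_congr rfl fun x _ => e2 x]
  simp only [Finset.sum_sub_distrib]
  ring

theorem sum_q1 (π : ZMod N × ZMod N → ℝ) (h1 : ∑ x, π x = 1) :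
    ∑ x : ZMod N × ZMod N, push Prod.fst π x.1 * push Prod.snd π x.2 = 1 := by
  rw [Fintype.sum_prod_type]
  simp only [← Finset.mul_sum]
  rw [← Finset.sum_mul, sum_push, sum_push, h1, one_mul]

theorem sum_q2 (π : ZMod N × ZMod N → ℝ) (h1 : ∑ x, π x = 1) :
    ∑ x : ZMod N × ZMod N, push Prod.fst π x.1 * push (fun x => x.1 + x.2) π (x.1 + x.2) = 1 := by
  rw [Fintype.sum_prod_type]
  simp only [← Finset.mul_sum]
  have : ∀ a : ZMod N, ∑ b, push (fun x : ZMod N × ZMod N => x.1 + x.2) π (a + b) = 1 := by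
    intro a
    rw [← h1, ← sum_push (fun x : ZMod N × ZMod N => x.1 + x.2) π]
    exact Fintype.sum_equiv (Equiv.addLeft a) _ _ fun b => rfl
  simp only [this, mul_one]
  rw [sum_push, h1]

end Fun

theorem HH_of_const {κ : Type*} [Fintype κ] [Nonempty κ] (m : κ → ℝ) (c0 : κ) (h : ∀ c, m c = m c0)
    (h1 : ∑ c, m c = 1) : HH m = Real.log (Fintype.card κ) := by
  have hc : (0 : ℝ) < Fintype.card κ := by exact_mod_cast Fintype.card_pos
  have h2 : m c0 = 1 / Fintype.card κ := by
    rw [Finset.sum_congr rfl fun c _ => h c] at h1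
    simp at h1
    field_simp
    linarith
  rw [HH_eq, Finset.sum_congr rfl fun c _ => by rw [h c]]
  rw [Finset.sum_const, Finset.card_univ, nsmul_eq_mul, h2]
  rw [one_div, Real.log_inv]
  field_simp

theorem HH_of_single {κ : Type*} [Fintype κ] (m : κ → ℝ) (c0 : κ) (h : ∀ c, c ≠ c0 → m c = 0)
    (h1 : ∑ c, m c = 1) : HH m = 0 := by
  classical
  have h2 : m c0 = 1 := by
    rw [← h1]
    symm
    exact Finset.sum_eq_single c0 (fun c _ hc => h c hc) (by simp)
  unfold HH
  apply Finset.sum_eq_zero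
  intro c _
  by_cases hc : c = c0
  · rw [hc, h2]; simp
  · rw [h c hc]; simp

/-- positivity of the functional -/
theorem FF_pos {p l : ℕ} (hp : p.Prime) (hl : 1 ≤ l) {η : ℝ} (hη : 0 < η)
    [NeZero p] [NeZero (p ^ l)] (φ : ZMod (p ^ l) → ZMod p)
    (hφ : ∀ a : ZMod (p ^ l), φ a = ((a.val : ℕ) : ZMod p))
    (hφs : ∀ a b : ZMod (p ^ l), φ (a - b) = φ a - φ b)
    (π : ZMod (p ^ l) × ZMod (p ^ l) → ℝ) (h0 : ∀ x, 0 ≤ π x) (h1 : ∑ x, π x = 1)
    (hU : η ≤ HH (push (fun x => φ x.1) π))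
    (hV : HH (push Prod.snd π) ≤ l * Real.log p - η) : 0 < FF π := by
  by_contra hF
  push Not at hF
  set μ := push Prod.fst π with hμ
  set ν := push Prod.snd π with hν
  set ρ := push (fun x : ZMod (p ^ l) × ZMod (p ^ l) => x.1 + x.2) π with hρ
  have hμ0 : ∀ a, 0 ≤ μ a := fun a => push_nonneg h0 a
  have hν0 : ∀ a, 0 ≤ ν a := fun a => push_nonneg h0 a
  have hρ0 : ∀ a, 0 ≤ ρ a := fun a => push_nonneg h0 a
  have z1 : ∀ x : ZMod (p ^ l) × ZMod (p ^ l), μ x.1 * ν x.2 = 0 → π x = 0 := by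
    intro x hx
    rcases mul_eq_zero.1 hx with h | h
    · exact le_antisymm (h ▸ le_push (φ := Prod.fst) h0 x) (h0 x)
    · exact le_antisymm (h ▸ le_push (φ := Prod.snd) h0 x) (h0 x)
  have z2 : ∀ x : ZMod (p ^ l) × ZMod (p ^ l), μ x.1 * ρ (x.1 + x.2) = 0 → π x = 0 := by
    intro x hx
    rcases mul_eq_zero.1 hx with h | h
    · exact le_antisymm (h ▸ le_push (φ := Prod.fst) h0 x) (h0 x)
    · exact le_antisymm
        (h ▸ le_push (φ := fun x : ZMod (p ^ l) × ZMod (p ^ l) => x.1 + x.2) h0 x) (h0 x)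
  have g1 := gibbs_nonneg π (fun x => μ x.1 * ν x.2) h0
    (fun x => mul_nonneg (hμ0 _) (hν0 _)) z1 (by rw [h1, sum_q1 π h1])
  have g2 := gibbs_nonneg π (fun x => μ x.1 * ρ (x.1 + x.2)) h0
    (fun x => mul_nonneg (hμ0 _) (hρ0 _)) z2 (by rw [h1, sum_q2 π h1])
  have hFe := FF_eq π h0
  have q1 := gibbs_eq π (fun x => μ x.1 * ν x.2) h0
    (fun x => mul_nonneg (hμ0 _) (hν0 _)) z1 (by rw [h1, sum_q1 π h1]) (by
      simp only [hμ, hν, hρ] at *
      linarith)
  have q2 := gibbs_eq π (fun x => μ x.1 * ρ (x.1 + x.2)) h0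
    (fun x => mul_nonneg (hμ0 _) (hρ0 _)) z2 (by rw [h1, sum_q2 π h1]) (by
      simp only [hμ, hν, hρ] at *
      linarith)
  have key : ∀ a b, μ a * ν b = μ a * ρ (a + b) := fun a b => by
    have e1 := q1 (a, b)
    have e2 := q2 (a, b)
    simp only at e1 e2
    rw [← e1, ← e2]
  -- total mass of μ
  have hμ1 : ∑ a, μ a = 1 := by rw [hμ, sum_push, h1]
  obtain ⟨a1, ha1⟩ : ∃ a, 0 < μ a := by
    by_contra hne
    push Not at hne
    have : ∑ a, μ a ≤ 0 := Finset.sum_nonpos fun a _ => hne a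
    linarith
  obtain ⟨a2, ha2, hne⟩ : ∃ a, 0 < μ a ∧ φ a ≠ φ a1 := by
    by_contra hcon
    push Not at hcon
    have : HH (push (fun x : ZMod (p ^ l) × ZMod (p ^ l) => φ x.1) π) = 0 := by
      apply HH_of_single _ (φ a1)
      · intro c hc
        unfold push
        apply Finset.sum_eq_zero
        intro x hx
        have hx2 := (Finset.mem_filter.1 hx).2
        by_contra hpx
        have hpx' : 0 < π x := lt_of_le_of_ne (h0 x) (Ne.symm hpx)
        have := hcon x.1 (lt_of_lt_of_le hpx' (le_push (φ := Prod.fst) h0 x))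
        exact hc (by rw [← hx2]; exact this)
      · rw [sum_push, h1]
    linarith
  have per : ∀ b, ν b = ν (a1 - a2 + b) := by
    intro b
    have e1 := key a1 b
    have e2 := key a2 (a1 - a2 + b)
    have e3 := mul_left_cancel₀ ha1.ne' e1
    have e4 := mul_left_cancel₀ ha2.ne' e2
    rw [e3, e4]; congr 1; ring
  set d := a1 - a2 with hd
  have hφd : φ d ≠ 0 := by
    rw [hd, hφs]
    exact sub_ne_zero.2 (Ne.symm hne)
  have hunit : IsUnit d := by
    have h3 : Nat.Coprime d.val (p ^ l) := by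
      apply Nat.Coprime.pow_right
      rw [Nat.coprime_comm, hp.coprime_iff_not_dvd]
      intro hdv
      apply hφd
      rw [hφ, ZMod.natCast_eq_zero_iff]
      exact hdv
    have h4 := (ZMod.isUnit_iff_coprime d.val (p ^ l)).2 h3
    rwa [ZMod.natCast_zmod_val] at h4
  have perk : ∀ (k : ℕ) (b : ZMod (p ^ l)), ν b = ν ((k : ZMod (p ^ l)) * d + b) := by
    intro k
    induction k with
    | zero => intro b; simp
    | succ k ih =>
      intro b
      rw [ih b, per]
      congr 1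
      push_cast
      ring
  have hconst : ∀ b, ν b = ν 0 := by
    intro b
    obtain ⟨u, hu⟩ := hunit
    have h5 := perk ((b * (u⁻¹ : (ZMod (p ^ l))ˣ) : ZMod (p ^ l)).val) 0
    rw [ZMod.natCast_zmod_val, add_zero, ← hu, mul_assoc, Units.inv_mul, mul_one] at h5
    exact h5.symm
  have hHH : HH ν = Real.log (Fintype.card (ZMod (p ^ l))) :=
    HH_of_const ν 0 hconst (by rw [hν, sum_push, h1])
  rw [ZMod.card, Nat.cast_pow, Real.log_pow] at hHH
  linarith

theorem continuous_push {X κ : Type*} [Fintype X] [DecidableEq κ] (φ : X → κ) (c : κ) :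
    Continuous fun π : X → ℝ => push φ π c := by
  unfold push
  exact continuous_finsetSum _ fun x _ => continuous_apply x

theorem continuous_HH_push {X κ : Type*} [Fintype X] [Fintype κ] [DecidableEq κ] (φ : X → κ) :
    Continuous fun π : X → ℝ => HH (push φ π) := by
  unfold HH
  exact continuous_finsetSum _ fun c _ => Real.continuous_negMulLog.comp (continuous_push φ c)

theorem continuous_HH {X : Type*} [Fintype X] : Continuous fun π : X → ℝ => HH π := by
  unfold HH
  exact continuous_finsetSum _ fun c _ => Real.continuous_negMulLog.comp (continuous_apply c)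

theorem continuous_FF {N : ℕ} [NeZero N] : Continuous fun π : ZMod N × ZMod N → ℝ => FF π := by
  unfold FF
  exact (((continuous_HH_push _).add (continuous_const.mul (continuous_HH_push _))).add
    (continuous_HH_push _)).sub (continuous_const.mul continuous_HH)

end Win

open Win in
theorem win {p l : ℕ} (hp : p.Prime) (hl : 1 ≤ l) {η : ℝ} (hη : 0 < η) :
    ∃ θ : ℝ, 0 < θ ∧ ∀ {Ω : Type} (s : Finset Ω) (w : Ω → ℝ), (∀ ω ∈ s, 0 ≤ w ω) →
      ∀ U V : Ω → ℤ,
        η * ∑ ω ∈ s, w ω ≤ CE s w (fun ω => U ω % (p : ℤ)) (fun _ => ()) →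
        CE s w (fun ω => V ω % (p : ℤ) ^ l) (fun _ => ())
          ≤ (l * Real.log p - η) * ∑ ω ∈ s, w ω →
        θ * ∑ ω ∈ s, w ω ≤ CE s w (fun ω => (U ω + V ω) % (p : ℤ) ^ l) (fun _ => ())
          + 2 * CE s w (fun ω => U ω % (p : ℤ) ^ l) (fun _ => ())
          + CE s w (fun ω => V ω % (p : ℤ) ^ l) (fun _ => ())
          - 2 * CE s w (fun ω => (U ω % (p : ℤ) ^ l, V ω % (p : ℤ) ^ l)) (fun _ => ()) := by
  haveI : NeZero p := ⟨hp.ne_zero⟩
  haveI : NeZero (p ^ l) := ⟨pow_ne_zero _ hp.ne_zero⟩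
  have hdvd : p ∣ p ^ l := dvd_pow_self p (by omega)
  set φ : ZMod (p ^ l) → ZMod p := fun a => ZMod.castHom hdvd (ZMod p) a with hφdef
  have hφ : ∀ a : ZMod (p ^ l), φ a = ((a.val : ℕ) : ZMod p) := by
    intro a
    rw [hφdef]
    simp only
    conv_lhs => rw [← ZMod.natCast_zmod_val a]
    rw [map_natCast]
  have hφs : ∀ a b : ZMod (p ^ l), φ (a - b) = φ a - φ b := fun a b => map_sub _ a b
  set K : Set (ZMod (p ^ l) × ZMod (p ^ l) → ℝ) :=
    {π | (∀ x, 0 ≤ π x) ∧ ∑ x, π x = 1 ∧ η ≤ HH (push (fun x => φ x.1) π) ∧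
      HH (push Prod.snd π) ≤ l * Real.log p - η} with hK
  have hKc : IsCompact K := by
    have hcl : IsClosed K := by
      have e : K = (⋂ x, {π | 0 ≤ π x}) ∩ ({π | ∑ x, π x = 1} ∩
          ({π | η ≤ HH (push (fun x => φ x.1) π)} ∩
            {π | HH (push Prod.snd π) ≤ l * Real.log p - η})) := by
        ext π; simp [hK]
      rw [e]
      refine IsClosed.inter (isClosed_iInter fun x =>
        isClosed_le continuous_const (continuous_apply x)) (IsClosed.inter
        (isClosed_eq (continuous_finsetSum _ fun x _ => continuous_apply x) continuous_const)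
        (IsClosed.inter (isClosed_le continuous_const (continuous_HH_push _))
          (isClosed_le (continuous_HH_push _) continuous_const)))
    apply IsCompact.of_isClosed_subset (isCompact_Icc (a := (0 : ZMod (p ^ l) × ZMod (p ^ l) → ℝ))
      (b := fun _ => 1)) hcl
    rintro π ⟨h0, h1, -, -⟩
    refine ⟨fun x => h0 x, fun x => ?_⟩
    change π x ≤ 1
    rw [← h1]
    exact Finset.single_le_sum (f := π) (fun y _ => h0 y) (mem_univ x)
  -- the reduction to `K`
  have red : ∀ {Ω : Type} (s : Finset Ω) (w : Ω → ℝ), (∀ ω ∈ s, 0 ≤ w ω) →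
      0 < ∑ ω ∈ s, w ω → ∀ U V : Ω → ℤ,
        η * ∑ ω ∈ s, w ω ≤ CE s w (fun ω => U ω % (p : ℤ)) (fun _ => ()) →
        CE s w (fun ω => V ω % (p : ℤ) ^ l) (fun _ => ())
          ≤ (l * Real.log p - η) * ∑ ω ∈ s, w ω →
        ∃ π ∈ K, CE s w (fun ω => (U ω + V ω) % (p : ℤ) ^ l) (fun _ => ())
          + 2 * CE s w (fun ω => U ω % (p : ℤ) ^ l) (fun _ => ())
          + CE s w (fun ω => V ω % (p : ℤ) ^ l) (fun _ => ())
          - 2 * CE s w (fun ω => (U ω % (p : ℤ) ^ l, V ω % (p : ℤ) ^ l)) (fun _ => ())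
          = (∑ ω ∈ s, w ω) * FF π := by
    intro Ω s w hw hW U V hU hV
    set T : Ω → ZMod (p ^ l) × ZMod (p ^ l) := fun ω => ((U ω : ZMod (p ^ l)), (V ω : ZMod (p ^ l)))
      with hT
    have hN : ((p ^ l : ℕ) : ℤ) = (p : ℤ) ^ l := by push_cast; rfl
    have cU : CE s w (fun ω => U ω % (p : ℤ)) (fun _ => ()) =
        (∑ ω ∈ s, w ω) * HH (push (fun x => φ x.1) (law s w T)) := by
      apply CE_push hw hW
      intro ω ω'
      simp only [hT, hφdef, map_intCast]
      rw [ZMod.intCast_eq_intCast_iff']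
    have cV : CE s w (fun ω => V ω % (p : ℤ) ^ l) (fun _ => ()) =
        (∑ ω ∈ s, w ω) * HH (push Prod.snd (law s w T)) := by
      apply CE_push hw hW
      intro ω ω'
      simp only [hT]
      rw [ZMod.intCast_eq_intCast_iff', hN]
    have cUl : CE s w (fun ω => U ω % (p : ℤ) ^ l) (fun _ => ()) =
        (∑ ω ∈ s, w ω) * HH (push Prod.fst (law s w T)) := by
      apply CE_push hw hW
      intro ω ω'
      simp only [hT]
      rw [ZMod.intCast_eq_intCast_iff', hN]
    have cS : CE s w (fun ω => (U ω + V ω) % (p : ℤ) ^ l) (fun _ => ()) =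
        (∑ ω ∈ s, w ω) * HH (push (fun x => x.1 + x.2) (law s w T)) := by
      apply CE_push hw hW
      intro ω ω'
      simp only [hT]
      rw [← Int.cast_add, ← Int.cast_add, ZMod.intCast_eq_intCast_iff', hN]
    have cP : CE s w (fun ω => (U ω % (p : ℤ) ^ l, V ω % (p : ℤ) ^ l)) (fun _ => ()) =
        (∑ ω ∈ s, w ω) * HH (law s w T) := by
      have e : push (fun x : ZMod (p ^ l) × ZMod (p ^ l) => x) (law s w T) = law s w T := by
        funext c
        unfold push
        rw [Finset.filter_eq' univ c]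
        simp
      rw [CE_push hw hW T (fun x => x), e]
      intro ω ω'
      simp only [hT, Prod.mk.injEq]
      rw [ZMod.intCast_eq_intCast_iff', ZMod.intCast_eq_intCast_iff', hN]
    refine ⟨law s w T, ⟨fun x => law_nonneg hw T x, law_sum hW T, ?_, ?_⟩, ?_⟩
    · rw [cU, mul_comm η] at hU
      exact le_of_mul_le_mul_left hU hW
    · rw [cV, mul_comm (l * Real.log p - η)] at hV
      exact le_of_mul_le_mul_left hV hW
    · rw [cS, cUl, cV, cP]; unfold FF; ring
  -- a positive lower bound on `K`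
  obtain ⟨θ, hθ, hmin⟩ : ∃ θ : ℝ, 0 < θ ∧ ∀ π ∈ K, θ ≤ FF π := by
    rcases K.eq_empty_or_nonempty with h | h
    · exact ⟨1, one_pos, fun π hπ => by rw [h] at hπ; exact absurd hπ (Set.notMem_empty π)⟩
    · obtain ⟨π0, hπ0, hmin⟩ := hKc.exists_isMinOn h continuous_FF.continuousOn
      refine ⟨FF π0, ?_, fun π hπ => hmin hπ⟩
      exact FF_pos hp hl hη φ hφ hφs π0 hπ0.1 hπ0.2.1 hπ0.2.2.1 hπ0.2.2.2
  refine ⟨θ, hθ, ?_⟩
  intro Ω s w hw U V hU hV
  rcases (Finset.sum_nonneg hw).eq_or_lt with hW | hW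
  · have hz : ∀ ω ∈ s, w ω = 0 := (Finset.sum_eq_zero_iff_of_nonneg hw).1 hW.symm
    have hce : ∀ {α : Type} (f : Ω → α), CE s w f (fun _ => ()) = 0 := by
      intro α f
      unfold CE
      exact Finset.sum_eq_zero fun ω hω => by rw [hz ω hω]; ring
    rw [hce, hce, hce, hce, ← hW]
    simp
  · obtain ⟨π, hπ, he⟩ := red s w hw hW U V hU hV
    rw [he, mul_comm θ]
    exact mul_le_mul_of_nonneg_left (hmin π hπ) hW.le

end Pool.Agent.H377R2.NK
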